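import Pool.Agent.Lib.MP_640417_ag.Four.Transport

/-!
# Derivations of the exterior algebra of `Vⁿ` attached to endomorphisms of `V`
-/

namespace Pool.Agent.Lib.MP_640417_ag.Four

open Module Pool.Agent.Lib.MP_640417_ag.Frob

section der

variable {F : Type} [Field F] {W W' : Type} [AddCommGroup W] [Module F W] [AddCommGroup W']
  [Module F W']

/-- `D` is the derivation which extends `s`. -/
def IsDer (D : Module.End F (ExteriorAlgebra F W)) (s : Module.End F W) : Prop :=
  (∀ r : F, D (algebraMap F (ExteriorAlgebra F W) r) = 0) ∧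
    ∀ (w : W) (x : ExteriorAlgebra F W),
      D (ExteriorAlgebra.ι F w * x) = ExteriorAlgebra.ι F (s w) * x + ExteriorAlgebra.ι F w * D x

lemma IsDer.map {D : Module.End F (ExteriorAlgebra F W)} {s : Module.End F W}
    {D' : Module.End F (ExteriorAlgebra F W')} {s' : Module.End F W'} (h : IsDer D s)
    (h' : IsDer D' s') (g : W →ₗ[F] W') (hg : ∀ w, g (s w) = s' (g w))
    (x : ExteriorAlgebra F W) : ExteriorAlgebra.map g (D x) = D' (ExteriorAlgebra.map g x) := by
  induction x using CliffordAlgebra.left_induction with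
  | algebraMap r =>
    have h1 := h.1 r
    have h2 := h'.1 r
    rw [AlgHom.commutes]
    erw [h1, h2]
    exact map_zero _
  | add x y hx hy => rw [map_add, map_add, hx, hy, map_add, map_add]
  | ι_mul x m hx =>
    have h1 := h.2 m x
    have h2 := h'.2 (g m) (ExteriorAlgebra.map g x)
    change ExteriorAlgebra.map g (D (ExteriorAlgebra.ι F m * x)) =
      D' (ExteriorAlgebra.map g (ExteriorAlgebra.ι F m * x))
    rw [h1, map_add, map_mul, map_mul, map_mul, ExteriorAlgebra.map_apply_ι,
      ExteriorAlgebra.map_apply_ι, h2, hx, hg]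

lemma IsDer.unique {D D' : Module.End F (ExteriorAlgebra F W)} {s : Module.End F W}
    (h : IsDer D s) (h' : IsDer D' s) : D = D' := by
  refine LinearMap.ext fun x => ?_
  have h1 := h.map h' LinearMap.id (fun w => rfl) x
  rw [ExteriorAlgebra.map_id] at h1
  exact h1

lemma IsDer.add {D D' : Module.End F (ExteriorAlgebra F W)} {s s' : Module.End F W}
    (h : IsDer D s) (h' : IsDer D' s') : IsDer (D + D') (s + s') := by
  refine ⟨fun r => ?_, fun w x => ?_⟩
  · rw [LinearMap.add_apply, h.1, h'.1, add_zero]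
  · rw [LinearMap.add_apply, h.2, h'.2, LinearMap.add_apply, LinearMap.add_apply, map_add, add_mul,
      mul_add]
    abel

lemma IsDer.smul {D : Module.End F (ExteriorAlgebra F W)} {s : Module.End F W}
    (h : IsDer D s) (r : F) : IsDer (r • D) (r • s) := by
  refine ⟨fun r => ?_, fun w x => ?_⟩
  · rw [LinearMap.smul_apply, h.1, smul_zero]
  · rw [LinearMap.smul_apply, h.2, LinearMap.smul_apply, LinearMap.smul_apply, map_smul,
      smul_add, smul_mul_assoc, mul_smul_comm]

lemma IsDer.comm {D D' : Module.End F (ExteriorAlgebra F W)} {s s' : Module.End F W}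
    (h : IsDer D s) (h' : IsDer D' s') : IsDer (D * D' - D' * D) (s * s' - s' * s) := by
  refine ⟨fun r => ?_, fun w x => ?_⟩
  · rw [LinearMap.sub_apply, Module.End.mul_apply, Module.End.mul_apply, h.1, h'.1, map_zero,
      map_zero, sub_zero]
  · rw [LinearMap.sub_apply, Module.End.mul_apply, Module.End.mul_apply, h.2, h'.2, map_add, map_add,
      h.2, h.2, h'.2, h'.2, LinearMap.sub_apply, LinearMap.sub_apply, Module.End.mul_apply,
      Module.End.mul_apply, Module.End.mul_apply, Module.End.mul_apply, map_sub, sub_mul, mul_sub]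
    abel

end der

variable {F : Type} [Field F] {V : Type} [AddCommGroup V] [Module F V]
  {I : Type} [Fintype I] [DecidableEq I] {n : ℕ}

lemma isDer_DD (n : ℕ) (A : Matrix I I F) : IsDer (DD n A) (Tn n A) :=
  ⟨fun r => DD_algebraMap A r, fun w x => DD_ι_mul A w x⟩

/-- The inverse of the coordinates. -/
noncomputable def coi (e : Basis I F V) (n : ℕ) : (Fin n × I → F) →ₗ[F] (Fin n → V) :=
  LinearMap.pi fun a => e.equivFun.symm.toLinearMap ∘ₗ
    (LinearMap.pi fun v => LinearMap.proj (a, v))

omit [DecidableEq I] in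
lemma coi_co (e : Basis I F V) (n : ℕ) (y : Fin n → V) : coi e n (co e n y) = y := by
  funext a
  have h1 : coi e n (co e n y) a = e.equivFun.symm fun v => co e n y (a, v) := rfl
  rw [h1]
  have h2 : (fun v => co e n y (a, v)) = e.equivFun (y a) := rfl
  rw [h2, LinearEquiv.symm_apply_apply]

omit [DecidableEq I] in
lemma map_coi_co (e : Basis I F V) (n : ℕ) (x : ExteriorAlgebra F (Fin n → V)) :
    ExteriorAlgebra.map (coi e n) (ExteriorAlgebra.map (co e n) x) = x := by
  have e1 : (ExteriorAlgebra.map (coi e n)).comp (ExteriorAlgebra.map (co e n)) =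
      AlgHom.id F _ := by
    have h1 : coi e n ∘ₗ co e n = LinearMap.id := LinearMap.ext fun y => coi_co e n y
    rw [ExteriorAlgebra.map_comp_map, h1, ExteriorAlgebra.map_id]
  exact congrArg (fun a => a x) e1

/-- The derivation attached to an endomorphism and a basis. -/
noncomputable def De (e : Basis I F V) (n : ℕ) (M : Module.End F V) :
    Module.End F (ExteriorAlgebra F (Fin n → V)) :=
  (ExteriorAlgebra.map (coi e n)).toLinearMap ∘ₗ DD n (LinearMap.toMatrix e e M) ∘ₗ
    (ExteriorAlgebra.map (co e n)).toLinearMap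

lemma isDer_De (e : Basis I F V) (n : ℕ) (M : Module.End F V) :
    IsDer (De e n M) (M.compLeft (Fin n)) := by
  refine ⟨fun r => ?_, fun w x => ?_⟩
  · simp only [De, LinearMap.comp_apply, AlgHom.toLinearMap_apply]
    have h1 := (isDer_DD n (LinearMap.toMatrix e e M)).1 r
    rw [AlgHom.commutes, h1, map_zero]
  · simp only [De, LinearMap.comp_apply, AlgHom.toLinearMap_apply]
    have h1 := (isDer_DD n (LinearMap.toMatrix e e M)).2 (co e n w)
      (ExteriorAlgebra.map (co e n) x)
    have h2 : Tn n (LinearMap.toMatrix e e M) (co e n w) = co e n (M.compLeft (Fin n) w) :=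
      (LinearMap.congr_fun (co_compLeft e n M) w).symm
    rw [map_mul, ExteriorAlgebra.map_apply_ι, h1, h2, map_add, map_mul, map_mul,
      ExteriorAlgebra.map_apply_ι, ExteriorAlgebra.map_apply_ι, coi_co, coi_co, map_coi_co]

/-- The derivation of the exterior algebra of `Vⁿ` attached to an endomorphism of `V`. -/
noncomputable def Dv [FiniteDimensional F V] (n : ℕ) (M : Module.End F V) :
    Module.End F (ExteriorAlgebra F (Fin n → V)) :=
  De (Module.finBasis F V) n M

variable [FiniteDimensional F V]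

lemma isDer_Dv (n : ℕ) (M : Module.End F V) : IsDer (Dv n M) (M.compLeft (Fin n)) :=
  isDer_De _ n M

lemma Dv_add (M M' : Module.End F V) : Dv n (M + M') = Dv n M + Dv n M' :=
  (isDer_Dv n (M + M')).unique ((isDer_Dv n M).add (isDer_Dv n M'))

lemma Dv_smul (r : F) (M : Module.End F V) : Dv n (r • M) = r • Dv n M :=
  (isDer_Dv n (r • M)).unique ((isDer_Dv n M).smul r)

lemma Dv_comm (M M' : Module.End F V) :
    Dv n (M * M' - M' * M) = Dv n M * Dv n M' - Dv n M' * Dv n M :=
  (isDer_Dv n (M * M' - M' * M)).unique ((isDer_Dv n M).comm (isDer_Dv n M'))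

lemma Dv_zero : Dv n (0 : Module.End F V) = 0 := by
  have h1 : (0 : Module.End F V) = (0 : F) • 0 := by rw [zero_smul]
  rw [h1, Dv_smul, zero_smul]

lemma Dv_sum {ι : Type} (τ : Finset ι) (M : ι → Module.End F V) :
    Dv n (∑ t ∈ τ, M t) = ∑ t ∈ τ, Dv n (M t) := by
  classical
  induction τ using Finset.induction_on with
  | empty => rw [Finset.sum_empty, Finset.sum_empty, Dv_zero]
  | insert a s ha ih => rw [Finset.sum_insert ha, Finset.sum_insert ha, Dv_add, ih]

/-- The derivation in coordinates. -/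
lemma map_co_Dv (e : Basis I F V) (M : Module.End F V) (x : ExteriorAlgebra F (Fin n → V)) :
    ExteriorAlgebra.map (co e n) (Dv n M x) =
      DD n (LinearMap.toMatrix e e M) (ExteriorAlgebra.map (co e n) x) :=
  (isDer_Dv n M).map (isDer_DD n _) (co e n)
    (fun w => LinearMap.congr_fun (co_compLeft e n M) w) x

/-- The derivation vanishes if it does in coordinates. -/
lemma Dv_eq_zero_iff (e : Basis I F V) (M : Module.End F V) (x : ExteriorAlgebra F (Fin n → V)) :
    Dv n M x = 0 ↔ DD n (LinearMap.toMatrix e e M) (ExteriorAlgebra.map (co e n) x) = 0 := by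
  rw [← map_co_Dv]
  constructor
  · intro h
    rw [h, map_zero]
  · intro h
    rw [← map_coi_co e n (Dv n M x), h, map_zero]

/-- Conjugation. -/
lemma map_Dv (g M M' : Module.End F V) (h : g * M = M' * g)
    (x : ExteriorAlgebra F (Fin n → V)) :
    ExteriorAlgebra.map (g.compLeft (Fin n)) (Dv n M x) =
      Dv n M' (ExteriorAlgebra.map (g.compLeft (Fin n)) x) := by
  refine (isDer_Dv n M).map (isDer_Dv n M') (g.compLeft (Fin n)) (fun w => ?_) x
  funext a
  exact LinearMap.congr_fun h (w a)

variable {Γ : Type} [Group Γ] [TopologicalSpace Γ]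

/-- `M` kills all Tate classes. -/
def KillsV (n : ℕ) (T : Γ →* Module.End F V) (χ : Γ →* Fˣ) (M : Module.End F V) : Prop :=
  ∀ (i : ℕ) (x : ExteriorAlgebra F (Fin n → V)),
    TateClass (fun γ => (T γ).compLeft (Fin n)) χ i x → Dv n M x = 0

lemma KillsV.add {T : Γ →* Module.End F V} {χ : Γ →* Fˣ} {M M' : Module.End F V}
    (h : KillsV n T χ M) (h' : KillsV n T χ M') : KillsV n T χ (M + M') := fun i x hx => by
  rw [Dv_add, LinearMap.add_apply, h i x hx, h' i x hx, add_zero]

lemma KillsV.smul {T : Γ →* Module.End F V} {χ : Γ →* Fˣ} {M : Module.End F V}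
    (h : KillsV n T χ M) (r : F) : KillsV n T χ (r • M) := fun i x hx => by
  rw [Dv_smul, LinearMap.smul_apply, h i x hx, smul_zero]

lemma KillsV.comm {T : Γ →* Module.End F V} {χ : Γ →* Fˣ} {M M' : Module.End F V}
    (h : KillsV n T χ M) (h' : KillsV n T χ M') : KillsV n T χ (M * M' - M' * M) :=
  fun i x hx => by
    rw [Dv_comm, LinearMap.sub_apply, Module.End.mul_apply, Module.End.mul_apply, h i x hx,
      h' i x hx, map_zero, map_zero, sub_zero]

lemma KillsV.zero {T : Γ →* Module.End F V} {χ : Γ →* Fˣ} : KillsV n T χ 0 := fun i x _ => by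
  rw [Dv_zero, LinearMap.zero_apply]

omit [FiniteDimensional F V] in
/-- Translates of Tate classes are Tate classes. -/
lemma tate_translate [IsTopologicalGroup Γ] (T : Γ →* Module.End F V) (χ : Γ →* Fˣ) (i : ℕ)
    (x : ExteriorAlgebra F (Fin n → V))
    (hx : TateClass (fun γ => (T γ).compLeft (Fin n)) χ i x) (γ : Γ) :
    TateClass (fun γ => (T γ).compLeft (Fin n)) χ i
      (ExteriorAlgebra.map ((T γ).compLeft (Fin n)) x) := by
  obtain ⟨h1, U, hU⟩ := hx
  refine ⟨?_, ?_⟩
  · have h : Submodule.map (ExteriorAlgebra.map ((T γ).compLeft (Fin n))).toLinearMap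
        (⋀[F]^(2 * i) (Fin n → V)) ≤ ⋀[F]^(2 * i) (Fin n → V) := by
      rw [Submodule.map_pow]
      have h1 : Submodule.map (ExteriorAlgebra.map ((T γ).compLeft (Fin n))).toLinearMap
          (LinearMap.range (ExteriorAlgebra.ι F : (Fin n → V) →ₗ[F] _)) ≤ LinearMap.range
          (ExteriorAlgebra.ι F : (Fin n → V) →ₗ[F] _) := by
        rintro _ ⟨_, ⟨v, rfl⟩, rfl⟩
        refine ⟨(T γ).compLeft (Fin n) v, ?_⟩
        rw [AlgHom.toLinearMap_apply, ExteriorAlgebra.map_apply_ι]
      exact pow_le_pow_left' h1 _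
    exact h ⟨x, h1, rfl⟩
  · have hcont : Continuous (MulAut.conj γ⁻¹).toMonoidHom := by
      have : Continuous fun δ : Γ => γ⁻¹ * δ * (γ⁻¹)⁻¹ :=
        (continuous_const.mul continuous_id).mul continuous_const
      exact this
    refine ⟨OpenSubgroup.comap (MulAut.conj γ⁻¹).toMonoidHom hcont U, fun δ hδ => ?_⟩
    have h2 : γ⁻¹ * δ * γ ∈ U := by
      have h1 : γ⁻¹ * δ * (γ⁻¹)⁻¹ ∈ U := OpenSubgroup.mem_comap.mp hδ
      rwa [inv_inv] at h1
    have h3 := congrArg (ExteriorAlgebra.map ((T γ).compLeft (Fin n))) (hU _ h2)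
    have h4 : χ (γ⁻¹ * δ * γ) = χ δ := by
      rw [map_mul, map_mul, map_inv, mul_comm, ← mul_assoc, mul_inv_cancel, one_mul]
    rw [map_smul, h4] at h3
    have h5 : ExteriorAlgebra.map ((T γ).compLeft (Fin n))
        (ExteriorAlgebra.map ((T (γ⁻¹ * δ * γ)).compLeft (Fin n)) x) =
        ExteriorAlgebra.map ((T δ).compLeft (Fin n))
          (ExteriorAlgebra.map ((T γ).compLeft (Fin n)) x) := by
      have e1 : (ExteriorAlgebra.map ((T γ).compLeft (Fin n))).comp
          (ExteriorAlgebra.map ((T (γ⁻¹ * δ * γ)).compLeft (Fin n))) =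
          (ExteriorAlgebra.map ((T δ).compLeft (Fin n))).comp
            (ExteriorAlgebra.map ((T γ).compLeft (Fin n))) := by
        rw [ExteriorAlgebra.map_comp_map, ExteriorAlgebra.map_comp_map]
        congr 1
        have e2 : T γ * T (γ⁻¹ * δ * γ) = T δ * T γ := by
          rw [← map_mul, ← map_mul]
          congr 1
          group
        refine LinearMap.ext fun y => funext fun a => ?_
        exact LinearMap.congr_fun e2 (y a)
      exact congrArg (fun a => a x) e1
    rw [h5] at h3
    exact h3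

/-- Conjugation preserves the endomorphisms which kill all Tate classes. -/
lemma KillsV.conj [IsTopologicalGroup Γ] {T : Γ →* Module.End F V} {χ : Γ →* Fˣ}
    {M : Module.End F V} (h : KillsV n T χ M) (γ : Γ) : KillsV n T χ (T γ * M * T γ⁻¹) := by
  intro i x hx
  have hTT : T γ * T γ⁻¹ = 1 := by rw [← map_mul, mul_inv_cancel, map_one]
  have hTT' : T γ⁻¹ * T γ = 1 := by rw [← map_mul, inv_mul_cancel, map_one]
  have h1 : x = ExteriorAlgebra.map ((T γ).compLeft (Fin n))
      (ExteriorAlgebra.map ((T γ⁻¹).compLeft (Fin n)) x) := by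
    have e1 : (ExteriorAlgebra.map ((T γ).compLeft (Fin n))).comp
        (ExteriorAlgebra.map ((T γ⁻¹).compLeft (Fin n))) = AlgHom.id F _ := by
      rw [ExteriorAlgebra.map_comp_map]
      have e2 : (T γ).compLeft (Fin n) ∘ₗ (T γ⁻¹).compLeft (Fin n) = LinearMap.id := by
        refine LinearMap.ext fun y => funext fun a => ?_
        exact LinearMap.congr_fun hTT (y a)
      rw [e2, ExteriorAlgebra.map_id]
    exact (congrArg (fun a => a x) e1).symm
  rw [h1, ← map_Dv (T γ) M (T γ * M * T γ⁻¹) (by rw [mul_assoc, hTT', mul_one]),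
    h i _ (tate_translate T χ i x hx γ⁻¹), map_zero]

end Pool.Agent.Lib.MP_640417_ag.Four
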