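import Mathlib

/-!
# Endomorphisms of an extension of scalars
-/

namespace Pool.Agent.Lib.MP_640417_ag.Four

open Module TensorProduct

variable {F K : Type} [Field F] [Field K] [Algebra F K] {V : Type} [AddCommGroup V] [Module F V]

/-- The coordinate of a tensor given by a functional. -/
noncomputable def pr (V : Type) [AddCommGroup V] [Module F V] (ℓ : K →ₗ[F] F) : K ⊗[F] V →ₗ[F] V :=
  (TensorProduct.lid F V).toLinearMap ∘ₗ (LinearMap.rTensor V ℓ)

lemma pr_tmul (ℓ : K →ₗ[F] F) (a : K) (y : V) : pr V ℓ (a ⊗ₜ[F] y) = ℓ a • y := by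
  simp [pr]

lemma pr_smul_baseChange (ℓ : K →ₗ[F] F) (s : Module.End F V) (z : K ⊗[F] V) :
    pr V ℓ (s.baseChange K z) = s (pr V ℓ z) := by
  induction z using TensorProduct.induction_on with
  | zero => simp
  | add x y hx hy => rw [map_add, map_add, hx, hy, map_add, map_add]
  | tmul a v => rw [LinearMap.baseChange_tmul, pr_tmul, pr_tmul, map_smul]

/-- The coordinate of an endomorphism given by a functional. -/
noncomputable def cp (ℓ : K →ₗ[F] F) (S : Module.End K (K ⊗[F] V)) : Module.End F V :=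
  pr V ℓ ∘ₗ (S.restrictScalars F) ∘ₗ (TensorProduct.mk F K V 1)

lemma cp_apply (ℓ : K →ₗ[F] F) (S : Module.End K (K ⊗[F] V)) (v : V) :
    cp ℓ S v = pr V ℓ (S ((1 : K) ⊗ₜ[F] v)) := rfl

lemma cp_zero (ℓ : K →ₗ[F] F) : cp ℓ (0 : Module.End K (K ⊗[F] V)) = 0 := by
  ext v
  simp [cp_apply]

lemma cp_add (ℓ : K →ₗ[F] F) (S S' : Module.End K (K ⊗[F] V)) :
    cp ℓ (S + S') = cp ℓ S + cp ℓ S' := by
  ext v
  simp [cp_apply]

lemma cp_smul_baseChange (ℓ : K →ₗ[F] F) (k : K) (s : Module.End F V) :
    cp ℓ (k • s.baseChange K) = ℓ k • s := by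
  ext v
  rw [cp_apply, LinearMap.smul_apply, LinearMap.baseChange_tmul, TensorProduct.smul_tmul',
    smul_eq_mul, mul_one, pr_tmul]
  rfl

lemma cp_mul_baseChange (ℓ : K →ₗ[F] F) (S : Module.End K (K ⊗[F] V)) (s : Module.End F V) :
    cp ℓ (S * s.baseChange K) = cp ℓ S * s := by
  ext v
  rw [cp_apply, Module.End.mul_apply, LinearMap.baseChange_tmul]
  rfl

lemma cp_baseChange_mul (ℓ : K →ₗ[F] F) (S : Module.End K (K ⊗[F] V)) (s : Module.End F V) :
    cp ℓ (s.baseChange K * S) = s * cp ℓ S := by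
  ext v
  rw [cp_apply, Module.End.mul_apply, pr_smul_baseChange]
  rfl

/-- A tensor is the sum of its coordinates. -/
lemma sum_pr {ι : Type} [DecidableEq ι] (b : Basis ι F K) (z : K ⊗[F] V) :
    ∃ τ : Finset ι, (∀ t, t ∉ τ → pr V (b.coord t) z = 0) ∧
      ∀ τ' : Finset ι, τ ⊆ τ' → z = ∑ t ∈ τ', b t ⊗ₜ[F] (pr V (b.coord t) z) := by
  classical
  induction z using TensorProduct.induction_on with
  | zero => exact ⟨∅, fun t _ => by simp, fun τ' _ => by simp⟩
  | add x y hx hy =>
    obtain ⟨τ₁, h1, h1'⟩ := hx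
    obtain ⟨τ₂, h2, h2'⟩ := hy
    refine ⟨τ₁ ∪ τ₂, fun t ht => ?_, fun τ' hτ' => ?_⟩
    · rw [Finset.mem_union, not_or] at ht
      rw [map_add, h1 t ht.1, h2 t ht.2, add_zero]
    · have e1 := h1' τ' (Finset.union_subset_left hτ')
      have e2 := h2' τ' (Finset.union_subset_right hτ')
      calc x + y = (∑ t ∈ τ', b t ⊗ₜ[F] (pr V (b.coord t) x)) +
            ∑ t ∈ τ', b t ⊗ₜ[F] (pr V (b.coord t) y) := by rw [← e1, ← e2]
        _ = _ := by
          rw [← Finset.sum_add_distrib]
          refine Finset.sum_congr rfl fun t _ => ?_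
          rw [← TensorProduct.tmul_add, map_add]
  | tmul a v =>
    refine ⟨(b.repr a).support, fun t ht => ?_, fun τ' hτ' => ?_⟩
    · rw [pr_tmul, Basis.coord_apply, Finsupp.notMem_support_iff.mp ht, zero_smul]
    · have h1 : a = ∑ t ∈ τ', b.repr a t • b t := by
        conv_lhs => rw [← b.linearCombination_repr a]
        rw [Finsupp.linearCombination_apply, Finsupp.sum]
        apply Finset.sum_subset hτ'
        intro t _ ht
        rw [Finsupp.notMem_support_iff.mp ht, zero_smul]
      conv_lhs => rw [h1, TensorProduct.sum_tmul]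
      refine Finset.sum_congr rfl fun t _ => ?_
      rw [pr_tmul, Basis.coord_apply, TensorProduct.smul_tmul]

/-- An endomorphism is a finite sum of its coordinates. -/
lemma sum_cp [FiniteDimensional F V] {ι : Type} [DecidableEq ι] (b : Basis ι F K)
    (S : Module.End K (K ⊗[F] V)) :
    ∃ τ : Finset ι, S = ∑ t ∈ τ, b t • (cp (b.coord t) S).baseChange K := by
  classical
  let e := Module.finBasis F V
  choose τ h1 h2 using fun j => sum_pr (V := V) b (S ((1 : K) ⊗ₜ[F] e j))
  refine ⟨Finset.univ.biUnion τ, ?_⟩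
  apply (e.baseChange K).ext
  intro j
  rw [Basis.baseChange_apply, LinearMap.sum_apply]
  conv_lhs => rw [h2 j (Finset.univ.biUnion τ) (Finset.subset_biUnion_of_mem τ (Finset.mem_univ j))]
  refine Finset.sum_congr rfl fun t _ => ?_
  rw [LinearMap.smul_apply, LinearMap.baseChange_tmul, TensorProduct.smul_tmul', smul_eq_mul,
    mul_one, cp_apply]

lemma cp_sum (ℓ : K →ₗ[F] F) {ι : Type} (τ : Finset ι) (S : ι → Module.End K (K ⊗[F] V)) :
    cp ℓ (∑ t ∈ τ, S t) = ∑ t ∈ τ, cp ℓ (S t) := by
  classical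
  induction τ using Finset.induction_on with
  | empty => rw [Finset.sum_empty, Finset.sum_empty, cp_zero]
  | insert a τ ha ih => rw [Finset.sum_insert ha, Finset.sum_insert ha, cp_add, ih]

/-- The trace of a coordinate. -/
lemma trace_cp [FiniteDimensional F V] (ℓ : K →ₗ[F] F) (S : Module.End K (K ⊗[F] V)) :
    LinearMap.trace F V (cp ℓ S) = ℓ (LinearMap.trace K (K ⊗[F] V) S) := by
  classical
  let b := Module.Free.chooseBasis F K
  obtain ⟨τ, hτ⟩ := sum_cp b S
  rw [hτ, cp_sum, map_sum, map_sum, map_sum]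
  refine Finset.sum_congr rfl fun t _ => ?_
  rw [cp_smul_baseChange, map_smul, map_smul, LinearMap.trace_baseChange, smul_eq_mul, smul_eq_mul,
    mul_comm (b t), ← Algebra.smul_def, map_smul, smul_eq_mul, mul_comm]

/-- The form and the coordinates. -/
lemma form_cp (form : LinearMap.BilinForm F V) (ℓ : K →ₗ[F] F) (S : Module.End K (K ⊗[F] V))
    (u v : V) : form (cp ℓ S u) v = ℓ (form.baseChange K (S ((1 : K) ⊗ₜ[F] u)) ((1 : K) ⊗ₜ[F] v)) := by
  rw [cp_apply]
  generalize S ((1 : K) ⊗ₜ[F] u) = z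
  induction z using TensorProduct.induction_on with
  | zero => simp
  | add x y hx hy =>
    simp only [map_add, LinearMap.add_apply, hx, hy]
  | tmul a y =>
    rw [pr_tmul, map_smul, LinearMap.smul_apply, LinearMap.BilinForm.baseChange_tmul, mul_one,
      smul_eq_mul, map_smul, smul_eq_mul, mul_comm]

/-- The coordinates of the elements of the span of a family. -/
lemma cp_mem_span {Γ : Type} (T : Γ → Module.End F V) (ℓ : K →ₗ[F] F)
    (S : Module.End K (K ⊗[F] V))
    (hS : S ∈ Submodule.span K (Set.range fun γ => (T γ).baseChange K)) :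
    cp ℓ S ∈ Submodule.span F (Set.range T) := by
  have key : ∀ k : K, cp ℓ (k • S) ∈ Submodule.span F (Set.range T) := by
    induction hS using Submodule.span_induction with
    | zero =>
      intro k
      rw [smul_zero, cp_zero]
      exact Submodule.zero_mem _
    | add x y _ _ hx hy =>
      intro k
      rw [smul_add, cp_add]
      exact Submodule.add_mem _ (hx k) (hy k)
    | smul a x _ hx =>
      intro k
      rw [smul_smul]
      exact hx _
    | mem x hx =>
      intro k
      obtain ⟨γ, rfl⟩ := hx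
      rw [cp_smul_baseChange]
      exact Submodule.smul_mem _ _ (Submodule.subset_span ⟨γ, rfl⟩)
  have := key 1
  rwa [one_smul] at this

/-- The trace form on the span stays nondegenerate after an extension of scalars. -/
theorem trace_nondeg_baseChange [FiniteDimensional F V] {Γ : Type} (T : Γ → Module.End F V)
    (h : ∀ s ∈ Submodule.span F (Set.range T), (∀ γ, LinearMap.trace F V (s * T γ) = 0) → s = 0)
    (S : Module.End K (K ⊗[F] V))
    (hS : S ∈ Submodule.span K (Set.range fun γ => (T γ).baseChange K))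
    (htr : ∀ γ, LinearMap.trace K (K ⊗[F] V) (S * (T γ).baseChange K) = 0) : S = 0 := by
  classical
  let b := Module.Free.chooseBasis F K
  obtain ⟨τ, hτ⟩ := sum_cp b S
  rw [hτ]
  refine Finset.sum_eq_zero fun t _ => ?_
  have h1 : cp (b.coord t) S = 0 := by
    apply h _ (cp_mem_span T _ S hS)
    intro γ
    rw [← cp_mul_baseChange, trace_cp, htr, map_zero]
  rw [h1, LinearMap.baseChange_zero, smul_zero]

end Pool.Agent.Lib.MP_640417_ag.Four
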