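import Pool.Agent.Lib.MP_640417_ag.Four.Spec2

/-!
# Symplectic bases adapted to an orthogonal decomposition (`SDarboux`)

Induction on the dimension of a nondegenerate submodule `N` which is stable under the projections.
-/

namespace Pool.Agent.Lib.MP_640417_ag.Four

open Module

section

variable {K V : Type} [Field K] [AddCommGroup V] [Module K V]

theorem Darboux_anti {form : LinearMap.BilinForm K V} (h : ∀ x, form x x = 0) (x y : V) :
    form y x = -form x y := by
  have h1 := h (x + y)
  simp only [map_add, LinearMap.add_apply, h, zero_add, add_zero] at h1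
  linear_combination h1

/-- The orthogonal complement of `x`, `y` in `N`. -/
def DarbouxN (form : LinearMap.BilinForm K V) (N : Submodule K V) (x y : V) : Submodule K V :=
  N ⊓ (LinearMap.ker (form x) ⊓ LinearMap.ker (form y))

theorem DarbouxN_mem {form : LinearMap.BilinForm K V} {N : Submodule K V} {x y v : V} :
    v ∈ DarbouxN form N x y ↔ v ∈ N ∧ form x v = 0 ∧ form y v = 0 := by
  unfold DarbouxN
  rw [Submodule.mem_inf, Submodule.mem_inf, LinearMap.mem_ker, LinearMap.mem_ker]

/-- The decomposition of the vectors of `N`. -/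
theorem Darboux_dec {form : LinearMap.BilinForm K V} (h : ∀ x, form x x = 0) {N : Submodule K V}
    {x y v : V} (hx : x ∈ N) (hy : y ∈ N) (hxy : form x y = 1) (hv : v ∈ N) :
    v - form v y • x + form v x • y ∈ DarbouxN form N x y := by
  have hyx : form y x = -1 := by rw [Darboux_anti h x y, hxy]
  rw [DarbouxN_mem]
  refine ⟨N.add_mem (N.sub_mem hv (N.smul_mem _ hx)) (N.smul_mem _ hy), ?_, ?_⟩
  · rw [map_add, map_sub, map_smul, map_smul, h x, hxy, Darboux_anti h x v, smul_zero, smul_eq_mul]
    ring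
  · rw [map_add, map_sub, map_smul, map_smul, h y, hyx, Darboux_anti h y v, smul_zero, smul_eq_mul]
    ring

theorem Darboux_claim [FiniteDimensional K V] (form : LinearMap.BilinForm K V)
    (halt : ∀ x, form x x = 0) (B : Type) [Fintype B] [DecidableEq B] (st : B → B)
    (p : B → Module.End K V) (hst : ∀ b, st (st b) = b) (hsum : ∑ b, p b = 1)
    (hid : ∀ b, p b * p b = p b) (horth : ∀ b b', b ≠ b' → p b * p b' = 0)
    (hadj : ∀ b x y, form (p b x) y = form x (p (st b) y)) (n : ℕ) :
    ∀ N : Submodule K V, finrank K N = n → (∀ b, ∀ v ∈ N, p b v ∈ N) →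
      (∀ x ∈ N, (∀ y ∈ N, form x y = 0) → x = 0) →
      ∃ (m : ℕ) (e f : Fin m → V) (b : Fin m → B), (∀ i, e i ∈ N) ∧ (∀ i, f i ∈ N) ∧
        (∀ i, p (b i) (e i) = e i) ∧ (∀ i, p (st (b i)) (f i) = f i) ∧
        (∀ i j, form (e i) (f j) = if i = j then 1 else 0) ∧
        (∀ i j, form (e i) (e j) = 0) ∧ (∀ i j, form (f i) (f j) = 0) ∧
        N ≤ Submodule.span K (Set.range e ∪ Set.range f) := by
  induction n using Nat.strong_induction_on with
  | _ n ih =>
  intro N hn hstab hnd
  by_cases hN : N = ⊥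
  · refine ⟨0, Fin.elim0, Fin.elim0, Fin.elim0, fun i => i.elim0, fun i => i.elim0,
      fun i => i.elim0, fun i => i.elim0, fun i => i.elim0, fun i => i.elim0,
      fun i => i.elim0, ?_⟩
    rw [hN]
    exact bot_le
  obtain ⟨z, hz, hz0⟩ := N.ne_bot_iff.1 hN
  -- the vector `x`
  obtain ⟨b, hb⟩ : ∃ b, p b z ≠ 0 := by
    by_contra hcon
    push Not at hcon
    refine hz0 ?_
    have h1 : (∑ b, p b) z = z := by rw [hsum]; rfl
    rw [← h1, LinearMap.sum_apply]
    exact Finset.sum_eq_zero fun b _ => hcon b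
  obtain ⟨x, hx⟩ : ∃ x, x = p b z := ⟨_, rfl⟩
  rw [← hx] at hb
  have hxN : x ∈ N := by
    rw [hx]
    exact hstab b z hz
  have hpx : p b x = x := by
    rw [hx, ← Module.End.mul_apply, hid]
  -- the vector `y`
  obtain ⟨y₀, hy₀, hxy₀⟩ : ∃ y₀ ∈ N, form x y₀ ≠ 0 := by
    by_contra hcon
    push Not at hcon
    exact hb (hnd x hxN hcon)
  obtain ⟨y, hy⟩ : ∃ y, y = p (st b) ((form x y₀)⁻¹ • y₀) := ⟨_, rfl⟩
  have hyN : y ∈ N := by
    rw [hy]
    exact hstab _ _ (N.smul_mem _ hy₀)
  have hxy : form x y = 1 := by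
    rw [hy, ← hadj, hpx, map_smul, smul_eq_mul, inv_mul_cancel₀ hxy₀]
  have hpy : p (st b) y = y := by
    rw [hy, ← Module.End.mul_apply, hid]
  have hyx : form y x = -1 := by rw [Darboux_anti halt x y, hxy]
  -- the projections of `x` and `y`
  have hpx' : ∀ a, p a x = x ∨ p a x = 0 := by
    intro a
    by_cases h : a = b
    · subst h
      exact Or.inl hpx
    · right
      rw [← hpx, ← Module.End.mul_apply, horth a b h]
      rfl
  have hpy' : ∀ a, p a y = y ∨ p a y = 0 := by
    intro a
    by_cases h : a = st b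
    · subst h
      exact Or.inl hpy
    · right
      rw [← hpy, ← Module.End.mul_apply, horth a (st b) h]
      rfl
  have hmove : ∀ a u v, form u (p a v) = form (p (st a) u) v := by
    intro a u v
    rw [hadj, hst]
  -- the complement
  have hstab' : ∀ a, ∀ v ∈ DarbouxN form N x y, p a v ∈ DarbouxN form N x y := by
    intro a v hv
    rw [DarbouxN_mem] at hv ⊢
    obtain ⟨hv1, hv2, hv3⟩ := hv
    refine ⟨hstab a v hv1, ?_, ?_⟩
    · rw [hmove]
      rcases hpx' (st a) with h | h
      · rw [h, hv2]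
      · rw [h, map_zero, LinearMap.zero_apply]
    · rw [hmove]
      rcases hpy' (st a) with h | h
      · rw [h, hv3]
      · rw [h, map_zero, LinearMap.zero_apply]
  have hnd' : ∀ v ∈ DarbouxN form N x y, (∀ w ∈ DarbouxN form N x y, form v w = 0) → v = 0 := by
    intro v hv hvw
    have hv' := DarbouxN_mem.1 hv
    refine hnd v hv'.1 fun w hw => ?_
    have h1 := hvw _ (Darboux_dec halt hxN hyN hxy hw)
    have h2 : form v x = 0 := by rw [Darboux_anti halt x v, hv'.2.1, neg_zero]
    have h3 : form v y = 0 := by rw [Darboux_anti halt y v, hv'.2.2, neg_zero]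
    rw [map_add, map_sub, map_smul, map_smul, h2, h3, smul_zero, smul_zero, sub_zero,
      add_zero] at h1
    exact h1
  have hlt : DarbouxN form N x y < N := by
    refine lt_of_le_of_ne (fun v hv => (DarbouxN_mem.1 hv).1) ?_
    intro he
    have h1 : x ∈ DarbouxN form N x y := by
      rw [he]
      exact hxN
    have h2 := (DarbouxN_mem.1 h1).2.2
    rw [hyx] at h2
    exact one_ne_zero (neg_eq_zero.1 h2)
  obtain ⟨m, e, f, bs, he, hf, hpe, hpf, hef, hee, hff, hspan⟩ :=
    ih _ (hn ▸ Submodule.finrank_lt_finrank_of_lt hlt) (DarbouxN form N x y) rfl hstab' hnd'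
  have heN := fun i => DarbouxN_mem.1 (he i)
  have hfN := fun i => DarbouxN_mem.1 (hf i)
  have hex : ∀ i, form (e i) x = 0 := fun i => by
    rw [Darboux_anti halt x (e i), (heN i).2.1, neg_zero]
  have hey : ∀ i, form (e i) y = 0 := fun i => by
    rw [Darboux_anti halt y (e i), (heN i).2.2, neg_zero]
  have hfy : ∀ i, form (f i) y = 0 := fun i => by
    rw [Darboux_anti halt y (f i), (hfN i).2.2, neg_zero]
  refine ⟨m + 1, Fin.cons x e, Fin.cons y f, Fin.cons b bs, ?_, ?_, ?_, ?_, ?_, ?_, ?_, ?_⟩
  · intro i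
    refine Fin.cases ?_ (fun i => ?_) i
    · rw [Fin.cons_zero]
      exact hxN
    · rw [Fin.cons_succ]
      exact (heN i).1
  · intro i
    refine Fin.cases ?_ (fun i => ?_) i
    · rw [Fin.cons_zero]
      exact hyN
    · rw [Fin.cons_succ]
      exact (hfN i).1
  · intro i
    refine Fin.cases ?_ (fun i => ?_) i
    · rw [Fin.cons_zero, Fin.cons_zero]
      exact hpx
    · rw [Fin.cons_succ, Fin.cons_succ]
      exact hpe i
  · intro i
    refine Fin.cases ?_ (fun i => ?_) i
    · rw [Fin.cons_zero, Fin.cons_zero]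
      exact hpy
    · rw [Fin.cons_succ, Fin.cons_succ]
      exact hpf i
  · intro i j
    refine Fin.cases ?_ (fun i => ?_) i
    · refine Fin.cases ?_ (fun j => ?_) j
      · rw [Fin.cons_zero, Fin.cons_zero, if_pos rfl]
        exact hxy
      · rw [Fin.cons_zero, Fin.cons_succ, if_neg (Fin.succ_ne_zero j).symm]
        exact (hfN j).2.1
    · refine Fin.cases ?_ (fun j => ?_) j
      · rw [Fin.cons_zero, Fin.cons_succ, if_neg (Fin.succ_ne_zero i)]
        exact hey i
      · rw [Fin.cons_succ, Fin.cons_succ, hef i j]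
        simp only [Fin.succ_inj]
  · intro i j
    refine Fin.cases ?_ (fun i => ?_) i
    · refine Fin.cases ?_ (fun j => ?_) j
      · rw [Fin.cons_zero]
        exact halt x
      · rw [Fin.cons_zero, Fin.cons_succ]
        exact (heN j).2.1
    · refine Fin.cases ?_ (fun j => ?_) j
      · rw [Fin.cons_zero, Fin.cons_succ]
        exact hex i
      · rw [Fin.cons_succ, Fin.cons_succ]
        exact hee i j
  · intro i j
    refine Fin.cases ?_ (fun i => ?_) i
    · refine Fin.cases ?_ (fun j => ?_) j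
      · rw [Fin.cons_zero]
        exact halt y
      · rw [Fin.cons_zero, Fin.cons_succ]
        exact (hfN j).2.2
    · refine Fin.cases ?_ (fun j => ?_) j
      · rw [Fin.cons_zero, Fin.cons_succ]
        exact hfy i
      · rw [Fin.cons_succ, Fin.cons_succ]
        exact hff i j
  · intro v hv
    have h1 := hspan (Darboux_dec halt hxN hyN hxy hv)
    have h2 : Submodule.span K (Set.range e ∪ Set.range f) ≤
        Submodule.span K (Set.range (Fin.cons x e : Fin (m + 1) → V) ∪
          Set.range (Fin.cons y f : Fin (m + 1) → V)) := by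
      refine Submodule.span_mono (Set.union_subset_union ?_ ?_)
      · rintro _ ⟨i, rfl⟩
        exact ⟨i.succ, Fin.cons_succ _ _ _⟩
      · rintro _ ⟨i, rfl⟩
        exact ⟨i.succ, Fin.cons_succ _ _ _⟩
    have h3 : x ∈ Submodule.span K (Set.range (Fin.cons x e : Fin (m + 1) → V) ∪
        Set.range (Fin.cons y f : Fin (m + 1) → V)) :=
      Submodule.subset_span (Or.inl ⟨0, Fin.cons_zero _ _⟩)
    have h4 : y ∈ Submodule.span K (Set.range (Fin.cons x e : Fin (m + 1) → V) ∪
        Set.range (Fin.cons y f : Fin (m + 1) → V)) :=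
      Submodule.subset_span (Or.inr ⟨0, Fin.cons_zero _ _⟩)
    have h5 : v = (v - form v y • x + form v x • y) + form v y • x - form v x • y := by
      abel
    rw [h5]
    exact Submodule.sub_mem _ (Submodule.add_mem _ (h2 h1) (Submodule.smul_mem _ _ h3))
      (Submodule.smul_mem _ _ h4)

end

/-- Symplectic bases adapted to an orthogonal decomposition. -/
theorem pDarboux : SDarboux := by
  intro K V _ _ _ _ _ form halt hnd B _ _ st p hst hsum hid horth hadj
  obtain ⟨m, e, f, b, _, _, h1, h2, h3, h4, h5, h6⟩ :=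
    Darboux_claim form halt B st p hst hsum hid horth hadj _ ⊤ rfl
      (fun _ _ _ => Submodule.mem_top) (fun x _ hx => hnd x fun y => hx y Submodule.mem_top)
  exact ⟨m, e, f, b, h1, h2, h3, h4, h5, top_le_iff.1 h6⟩

end Pool.Agent.Lib.MP_640417_ag.Four
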