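import Pool.Agent.Lib.MP_640417_ag.Four.Spec2

/-!
# The submodule generated by an isolated eigenvector
-/

namespace Pool.Agent.Lib.MP_640417_ag.Four

open Module

section basic

variable {K V : Type} [Field K] [AddCommGroup V] [Module K V] (form : LinearMap.BilinForm K V)

lemma ss_apply (a b x : V) : ss form a b x = form x a • b + form x b • a := rfl

lemma ss_comm (a b : V) : ss form a b = ss form b a := by
  ext x
  rw [ss_apply, ss_apply, add_comm]

lemma ss_add (a b c : V) : ss form a (b + c) = ss form a b + ss form a c := by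
  ext x
  simp only [ss_apply, LinearMap.add_apply, map_add, smul_add, add_smul]
  abel

lemma ss_smul (r : K) (a b : V) : ss form a (r • b) = r • ss form a b := by
  ext x
  simp only [ss_apply, LinearMap.smul_apply, map_smul, smul_add, smul_smul, smul_eq_mul]
  rw [mul_comm (form x a) r]

lemma ss_add' (a b c : V) : ss form (b + c) a = ss form b a + ss form c a := by
  rw [ss_comm, ss_add, ss_comm form a b, ss_comm form a c]

lemma ss_smul' (r : K) (a b : V) : ss form (r • b) a = r • ss form b a := by
  rw [ss_comm, ss_smul, ss_comm]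

/-- The symplectic square as a linear map of the second argument. -/
noncomputable def ssl (a : V) : V →ₗ[K] Module.End K V where
  toFun b := ss form a b
  map_add' b c := ss_add form a b c
  map_smul' r b := ss_smul form r a b

/-- The vectors `w` with `s(a, w)` in `L`. -/
noncomputable def WW (L : Submodule K (Module.End K V)) (a : V) : Submodule K V :=
  L.comap (ssl form a)

lemma mem_WW (L : Submodule K (Module.End K V)) (a w : V) :
    w ∈ WW form L a ↔ ss form a w ∈ L := Iff.rfl

variable {form}

lemma anti (halt : ∀ x, form x x = 0) (x y : V) : form x y = - form y x := by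
  have h1 := halt (x + y)
  simp only [map_add, LinearMap.add_apply, halt x, halt y, zero_add, add_zero] at h1
  rw [eq_neg_iff_add_eq_zero, add_comm]
  exact h1

lemma ss_skew (halt : ∀ x, form x x = 0) (a b : V) : Skew form (ss form a b) := by
  intro x y
  simp only [ss_apply, map_add, map_smul, LinearMap.add_apply, LinearMap.smul_apply, smul_eq_mul]
  rw [anti halt b y, anti halt a y]
  ring

lemma comm_ss {M : Module.End K V} (hM : Skew form M) (a b : V) :
    M * ss form a b - ss form a b * M = ss form (M a) b + ss form a (M b) := by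
  ext x
  have h1 := hM x a
  have h2 := hM x b
  have h1' : form (M x) a = - form x (M a) := eq_neg_of_add_eq_zero_left h1
  have h2' : form (M x) b = - form x (M b) := eq_neg_of_add_eq_zero_left h2
  simp only [LinearMap.sub_apply, Module.End.mul_apply, LinearMap.add_apply, ss_apply, map_add,
    map_smul, h1', h2', neg_smul]
  abel

end basic

/-- A Lie algebra `L` of skew endomorphisms with a diagonalizable element `t`, which generates the
semisimple algebra `R`. -/
structure Ctx {K V : Type} [Field K] [AddCommGroup V] [Module K V]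
    (form : LinearMap.BilinForm K V) (L : Submodule K (Module.End K V))
    (R : Subalgebra K (Module.End K V)) (t : Module.End K V) : Prop where
  alt : ∀ x, form x x = 0
  nondeg : ∀ x, (∀ y, form x y = 0) → x = 0
  skew : ∀ M ∈ L, Skew form M
  bracket : ∀ M ∈ L, ∀ M' ∈ L, M * M' - M' * M ∈ L
  tmem : t ∈ L
  diag : ⨆ μ, t.eigenspace μ = ⊤
  le : ∀ M ∈ L, M ∈ R
  gen : ∀ Y : Submodule K V, (∀ M ∈ L, ∀ y ∈ Y, M y ∈ Y) → ∀ M ∈ R, ∀ y ∈ Y, M y ∈ Y
  proj : ∀ N : Submodule K V, (∀ M ∈ R, ∀ y ∈ N, M y ∈ N) →
    ∃ p : Module.End K V, (∀ y, p y ∈ N) ∧ (∀ y ∈ N, p y = y) ∧ ∀ M ∈ R, p * M = M * p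

/-- An isolated pair of eigenvectors. -/
structure IsoPair {K V : Type} [Field K] [AddCommGroup V] [Module K V]
    (form : LinearMap.BilinForm K V) (L : Submodule K (Module.End K V))
    (t : Module.End K V) (τ : K) (e e' : V) : Prop where
  eig : t e = τ • e
  eig' : t e' = -τ • e'
  pair : form e e' = 1
  line : ∀ y, t y = τ • y → ∃ k : K, y = k • e
  line' : ∀ y, t y = -τ • y → ∃ k : K, y = k • e'
  img' : ∀ M ∈ L, ∃ (k : K) (w : V), M e' = k • e' + w ∧ ss form e w ∈ L
  img : ∀ M ∈ L, ∃ (k : K) (w : V), M e = k • e + w ∧ ss form e' w ∈ L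

section main

variable {K V : Type} [Field K] [CharZero K] [AddCommGroup V] [Module K V] [FiniteDimensional K V]
  {form : LinearMap.BilinForm K V} {L : Submodule K (Module.End K V)}
  {R : Subalgebra K (Module.End K V)} {t : Module.End K V}

omit [CharZero K] [FiniteDimensional K V] in
lemma IsoPair.swap (h : Ctx form L R t) {τ : K} {e e' : V} (he : IsoPair form L t τ e e') :
    IsoPair form L t (-τ) e' (-e) := by
  refine ⟨he.eig', ?_, ?_, he.line', ?_, ?_, ?_⟩
  · rw [map_neg, he.eig, neg_neg, smul_neg]
  · rw [map_neg, ← anti h.alt, he.pair]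
  · intro y hy
    rw [neg_neg] at hy
    obtain ⟨k, hk⟩ := he.line y hy
    exact ⟨-k, by rw [hk, neg_smul_neg]⟩
  · intro M hM
    obtain ⟨k, w, h1, h2⟩ := he.img M hM
    refine ⟨k, -w, by rw [map_neg, h1, neg_add, smul_neg], ?_⟩
    have h3 : -w = (-1 : K) • w := by rw [neg_one_smul]
    rw [h3, ss_smul]
    exact L.smul_mem _ h2
  · intro M hM
    obtain ⟨k, w, h1, h2⟩ := he.img' M hM
    refine ⟨k, w, h1, ?_⟩
    have h3 : -e = (-1 : K) • e := by rw [neg_one_smul]
    rw [h3, ss_smul']
    exact L.smul_mem _ h2

omit [CharZero K] [FiniteDimensional K V] in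
/-- `t` preserves the spaces `W`. -/
lemma WW_stable (h : Ctx form L R t) {a : V} {α : K} (ha : t a = α • a) :
    ∀ w ∈ WW form L a, t w ∈ WW form L a := by
  intro w hw
  rw [mem_WW] at hw ⊢
  have h1 := h.bracket t h.tmem _ hw
  rw [comm_ss (h.skew t h.tmem), ha, ss_smul'] at h1
  have h2 : ss form a (t w) = (α • ss form a w + ss form a (t w)) - α • ss form a w := by abel
  rw [h2]
  exact L.sub_mem h1 (L.smul_mem _ hw)

omit [CharZero K] in
/-- A stable subspace on which the functional of `e` does not vanish contains `e'`. -/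
lemma functional (h : Ctx form L R t) {τ : K} {e e' : V} (he : IsoPair form L t τ e e')
    (U : Submodule K V) (hU : ∀ w ∈ U, t w ∈ U) (hne : e' ∉ U) : ∀ w ∈ U, form e w = 0 := by
  have h1 : U = ⨆ μ, U ⊓ t.genEigenspace μ 1 :=
    Submodule.eq_iSup_inf_genEigenspace 1 hU (by simpa using h.diag)
  have h2 : U ≤ LinearMap.ker (form e) := by
    rw [h1]
    refine iSup_le fun μ => ?_
    rintro w ⟨hw, hw'⟩
    rw [LinearMap.mem_ker]
    by_contra hcon
    have h3 : t w = μ • w := by
      have := Module.End.mem_eigenspace_iff.mp hw'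
      exact this
    have h4 := h.skew t h.tmem e w
    rw [he.eig, h3, map_smul, LinearMap.smul_apply, map_smul, smul_eq_mul, smul_eq_mul,
      ← add_mul] at h4
    have h5 : τ + μ = 0 := (mul_eq_zero.mp h4).resolve_right hcon
    have h6 : μ = -τ := by linear_combination h5
    rw [h6] at h3
    obtain ⟨k, hk⟩ := he.line' w h3
    have hk0 : k ≠ 0 := by
      rintro rfl
      apply hcon
      rw [hk, zero_smul, map_zero]
    apply hne
    have h7 : e' = k⁻¹ • w := by rw [hk, smul_smul, inv_mul_cancel₀ hk0, one_smul]
    rw [h7]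
    exact U.smul_mem _ hw
  exact fun w hw => h2 hw

omit [CharZero K] [FiniteDimensional K V] in
/-- The basic bracket. -/
lemma bracket_WW (h : Ctx form L R t) {τ : K} {e e' : V} (he : IsoPair form L t τ e e')
    {w w' : V} (hw : w ∈ WW form L e') (hw' : w' ∈ WW form L e) :
    ss form w w' + form e w • ss form e' w' + form w' e' • ss form e w +
      form w' w • ss form e e' ∈ L := by
  have h1 := h.bracket _ hw _ hw'
  change ss form e' w * ss form e w' - ss form e w' * ss form e' w ∈ L at h1
  rw [comm_ss (ss_skew h.alt e' w), ss_apply, ss_apply, he.pair, one_smul, ss_add', ss_smul',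
    ss_add, ss_smul, ss_smul] at h1
  convert h1 using 1
  abel

/-- The cyclic submodule. -/
noncomputable def Rm (R : Subalgebra K (Module.End K V)) (e : V) : Submodule K V :=
  (Subalgebra.toSubmodule R).map (LinearMap.applyₗ e)

omit [CharZero K] [FiniteDimensional K V] in
lemma mem_Rm (e y : V) : y ∈ Rm R e ↔ ∃ M ∈ R, M e = y := Iff.rfl

omit [CharZero K] [FiniteDimensional K V] in
lemma self_mem_Rm (e : V) : e ∈ Rm R e := ⟨1, R.one_mem, rfl⟩

omit [CharZero K] [FiniteDimensional K V] in
lemma Rm_stable (e : V) : ∀ M ∈ R, ∀ y ∈ Rm R e, M y ∈ Rm R e := by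
  rintro M hM _ ⟨M', hM', rfl⟩
  exact ⟨M * M', R.mul_mem hM hM', rfl⟩

omit [CharZero K] [FiniteDimensional K V] in
lemma Rm_le (h : Ctx form L R t) {e : V} (Y : Submodule K V) (he : e ∈ Y)
    (hY : ∀ M ∈ L, ∀ y ∈ Y, M y ∈ Y) : Rm R e ≤ Y := by
  rintro _ ⟨M, hM, rfl⟩
  exact h.gen Y hY M hM e he

omit [CharZero K] [FiniteDimensional K V] in
lemma pair_neg (h : Ctx form L R t) {τ : K} {e e' : V} (he : IsoPair form L t τ e e') :
    form e' e = -1 := by
  rw [anti h.alt, he.pair]

omit [FiniteDimensional K V] in
/-- Type C: if both squares lie in `L`, all of the symplectic algebra of the block does. -/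
theorem typeC (h : Ctx form L R t) {τ : K} {e e' : V} (he : IsoPair form L t τ e e')
    (h1 : ss form e e ∈ L) (h2 : ss form e' e' ∈ L) :
    (∀ y ∈ Rm R e, ∀ y' ∈ Rm R e, ss form y y' ∈ L) ∧ e' ∈ Rm R e := by
  have hee := pair_neg h he
  have h3 : ss form e e' ∈ L := by
    have h4 := h.bracket _ h1 _ h2
    rw [comm_ss (ss_skew h.alt e e), ss_apply, hee] at h4
    have h5 : ss form ((-1 : K) • e + (-1 : K) • e) e' + ss form e' ((-1 : K) • e + (-1 : K) • e)
        = (-4 : K) • ss form e e' := by
      rw [← two_smul K, smul_smul, ss_smul, ss_smul', ss_comm form e' e, ← add_smul]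
      norm_num
    rw [h5] at h4
    have h6 : ss form e e' = (-4 : K)⁻¹ • ((-4 : K) • ss form e e') := by
      rw [smul_smul, inv_mul_cancel₀ (by norm_num), one_smul]
    rw [h6]
    exact L.smul_mem _ h4
  have h3' : ss form e' e ∈ L := by rw [ss_comm]; exact h3
  -- the two spaces agree
  have h7 : WW form L e' ≤ WW form L e := by
    intro w hw
    have h8 : ss form w e + form e w • ss form e' e + form e e' • ss form e w +
        form e w • ss form e e' ∈ L := bracket_WW h he hw (show ss form e e ∈ L from h1)
    rw [he.pair, one_smul, ss_comm form w e] at h8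
    have h9 : ss form e w = (2 : K)⁻¹ • ((ss form e w + form e w • ss form e' e + ss form e w +
        form e w • ss form e e') - form e w • ss form e' e - form e w • ss form e e') := by
      have h10 : (ss form e w + form e w • ss form e' e + ss form e w +
        form e w • ss form e e') - form e w • ss form e' e - form e w • ss form e e' =
          (2 : K) • ss form e w := by
        rw [two_smul]; abel
      rw [h10, smul_smul, inv_mul_cancel₀ two_ne_zero, one_smul]
    rw [mem_WW, h9]
    exact L.smul_mem _ (L.sub_mem (L.sub_mem h8 (L.smul_mem _ h3')) (L.smul_mem _ h3))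
  have h8 : WW form L e ≤ WW form L e' := by
    intro w hw
    have h9 : ss form e' w + form e e' • ss form e' w + form w e' • ss form e e' +
        form w e' • ss form e e' ∈ L := bracket_WW h he (show ss form e' e' ∈ L from h2) hw
    rw [he.pair, one_smul] at h9
    have h10 : ss form e' w = (2 : K)⁻¹ • ((ss form e' w + ss form e' w + form w e' • ss form e e' +
        form w e' • ss form e e') - form w e' • ss form e e' - form w e' • ss form e e') := by
      have h10 : (ss form e' w + ss form e' w + form w e' • ss form e e' +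
        form w e' • ss form e e') - form w e' • ss form e e' - form w e' • ss form e e' =
          (2 : K) • ss form e' w := by
        rw [two_smul]; abel
      rw [h10, smul_smul, inv_mul_cancel₀ two_ne_zero, one_smul]
    rw [mem_WW, h10]
    exact L.smul_mem _ (L.sub_mem (L.sub_mem h9 (L.smul_mem _ h3)) (L.smul_mem _ h3))
  have hall : ∀ w ∈ WW form L e, ∀ w' ∈ WW form L e, ss form w w' ∈ L := by
    intro w hw w' hw'
    have h9 := bracket_WW h he (h8 hw) hw'
    have h10 : ss form w w' = (ss form w w' + form e w • ss form e' w' + form w' e' • ss form e w +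
      form w' w • ss form e e') - form e w • ss form e' w' - form w' e' • ss form e w -
      form w' w • ss form e e' := by abel
    rw [h10]
    exact L.sub_mem (L.sub_mem (L.sub_mem h9 (L.smul_mem _ (h8 hw'))) (L.smul_mem _ hw))
      (L.smul_mem _ h3)
  have hle : Rm R e ≤ WW form L e := by
    apply Rm_le h _ (show ss form e e ∈ L from h1)
    intro M hM w hw
    obtain ⟨k, w1, hk1, hk2⟩ := he.img M hM
    have h9 := h.bracket M hM _ hw
    change M * ss form e w - ss form e w * M ∈ L at h9
    rw [comm_ss (h.skew M hM), hk1, ss_add', ss_smul'] at h9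
    have h10 : ss form e (M w) = (k • ss form e w + ss form w1 w + ss form e (M w)) -
        k • ss form e w - ss form w1 w := by abel
    rw [mem_WW, h10]
    exact L.sub_mem (L.sub_mem h9 (L.smul_mem _ hw)) (hall w1 (h7 hk2) w hw)
  refine ⟨fun y hy y' hy' => hall y (hle hy) y' (hle hy'), ?_⟩
  refine ⟨(2 : K)⁻¹ • ss form e' e', R.smul_mem (h.le _ h2) _, ?_⟩
  change (2 : K)⁻¹ • ss form e' e' e = e'
  rw [ss_apply, he.pair, ← two_smul K, smul_smul, smul_smul]
  norm_num

/-- If the square of `e'` does not lie in `L`, the block of `e` is isotropic. -/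
theorem halfA (h : Ctx form L R t) {τ : K} {e e' : V} (he : IsoPair form L t τ e e')
    (h2 : ss form e' e' ∉ L) :
    (∀ y ∈ Rm R e, ∃ (k : K) (w : V), y = k • e + w ∧ w ∈ WW form L e') ∧
    (∀ w ∈ WW form L e', form e w = 0) ∧
    (∀ w ∈ WW form L e', ∀ w' ∈ WW form L e', form w w' = 0) := by
  have hiso : ∀ w ∈ WW form L e', ∀ w' ∈ WW form L e', form w w' = 0 := by
    intro w hw w' hw'
    have h3 := h.bracket _ hw' _ hw
    change ss form e' w' * ss form e' w - ss form e' w * ss form e' w' ∈ L at h3
    rw [comm_ss (ss_skew h.alt e' w'), ss_apply, ss_apply, h.alt e', zero_smul, zero_add, ss_smul',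
      ss_add, ss_smul, ss_smul] at h3
    by_contra hcon
    apply h2
    have h4 : ss form e' e' = (form w w')⁻¹ • ((form e' w' • ss form e' w +
        (form w e' • ss form e' w' + form w w' • ss form e' e')) - form e' w' • ss form e' w -
        form w e' • ss form e' w') := by
      have h5 : (form e' w' • ss form e' w +
        (form w e' • ss form e' w' + form w w' • ss form e' e')) - form e' w' • ss form e' w -
        form w e' • ss form e' w' = form w w' • ss form e' e' := by abel
      rw [h5, smul_smul, inv_mul_cancel₀ hcon, one_smul]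
    rw [h4]
    exact L.smul_mem _ (L.sub_mem (L.sub_mem h3 (L.smul_mem _ hw)) (L.smul_mem _ hw'))
  have hfun : ∀ w ∈ WW form L e', form e w = 0 :=
    functional h he (WW form L e') (WW_stable h he.eig') h2
  refine ⟨?_, hfun, hiso⟩
  -- the block
  let Y : Submodule K V := Submodule.span K {e} ⊔ WW form L e'
  have hY : ∀ y, y ∈ Y ↔ ∃ (k : K) (w : V), y = k • e + w ∧ w ∈ WW form L e' := by
    intro y
    rw [Submodule.mem_sup]
    constructor
    · rintro ⟨a, ha, w, hw, rfl⟩
      obtain ⟨k, rfl⟩ := Submodule.mem_span_singleton.mp ha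
      exact ⟨k, w, rfl, hw⟩
    · rintro ⟨k, w, rfl, hw⟩
      exact ⟨k • e, Submodule.smul_mem _ _ (Submodule.mem_span_singleton_self e), w, hw, rfl⟩
  have hkey : ∀ M ∈ L, ∀ w ∈ WW form L e', M w ∈ Y := by
    intro M hM w hw
    obtain ⟨k, w', hk1, hk2⟩ := he.img' M hM
    have h3 := h.bracket M hM _ hw
    change M * ss form e' w - ss form e' w * M ∈ L at h3
    rw [comm_ss (h.skew M hM), hk1, ss_add', ss_smul'] at h3
    have h4 := bracket_WW h he hw hk2
    rw [hfun w hw, zero_smul, add_zero] at h4
    -- the term with s(e, w)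
    have h5 : form w' e' • ss form e w ∈ L := by
      by_cases h6 : ss form e e ∈ L
      · apply L.smul_mem
        have h7 := bracket_WW h he hw (show ss form e e ∈ L from h6)
        rw [hfun w hw, zero_smul, zero_smul, add_zero, add_zero, he.pair, one_smul,
          ss_comm form w e, ← two_smul K] at h7
        have h8 : ss form e w = (2 : K)⁻¹ • ((2 : K) • ss form e w) := by
          rw [smul_smul, inv_mul_cancel₀ two_ne_zero, one_smul]
        rw [h8]
        exact L.smul_mem _ h7
      · have h7 : form w' e' = 0 := by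
          have h8 := functional h (he.swap h) (WW form L e) (WW_stable h he.eig) (by
            intro h9
            apply h6
            have h10 : (-1 : K) • (-e) = e := by rw [neg_one_smul, neg_neg]
            have h11 := (WW form L e).smul_mem (-1 : K) h9
            rw [h10] at h11
            exact h11) w' hk2
          rw [anti h.alt, h8, neg_zero]
        rw [h7, zero_smul]
        exact L.zero_mem
    rw [hY]
    refine ⟨form w' w, M w - form w' w • e, by abel, ?_⟩
    have h6 : M w - form w' w • e = M w + (- form w' w) • e := by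
      rw [neg_smul, sub_eq_add_neg]
    rw [mem_WW, h6, ss_add, ss_smul, ss_comm form e' e]
    have h7 : ss form e' (M w) + -form w' w • ss form e e' =
        (k • ss form e' w + ss form w' w + ss form e' (M w)) - k • ss form e' w -
        (ss form w w' + form w' e' • ss form e w + form w' w • ss form e e') +
        form w' e' • ss form e w := by
      rw [ss_comm form w' w, neg_smul]
      abel
    rw [h7]
    exact L.add_mem (L.sub_mem (L.sub_mem h3 (L.smul_mem _ hw)) h4) h5
  have hle : Rm R e ≤ Y := by
    apply Rm_le h _ (Submodule.mem_sup_left (Submodule.mem_span_singleton_self e))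
    intro M hM y hy
    obtain ⟨k, w, rfl, hw⟩ := (hY y).mp hy
    rw [map_add, map_smul]
    refine Y.add_mem (Y.smul_mem _ ?_) (hkey M hM w hw)
    obtain ⟨k', w', h3, h4⟩ := he.img M hM
    rw [h3]
    exact (hY _).mpr ⟨k', w', rfl, h4⟩
  exact fun y hy => (hY y).mp (hle hy)

omit [CharZero K] [FiniteDimensional K V] in
/-- A projector onto a stable subspace maps the eigenvector `e` to a multiple of itself. -/
lemma proj_eig (h : Ctx form L R t) {τ : K} {e e' : V} (he : IsoPair form L t τ e e')
    {p : Module.End K V} (hp : ∀ M ∈ R, p * M = M * p) : ∃ k : K, p e = k • e := by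
  apply he.line
  have h1 := LinearMap.congr_fun (hp t (h.le t h.tmem)) e
  rw [Module.End.mul_apply, Module.End.mul_apply, he.eig, map_smul] at h1
  exact h1.symm

omit [CharZero K] [FiniteDimensional K V] in
lemma e_ne (h : Ctx form L R t) {τ : K} {e e' : V} (he : IsoPair form L t τ e e') : e ≠ 0 := by
  rintro rfl
  have := he.pair
  rw [map_zero, LinearMap.zero_apply] at this
  exact zero_ne_one this

omit [CharZero K] [FiniteDimensional K V] in
/-- The blocks of isolated eigenvectors are simple in the following sense. -/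
lemma mem_symm (h : Ctx form L R t) {τ : K} {e e' : V} (he : IsoPair form L t τ e e')
    {y : V} (hy0 : y ≠ 0) (hy : y ∈ Rm R e) : e ∈ Rm R y := by
  obtain ⟨p, hp1, hp2, hp3⟩ := h.proj (Rm R y) (Rm_stable y)
  obtain ⟨k, hk⟩ := proj_eig h he hp3
  by_cases hk0 : k = 0
  · exfalso
    obtain ⟨M, hM, rfl⟩ := hy
    have h1 := LinearMap.congr_fun (hp3 M hM) e
    rw [Module.End.mul_apply, Module.End.mul_apply, hk, hk0, zero_smul, map_zero] at h1
    have h2 := hp2 _ (self_mem_Rm (R := R) (LinearMap.applyₗ e M))
    exact hy0 (h2.symm.trans h1)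
  · have h1 := hp1 e
    rw [hk] at h1
    have h2 := (Rm R y).smul_mem k⁻¹ h1
    rwa [smul_smul, inv_mul_cancel₀ hk0, one_smul] at h2

/-- The mixed case does not occur. -/
lemma not_mixed (h : Ctx form L R t) {τ : K} {e e' : V} (he : IsoPair form L t τ e e')
    (h1 : ss form e e ∈ L) : ss form e' e' ∈ L := by
  by_contra h2
  obtain ⟨hA1, hA2, hA3⟩ := halfA h he h2
  -- `e` lies in the block of `e'`
  have h3 : e ∈ Rm R e' := by
    refine ⟨(-(2 : K)⁻¹) • ss form e e, R.smul_mem (h.le _ h1) _, ?_⟩
    change (-(2 : K)⁻¹) • ss form e e e' = e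
    rw [ss_apply, pair_neg h he, ← two_smul K, smul_smul, smul_smul]
    norm_num
  have h4 : e' ∈ Rm R e := mem_symm h (he.swap h) (e_ne h he) h3
  obtain ⟨k, w, hk, hw⟩ := hA1 e' h4
  have h5 := he.pair
  rw [hk, map_add, map_smul, h.alt, smul_zero, zero_add, hA2 w hw] at h5
  exact zero_ne_one h5

/-- **The structure of a block.** Either both squares lie in `L`, and all of the symplectic algebra of
the block does, or none does, and the block of `e` is isotropic. -/
theorem structure_block (h : Ctx form L R t) {τ : K} {e e' : V} (he : IsoPair form L t τ e e') :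
    ((∀ y ∈ Rm R e, ∀ y' ∈ Rm R e, ss form y y' ∈ L) ∧ e' ∈ Rm R e) ∨
    ((∀ y ∈ Rm R e, ∀ y' ∈ Rm R e, form y y' = 0) ∧
      ∀ y ∈ Rm R e, ∀ y' ∈ Rm R e', ss form y y' - form y y' • ss form e e' ∈ L) := by
  by_cases h1 : ss form e e ∈ L
  · exact Or.inl (typeC h he h1 (not_mixed h he h1))
  · right
    have hswap := he.swap h
    have h2 : ss form e' e' ∉ L := by
      intro h3
      apply h1
      have h4 := not_mixed h hswap h3
      have h5 : ss form (-e) (-e) = ss form e e := by
        have h6 : -e = (-1 : K) • e := by rw [neg_one_smul]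
        rw [h6, ss_smul, ss_smul', smul_smul]
        norm_num
      rwa [h5] at h4
    have hWneg : WW form L (-e) = WW form L e := by
      have h6 : -e = (-1 : K) • e := by rw [neg_one_smul]
      ext w
      rw [mem_WW, mem_WW, h6, ss_smul']
      constructor
      · intro h7
        have := L.smul_mem (-1 : K) h7
        rwa [smul_smul, neg_one_mul, neg_neg, one_smul] at this
      · exact fun h7 => L.smul_mem _ h7
    have h1' : ss form (-e) (-e) ∉ L := by
      have h5 : ss form (-e) (-e) = ss form e e := by
        have h6 : -e = (-1 : K) • e := by rw [neg_one_smul]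
        rw [h6, ss_smul, ss_smul', smul_smul]
        norm_num
      rwa [h5]
    obtain ⟨hA1, hA2, hA3⟩ := halfA h he h2
    obtain ⟨hB1, hB2, hB3⟩ := halfA h hswap h1'
    rw [hWneg] at hB1 hB2 hB3
    constructor
    · intro y hy y' hy'
      obtain ⟨k, w, rfl, hw⟩ := hA1 y hy
      obtain ⟨k', w', rfl, hw'⟩ := hA1 y' hy'
      simp only [map_add, map_smul, LinearMap.add_apply, LinearMap.smul_apply, smul_eq_mul]
      rw [h.alt, hA2 w' hw', hA3 w hw w' hw', anti h.alt w e, hA2 w hw]
      ring
    · intro y hy y' hy'
      obtain ⟨k, w, rfl, hw⟩ := hA1 y hy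
      obtain ⟨k', w', rfl, hw'⟩ := hB1 y' hy'
      have h3 := bracket_WW h he hw hw'
      rw [hA2 w hw, zero_smul, add_zero, anti h.alt w' e', hB2 w' hw', neg_zero, zero_smul,
        add_zero] at h3
      -- the mixed terms
      have h4 : form e w' • ss form e e' ∈ L := by
        by_cases h5 : e' ∈ WW form L e
        · exact L.smul_mem _ h5
        · rw [functional h he _ (WW_stable h he.eig) h5 w' hw', zero_smul]
          exact L.zero_mem
      have h5 : form w e' • ss form e e' ∈ L := by
        by_cases h6 : -e ∈ WW form L e'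
        · apply L.smul_mem
          have h7 := (WW form L e').smul_mem (-1 : K) h6
          rw [neg_one_smul, neg_neg] at h7
          rw [ss_comm]
          exact h7
        · rw [anti h.alt w e', functional h hswap _ (WW_stable h he.eig') h6 w hw, neg_zero,
            zero_smul]
          exact L.zero_mem
      have h6 : ss form (k • e + w) (k' • e' + w') -
          form (k • e + w) (k' • e' + w') • ss form e e' =
          k • ss form e w' + k' • ss form e' w + (ss form w w' + form w' w • ss form e e') -
          k • (form e w' • ss form e e') - k' • (form w e' • ss form e e') := by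
        simp only [ss_add, ss_add', ss_smul, ss_smul', map_add, map_smul, LinearMap.add_apply,
          LinearMap.smul_apply, smul_eq_mul, he.pair, ss_comm form w e', anti h.alt w w']
        module
      rw [h6]
      refine L.sub_mem (L.sub_mem (L.add_mem (L.add_mem (L.smul_mem _ hw') (L.smul_mem _ hw)) h3)
        (L.smul_mem _ h4)) (L.smul_mem _ h5)

end main

end Pool.Agent.Lib.MP_640417_ag.Four
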