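import Pool.Agent.Lib.MP_640417_ag.Frob.Coord
import Pool.Agent.Lib.MP_640417_ag.Four.Der
import Pool.Agent.Lib.MP_640417_ag.Four.Struct

/-!
# Symplectic bases adapted to a decomposition
-/

namespace Pool.Agent.Lib.MP_640417_ag.Four

open Module Pool.Agent.Lib.MP_640417_ag.Frob

/-- A symplectic basis `ε` adapted to a decomposition. -/
structure SymBasis {K V : Type} [Field K] [AddCommGroup V] [Module K V]
    (form : LinearMap.BilinForm K V) {B : Type} (st : B → B) (p : B → Module.End K V)
    (I : Type) (ε : Basis I K V) (c : I → I) (w : I → K) (blk : I → B) : Prop where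
  cc : ∀ v, c (c v) = v
  wne : ∀ v, w v ≠ 0
  wc : ∀ v, w (c v) = - w v
  form_pair : ∀ u, form (ε u) (ε (c u)) = w u
  form_zero : ∀ u v, v ≠ c u → form (ε u) (ε v) = 0
  pe : ∀ v, p (blk v) (ε v) = ε v
  blkc : ∀ v, blk (c v) = st (blk v)

section basis

variable {K V : Type} [Field K] [CharZero K] [AddCommGroup V] [Module K V] [FiniteDimensional K V]
  {form : LinearMap.BilinForm K V}

/-- Existence of adapted symplectic bases. -/
theorem exists_symBasis (pDarboux : SDarboux) (halt : ∀ x, form x x = 0)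
    (hnd : ∀ x, (∀ y, form x y = 0) → x = 0) {B : Type} [Fintype B] [DecidableEq B] (st : B → B)
    (p : B → Module.End K V) (hst : ∀ b, st (st b) = b) (hsum : ∑ b, p b = 1)
    (hid : ∀ b, p b * p b = p b) (horth : ∀ b b', b ≠ b' → p b * p b' = 0)
    (hadj : ∀ b x y, form (p b x) y = form x (p (st b) y)) :
    ∃ (m : ℕ) (ε : Basis (Fin m ⊕ Fin m) K V) (w : Fin m ⊕ Fin m → K) (blk : Fin m ⊕ Fin m → B),
      SymBasis form st p (Fin m ⊕ Fin m) ε Sum.swap w blk := by
  classical
  obtain ⟨m, e, f, b, h1, h2, h3, h4, h5, h6⟩ :=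
    pDarboux K V form halt hnd B st p hst hsum hid horth hadj
  have hanti : ∀ x y, form x y = - form y x := anti halt
  let ε₀ : Fin m ⊕ Fin m → V := Sum.elim e f
  let w : Fin m ⊕ Fin m → K := Sum.elim (fun _ => 1) (fun _ => -1)
  have hpair : ∀ u, form (ε₀ u) (ε₀ (Sum.swap u)) = w u := by
    rintro (i | i)
    · change form (e i) (f i) = 1
      rw [h3, if_pos rfl]
    · change form (f i) (e i) = -1
      rw [hanti, h3, if_pos rfl]
  have hzero : ∀ u v, v ≠ Sum.swap u → form (ε₀ u) (ε₀ v) = 0 := by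
    rintro (i | i) (j | j) hne
    · exact h4 i j
    · change form (e i) (f j) = 0
      rw [h3, if_neg]
      rintro rfl
      exact hne rfl
    · change form (f i) (e j) = 0
      rw [hanti, h3, if_neg, neg_zero]
      rintro rfl
      exact hne rfl
    · exact h5 i j
  have hw : ∀ v, w v ≠ 0 := by
    rintro (i | i)
    · exact one_ne_zero
    · exact neg_ne_zero.mpr one_ne_zero
  have hlin : LinearIndependent K ε₀ := by
    rw [Fintype.linearIndependent_iff]
    intro g hg i
    have h7 := congrArg (fun y => form y (ε₀ (Sum.swap i))) hg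
    simp only [map_sum, LinearMap.sum_apply, map_smul, LinearMap.smul_apply, map_zero,
      LinearMap.zero_apply, smul_eq_mul] at h7
    rw [Finset.sum_eq_single i] at h7
    · rw [hpair] at h7
      exact (mul_eq_zero.mp h7).resolve_right (hw i)
    · intro j _ hj
      rw [hzero, mul_zero]
      intro h8
      apply hj
      rw [← Sum.swap_swap i, h8, Sum.swap_swap]
    · intro h; exact absurd (Finset.mem_univ _) h
  have hspan : ⊤ ≤ Submodule.span K (Set.range ε₀) := by
    rw [← h6]
    apply Submodule.span_mono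
    rintro _ (⟨i, rfl⟩ | ⟨i, rfl⟩)
    · exact ⟨Sum.inl i, rfl⟩
    · exact ⟨Sum.inr i, rfl⟩
  refine ⟨m, Basis.mk hlin hspan, w, Sum.elim b (fun i => st (b i)), ?_, hw, ?_, ?_, ?_, ?_, ?_⟩
  · exact fun v => Sum.swap_swap v
  · rintro (i | i)
    · rfl
    · change (1 : K) = - -1
      rw [neg_neg]
  · intro u
    rw [Basis.mk_apply, Basis.mk_apply]
    exact hpair u
  · intro u v huv
    rw [Basis.mk_apply, Basis.mk_apply]
    exact hzero u v huv
  · intro v
    rw [Basis.mk_apply]
    rcases v with i | i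
    · exact h1 i
    · exact h2 i
  · rintro (i | i)
    · rfl
    · change b i = st (st (b i))
      rw [hst]

end basis

variable {K V : Type} [Field K] [AddCommGroup V] [Module K V]
  {form : LinearMap.BilinForm K V} {B : Type} {st : B → B} {p : B → Module.End K V}
  {I : Type} [Fintype I] [DecidableEq I] {ε : Basis I K V} {c : I → I} {w : I → K} {blk : I → B}

omit [Fintype I] in
lemma SymBasis.form_eq (h : SymBasis form st p I ε c w blk) (u v : I) :
    form (ε u) (ε v) = if v = c u then w u else 0 := by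
  by_cases huv : v = c u
  · rw [if_pos huv, huv, h.form_pair]
  · rw [if_neg huv, h.form_zero u v huv]

/-- The matrix of a symplectic square. -/
lemma SymBasis.toMatrix_ss (h : SymBasis form st p I ε c w blk) (u v : I) :
    LinearMap.toMatrix ε ε (ss form (ε u) (ε (c v))) = XX c w u v := by
  have hinj : ∀ a b, c a = c b → a = b := fun a b hab => by rw [← h.cc a, hab, h.cc]
  ext a b
  rw [LinearMap.toMatrix_apply, ss_apply, h.form_eq, h.form_eq, map_add, map_smul, map_smul,
    Finsupp.add_apply, Finsupp.smul_apply, Finsupp.smul_apply, Basis.repr_self, Basis.repr_self,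
    Finsupp.single_apply, Finsupp.single_apply]
  simp only [XX, Matrix.sub_apply, Matrix.smul_apply, Matrix.single_apply, smul_eq_mul]
  have e1 : (if u = c b then w b else 0) = (if c u = b then - w u else 0) := by
    by_cases h1 : u = c b
    · rw [if_pos h1, if_pos (by rw [h1, h.cc]), h1, h.wc, neg_neg]
    · rw [if_neg h1, if_neg]
      intro h2
      apply h1
      rw [← h2, h.cc]
  have e2 : (if c v = c b then w b else 0) = (if v = b then w v else 0) := by
    by_cases h1 : v = b
    · rw [if_pos (by rw [h1]), if_pos h1, h1]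
    · rw [if_neg h1, if_neg]
      exact fun h2 => h1 (hinj _ _ h2)
  rw [e1, e2]
  have key : ∀ (P Q R S : Prop) [Decidable P] [Decidable Q] [Decidable R] [Decidable S] (x y : K),
      (if P then -x else 0) * (if S then 1 else 0) + (if Q then y else 0) * (if R then 1 else 0) =
        y * (if R ∧ Q then 1 else 0) - x * (if S ∧ P then 1 else 0) := by
    intro P Q R S _ _ _ _ x y
    by_cases hP : P <;> by_cases hQ : Q <;> by_cases hR : R <;> by_cases hS : S <;>
      simp [hP, hQ, hR, hS]
    ring
  exact key _ _ _ _ _ _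

/-- The difference of two projectors is a sum of symplectic squares. -/
lemma SymBasis.sum_ss (h : SymBasis form st p I ε c w blk)
    (horth : ∀ b b', b ≠ b' → p b * p b' = 0) (hst : ∀ b, st (st b) = b) [DecidableEq B] (b : B) :
    p b - p (st b) = ∑ u ∈ Finset.univ.filter (fun u => blk u = b),
      (w u)⁻¹ • ss form (ε u) (ε (c u)) := by
  have hinj : ∀ a b, c a = c b → a = b := fun a b hab => by rw [← h.cc a, hab, h.cc]
  have hp : ∀ b' s, p b' (ε s) = if blk s = b' then ε s else 0 := by
    intro b' s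
    by_cases h1 : blk s = b'
    · rw [if_pos h1, ← h1, h.pe]
    · rw [if_neg h1, ← h.pe s, ← Module.End.mul_apply, horth _ _ (Ne.symm h1),
        LinearMap.zero_apply]
  apply ε.ext
  intro s
  rw [LinearMap.sub_apply, hp, hp, LinearMap.sum_apply]
  have hterm : ∀ u, ((w u)⁻¹ • ss form (ε u) (ε (c u))) (ε s) =
      (if u = s then ε s else 0) - (if u = c s then ε s else 0) := by
    intro u
    rw [LinearMap.smul_apply, ss_apply, h.form_eq, h.form_eq, smul_add, sub_eq_add_neg, add_comm]
    congr 1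
    · by_cases h1 : u = s
      · rw [h1, if_pos rfl, if_pos rfl, smul_smul, inv_mul_cancel₀ (h.wne s), one_smul]
      · rw [if_neg h1, if_neg (fun h2 => h1 (hinj _ _ h2)), zero_smul, smul_zero]
    · by_cases h1 : u = c s
      · rw [h1, if_pos rfl, if_pos rfl, h.wc, h.cc, smul_smul, inv_neg, neg_mul,
          inv_mul_cancel₀ (h.wne s), neg_smul, one_smul]
      · rw [if_neg h1, if_neg h1, zero_smul, smul_zero, neg_zero]
  rw [Finset.sum_congr rfl fun u _ => hterm u, Finset.sum_sub_distrib, Finset.sum_ite_eq',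
    Finset.sum_ite_eq']
  simp only [Finset.mem_filter, Finset.mem_univ, true_and, h.blkc]
  congr 1
  by_cases h1 : blk s = st b
  · rw [if_pos h1, if_pos (by rw [h1, hst])]
  · rw [if_neg h1, if_neg]
    intro h2
    apply h1
    rw [← h2, hst]

/-- If all symplectic squares of the blocks kill `x`, it lies in the divisor algebra. -/
theorem SymBasis.mem_divisorAlg [CharZero K] [FiniteDimensional K V] {Γ : Type} [Group Γ]
    [TopologicalSpace Γ]
    (h : SymBasis form st p I ε c w blk)
    (horth : ∀ b b', b ≠ b' → p b * p b' = 0)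
    (T : Γ →* Module.End K V) (χ : Γ →* Kˣ)
    (heq : ∀ γ x y, form (T γ x) (T γ y) = ((χ γ)⁻¹ : Kˣ).val * form x y)
    (U : OpenSubgroup Γ) (hU : ∀ b, ∀ γ ∈ U, p b * T γ = T γ * p b)
    (n m : ℕ) (x : ExteriorAlgebra K (Fin n → V)) (hx : x ∈ ⋀[K]^m (Fin n → V))
    (hss : ∀ u v, blk u = blk v → Dv n (ss form (ε u) (ε (c v))) x = 0) :
    x ∈ divisorAlg (fun γ => (T γ).compLeft (Fin n)) χ := by
  classical
  let A : Γ →* Matrix I I K :=
    ((LinearMap.toMatrixAlgEquiv ε : Module.End K V ≃ₐ[K] Matrix I I K) :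
      Module.End K V →* Matrix I I K).comp T
  have hA : ∀ γ, A γ = LinearMap.toMatrix ε ε (T γ) := fun γ => rfl
  have hAentry : ∀ γ u v, A γ u v = ε.repr (T γ (ε v)) u := by
    intro γ u v
    rw [hA, LinearMap.toMatrix_apply]
  have hTe : ∀ γ v, T γ (ε v) = ∑ u, A γ u v • ε u := by
    intro γ v
    rw [← ε.sum_repr (T γ (ε v))]
    simp only [hAentry]
  have hp : ∀ b' s, p b' (ε s) = if blk s = b' then ε s else 0 := by
    intro b' s
    by_cases h1 : blk s = b'
    · rw [if_pos h1, ← h1, h.pe]
    · rw [if_neg h1, ← h.pe s, ← Module.End.mul_apply, horth _ _ (Ne.symm h1),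
        LinearMap.zero_apply]
  apply mem_of_co ε T χ A hA n
  have hAform : ∀ γ, (A γ).transpose * Om c w * A γ = ((χ γ)⁻¹ : Kˣ).val • Om c w := by
    intro γ
    ext u v
    have h1 := heq γ (ε u) (ε v)
    rw [hTe, hTe, h.form_eq] at h1
    simp only [map_sum, map_smul, LinearMap.sum_apply, LinearMap.smul_apply, smul_eq_mul,
      h.form_eq] at h1
    simp only [Matrix.mul_apply, Matrix.transpose_apply, Om, Matrix.of_apply, Matrix.smul_apply,
      smul_eq_mul]
    rw [← h1]
    simp only [Finset.sum_mul, Finset.mul_sum]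
    apply Finset.sum_congr rfl
    intro s _
    apply Finset.sum_congr rfl
    intro t _
    ring
  have hrEq : Equivalence (fun u v : I => blk u = blk v) :=
    ⟨fun _ => rfl, fun h => h.symm, fun h1 h2 => h1.trans h2⟩
  have hrc : ∀ u v, blk u = blk v → blk (c u) = blk (c v) := fun u v huv => by
    rw [h.blkc, h.blkc, huv]
  have hAU : ∀ γ ∈ U, ∀ u v, ¬ blk u = blk v → A γ u v = 0 := by
    intro γ hγ u v huv
    rw [hAentry]
    have h1 : T γ (ε v) = p (blk v) (T γ (ε v)) := by
      conv_lhs => rw [← h.pe v]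
      exact (LinearMap.congr_fun (hU (blk v) γ hγ) (ε v)).symm
    rw [h1, hTe, map_sum, map_sum, Finsupp.finsetSum_apply]
    refine Finset.sum_eq_zero fun s _ => ?_
    rw [map_smul, hp]
    by_cases h2 : blk s = blk v
    · have h3 : s ≠ u := fun h3 => huv (by rw [← h3, h2])
      rw [if_pos h2, map_smul, Finsupp.smul_apply, Basis.repr_self,
        Finsupp.single_eq_of_ne (Ne.symm h3), smul_zero]
    · rw [if_neg h2, smul_zero, map_zero, Finsupp.zero_apply]
  have hmem : ExteriorAlgebra.map (co ε n) x ∈ ⋀[K]^m (Fin n × I → K) := by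
    have h1 : Submodule.map (ExteriorAlgebra.map (co ε n)).toLinearMap
        (⋀[K]^m (Fin n → V)) ≤ ⋀[K]^m (Fin n × I → K) := by
      rw [Submodule.map_pow]
      have h1 : Submodule.map (ExteriorAlgebra.map (co ε n)).toLinearMap
          (LinearMap.range (ExteriorAlgebra.ι K : (Fin n → V) →ₗ[K] _)) ≤ LinearMap.range
          (ExteriorAlgebra.ι K : (Fin n × I → K) →ₗ[K] _) := by
        rintro _ ⟨_, ⟨v, rfl⟩, rfl⟩
        refine ⟨co ε n v, ?_⟩
        rw [AlgHom.toLinearMap_apply, ExteriorAlgebra.map_apply_ι]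
      exact pow_le_pow_left' h1 _
    exact h1 ⟨x, hx, rfl⟩
  have hfft := fft c h.cc w h.wne h.wc (fun u v : I => blk u = blk v) hrEq hrc m _ hmem (by
    intro u v huv
    rw [← h.toMatrix_ss]
    exact (Dv_eq_zero_iff ε _ x).mp (hss u v huv))
  refine Algebra.adjoin_le ?_ hfft
  rintro y ⟨v, a, b, rfl⟩
  exact Algebra.subset_adjoin (zz_tate c h.cc w h.wne h.wc A χ hAform _ hrEq hrc U hAU v a b)

/-- If the symplectic Lie algebra kills `x`, it lies in the divisor algebra. -/
theorem mem_divisorAlg_of_sp (pDarboux : SDarboux) [CharZero K] [FiniteDimensional K V] {Γ : Type}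
    [Group Γ] [TopologicalSpace Γ] (T : Γ →* Module.End K V) (χ : Γ →* Kˣ)
    (halt : ∀ x, form x x = 0) (hnd : ∀ x, (∀ y, form x y = 0) → x = 0)
    (heq : ∀ γ x y, form (T γ x) (T γ y) = ((χ γ)⁻¹ : Kˣ).val * form x y)
    (n m : ℕ) (x : ExteriorAlgebra K (Fin n → V)) (hx : x ∈ ⋀[K]^m (Fin n → V))
    (hss : ∀ y y', Dv n (ss form y y') x = 0) :
    x ∈ divisorAlg (fun γ => (T γ).compLeft (Fin n)) χ := by
  classical
  obtain ⟨k, ε, w, blk, h⟩ := exists_symBasis pDarboux halt hnd (B := Unit) (fun b => b)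
    (fun _ => 1) (fun _ => rfl) (by simp) (fun _ => one_mul 1)
    (fun b b' hb => absurd (Subsingleton.elim b b') hb) (fun _ _ _ => rfl)
  exact h.mem_divisorAlg (fun b b' hb => absurd (Subsingleton.elim b b') hb) T χ heq
    ⊤ (fun _ γ _ => by rw [one_mul, mul_one]) n m x hx (fun u v _ => hss _ _)

end Pool.Agent.Lib.MP_640417_ag.Four
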