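import Pool.Agent.Lib.MP_640417_ag.Four.Diag
import Pool.Agent.Lib.MP_640417_ag.Four.SymBasis

/-!
# Eigenbases adapted to a decomposition, and weights
-/

namespace Pool.Agent.Lib.MP_640417_ag.Four

open Module Polynomial Pool.Agent.Lib.MP_640417_ag.Frob

section joint

variable {K V : Type} [Field K] [AddCommGroup V] [Module K V] [FiniteDimensional K V]

/-- An eigenbasis adapted to a decomposition into invariant subspaces. -/
theorem exists_joint_basis [IsAlgClosed K] (g : Module.End K V) (hg : g.IsSemisimple) {B : Type}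
    [Fintype B] [DecidableEq B] (p : B → Module.End K V) (hsum : ∑ b, p b = 1)
    (hid : ∀ b, p b * p b = p b) (horth : ∀ b b', b ≠ b' → p b * p b' = 0)
    (hcomm : ∀ b, p b * g = g * p b) :
    ∃ (I : Type) (_ : Fintype I) (_ : DecidableEq I) (e : Basis I K V) (lam : I → K) (blk : I → B),
      (∀ v, g (e v) = lam v • e v) ∧ ∀ v, p (blk v) (e v) = e v := by
  classical
  let W : B → Submodule K V := fun b => LinearMap.range (p b)
  have hW : ∀ b y, y ∈ W b ↔ p b y = y := by
    intro b y
    constructor
    · rintro ⟨z, rfl⟩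
      rw [← Module.End.mul_apply, hid]
    · exact fun h => ⟨y, h⟩
  have hinv : ∀ b, W b ∈ g.invtSubmodule := by
    intro b
    rw [Module.End.mem_invtSubmodule]
    intro y hy
    rw [Submodule.mem_comap, hW]
    rw [hW] at hy
    rw [← Module.End.mul_apply, hcomm, Module.End.mul_apply, hy]
  have hbas : ∀ b, ∃ (I : Type) (_ : Fintype I) (_ : DecidableEq I) (e : Basis I K (W b))
      (lam : I → K), ∀ v, (g.restrict (Module.End.mem_invtSubmodule g |>.mp (hinv b)) :
        Module.End K (W b)) (e v) = lam v • e v := fun b =>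
    exists_eigen_of_semisimple _ (hg.restrict (hinv b))
  choose I hI1 hI2 e lam he using hbas
  have hinternal : DirectSum.IsInternal W := by
    apply DirectSum.isInternal_submodule_of_iSupIndep_of_iSup_eq_top
    · rw [iSupIndep_def]
      intro b
      rw [Submodule.disjoint_def]
      intro y hy hy'
      rw [hW] at hy
      rw [← hy]
      have h1 : (⨆ j, ⨆ (_ : j ≠ b), W j) ≤ LinearMap.ker (p b) := by
        refine iSup_le fun j => iSup_le fun hj => ?_
        rintro _ ⟨z, rfl⟩
        rw [LinearMap.mem_ker, ← Module.End.mul_apply, horth b j (Ne.symm hj),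
          LinearMap.zero_apply]
      exact h1 hy'
    · rw [Submodule.eq_top_iff']
      intro y
      have h1 : y = ∑ b, p b y := by
        have := LinearMap.congr_fun hsum y
        rw [LinearMap.sum_apply, Module.End.one_apply] at this
        exact this.symm
      rw [h1]
      exact Submodule.sum_mem _ fun b _ => (le_iSup W b) ⟨y, rfl⟩
  refine ⟨Σ b, I b, inferInstance, inferInstance, hinternal.collectedBasis e,
    fun v => lam v.1 v.2, fun v => v.1, ?_, ?_⟩
  · rintro ⟨b, v⟩
    rw [DirectSum.IsInternal.collectedBasis_coe]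
    have h1 := congrArg Subtype.val (he b v)
    exact h1
  · rintro ⟨b, v⟩
    rw [DirectSum.IsInternal.collectedBasis_coe]
    exact (hW b _).mp (e b v).2

variable {I : Type} [Fintype I] [DecidableEq I] {B : Type} [DecidableEq B]

omit [FiniteDimensional K V] [Fintype I] [DecidableEq I] in
lemma proj_apply_basis (e : Basis I K V) (blk : I → B) (p : B → Module.End K V)
    (horth : ∀ b b', b ≠ b' → p b * p b' = 0) (hpe : ∀ v, p (blk v) (e v) = e v) (b : B) (v : I) :
    p b (e v) = if blk v = b then e v else 0 := by
  by_cases h1 : blk v = b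
  · rw [if_pos h1, ← h1, hpe]
  · rw [if_neg h1, ← hpe v, ← Module.End.mul_apply, horth _ _ (Ne.symm h1), LinearMap.zero_apply]

omit [FiniteDimensional K V] in
lemma toMatrix_diag (e : Basis I K V) (s : Module.End K V) (f : I → K)
    (h : ∀ v, s (e v) = f v • e v) : LinearMap.toMatrix e e s = Matrix.diagonal f := by
  ext u v
  rw [LinearMap.toMatrix_apply, h, map_smul, Finsupp.smul_apply, Basis.repr_self, smul_eq_mul,
    Matrix.diagonal_apply]
  by_cases h : u = v
  · subst h; simp
  · rw [if_neg h, Finsupp.single_eq_of_ne h, mul_zero]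

omit [FiniteDimensional K V] in
/-- The determinant on a block. -/
theorem det_block (e : Basis I K V) (blk : I → B) (p : B → Module.End K V)
    (horth : ∀ b b', b ≠ b' → p b * p b' = 0) (hpe : ∀ v, p (blk v) (e v) = e v)
    (g : Module.End K V) (lam : I → K) (hg : ∀ v, g (e v) = lam v • e v) (b : B) :
    LinearMap.det (p b * g + (1 - p b)) =
      ∏ v ∈ Finset.univ.filter (fun v => blk v = b), lam v := by
  have h1 : ∀ v, (p b * g + (1 - p b)) (e v) = (if blk v = b then lam v else 1) • e v := by
    intro v
    rw [LinearMap.add_apply, Module.End.mul_apply, hg, map_smul, LinearMap.sub_apply,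
      Module.End.one_apply, proj_apply_basis e blk p horth hpe]
    by_cases h2 : blk v = b
    · rw [if_pos h2, if_pos h2, sub_self, add_zero]
    · rw [if_neg h2, if_neg h2, smul_zero, zero_add, sub_zero, one_smul]
  rw [← LinearMap.det_toMatrix e, toMatrix_diag e _ _ h1, Matrix.det_diagonal,
    Finset.prod_ite, Finset.prod_const_one, mul_one]

omit [FiniteDimensional K V] in
/-- The trace on a block. -/
theorem trace_block (e : Basis I K V) (blk : I → B) (p : B → Module.End K V)
    (horth : ∀ b b', b ≠ b' → p b * p b' = 0) (hpe : ∀ v, p (blk v) (e v) = e v)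
    (g : Module.End K V) (lam : I → K) (hg : ∀ v, g (e v) = lam v • e v) (b : B) :
    LinearMap.trace K V (p b * g) =
      ∑ v ∈ Finset.univ.filter (fun v => blk v = b), lam v := by
  have h1 : ∀ v, (p b * g) (e v) = (if blk v = b then lam v else 0) • e v := by
    intro v
    rw [Module.End.mul_apply, hg, map_smul, proj_apply_basis e blk p horth hpe]
    by_cases h2 : blk v = b
    · rw [if_pos h2, if_pos h2]
    · rw [if_neg h2, if_neg h2, smul_zero, zero_smul]
  rw [LinearMap.trace_eq_matrix_trace K e, toMatrix_diag e _ _ h1, Matrix.trace_diagonal,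
    Finset.sum_ite, Finset.sum_const_zero, add_zero]

end joint

section skew

variable {K V : Type} [Field K] [AddCommGroup V] [Module K V]
  {form : LinearMap.BilinForm K V} {B : Type} {st : B → B} {p : B → Module.End K V}
  {I : Type} [Fintype I] [DecidableEq I] {ε : Basis I K V} {c : I → I} {w : I → K} {blk : I → B}

omit [Fintype I] [DecidableEq I] in
/-- Coordinates through the form. -/
lemma SymBasis.form_right [Finite I] (h : SymBasis form st p I ε c w blk) (y : V) (u : I) :
    form y (ε (c u)) = ε.repr y u * w u := by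
  classical
  have := Fintype.ofFinite I
  have hinj : ∀ a b, c a = c b → a = b := fun a b hab => by rw [← h.cc a, hab, h.cc]
  conv_lhs => rw [← ε.sum_repr y]
  rw [map_sum, LinearMap.sum_apply, Finset.sum_eq_single u]
  · rw [map_smul, LinearMap.smul_apply, h.form_pair, smul_eq_mul]
  · intro v _ hv
    rw [map_smul, LinearMap.smul_apply, h.form_zero v (c u), smul_zero]
    exact fun h1 => hv (hinj _ _ h1).symm
  · intro h; exact absurd (Finset.mem_univ _) h

omit [DecidableEq I] in
/-- A skew endomorphism is a sum of symplectic squares. -/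
theorem SymBasis.skew_sum (h : SymBasis form st p I ε c w blk) (M : Module.End K V) (hM : Skew form M) :
    (2 : K) • M = ∑ u, (w u)⁻¹ • ss form (M (ε u)) (ε (c u)) := by
  refine LinearMap.ext fun x => ?_
  rw [LinearMap.smul_apply, LinearMap.sum_apply, two_smul]
  have h1 : ∀ u, ((w u)⁻¹ • ss form (M (ε u)) (ε (c u))) x =
      (ε.repr (M x) (c u)) • ε (c u) + (ε.repr x u) • M (ε u) := by
    intro u
    rw [LinearMap.smul_apply, ss_apply, smul_add, smul_smul, smul_smul, h.form_right]
    congr 1
    · have h2 : form x (M (ε u)) = ε.repr (M x) (c u) * w u := by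
        have h3 : form (M x) (ε u) = ε.repr (M x) (c u) * w (c u) := by
          have h4 := h.form_right (M x) (c u)
          rwa [h.cc] at h4
        have h4 := hM x (ε u)
        rw [h3, h.wc] at h4
        linear_combination h4
      rw [h2, mul_comm, mul_assoc, mul_inv_cancel₀ (h.wne u), mul_one]
    · rw [mul_comm, mul_assoc, mul_inv_cancel₀ (h.wne u), mul_one]
  rw [Finset.sum_congr rfl fun u _ => h1 u, Finset.sum_add_distrib]
  congr 1
  · conv_lhs => rw [← ε.sum_repr (M x)]
    symm
    exact Fintype.sum_bijective c (Function.Involutive.bijective h.cc) _ _ fun u => rfl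
  · conv_lhs => rw [← ε.sum_repr x, map_sum]
    simp only [map_smul]

end skew

section weights

variable {I : Type} [Fintype I] [DecidableEq I] {F : Type} [Field F] {n : ℕ}

/-- Comparison of two diagonal derivations. -/
theorem diag_kill (f g : I → F)
    (h : ∀ m : I → ℕ, ∑ v, (m v : F) * f v = 0 → ∑ v, (m v : F) * g v = 0) (i : ℕ)
    (x : Lam I F n) (hx : x ∈ ⋀[F]^i (Fin n × I → F))
    (hf : DD n (Matrix.diagonal f) x = 0) : DD n (Matrix.diagonal g) x = 0 := by
  classical
  let lo : LinearOrder (Fin n × I) := linearOrderOfSTO WellOrderingRel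
  let b : Basis (Fin n × I) F (Fin n × I → F) := Pi.basisFun F (Fin n × I)
  let B := b.exteriorPower i
  let z : ⋀[F]^i (Fin n × I → F) := ⟨x, hx⟩
  have hTn : ∀ (d : I → F) (q : Fin n × I),
      Tn n (Matrix.diagonal d) (Pi.single q (1 : F)) = d q.2 • Pi.single q (1 : F) := by
    intro d q
    obtain ⟨a, v⟩ := q
    rw [Tn_single, Finset.sum_eq_single v]
    · rw [Matrix.diagonal_apply_eq]
    · intro u _ hu
      rw [Matrix.diagonal_apply_ne _ hu, zero_smul]
    · intro h; exact absurd (Finset.mem_univ _) h
  have hlist : ∀ (d : I → F) (l : List (Fin n × I)),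
      DD n (Matrix.diagonal d) (l.map (ev F)).prod
        = (l.map (fun q => d q.2)).sum • (l.map (ev F)).prod := by
    intro d l
    induction l with
    | nil =>
      have := DD_algebraMap (n := n) (Matrix.diagonal d) (1 : F)
      simpa using this
    | cons q l ih =>
      simp only [List.map_cons, List.prod_cons, List.sum_cons]
      rw [show ev F q = ExteriorAlgebra.ι F (Pi.single q (1 : F)) from rfl, DD_ι_mul, ih, hTn,
        map_smul, smul_mul_assoc, mul_smul_comm, ← add_smul]
  have hDD : ∀ (d : I → F) (s : Set.powersetCard (Fin n × I) i),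
      DD n (Matrix.diagonal d) ((B s : ⋀[F]^i (Fin n × I → F)) :
        ExteriorAlgebra F (Fin n × I → F)) = (∑ q ∈ s.1, d q.2) •
        ((B s : ⋀[F]^i (Fin n × I → F)) : ExteriorAlgebra F (Fin n × I → F)) := by
    intro d s
    let l : List (Fin n × I) :=
      List.ofFn (fun k : Fin i => Set.powersetCard.ofFinEmbEquiv.symm s k)
    have hBs : ((B s : ⋀[F]^i (Fin n × I → F)) : ExteriorAlgebra F (Fin n × I → F))
        = (l.map (ev F)).prod := by
      simp only [B, exteriorPower.basis_apply]
      rw [exteriorPower.ιMulti_family_apply_coe]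
      simp only [ExteriorAlgebra.ιMulti_family, ExteriorAlgebra.ιMulti_apply, l,
        List.map_ofFn]
      congr 2
      funext k
      simp only [Function.comp_apply, ev, b, Pi.basisFun_apply]
    have h3 : s.1 = Finset.univ.map (Set.powersetCard.ofFinEmbEquiv.symm s).toEmbedding := by
      ext p
      simp only [Finset.mem_map, Finset.mem_univ, true_and]
      exact (Set.powersetCard.mem_range_ofFinEmbEquiv_symm_iff_mem s p).symm
    have h4 : (l.map (fun q => d q.2)).sum = ∑ q ∈ s.1, d q.2 := by
      rw [h3, Finset.sum_map]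
      simp only [l, List.map_ofFn, List.sum_ofFn]
      rfl
    rw [hBs, hlist, h4]
  have hcount : ∀ (d : I → F) (s : Set.powersetCard (Fin n × I) i),
      ∑ q ∈ s.1, d q.2 = ∑ v, (((s.1.filter (fun q => q.2 = v)).card : ℕ) : F) * d v := by
    intro d s
    rw [← Finset.sum_fiberwise_of_maps_to (s := s.1) (t := Finset.univ) (g := fun q => q.2)
      (fun _ _ => Finset.mem_univ _)]
    refine Finset.sum_congr rfl fun v _ => ?_
    rw [Finset.sum_congr rfl fun q hq => by
      rw [(Finset.mem_filter.mp hq).2], Finset.sum_const, nsmul_eq_mul]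
  have hxsum : x = ∑ s, B.repr z s •
      ((B s : ⋀[F]^i (Fin n × I → F)) : ExteriorAlgebra F (Fin n × I → F)) := by
    change (z : ExteriorAlgebra F (Fin n × I → F)) = _
    conv_lhs => rw [← B.sum_repr z]
    rw [Submodule.coe_sum]
    rfl
  have hcoef : ∀ s, B.repr z s * (∑ q ∈ s.1, f q.2) = 0 := by
    intro s
    have h1 : ((∑ s, (B.repr z s * (∑ q ∈ s.1, f q.2)) • B s : ⋀[F]^i (Fin n × I → F)) :
        ExteriorAlgebra F (Fin n × I → F)) = 0 := by
      rw [← hf]
      conv_rhs => rw [hxsum, map_sum]
      rw [Submodule.coe_sum]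
      refine Finset.sum_congr rfl fun s _ => ?_
      rw [map_smul, hDD, smul_smul]
      rfl
    have h2 : (∑ s, (B.repr z s * (∑ q ∈ s.1, f q.2)) • B s : ⋀[F]^i (Fin n × I → F)) = 0 :=
      Subtype.ext h1
    exact Fintype.linearIndependent_iff.mp B.linearIndependent _ h2 s
  rw [hxsum, map_sum]
  refine Finset.sum_eq_zero fun s _ => ?_
  rw [map_smul, hDD]
  by_cases hs : B.repr z s = 0
  · rw [hs, zero_smul]
  · have h1 := (mul_eq_zero.mp (hcoef s)).resolve_left hs
    rw [hcount] at h1
    rw [hcount, h _ h1, zero_smul, smul_zero]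

end weights

end Pool.Agent.Lib.MP_640417_ag.Four
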