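import Pool.Agent.Lib.MP_640417_ag.Frob.CarB

/-!
# Classes fixed by a power of Frobenius are killed by a generic cocharacter
-/

namespace Pool.Agent.Lib.MP_640417_ag.Four

open Module Pool.Agent.Lib.MP_640417_ag.Frob

variable {I : Type} [Fintype I] [DecidableEq I] {F : Type} [Field F] {n : ℕ}

private lemma bal_Tn (d : I → F) (p : Fin n × I) :
    Tn n (Matrix.diagonal d) (Pi.single p (1 : F)) = d p.2 • Pi.single p (1 : F) := by
  funext r
  simp only [Tn, LinearMap.pi_apply, LinearMap.sum_apply, LinearMap.smul_apply,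
    LinearMap.proj_apply, Pi.smul_apply, smul_eq_mul]
  rw [Finset.sum_eq_single r.2]
  · rw [Matrix.diagonal_apply_eq]
    by_cases h : r = p
    · subst h; rfl
    · have : ((r.1, r.2) : Fin n × I) ≠ p := h
      simp [Pi.single_eq_of_ne h]
  · intro v _ hv
    rw [Matrix.diagonal_apply_ne _ (Ne.symm hv), zero_mul]
  · intro h; exact absurd (Finset.mem_univ _) h

private lemma bal_DD (t : I → F) (l : List (Fin n × I)) :
    DD n (Matrix.diagonal t) (l.map (ev F)).prod
      = (l.map (fun p => t p.2)).sum • (l.map (ev F)).prod := by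
  induction l with
  | nil =>
    have := DD_algebraMap (n := n) (Matrix.diagonal t) (1 : F)
    simpa using this
  | cons p l ih =>
    simp only [List.map_cons, List.prod_cons, List.sum_cons]
    rw [show ev F p = ExteriorAlgebra.ι F (Pi.single p (1 : F)) from rfl, DD_ι_mul, ih, bal_Tn,
      map_smul, smul_mul_assoc, mul_smul_comm, ← add_smul]

/-- If the function `t` vanishes on the monomials of degree `2 i` in the eigenvalues `lam v` whose
`N`-th power is that of `q ^ i`, then every `x` of degree `2 i` fixed by the `N`-th power of Frobenius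
(twisted by `q ^ (-i)`) is killed by the diagonal matrix `t`. -/
theorem balanced (lam : I → F) (q : F) (hq : q ≠ 0) (N : ℕ) (i : ℕ) (t : I → F)
    (ht : ∀ m : I → ℕ, ∑ v, m v = 2 * i → (∏ v, lam v ^ m v) ^ N = (q ^ i) ^ N →
      ∑ v, (m v : F) * t v = 0)
    (x : Lam I F n) (hx : x ∈ ⋀[F]^(2 * i) (Fin n × I → F))
    (hfix : ((q⁻¹) ^ N) ^ i • ExteriorAlgebra.map (Tn n (Matrix.diagonal lam ^ N)) x = x) :
    DD n (Matrix.diagonal t) x = 0 := by
  classical
  let lo : LinearOrder (Fin n × I) := linearOrderOfSTO WellOrderingRel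
  let b : Basis (Fin n × I) F (Fin n × I → F) := Pi.basisFun F (Fin n × I)
  let B := b.exteriorPower (2 * i)
  let z : ⋀[F]^(2 * i) (Fin n × I → F) := ⟨x, hx⟩
  -- the action of the diagonal matrix on the basis
  have hmap : ∀ (s : Set.powersetCard (Fin n × I) (2 * i)),
      exteriorPower.map (2 * i) (Tn n (Matrix.diagonal lam ^ N)) (B s)
        = (∏ p ∈ s.1, lam p.2 ^ N) • B s := by
    intro s
    simp only [B, exteriorPower.basis_apply]
    rw [exteriorPower.map_apply_ιMulti_family]
    have h1 : (⇑(Tn n (Matrix.diagonal lam ^ N)) ∘ ⇑b) = fun p => (lam p.2 ^ N) • b p := by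
      funext p
      simp only [Function.comp_apply, b, Pi.basisFun_apply]
      rw [Matrix.diagonal_pow, bal_Tn]
      rfl
    rw [h1]
    simp only [exteriorPower.ιMulti_family]
    have h2 : ((fun p => (lam p.2 ^ N) • b p) ∘ ⇑(Set.powersetCard.ofFinEmbEquiv.symm s))
        = fun k => (fun k => (lam (Set.powersetCard.ofFinEmbEquiv.symm s k).2 ^ N)) k
          • (⇑b ∘ ⇑(Set.powersetCard.ofFinEmbEquiv.symm s)) k := rfl
    rw [h2, AlternatingMap.map_smul_univ]
    congr 1
    have h3 : s.1 = Finset.univ.map (Set.powersetCard.ofFinEmbEquiv.symm s).toEmbedding := by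
      ext p
      simp only [Finset.mem_map, Finset.mem_univ, true_and]
      exact (Set.powersetCard.mem_range_ofFinEmbEquiv_symm_iff_mem s p).symm
    rw [h3, Finset.prod_map]
    rfl
  have hfix' : ((q⁻¹) ^ N) ^ i • exteriorPower.map (2 * i) (Tn n (Matrix.diagonal lam ^ N)) z
      = z := by
    apply Subtype.ext
    rw [Submodule.coe_smul]
    have h : ((exteriorPower.map (2 * i) (Tn n (Matrix.diagonal lam ^ N)) z :
        ⋀[F]^(2 * i) (Fin n × I → F)) : ExteriorAlgebra F (Fin n × I → F)) =
        ExteriorAlgebra.map (Tn n (Matrix.diagonal lam ^ N)) (z : ExteriorAlgebra F _) := by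
      have h : (⋀[F]^(2 * i) (Fin n × I → F)).subtype ∘ₗ
          exteriorPower.map (2 * i) (Tn n (Matrix.diagonal lam ^ N)) =
          (ExteriorAlgebra.map (Tn n (Matrix.diagonal lam ^ N))).toLinearMap ∘ₗ
            (⋀[F]^(2 * i) (Fin n × I → F)).subtype := by
        apply exteriorPower.linearMap_ext
        ext a
        simp [ExteriorAlgebra.map_apply_ιMulti]
      exact LinearMap.congr_fun h z
    rw [h]
    exact hfix
  have hcoef : ∀ s : Set.powersetCard (Fin n × I) (2 * i), B.repr z s ≠ 0 →
      ((q⁻¹) ^ N) ^ i * ∏ p ∈ s.1, lam p.2 ^ N = 1 := by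
    intro s hs
    have h2 : B.repr (((q⁻¹) ^ N) ^ i •
        exteriorPower.map (2 * i) (Tn n (Matrix.diagonal lam ^ N)) z) s
        = ((q⁻¹) ^ N) ^ i * ((∏ p ∈ s.1, lam p.2 ^ N) * B.repr z s) := by
      rw [map_smul, Finsupp.smul_apply, smul_eq_mul]
      congr 1
      have h3 : exteriorPower.map (2 * i) (Tn n (Matrix.diagonal lam ^ N)) z
          = ∑ r, B.repr z r • (∏ p ∈ r.1, lam p.2 ^ N) • B r := by
        conv_lhs => rw [← B.sum_repr z]
        rw [map_sum]
        apply Finset.sum_congr rfl
        intro r _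
        rw [map_smul, hmap]
      rw [h3, map_sum, Finsupp.finsetSum_apply]
      rw [Finset.sum_eq_single s]
      · simp only [map_smul, Basis.repr_self, Finsupp.smul_apply, smul_eq_mul,
          Finsupp.single_eq_same, mul_one]
        ring
      · intro r _ hts
        simp only [map_smul, Basis.repr_self, Finsupp.smul_apply, smul_eq_mul]
        rw [Finsupp.single_eq_of_ne (Ne.symm hts)]
        simp
      · intro h; exact absurd (Finset.mem_univ s) h
    rw [hfix'] at h2
    have h5 : (((q⁻¹) ^ N) ^ i * ∏ p ∈ s.1, lam p.2 ^ N) * B.repr z s = 1 * B.repr z s := by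
      rw [mul_assoc, ← h2, one_mul]
    exact mul_right_cancel₀ hs h5
  -- the sum of the weights vanishes
  have hT : ∀ s : Set.powersetCard (Fin n × I) (2 * i), B.repr z s ≠ 0 →
      ∑ p ∈ s.1, t p.2 = 0 := by
    intro s hs
    let m : I → ℕ := fun v => (s.1.filter (fun p => p.2 = v)).card
    have hprod : ∏ p ∈ s.1, lam p.2 ^ N = (∏ v, lam v ^ m v) ^ N := by
      rw [Finset.prod_pow]
      congr 1
      rw [← Finset.prod_fiberwise_of_maps_to (s := s.1) (t := Finset.univ) (g := fun p => p.2)
        (fun _ _ => Finset.mem_univ _)]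
      refine Finset.prod_congr rfl fun v _ => ?_
      rw [Finset.prod_congr rfl fun p hp => by
        rw [(Finset.mem_filter.mp hp).2], Finset.prod_const]
    have hcard : ∑ v, m v = 2 * i := by
      have h1 : s.1.card = 2 * i := s.2
      rw [← h1]
      exact (Finset.card_eq_sum_card_fiberwise (fun _ _ => Finset.mem_univ _)).symm
    have hsum : ∑ p ∈ s.1, t p.2 = ∑ v, (m v : F) * t v := by
      rw [← Finset.sum_fiberwise_of_maps_to (s := s.1) (t := Finset.univ) (g := fun p => p.2)
        (fun _ _ => Finset.mem_univ _)]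
      refine Finset.sum_congr rfl fun v _ => ?_
      rw [Finset.sum_congr rfl fun p hp => by
        rw [(Finset.mem_filter.mp hp).2], Finset.sum_const, nsmul_eq_mul]
    rw [hsum]
    refine ht m hcard ?_
    rw [← hprod]
    have h1 := hcoef s hs
    have h2 : (q ^ i) ^ N * (((q⁻¹) ^ N) ^ i * ∏ p ∈ s.1, lam p.2 ^ N) = (q ^ i) ^ N := by
      rw [h1, mul_one]
    rw [← h2, ← mul_assoc, inv_pow, inv_pow, ← pow_mul, ← pow_mul, mul_comm N i,
      mul_inv_cancel₀ (pow_ne_zero _ hq), one_mul]
  -- the basis vectors are eigenvectors of the derivation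
  have hDD : ∀ s : Set.powersetCard (Fin n × I) (2 * i),
      DD n (Matrix.diagonal t) ((B s : ⋀[F]^(2 * i) (Fin n × I → F)) :
        ExteriorAlgebra F (Fin n × I → F)) = (∑ p ∈ s.1, t p.2) •
        ((B s : ⋀[F]^(2 * i) (Fin n × I → F)) : ExteriorAlgebra F (Fin n × I → F)) := by
    intro s
    let l : List (Fin n × I) :=
      List.ofFn (fun k : Fin (2 * i) => Set.powersetCard.ofFinEmbEquiv.symm s k)
    have hBs : ((B s : ⋀[F]^(2 * i) (Fin n × I → F)) : ExteriorAlgebra F (Fin n × I → F))
        = (l.map (ev F)).prod := by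
      simp only [B, exteriorPower.basis_apply]
      rw [exteriorPower.ιMulti_family_apply_coe]
      simp only [ExteriorAlgebra.ιMulti_family, ExteriorAlgebra.ιMulti_apply, l,
        List.map_ofFn]
      congr 2
      funext k
      simp only [Function.comp_apply, ev, b, Pi.basisFun_apply]
    have h3 : s.1 = Finset.univ.map (Set.powersetCard.ofFinEmbEquiv.symm s).toEmbedding := by
      ext p
      simp only [Finset.mem_map, Finset.mem_univ, true_and]
      exact (Set.powersetCard.mem_range_ofFinEmbEquiv_symm_iff_mem s p).symm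
    have h4 : (l.map (fun p => t p.2)).sum = ∑ p ∈ s.1, t p.2 := by
      rw [h3, Finset.sum_map]
      simp only [l, List.map_ofFn, List.sum_ofFn]
      rfl
    rw [hBs, bal_DD, h4]
  have hxsum : x = ∑ s, B.repr z s •
      ((B s : ⋀[F]^(2 * i) (Fin n × I → F)) : ExteriorAlgebra F (Fin n × I → F)) := by
    change (z : ExteriorAlgebra F (Fin n × I → F)) = _
    conv_lhs => rw [← B.sum_repr z]
    rw [Submodule.coe_sum]
    rfl
  rw [hxsum, map_sum]
  refine Finset.sum_eq_zero fun s _ => ?_
  rw [map_smul, hDD]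
  by_cases hs : B.repr z s = 0
  · rw [hs, zero_smul]
  · rw [hT s hs, zero_smul, smul_zero]

end Pool.Agent.Lib.MP_640417_ag.Four
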