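import Mathlib

/-!
# Generic cocharacters

Additive functions on the multiplicative group of a field which do not vanish on finitely many
given elements of infinite order.
-/

namespace Pool.Agent.Lib.MP_640417_ag.Four

open Module TensorProduct

/-- There is an additive function with values in `K` which does not vanish on finitely many
elements of infinite order. -/
theorem exists_additive (G K : Type) [CommGroup G] [Field K] [CharZero K] {ι : Type} [Finite ι]
    (g : ι → G) (hg : ∀ i, ∀ N : ℕ, 0 < N → g i ^ N ≠ 1) :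
    ∃ θ : Additive G →+ K, ∀ i, θ (Additive.ofMul (g i)) ≠ 0 := by
  classical
  let f : Additive G →ₗ[ℤ] ℚ ⊗[ℤ] Additive G := TensorProduct.mk ℤ ℚ (Additive G) 1
  have hbc : IsLocalizedModule (nonZeroDivisors ℤ) f := by
    rw [isLocalizedModule_iff_isBaseChange (nonZeroDivisors ℤ) ℚ]
    exact TensorProduct.isBaseChange ℤ (Additive G) ℚ
  have hf : ∀ i, f (Additive.ofMul (g i)) ≠ 0 := by
    intro i h
    rw [IsLocalizedModule.eq_zero_iff (nonZeroDivisors ℤ) f] at h
    obtain ⟨⟨s, hs⟩, hs'⟩ := h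
    have hs0 : s ≠ 0 := nonZeroDivisors.ne_zero hs
    have h1 : s • Additive.ofMul (g i) = 0 := hs'
    have h2 : g i ^ s = 1 := by
      have := congrArg Additive.toMul h1
      simpa using this
    have h3 : g i ^ (s.natAbs) = 1 := by
      rcases Int.natAbs_eq s with h | h
      · rw [h, zpow_natCast] at h2
        exact h2
      · rw [h, zpow_neg, inv_eq_one, zpow_natCast] at h2
        exact h2
    exact hg i s.natAbs (Int.natAbs_pos.mpr hs0) h3
  obtain ⟨φ, hφ⟩ := Module.exists_dual_forall_apply_ne_zero (K := ℚ)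
    (fun i => f (Additive.ofMul (g i))) hf
  refine ⟨((Rat.castHom K : ℚ →+* K) : ℚ →+ K).comp (φ.toAddMonoidHom.comp f.toAddMonoidHom),
    fun i => ?_⟩
  have := hφ i
  simp only [AddMonoidHom.comp_apply]
  intro h
  apply this
  have h2 : ((φ (f (Additive.ofMul (g i))) : ℚ) : K) = 0 := h
  exact_mod_cast h2

/-- A generic cocharacter: its value at a monomial of degree `2 i` vanishes if the monomial is `q ^ i`
up to a root of unity, and for monomials of degree four the converse holds. -/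
theorem exists_generic {I K : Type} [Fintype I] [Field K] [CharZero K] (lam : I → K)
    (hlam : ∀ v, lam v ≠ 0) (q : K) (hq : q ≠ 0) (c : I → I) (hlc : ∀ v, lam (c v) * lam v = q) :
    ∃ t : I → K, (∀ v, t (c v) = - t v) ∧
      (∀ (m : I → ℕ) (i N : ℕ), 0 < N → ∑ v, m v = 2 * i → (∏ v, lam v ^ m v) ^ N = (q ^ i) ^ N →
        ∑ v, (m v : K) * t v = 0) ∧
      (∀ a b u v, t a + t b + t u + t v = 0 →
        ∃ N : ℕ, 0 < N ∧ (lam a * lam b * lam u * lam v) ^ N = (q ^ 2) ^ N) := by
  classical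
  let l : I → Kˣ := fun v => Units.mk0 (lam v) (hlam v)
  let Q : Kˣ := Units.mk0 q hq
  let G : I × I × I × I → Kˣ := fun x => l x.1 * l x.2.1 * l x.2.2.1 * l x.2.2.2 * (Q ^ 2)⁻¹
  obtain ⟨θ, hθ⟩ := exists_additive Kˣ K
    (fun x : {x : I × I × I × I // ∀ N : ℕ, 0 < N → G x ^ N ≠ 1} => G x.1) (fun x => x.2)
  let Θ : Kˣ → K := fun g => θ (Additive.ofMul g)
  have hmul : ∀ g h, Θ (g * h) = Θ g + Θ h := fun g h => by
    simp only [Θ, ofMul_mul, map_add]
  have hpow : ∀ g (N : ℕ), Θ (g ^ N) = N * Θ g := fun g N => by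
    simp only [Θ, ofMul_pow, map_nsmul, nsmul_eq_mul]
  have hinv : ∀ g, Θ (g⁻¹) = - Θ g := fun g => by
    simp only [Θ, ofMul_inv, map_neg]
  have hprod : ∀ (m : I → ℕ), Θ (∏ v, l v ^ m v) = ∑ v, (m v : K) * Θ (l v) := fun m => by
    have h1 : Θ (∏ v, l v ^ m v) = ∑ v, Θ (l v ^ m v) := by
      simp only [Θ, ofMul_prod, map_sum]
    rw [h1]
    exact Finset.sum_congr rfl fun v _ => hpow _ _
  have h2 : (2 : K) ≠ 0 := two_ne_zero
  refine ⟨fun v => Θ (l v) - Θ Q / 2, ?_, ?_, ?_⟩
  · intro v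
    have h1 : l (c v) * l v = Q := Units.ext (hlc v)
    have h3 : Θ (l (c v)) + Θ (l v) = Θ Q := by rw [← hmul, h1]
    simp only
    rw [eq_sub_of_add_eq h3]
    ring
  · intro m i N hN hm hrel
    have h1 : (∏ v, l v ^ m v) ^ N = (Q ^ i) ^ N := by
      apply Units.ext
      push_cast
      exact hrel
    have h3 : Θ ((∏ v, l v ^ m v) ^ N) = Θ ((Q ^ i) ^ N) := by rw [h1]
    rw [hpow, hpow, hprod, hpow] at h3
    have hN' : (N : K) ≠ 0 := Nat.cast_ne_zero.mpr hN.ne'
    have h4 := mul_left_cancel₀ hN' h3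
    simp only [mul_sub]
    rw [Finset.sum_sub_distrib, h4, ← Finset.sum_mul]
    have h5 : ∑ v, (m v : K) = 2 * i := by exact_mod_cast hm
    rw [h5]
    ring
  · intro a b u v hsum
    by_contra hcon
    push Not at hcon
    have h1 : ∀ N : ℕ, 0 < N → G (a, b, u, v) ^ N ≠ 1 := by
      intro N hN h
      apply hcon N hN
      have h3 : (l a * l b * l u * l v) ^ N = (Q ^ 2) ^ N := by
        simp only [G] at h
        rw [mul_pow, inv_pow, mul_inv_eq_one] at h
        exact h
      have h4 := congrArg Units.val h3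
      push_cast at h4
      exact h4
    apply hθ ⟨(a, b, u, v), h1⟩
    change Θ (l a * l b * l u * l v * (Q ^ 2)⁻¹) = 0
    rw [hmul, hmul, hmul, hmul, hinv, hpow]
    push_cast
    linear_combination hsum

end Pool.Agent.Lib.MP_640417_ag.Four
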