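import Mathlib

/-!
# Statements of the independent modules for the general theorem
-/

namespace Pool.Agent.Lib.MP_640417_ag.Four

open Module

/-- The endomorphism `x ↦ ω(x, a) b + ω(x, b) a`. -/
noncomputable def ss {K V : Type} [Field K] [AddCommGroup V] [Module K V]
    (form : LinearMap.BilinForm K V) (a b : V) : Module.End K V :=
  (form.flip a).smulRight b + (form.flip b).smulRight a

/-- Skew endomorphisms. -/
def Skew {K V : Type} [Field K] [AddCommGroup V] [Module K V]
    (form : LinearMap.BilinForm K V) (M : Module.End K V) : Prop :=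
  ∀ x y, form (M x) y + form x (M y) = 0

/-- A space of skew endomorphisms stable under the commutator with `t` contains the rank two
elements which map the eigenvector `e'` to its images, if the eigenvalue `τ` is isolated. -/
def SRankTwo : Prop :=
  ∀ (K V : Type) [Field K] [CharZero K] [AddCommGroup V] [Module K V] [FiniteDimensional K V]
    (form : LinearMap.BilinForm K V), (∀ x, form x x = 0) → (∀ x, (∀ y, form x y = 0) → x = 0) →
    ∀ (t : Module.End K V), Skew form t → (⨆ μ, t.eigenspace μ = ⊤) →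
    ∀ (τ : K) (e e' : V), t e = τ • e → t e' = -τ • e' → form e e' = 1 →
    (∀ y, t y = τ • y → ∃ k : K, y = k • e) → (∀ y, t y = -τ • y → ∃ k : K, y = k • e') →
    (∀ ν α β : K, t.HasEigenvalue ν → t.HasEigenvalue α → t.HasEigenvalue β → ν ≠ τ →
      τ - ν = α - β → (α = τ ∧ β = ν) ∨ (α = -ν ∧ β = -τ)) →
    ∀ L : Submodule K (Module.End K V), (∀ M ∈ L, Skew form M) →
    (∀ M ∈ L, t * M - M * t ∈ L) →
    ∀ M ∈ L, ∃ (k : K) (w : V), M e' = k • e' + w ∧ ss form e w ∈ L

/-- An algebra normalized by a group with nondegenerate trace form is semisimple. -/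
def SSemi : Prop :=
  ∀ (K V : Type) [Field K] [AddCommGroup V] [Module K V] [FiniteDimensional K V]
    (Γ : Type) [Group Γ] (T : Γ →* Module.End K V),
    (∀ S ∈ Submodule.span K (Set.range T), (∀ γ, LinearMap.trace K V (S * T γ) = 0) → S = 0) →
    ∀ R : Subalgebra K (Module.End K V), Subalgebra.toSubmodule R ≤ Submodule.span K (Set.range T) →
    (∀ γ, ∀ M ∈ R, T γ * M * T γ⁻¹ ∈ R) →
    ∀ N : Submodule K V, (∀ M ∈ R, ∀ y ∈ N, M y ∈ N) →
      ∃ p : Module.End K V, (∀ y, p y ∈ N) ∧ (∀ y ∈ N, p y = y) ∧ ∀ M ∈ R, p * M = M * p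

/-- The elements which preserve the character of the commutant on an eigenvector contain an open
subgroup. -/
def SOpen : Prop :=
  ∀ (K V : Type) [Field K] [AddCommGroup V] [Module K V] [FiniteDimensional K V]
    (Γ : Type) [Group Γ] [TopologicalSpace Γ] [IsTopologicalGroup Γ] (T : Γ →* Module.End K V),
    (∀ (f : Module.Dual K V) (x : V), IsClosed {γ : Γ | f (T γ x) = 0}) →
    ∀ R : Subalgebra K (Module.End K V), (∀ γ, ∀ M ∈ R, T γ * M * T γ⁻¹ ∈ R) →
    ∀ e : V, e ≠ 0 → (∀ f : Module.End K V, (∀ M ∈ R, f * M = M * f) → ∃ k : K, f e = k • e) →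
      ∃ U : OpenSubgroup Γ, ∀ γ ∈ U, ∀ f : Module.End K V, (∀ M ∈ R, f * M = M * f) →
        ∀ k : K, f e = k • e → f (T γ e) = k • T γ e

/-- Symplectic bases adapted to an orthogonal decomposition. -/
def SDarboux : Prop :=
  ∀ (K V : Type) [Field K] [CharZero K] [AddCommGroup V] [Module K V] [FiniteDimensional K V]
    (form : LinearMap.BilinForm K V), (∀ x, form x x = 0) → (∀ x, (∀ y, form x y = 0) → x = 0) →
    ∀ (B : Type) [Fintype B] [DecidableEq B] (st : B → B) (p : B → Module.End K V),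
    (∀ b, st (st b) = b) → ∑ b, p b = 1 → (∀ b, p b * p b = p b) →
    (∀ b b', b ≠ b' → p b * p b' = 0) → (∀ b x y, form (p b x) y = form x (p (st b) y)) →
    ∃ (m : ℕ) (e f : Fin m → V) (b : Fin m → B), (∀ i, p (b i) (e i) = e i) ∧
      (∀ i, p (st (b i)) (f i) = f i) ∧ (∀ i j, form (e i) (f j) = if i = j then 1 else 0) ∧
      (∀ i j, form (e i) (e j) = 0) ∧ (∀ i j, form (f i) (f j) = 0) ∧
      Submodule.span K (Set.range e ∪ Set.range f) = ⊤

end Pool.Agent.Lib.MP_640417_ag.Four
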