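import Pool.Agent.Lib.MP_640417_ag.Frob.Coord
import Pool.Agent.Lib.MP_640417_ag.Four.Gen
import Pool.Agent.Lib.MP_640417_ag.Four.Balanced
import Pool.Agent.Lib.MP_640417_ag.Four.Der
import Pool.Agent.Lib.MP_640417_ag.Four.Spec2

/-!
# Isolated eigenvalues and generic cocharacters
-/

namespace Pool.Agent.Lib.MP_640417_ag.Four

open Module TensorProduct Polynomial Pool.Agent.Lib.MP_640417_ag.Frob

/-- A generic cocharacter: its value at a monomial of degree `2 i` vanishes if the monomial is `q ^ i`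
up to a root of unity, and for monomials of degree four the converse holds. -/
theorem exists_generic' {I K : Type} [Fintype I] [Field K] [CharZero K] (lam : I → K)
    (hlam : ∀ v, lam v ≠ 0) (q : K) (hq : q ≠ 0) :
    ∃ t : I → K, (∀ u v, lam u = lam v → t u = t v) ∧ (∀ u v, lam u * lam v = q → t u + t v = 0) ∧
      (∀ (m : I → ℕ) (i N : ℕ), 0 < N → ∑ v, m v = 2 * i → (∏ v, lam v ^ m v) ^ N = (q ^ i) ^ N →
        ∑ v, (m v : K) * t v = 0) ∧
      (∀ a b u v, t a + t b + t u + t v = 0 →
        ∃ N : ℕ, 0 < N ∧ (lam a * lam b * lam u * lam v) ^ N = (q ^ 2) ^ N) := by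
  classical
  let l : I → Kˣ := fun v => Units.mk0 (lam v) (hlam v)
  let Q : Kˣ := Units.mk0 q hq
  let G : I × I × I × I → Kˣ := fun x => l x.1 * l x.2.1 * l x.2.2.1 * l x.2.2.2 * (Q ^ 2)⁻¹
  obtain ⟨θ, hθ⟩ := exists_additive Kˣ K
    (fun x : {x : I × I × I × I // ∀ N : ℕ, 0 < N → G x ^ N ≠ 1} => G x.1) (fun x => x.2)
  let Θ : Kˣ → K := fun g => θ (Additive.ofMul g)
  have hmul : ∀ g h, Θ (g * h) = Θ g + Θ h := fun g h => by
    simp only [Θ, ofMul_mul, map_add]
  have hpow : ∀ g (N : ℕ), Θ (g ^ N) = N * Θ g := fun g N => by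
    simp only [Θ, ofMul_pow, map_nsmul, nsmul_eq_mul]
  have hinv : ∀ g, Θ (g⁻¹) = - Θ g := fun g => by
    simp only [Θ, ofMul_inv, map_neg]
  have hprod : ∀ (m : I → ℕ), Θ (∏ v, l v ^ m v) = ∑ v, (m v : K) * Θ (l v) := fun m => by
    have h1 : Θ (∏ v, l v ^ m v) = ∑ v, Θ (l v ^ m v) := by
      simp only [Θ, ofMul_prod, map_sum]
    rw [h1]
    exact Finset.sum_congr rfl fun v _ => hpow _ _
  have h2 : (2 : K) ≠ 0 := two_ne_zero
  refine ⟨fun v => Θ (l v) - Θ Q / 2, ?_, ?_, ?_, ?_⟩
  · intro u v huv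
    have h1 : l u = l v := Units.ext huv
    simp only [h1]
  · intro u v huv
    have h1 : l u * l v = Q := Units.ext huv
    have h3 : Θ (l u) + Θ (l v) = Θ Q := by rw [← hmul, h1]
    simp only
    rw [← h3]
    ring
  · intro m i N hN hm hrel
    have h1 : (∏ v, l v ^ m v) ^ N = (Q ^ i) ^ N := by
      apply Units.ext
      push_cast
      exact hrel
    have h3 : Θ ((∏ v, l v ^ m v) ^ N) = Θ ((Q ^ i) ^ N) := by rw [h1]
    rw [hpow, hpow, hprod, hpow] at h3
    have hN' : (N : K) ≠ 0 := Nat.cast_ne_zero.mpr hN.ne'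
    have h4 := mul_left_cancel₀ hN' h3
    simp only [mul_sub]
    rw [Finset.sum_sub_distrib, h4, ← Finset.sum_mul]
    have h5 : ∑ v, (m v : K) = 2 * i := by exact_mod_cast hm
    rw [h5]
    ring
  · intro a b u v hsum
    by_contra hcon
    push Not at hcon
    have h1 : ∀ N : ℕ, 0 < N → G (a, b, u, v) ^ N ≠ 1 := by
      intro N hN h
      apply hcon N hN
      have h3 : (l a * l b * l u * l v) ^ N = (Q ^ 2) ^ N := by
        simp only [G] at h
        rw [mul_pow, inv_pow, mul_inv_eq_one] at h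
        exact h
      have h4 := congrArg Units.val h3
      push_cast at h4
      exact h4
    apply hθ ⟨(a, b, u, v), h1⟩
    change Θ (l a * l b * l u * l v * (Q ^ 2)⁻¹) = 0
    rw [hmul, hmul, hmul, hmul, hinv, hpow]
    push_cast
    linear_combination hsum

variable {K V : Type} [Field K] [AddCommGroup V] [Module K V]
  {form : LinearMap.BilinForm K V} {I : Type} [Fintype I] [DecidableEq I]

omit [Fintype I] [DecidableEq I] in
/-- Skewness can be checked on a basis. -/
lemma skew_of_basis (e : Basis I K V) (t : I → K) (tt : Module.End K V)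
    (htt : ∀ v, tt (e v) = t v • e v)
    (h : ∀ u v, form (e u) (e v) ≠ 0 → t u + t v = 0) : Skew form tt := by
  let B : LinearMap.BilinForm K V := form.comp tt LinearMap.id + form.comp LinearMap.id tt
  have hB : B = 0 := by
    apply LinearMap.BilinForm.ext_basis e
    intro u v
    change form (tt (e u)) (e v) + form (e u) (tt (e v)) = 0
    rw [htt, htt, map_smul, map_smul, LinearMap.smul_apply, smul_eq_mul, smul_eq_mul, ← add_mul]
    by_cases h1 : form (e u) (e v) = 0
    · rw [h1, mul_zero]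
    · rw [h u v h1, zero_mul]
  intro x y
  exact LinearMap.congr_fun (LinearMap.congr_fun hB x) y

omit [DecidableEq I] in
/-- The coordinates of an eigenvector. -/
lemma repr_eigen (e : Basis I K V) (t : I → K) (tt : Module.End K V)
    (htt : ∀ v, tt (e v) = t v • e v) (y : V) (μ : K) (hy : tt y = μ • y) (v : I)
    (hv : e.repr y v ≠ 0) : t v = μ := by
  have h1 : e.repr (tt y) v = t v * e.repr y v := by
    conv_lhs => rw [← e.sum_repr y]
    rw [map_sum, map_sum, Finsupp.finsetSum_apply, Finset.sum_eq_single v]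
    · rw [map_smul, htt, map_smul, map_smul, Finsupp.smul_apply, Finsupp.smul_apply,
        Basis.repr_self, Finsupp.single_eq_same, smul_eq_mul, smul_eq_mul, mul_one, mul_comm]
    · intro u _ hu
      rw [map_smul, htt, map_smul, map_smul, Finsupp.smul_apply, Finsupp.smul_apply,
        Basis.repr_self, Finsupp.single_eq_of_ne (Ne.symm hu), smul_zero, smul_zero]
    · intro h; exact absurd (Finset.mem_univ _) h
  rw [hy, map_smul, Finsupp.smul_apply, smul_eq_mul] at h1
  exact (mul_right_cancel₀ hv h1).symm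

omit [DecidableEq I] in
/-- The eigenvalues of an endomorphism which is diagonal in a basis. -/
lemma exists_of_hasEigenvalue (e : Basis I K V) (t : I → K) (tt : Module.End K V)
    (htt : ∀ v, tt (e v) = t v • e v) (μ : K) (h : tt.HasEigenvalue μ) : ∃ v, t v = μ := by
  obtain ⟨y, hy⟩ := h.exists_hasEigenvector
  have h1 : tt y = μ • y := hy.apply_eq_smul
  have h2 : ∃ v, e.repr y v ≠ 0 := by
    by_contra hcon
    push Not at hcon
    apply hy.2
    rw [← e.sum_repr y]
    refine Finset.sum_eq_zero fun v _ => ?_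
    rw [hcon v, zero_smul]
  obtain ⟨v, hv⟩ := h2
  exact ⟨v, repr_eigen e t tt htt y μ h1 v hv⟩

omit [DecidableEq I] in
/-- The eigenspaces span. -/
lemma iSup_eigenspace (e : Basis I K V) (t : I → K) (tt : Module.End K V)
    (htt : ∀ v, tt (e v) = t v • e v) : ⨆ μ, tt.eigenspace μ = ⊤ := by
  rw [Submodule.eq_top_iff']
  intro y
  rw [← e.sum_repr y]
  refine Submodule.sum_mem _ fun v _ => Submodule.smul_mem _ _ ?_
  have h1 : e v ∈ tt.eigenspace (t v) := by
    rw [Module.End.mem_eigenspace_iff]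
    exact htt v
  exact (le_iSup (fun μ => tt.eigenspace μ) (t v)) h1

/-- An isolated eigenvalue gives an isolated pair of eigenvectors of a generic cocharacter. -/
theorem exists_pair [CharZero K] (halt : ∀ x, form x x = 0)
    (hnd : ∀ x, (∀ y, form x y = 0) → x = 0)
    (q : K) (e : Basis I K V) (lam : I → K) (hlam : ∀ v, lam v ≠ 0)
    (hpair : ∀ u v, form (e u) (e v) ≠ 0 → lam u * lam v = q)
    (t : I → K)
    (h2 : ∀ u v, lam u * lam v = q → t u + t v = 0)
    (h4 : ∀ a b u v, t a + t b + t u + t v = 0 →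
        ∃ N : ℕ, 0 < N ∧ (lam a * lam b * lam u * lam v) ^ N = (q ^ 2) ^ N)
    (tt : Module.End K V) (htt : ∀ v, tt (e v) = t v • e v)
    (u₀ : I) (hsimple : ∀ v, lam v = lam u₀ → v = u₀)
    (hiso : ∀ a b c, ∀ N : ℕ, 0 < N → (lam u₀ * lam a * lam b * lam c) ^ N = (q ^ 2) ^ N →
      lam u₀ * lam a = q ∨ lam u₀ * lam b = q ∨ lam u₀ * lam c = q) :
    ∃ e' : V, tt e' = - t u₀ • e' ∧ form (e u₀) e' = 1 ∧
      (∀ y, tt y = t u₀ • y → ∃ k : K, y = k • e u₀) ∧
      (∀ y, tt y = - t u₀ • y → ∃ k : K, y = k • e') ∧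
      (∀ ν α β : K, tt.HasEigenvalue ν → tt.HasEigenvalue α → tt.HasEigenvalue β → ν ≠ t u₀ →
        t u₀ - ν = α - β → (α = t u₀ ∧ β = ν) ∨ (α = -ν ∧ β = -t u₀)) ∧
      (∀ ν α β : K, tt.HasEigenvalue ν → tt.HasEigenvalue α → tt.HasEigenvalue β → ν ≠ - t u₀ →
        - t u₀ - ν = α - β → (α = - t u₀ ∧ β = ν) ∨ (α = -ν ∧ β = - - t u₀)) := by
  have hanti : ∀ x y, form x y = - form y x := by
    intro x y
    have h1 := halt (x + y)
    simp only [map_add, LinearMap.add_apply, halt x, halt y, zero_add, add_zero] at h1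
    rw [eq_neg_iff_add_eq_zero, add_comm]
    exact h1
  have hdual : ∀ u, ∃ v, form (e u) (e v) ≠ 0 := by
    intro u
    by_contra hcon
    push Not at hcon
    apply e.ne_zero u
    apply hnd
    intro y
    rw [← e.sum_repr y, map_sum]
    refine Finset.sum_eq_zero fun v _ => ?_
    rw [map_smul, hcon v, smul_zero]
  choose d hd using hdual
  have hdq : ∀ u, lam u * lam (d u) = q := fun u => hpair u (d u) (hd u)
  have hdt : ∀ u, t (d u) = - t u := fun u => eq_neg_of_add_eq_zero_right (h2 u (d u) (hdq u))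
  have hcancel : ∀ v, lam u₀ * lam (d v) = q → v = u₀ := by
    intro v hv
    apply hsimple
    exact (mul_right_cancel₀ (hlam (d v)) ((hdq v).trans hv.symm))
  have hskew : Skew form tt := skew_of_basis e t tt htt fun u v h => h2 u v (hpair u v h)
  have hline : ∀ v, t v = t u₀ → v = u₀ := by
    intro v hv
    obtain ⟨N, hN, hrel⟩ := h4 u₀ (d v) u₀ (d v) (by rw [hdt, hv]; ring)
    rcases hiso _ _ _ N hN hrel with h | h | h
    · exact hcancel v h
    · exfalso
      have h5 : lam (d u₀) = lam u₀ := mul_left_cancel₀ (hlam u₀) ((hdq u₀).trans h.symm)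
      have h6 := hsimple _ h5
      have h7 := hd u₀
      rw [h6] at h7
      exact h7 (halt _)
    · exact hcancel v h
  have hneg : ∀ ν, tt.HasEigenvalue ν → tt.HasEigenvalue (-ν) := by
    intro ν hν
    obtain ⟨v, rfl⟩ := exists_of_hasEigenvalue e t tt htt ν hν
    rw [← hdt]
    exact Module.End.hasEigenvalue_of_hasEigenvector (x := e (d v))
      ⟨by rw [Module.End.mem_eigenspace_iff]; exact htt _, e.ne_zero _⟩
  have hmain : ∀ ν α β : K, tt.HasEigenvalue ν → tt.HasEigenvalue α → tt.HasEigenvalue β →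
      ν ≠ t u₀ → t u₀ - ν = α - β → (α = t u₀ ∧ β = ν) ∨ (α = -ν ∧ β = -t u₀) := by
    intro ν α β hν hα hβ hne heq
    obtain ⟨v, rfl⟩ := exists_of_hasEigenvalue e t tt htt ν hν
    obtain ⟨a, rfl⟩ := exists_of_hasEigenvalue e t tt htt α hα
    obtain ⟨b, rfl⟩ := exists_of_hasEigenvalue e t tt htt β hβ
    obtain ⟨N, hN, hrel⟩ := h4 u₀ (d v) b (d a) (by rw [hdt, hdt]; linear_combination heq)
    rcases hiso _ _ _ N hN hrel with h | h | h
    · exact absurd (by rw [hcancel v h]) hne
    · right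
      have h5 := h2 _ _ h
      have h6 : t b = - t u₀ := eq_neg_of_add_eq_zero_right h5
      refine ⟨?_, h6⟩
      rw [h6] at heq
      linear_combination -heq
    · left
      have h5 : t a = t u₀ := by rw [hcancel a h]
      refine ⟨h5, ?_⟩
      rw [h5] at heq
      linear_combination heq
  set k₀ : K := form (e u₀) (e (d u₀)) with hk₀
  have hk₀0 : k₀ ≠ 0 := hd u₀
  refine ⟨k₀⁻¹ • e (d u₀), ?_, ?_, ?_, ?_, hmain, ?_⟩
  · rw [map_smul, htt, hdt, smul_comm]
  · rw [map_smul, smul_eq_mul, ← hk₀, inv_mul_cancel₀ hk₀0]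
  · intro y hy
    refine ⟨e.repr y u₀, ?_⟩
    conv_lhs => rw [← e.sum_repr y]
    rw [Finset.sum_eq_single u₀]
    · intro v _ hv
      by_contra hcon
      have h5 : e.repr y v ≠ 0 := by
        intro h6
        apply hcon
        rw [h6, zero_smul]
      exact hv (hline v (repr_eigen e t tt htt y _ hy v h5))
    · intro h; exact absurd (Finset.mem_univ _) h
  · intro y hy
    refine ⟨form (e u₀) y, ?_⟩
    set e' := k₀⁻¹ • e (d u₀) with he'
    have h5 : form (e u₀) e' = 1 := by
      rw [he', map_smul, smul_eq_mul, ← hk₀, inv_mul_cancel₀ hk₀0]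
    have h6 : tt e' = - t u₀ • e' := by
      rw [he', map_smul, htt, hdt, smul_comm]
    rw [← sub_eq_zero]
    set z := y - form (e u₀) y • e' with hz
    have h7 : tt z = - t u₀ • z := by
      rw [hz, map_sub, map_smul, hy, h6, smul_sub, smul_comm]
    have h8 : form (e u₀) z = 0 := by
      rw [hz, map_sub, map_smul, h5, smul_eq_mul, mul_one, sub_self]
    have h9 : ∀ s, form (e s) z = 0 := by
      intro s
      by_cases hs : s = u₀
      · rw [hs, h8]
      · have h10 := hskew (e s) z
        rw [htt, h7, map_smul, LinearMap.smul_apply, map_smul, smul_eq_mul, smul_eq_mul,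
          ← add_mul] at h10
        refine (mul_eq_zero.mp h10).resolve_left ?_
        intro h11
        apply hs
        apply hline
        linear_combination h11
    apply hnd
    intro x
    rw [hanti, ← e.sum_repr x, map_sum, LinearMap.sum_apply, neg_eq_zero]
    refine Finset.sum_eq_zero fun s _ => ?_
    rw [map_smul, LinearMap.smul_apply, h9, smul_zero]
  · intro ν α β hν hα hβ hne heq
    rcases hmain (-ν) (-α) (-β) (hneg ν hν) (hneg α hα) (hneg β hβ) (by
      intro h
      apply hne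
      rw [← h, neg_neg]) (by linear_combination -heq) with ⟨h5, h6⟩ | ⟨h5, h6⟩
    · left
      exact ⟨by rw [← h5, neg_neg], neg_injective h6⟩
    · right
      exact ⟨by linear_combination -h5, by linear_combination -h6⟩

omit [DecidableEq I] in
/-- The values of a polynomial. -/
lemma exists_poly (lam t : I → K) (h : ∀ u v, lam u = lam v → t u = t v) :
    ∃ p : K[X], ∀ v, p.eval (lam v) = t v := by
  classical
  let f : K → K := fun z => if h : ∃ v, lam v = z then t h.choose else 0
  have hf : ∀ v, f (lam v) = t v := by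
    intro v
    have h1 : ∃ u, lam u = lam v := ⟨v, rfl⟩
    simp only [f, dif_pos h1]
    exact h _ _ h1.choose_spec
  refine ⟨Lagrange.interpolate (Finset.univ.image lam) id f, fun v => ?_⟩
  rw [← hf v]
  exact Lagrange.eval_interpolate_at_node f (Function.injective_id.injOn)
    (Finset.mem_image_of_mem lam (Finset.mem_univ v))

omit [DecidableEq I] in
/-- A diagonal endomorphism whose values depend only on the eigenvalue is a polynomial. -/
lemma exists_aeval (e : Basis I K V) (lam t : I → K) (h : ∀ u v, lam u = lam v → t u = t v)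
    (φ tt : Module.End K V) (hφ : ∀ v, φ (e v) = lam v • e v) (htt : ∀ v, tt (e v) = t v • e v) :
    ∃ p : K[X], tt = aeval φ p := by
  obtain ⟨p, hp⟩ := exists_poly lam t h
  refine ⟨p, e.ext fun v => ?_⟩
  rw [htt, Module.End.aeval_apply_of_hasEigenvector (μ := lam v)
    ⟨by rw [Module.End.mem_eigenspace_iff]; exact hφ v, e.ne_zero v⟩, hp]

/-- Polynomials in `T φ` lie in the span of the group. -/
lemma aeval_mem_span {Γ : Type} [Group Γ] (T : Γ →* Module.End K V) (φ : Γ) (p : K[X]) :
    aeval (T φ) p ∈ Submodule.span K (Set.range T) := by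
  rw [Polynomial.aeval_eq_sum_range]
  refine Submodule.sum_mem _ fun k _ => Submodule.smul_mem _ _ (Submodule.subset_span ⟨φ ^ k, ?_⟩)
  rw [map_pow]

variable {Γ : Type} [Group Γ] [TopologicalSpace Γ]

/-- A generic cocharacter kills all Tate classes. -/
theorem kills_generic [FiniteDimensional K V] [CharZero K] [IsTopologicalGroup Γ] [CompactSpace Γ]
    (T : Γ →* Module.End K V) (χ : Γ →* Kˣ) (φ : Γ) (e : Basis I K V) (lam t : I → K)
    (hφ : ∀ v, T φ (e v) = lam v • e v) (tt : Module.End K V)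
    (htt : ∀ v, tt (e v) = t v • e v)
    (hbal : ∀ (m : I → ℕ) (i N : ℕ), 0 < N → ∑ v, m v = 2 * i →
      (∏ v, lam v ^ m v) ^ N = ((((χ φ)⁻¹ : Kˣ).val) ^ i) ^ N → ∑ v, (m v : K) * t v = 0)
    (n : ℕ) : KillsV n T χ tt := by
  intro i x hx
  let A : Γ →* Matrix I I K :=
    ((LinearMap.toMatrixAlgEquiv e : Module.End K V ≃ₐ[K] Matrix I I K) :
      Module.End K V →* Matrix I I K).comp T
  have hA : ∀ γ, A γ = LinearMap.toMatrix e e (T γ) := fun γ => rfl
  have hdiag : ∀ (s : Module.End K V) (f : I → K), (∀ v, s (e v) = f v • e v) →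
      LinearMap.toMatrix e e s = Matrix.diagonal f := by
    intro s f hs
    ext u v
    rw [LinearMap.toMatrix_apply, hs, map_smul, Finsupp.smul_apply, Basis.repr_self, smul_eq_mul,
      Matrix.diagonal_apply]
    by_cases h : u = v
    · subst h; simp
    · rw [if_neg h, Finsupp.single_eq_of_ne h, mul_zero]
  rw [Dv_eq_zero_iff e, hdiag tt t htt]
  obtain ⟨hy1, U, hU⟩ := tate_co e T χ A hA n i x hx
  obtain ⟨N, hN, hmem⟩ := exists_pow_mem U φ
  apply balanced lam (((χ φ)⁻¹ : Kˣ).val) (Units.ne_zero _) N i t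
    (fun m hm hrel => hbal m i N hN hm hrel) _ hy1
  have h1 := hU _ hmem
  have h2 : (((((χ φ)⁻¹ : Kˣ).val)⁻¹) ^ N) ^ i = ((χ (φ ^ N) : Kˣ) : K) ^ i := by
    rw [map_pow, Units.val_pow_eq_pow_val, Units.val_inv_eq_inv_val, inv_inv]
  have h3 : Matrix.diagonal lam ^ N = A (φ ^ N) := by
    rw [map_pow, hA, hdiag (T φ) lam hφ]
  rw [h2, h3]
  exact h1

end Pool.Agent.Lib.MP_640417_ag.Four
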