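import Mathlib

/-!
# Strongly generic cocharacters

Over an algebraically closed field of characteristic zero there is an additive function which detects
all multiplicative relations between finitely many given elements.
-/

namespace Pool.Agent.Lib.MP_640417_ag.Four

open Module TensorProduct Polynomial

lemma prod_zpow_sum {G J : Type} [CommGroup G] (s : Finset J) (z : G) (m : J → ℤ) :
    ∏ j ∈ s, z ^ m j = z ^ ∑ j ∈ s, m j := by
  classical
  induction s using Finset.induction_on with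
  | empty => simp
  | insert a s ha ih => rw [Finset.prod_insert ha, Finset.sum_insert ha, ih, zpow_add]

/-- An algebraically closed field of characteristic zero has infinite dimension over `ℚ`. -/
lemma aleph0_le_rank (K : Type) [Field K] [CharZero K] [IsAlgClosed K] :
    Cardinal.aleph0 ≤ Module.rank ℚ K := by
  by_contra hcon
  rw [not_le, Module.rank_lt_aleph0_iff] at hcon
  obtain ⟨p, hp1, hp⟩ := Nat.exists_infinite_primes (finrank ℚ K + 2)
  have hp0 : 0 < p := hp.pos
  have hdeg : (cyclotomic p ℚ).degree ≠ 0 := by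
    rw [degree_cyclotomic, Nat.totient_prime hp]
    have : p - 1 ≠ 0 := by have := hp.two_le; omega
    exact_mod_cast this
  obtain ⟨z, hz⟩ := IsAlgClosed.exists_aeval_eq_zero K (cyclotomic p ℚ) hdeg
  have h1 : cyclotomic p ℚ = minpoly ℚ z :=
    minpoly.eq_of_irreducible_of_monic (cyclotomic.irreducible_rat hp0) hz (cyclotomic.monic p ℚ)
  have h2 := minpoly.natDegree_le (A := ℚ) z
  rw [← h1, natDegree_cyclotomic, Nat.totient_prime hp] at h2
  omega

/-- An additive function with values in `K` which detects the relations between the elements of a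
finite family. -/
theorem exists_additive_strong (G K : Type) [CommGroup G] [Field K] [CharZero K] [IsAlgClosed K]
    {ι : Type} [Fintype ι] (g : ι → G) :
    ∃ θ : Additive G →+ K, ∀ m : ι → ℤ, ∑ i, (m i : K) * θ (Additive.ofMul (g i)) = 0 →
      ∃ N : ℕ, 0 < N ∧ (∏ i, g i ^ m i) ^ N = 1 := by
  classical
  let f : Additive G →ₗ[ℤ] ℚ ⊗[ℤ] Additive G := TensorProduct.mk ℤ ℚ (Additive G) 1
  have hbc : IsLocalizedModule (nonZeroDivisors ℤ) f := by
    rw [isLocalizedModule_iff_isBaseChange (nonZeroDivisors ℤ) ℚ]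
    exact TensorProduct.isBaseChange ℤ (Additive G) ℚ
  have hf : ∀ h : G, f (Additive.ofMul h) = 0 → ∃ N : ℕ, 0 < N ∧ h ^ N = 1 := by
    intro h h0
    rw [IsLocalizedModule.eq_zero_iff (nonZeroDivisors ℤ) f] at h0
    obtain ⟨⟨s, hs⟩, hs'⟩ := h0
    have hs0 : s ≠ 0 := nonZeroDivisors.ne_zero hs
    have h1 : s • Additive.ofMul h = 0 := hs'
    have h2 : h ^ s = 1 := by
      have := congrArg Additive.toMul h1
      simpa using this
    refine ⟨s.natAbs, Int.natAbs_pos.mpr hs0, ?_⟩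
    rcases Int.natAbs_eq s with h | h
    · rw [h, zpow_natCast] at h2
      exact h2
    · rw [h, zpow_neg, inv_eq_one, zpow_natCast] at h2
      exact h2
  let M : Submodule ℚ (ℚ ⊗[ℤ] Additive G) :=
    Submodule.span ℚ (Set.range fun i => f (Additive.ofMul (g i)))
  have hMfin : FiniteDimensional ℚ M := FiniteDimensional.span_of_finite ℚ (Set.finite_range _)
  have hrank : Module.rank ℚ M ≤ Module.rank ℚ K :=
    le_trans (le_of_lt (Module.rank_lt_aleph0 ℚ M)) (aleph0_le_rank K)
  obtain ⟨ψ, hψ⟩ := rank_le_iff_exists_linearMap.mp hrank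
  obtain ⟨Ψ, hΨ⟩ := LinearMap.exists_extend ψ
  have hΨM : ∀ y (hy : y ∈ M), Ψ y = ψ ⟨y, hy⟩ := fun y hy => LinearMap.congr_fun hΨ ⟨y, hy⟩
  refine ⟨Ψ.toAddMonoidHom.comp f.toAddMonoidHom, fun m hm => ?_⟩
  apply hf
  have h1 : f (Additive.ofMul (∏ i, g i ^ m i)) = ∑ i, m i • f (Additive.ofMul (g i)) := by
    rw [ofMul_prod, map_sum]
    refine Finset.sum_congr rfl fun i _ => ?_
    rw [ofMul_zpow, map_zsmul]
  have h2 : f (Additive.ofMul (∏ i, g i ^ m i)) ∈ M := by
    rw [h1]
    refine Submodule.sum_mem _ fun i _ => ?_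
    rw [← Int.cast_smul_eq_zsmul ℚ]
    exact Submodule.smul_mem _ _ (Submodule.subset_span ⟨i, rfl⟩)
  have h3 : Ψ (f (Additive.ofMul (∏ i, g i ^ m i))) = 0 := by
    rw [h1, map_sum, ← hm]
    refine Finset.sum_congr rfl fun i _ => ?_
    rw [map_zsmul, zsmul_eq_mul]
    rfl
  rw [hΨM _ h2] at h3
  have h4 := hψ (h3.trans (map_zero ψ).symm)
  exact congrArg Subtype.val h4

/-- A strongly generic cocharacter: a function `τ` on the field such that, for all families of
elements of the finite set `S` and integral weights, the weighted sum of the values vanishes if and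
only if the monomial is the appropriate power of `q` up to a root of unity. -/
theorem exists_strong (K : Type) [Field K] [CharZero K] [IsAlgClosed K] (S : Finset K)
    (hS : ∀ z ∈ S, z ≠ 0) (q : K) (hq : q ≠ 0) :
    ∃ τ : K → K, ∀ (J : Type) [Fintype J] (μ : J → K), (∀ j, μ j ∈ S) → ∀ m : J → ℤ,
      (∑ j, (m j : K) * τ (μ j) = 0 ↔
        ∃ N : ℕ, 0 < N ∧ ((∏ j, μ j ^ m j) ^ 2) ^ N = (q ^ (∑ j, m j)) ^ N) := by
  classical
  let u : S → Kˣ := fun z => Units.mk0 z.1 (hS z.1 z.2)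
  let Q : Kˣ := Units.mk0 q hq
  obtain ⟨θ, hθ⟩ := exists_additive_strong Kˣ K (fun o : Option S => o.elim Q u)
  let Θ : Kˣ → K := fun g => θ (Additive.ofMul g)
  have hzpow : ∀ g (k : ℤ), Θ (g ^ k) = k * Θ g := fun g k => by
    simp only [Θ, ofMul_zpow, map_zsmul, zsmul_eq_mul]
  have hmul : ∀ g h, Θ (g * h) = Θ g + Θ h := fun g h => by
    simp only [Θ, ofMul_mul, map_add]
  refine ⟨fun z => (if h : z ∈ S then Θ (u ⟨z, h⟩) else 0) - Θ Q / 2, ?_⟩
  intro J _ μ hμ m
  let U : J → Kˣ := fun j => u ⟨μ j, hμ j⟩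
  have hsum : ∑ j, (m j : K) * ((if h : μ j ∈ S then Θ (u ⟨μ j, h⟩) else 0) - Θ Q / 2) =
      Θ ((∏ j, U j ^ m j) ^ 2 * Q ^ (-∑ j, m j)) / 2 := by
    rw [hmul, hzpow]
    have h1 : Θ ((∏ j, U j ^ m j) ^ 2) = 2 * ∑ j, (m j : K) * Θ (U j) := by
      have h2 : Θ ((∏ j, U j ^ m j) ^ 2) = 2 * Θ (∏ j, U j ^ m j) := by
        rw [sq, hmul]; ring
      rw [h2]
      congr 1
      have h3 : Θ (∏ j, U j ^ m j) = ∑ j, Θ (U j ^ m j) := by
        simp only [Θ, ofMul_prod, map_sum]
      rw [h3]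
      exact Finset.sum_congr rfl fun j _ => hzpow _ _
    rw [h1]
    have h2 : ∀ j, (m j : K) * ((if h : μ j ∈ S then Θ (u ⟨μ j, h⟩) else 0) - Θ Q / 2) =
        (m j : K) * Θ (U j) - (m j : K) * (Θ Q / 2) := by
      intro j
      rw [dif_pos (hμ j), mul_sub]
    rw [Finset.sum_congr rfl fun j _ => h2 j, Finset.sum_sub_distrib, ← Finset.sum_mul]
    push_cast
    ring
  rw [hsum]
  have hrel : ∀ N : ℕ, ((∏ j, U j ^ m j) ^ 2 * Q ^ (-∑ j, m j)) ^ N = 1 ↔
      ((∏ j, μ j ^ m j) ^ 2) ^ N = (q ^ (∑ j, m j)) ^ N := by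
    intro N
    rw [zpow_neg, mul_pow, inv_pow, mul_inv_eq_one]
    rw [← Units.val_inj]
    push_cast
    simp only [U, u, Q, Units.val_mk0]
  constructor
  · intro h
    have h1 : Θ ((∏ j, U j ^ m j) ^ 2 * Q ^ (-∑ j, m j)) = 0 := by
      have h2 : (2 : K) ≠ 0 := two_ne_zero
      exact (div_eq_zero_iff.mp h).resolve_right h2
    -- the relation in terms of the family
    let k : Option S → ℤ := fun o => o.elim (-∑ j, m j) fun z =>
      2 * ∑ j ∈ Finset.univ.filter (fun j => (⟨μ j, hμ j⟩ : S) = z), m j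
    have hprod : ∏ o : Option S, (o.elim Q u) ^ k o =
        (∏ j, U j ^ m j) ^ 2 * Q ^ (-∑ j, m j) := by
      rw [Fintype.prod_option, mul_comm]
      congr 1
      simp only [k, Option.elim]
      rw [← Finset.prod_fiberwise_of_maps_to (s := Finset.univ) (t := (Finset.univ : Finset S))
        (g := fun j => (⟨μ j, hμ j⟩ : S)) (fun _ _ => Finset.mem_univ _), ← Finset.prod_pow]
      refine Finset.prod_congr rfl fun z _ => ?_
      rw [two_mul, zpow_add, ← sq]
      congr 1
      rw [← prod_zpow_sum]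
      refine Finset.prod_congr rfl fun j hj => ?_
      rw [← (Finset.mem_filter.mp hj).2]
    obtain ⟨N, hN, h2⟩ := hθ k (by
      have h3 : Θ (∏ o : Option S, (o.elim Q u) ^ k o) =
          ∑ o : Option S, (k o : K) * θ (Additive.ofMul (o.elim Q u)) := by
        simp only [Θ, ofMul_prod, map_sum]
        refine Finset.sum_congr rfl fun o _ => ?_
        rw [ofMul_zpow, map_zsmul, zsmul_eq_mul]
      rw [← h3, hprod, h1])
    refine ⟨N, hN, ?_⟩
    rw [hprod] at h2
    exact (hrel N).mp h2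
  · rintro ⟨N, hN, h⟩
    have h1 := (hrel N).mpr h
    have h2 := congrArg Θ h1
    have h3 : Θ (((∏ j, U j ^ m j) ^ 2 * Q ^ (-∑ j, m j)) ^ N) =
        (N : K) * Θ ((∏ j, U j ^ m j) ^ 2 * Q ^ (-∑ j, m j)) := by
      rw [← zpow_natCast, hzpow]
      push_cast
      rfl
    have h4 : Θ 1 = 0 := by simp only [Θ, ofMul_one, map_zero]
    rw [h3, h4] at h2
    rw [(mul_eq_zero.mp h2).resolve_left (Nat.cast_ne_zero.mpr hN.ne'), zero_div]

end Pool.Agent.Lib.MP_640417_ag.Four
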