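import Pool.Agent.Lib.MP_640417_ag.Four.Spec
import Pool.Agent.Lib.MP_640417_ag.Frob.CarB

/-!
# Cayley transforms give derivations
-/

namespace Pool.Agent.Lib.MP_640417_ag.Four

open NumberField Module Pool.Agent.Lib.MP_640417_ag Pool.Agent.Lib.MP_640417_ag.Frob

private lemma expand_sum_ext {F M : Type*} [Field F] [AddCommGroup M] [Module F M] {m m' : ℕ}
    (h : m ≤ m') (y : ℕ → M) (hy : ∀ k, m ≤ k → y k = 0) (r : F) :
    ∑ k ∈ Finset.range m', r ^ k • y k = ∑ k ∈ Finset.range m, r ^ k • y k := by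
  symm
  apply Finset.sum_subset (Finset.range_mono h)
  intro k _ hk
  rw [Finset.mem_range, not_lt] at hk
  rw [hy k hk, smul_zero]

private lemma expand_Tn {I : Type} [Fintype I] [DecidableEq I] {F : Type} [Field F] (n : ℕ)
    (S : Matrix I I F) (r : F) (f : Fin n × I → F) :
    Tn n (1 + r • S) f = f + r • Tn n S f := by
  funext p
  simp only [Tn, LinearMap.pi_apply, LinearMap.sum_apply, LinearMap.smul_apply,
    LinearMap.proj_apply, smul_eq_mul, Pi.add_apply, Pi.smul_apply, Matrix.add_apply,
    Matrix.smul_apply, add_mul, Finset.sum_add_distrib, Finset.mul_sum, mul_assoc]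
  congr 1
  rw [Finset.sum_eq_single p.2]
  · rw [Matrix.one_apply_eq, one_mul]
  · intro v _ hv
    rw [Matrix.one_apply_ne (Ne.symm hv), zero_mul]
  · intro h
    exact absurd (Finset.mem_univ _) h

private lemma expand_key {I : Type} [Fintype I] [DecidableEq I] {F : Type} [Field F] (n : ℕ)
    (S : Matrix I I F) (x : Lam I F n) :
    ∃ (m : ℕ) (y : ℕ → Lam I F n), y 0 = x ∧ y 1 = DD n S x ∧ (∀ k, m ≤ k → y k = 0) ∧
      ∀ r : F, ExteriorAlgebra.map (Tn n (1 + r • S)) x = ∑ k ∈ Finset.range m, r ^ k • y k := by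
  refine CliffordAlgebra.left_induction (Q := (0 : QuadraticForm F (Fin n × I → F)))
    (P := fun x : Lam I F n => ∃ (m : ℕ) (y : ℕ → Lam I F n), y 0 = x ∧ y 1 = DD n S x ∧
      (∀ k, m ≤ k → y k = 0) ∧ ∀ r : F, ExteriorAlgebra.map (Tn n (1 + r • S)) x =
        ∑ k ∈ Finset.range m, r ^ k • y k) ?_ ?_ ?_ x
  · intro c
    refine ⟨1, fun k => if k = 0 then algebraMap F _ c else 0, if_pos rfl, ?_, ?_, ?_⟩
    · show (if (1 : ℕ) = 0 then algebraMap F (Lam I F n) c else 0) = _
      rw [if_neg one_ne_zero]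
      exact (DD_algebraMap S c).symm
    · intro k hk
      exact if_neg (by omega)
    · intro r
      rw [Finset.sum_range_one, pow_zero, one_smul]
      exact AlgHom.commutes _ c
  · rintro x x' ⟨m, y, h0, h1, hm, h⟩ ⟨m', y', h0', h1', hm', h'⟩
    refine ⟨m + m', fun k => y k + y' k, ?_, ?_, ?_, ?_⟩
    · show y 0 + y' 0 = x + x'
      rw [h0, h0']
    · show y 1 + y' 1 = DD n S (x + x')
      rw [h1, h1']
      exact (map_add (DD n S) x x').symm
    · intro k hk
      show y k + y' k = 0
      rw [hm k (by omega), hm' k (by omega), add_zero]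
    · intro r
      rw [map_add, h r, h' r, ← expand_sum_ext (Nat.le_add_right m m') y hm r,
        ← expand_sum_ext (Nat.le_add_left m' m) y' hm' r, ← Finset.sum_add_distrib]
      exact Finset.sum_congr rfl fun k _ => (smul_add _ _ _).symm
  · rintro x f ⟨m, y, h0, h1, hm, h⟩
    refine ⟨m + 1, fun k => match k with
      | 0 => ExteriorAlgebra.ι F f * y 0
      | k + 1 => ExteriorAlgebra.ι F f * y (k + 1) + ExteriorAlgebra.ι F (Tn n S f) * y k,
      ?_, ?_, ?_, ?_⟩
    · show ExteriorAlgebra.ι F f * y 0 = _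
      rw [h0]
    · show ExteriorAlgebra.ι F f * y (0 + 1) + ExteriorAlgebra.ι F (Tn n S f) * y 0 = _
      rw [h0, zero_add, h1]
      have := DD_ι_mul S f x
      rw [add_comm]
      exact this.symm
    · intro k hk
      obtain ⟨j, rfl⟩ : ∃ j, k = j + 1 := ⟨k - 1, by omega⟩
      show ExteriorAlgebra.ι F f * y (j + 1) + ExteriorAlgebra.ι F (Tn n S f) * y j = 0
      rw [hm _ (by omega), hm _ (by omega), mul_zero, mul_zero, add_zero]
    · intro r
      have e1 : ExteriorAlgebra.map (Tn n (1 + r • S))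
          ((CliffordAlgebra.ι (0 : QuadraticForm F (Fin n × I → F))) f * x) =
          ExteriorAlgebra.ι F (Tn n (1 + r • S) f) * ExteriorAlgebra.map (Tn n (1 + r • S)) x := by
        have := map_mul (ExteriorAlgebra.map (Tn n (1 + r • S))) (ExteriorAlgebra.ι F f) x
        rw [ExteriorAlgebra.map_apply_ι] at this
        exact this
      rw [e1, h r, expand_Tn, map_add, map_smul, add_mul, Finset.sum_range_succ']
      show _ = ∑ k ∈ Finset.range m, r ^ (k + 1) •
          (ExteriorAlgebra.ι F f * y (k + 1) + ExteriorAlgebra.ι F (Tn n S f) * y k) +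
        r ^ 0 • (ExteriorAlgebra.ι F f * y 0)
      have e2 : ExteriorAlgebra.ι F f * ∑ k ∈ Finset.range m, r ^ k • y k =
          ∑ k ∈ Finset.range m, r ^ (k + 1) • (ExteriorAlgebra.ι F f * y (k + 1)) +
            r ^ 0 • (ExteriorAlgebra.ι F f * y 0) := by
        rw [← expand_sum_ext (Nat.le_succ m) y hm r, Finset.mul_sum, Nat.succ_eq_add_one,
          Finset.sum_range_succ']
        simp only [mul_smul_comm]
      have e3 : (r • ExteriorAlgebra.ι F (Tn n S f)) * ∑ k ∈ Finset.range m, r ^ k • y k =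
          ∑ k ∈ Finset.range m, r ^ (k + 1) • (ExteriorAlgebra.ι F (Tn n S f) * y k) := by
        rw [Finset.mul_sum]
        refine Finset.sum_congr rfl fun k _ => ?_
        rw [smul_mul_smul_comm, pow_succ, mul_comm r]
      rw [e2, e3]
      simp only [smul_add, Finset.sum_add_distrib]
      abel

theorem pExpand : SExpand := by
  intro I _ _ F _ _ n S x R hR h
  obtain ⟨m, y, -, h1, hm, hy⟩ := expand_key n S x
  rw [← h1]
  rw [← Module.forall_dual_apply_eq_zero_iff F (y 1)]
  intro φ
  by_cases h2 : m ≤ 1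
  · rw [hm 1 h2, map_zero]
  · set p : Polynomial F := ∑ k ∈ Finset.range m,
      Polynomial.monomial k ((1 - (-1) ^ k) * φ (y k)) with hp
    have hroot : ∀ r ∈ R, Polynomial.IsRoot p r := by
      intro r hr
      have e := h r hr
      have e' : (1 : Matrix I I F) - r • S = 1 + (-r) • S := by
        rw [neg_smul, sub_eq_add_neg]
      rw [e', hy, hy] at e
      have e2 := congrArg φ e
      simp only [map_sum, map_smul, smul_eq_mul] at e2
      rw [Polynomial.IsRoot.def, hp, Polynomial.eval_finset_sum]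
      simp only [Polynomial.eval_monomial]
      have e3 : ∑ k ∈ Finset.range m, (1 - (-1) ^ k) * φ (y k) * r ^ k =
          ∑ k ∈ Finset.range m, r ^ k * φ (y k) - ∑ k ∈ Finset.range m, (-r) ^ k * φ (y k) := by
        rw [← Finset.sum_sub_distrib]
        refine Finset.sum_congr rfl fun k _ => ?_
        rw [neg_pow r k]
        ring
      rw [e3, e2, sub_self]
    have hp0 : p = 0 := Polynomial.eq_zero_of_infinite_isRoot p (hR.mono hroot)
    have hc : p.coeff 1 = 2 * φ (y 1) := by
      rw [hp, Polynomial.finset_sum_coeff, Finset.sum_eq_single 1]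
      · rw [Polynomial.coeff_monomial, if_pos rfl]
        norm_num
      · intro k _ hk
        rw [Polynomial.coeff_monomial, if_neg hk]
      · intro hn
        exact absurd (Finset.mem_range.2 (by omega)) hn
    rw [hp0, Polynomial.coeff_zero] at hc
    have h20 : (2 : F) ≠ 0 := two_ne_zero
    exact (mul_eq_zero.1 hc.symm).resolve_left h20

end Pool.Agent.Lib.MP_640417_ag.Four
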