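import Pool.Agent.Lib.MP_640417_ag.Frob.LieA
import Pool.Agent.Lib.MP_640417_ag.Frob.LieB

/-!
# The root elements of `R0` kill all Tate classes, if a generic cocharacter does
-/

namespace Pool.Agent.Lib.MP_640417_ag.Four

open Module Pool.Agent.Lib.MP_640417_ag.Frob

/-- The differences of the values of `t` coincide only if they have to. -/
def Sep {I F : Type} [Field F] (c : I → I) (t : I → F) : Prop :=
  ∀ u v a b : I, u ≠ v → t v - t u = t a - t b → (a = v ∧ b = u) ∨ (a = c u ∧ b = c v)

variable {I : Type} [Fintype I] [DecidableEq I] {F : Type} [Field F] {n : ℕ}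
  {Γ : Type} [Group Γ] [TopologicalSpace Γ]

/-- Killing the entries in a finite set of pairs. -/
private lemma LieB_kill (c : I → I) (t : I → F) (hsep : Sep c t)
    (L : Submodule F (Matrix I I F))
    (had : ∀ M ∈ L, Matrix.diagonal t * M - M * Matrix.diagonal t ∈ L)
    (M : Matrix I I F) (hM : M ∈ L) (u v : I) (huv : u ≠ v) (B : Finset (I × I))
    (hB : ∀ p ∈ B, p ≠ (v, u) ∧ p ≠ (c u, c v)) :
    ∃ N ∈ L, N v u = M v u ∧ ∀ p ∈ B, N p.1 p.2 = 0 := by
  induction B using Finset.induction_on with
  | empty => exact ⟨M, hM, rfl, fun p hp => absurd hp (Finset.notMem_empty p)⟩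
  | insert q B _ ih =>
    obtain ⟨N, hN, h1, h2⟩ := ih fun p hp => hB p (Finset.mem_insert_of_mem hp)
    obtain ⟨hq1, hq2⟩ := hB q (Finset.mem_insert_self q B)
    have hne' : (t v - t u) - (t q.1 - t q.2) ≠ 0 := by
      intro h
      rcases hsep u v q.1 q.2 huv (sub_eq_zero.mp h) with ⟨e1, e2⟩ | ⟨e1, e2⟩
      · exact hq1 (Prod.ext e1 e2)
      · exact hq2 (Prod.ext e1 e2)
    have key : ∀ x y, (((t v - t u) - (t q.1 - t q.2))⁻¹ •
        ((Matrix.diagonal t * N - N * Matrix.diagonal t) - (t q.1 - t q.2) • N)) x y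
        = ((t v - t u) - (t q.1 - t q.2))⁻¹ * (((t x - t y) - (t q.1 - t q.2)) * N x y) := by
      intro x y
      simp only [Matrix.smul_apply, Matrix.sub_apply, Matrix.diagonal_mul, Matrix.mul_diagonal,
        smul_eq_mul]
      ring
    refine ⟨((t v - t u) - (t q.1 - t q.2))⁻¹ •
        ((Matrix.diagonal t * N - N * Matrix.diagonal t) - (t q.1 - t q.2) • N), ?_, ?_, ?_⟩
    · exact L.smul_mem _ (L.sub_mem (had N hN) (L.smul_mem _ hN))
    · rw [key, ← mul_assoc, inv_mul_cancel₀ hne', one_mul, h1]
    · intro p hp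
      rw [key]
      rcases Finset.mem_insert.mp hp with h | h
      · rw [h, sub_self, zero_mul, mul_zero]
      · rw [h2 p h, mul_zero, mul_zero]

/-- If a linear subspace of the symplectic Lie algebra is stable under the commutators with a
generic diagonal matrix, it contains the root elements of the nonzero off-diagonal entries of its
members. -/
lemma projection (c : I → I) (hc : ∀ v, c (c v) = v)
    (w : I → F) (hw : ∀ v, w v ≠ 0) (hwc : ∀ v, w (c v) = - w v)
    (t : I → F) (hsep : Sep c t)
    (L : Submodule F (Matrix I I F))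
    (hL : ∀ M ∈ L, M.transpose * Om c w + Om c w * M = 0)
    (had : ∀ M ∈ L, Matrix.diagonal t * M - M * Matrix.diagonal t ∈ L)
    (M : Matrix I I F) (hM : M ∈ L) (u v : I) (huv : u ≠ v) (hne : M v u ≠ 0) :
    XX c w v u ∈ L := by
  obtain ⟨N, hN, h1, h2⟩ := LieB_kill c t hsep L had M hM u v huv
    (Finset.univ.filter fun p => p ≠ (v, u) ∧ p ≠ (c u, c v))
    (fun p hp => (Finset.mem_filter.mp hp).2)
  have h0 : ∀ a b, (a, b) ≠ (v, u) → (a, b) ≠ (c u, c v) → N a b = 0 := fun a b ha hb =>
    h2 (a, b) (Finset.mem_filter.mpr ⟨Finset.mem_univ _, ha, hb⟩)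
  have hNne : N v u ≠ 0 := by rw [h1]; exact hne
  -- the relation between the two entries
  have hrel : w u * N (c u) (c v) = - (w v * N v u) := by
    have h := congrFun (congrFun (hL N hN) (c v)) u
    rw [Matrix.add_apply, Matrix.mul_apply, Matrix.mul_apply, Matrix.zero_apply] at h
    have e1 : ∑ k, N.transpose (c v) k * Om c w k u = N (c u) (c v) * w (c u) := by
      rw [Finset.sum_eq_single (c u)]
      · simp only [Matrix.transpose_apply, Om, Matrix.of_apply, hc, if_true]
      · intro k _ hk
        have : ¬ (u = c k) := fun h => hk (by rw [h, hc])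
        simp only [Om, Matrix.of_apply, if_neg this, mul_zero]
      · intro h
        exact absurd (Finset.mem_univ _) h
    have e2 : ∑ k, Om c w (c v) k * N k u = w (c v) * N v u := by
      rw [Finset.sum_eq_single v]
      · simp only [Om, Matrix.of_apply, hc, if_true]
      · intro k _ hk
        have : ¬ (k = c (c v)) := fun h => hk (by rw [h, hc])
        simp only [Om, Matrix.of_apply, if_neg this, zero_mul]
      · intro h
        exact absurd (Finset.mem_univ _) h
    rw [e1, e2, hwc, hwc] at h
    linear_combination -h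
  by_cases k : v = c u
  · have hcv : c v = u := by rw [k, hc]
    have hwv : w v = - w u := by rw [k, hwc]
    have hX : XX c w v u = ((2 * w u) * (N v u)⁻¹) • N := by
      ext a b
      unfold XX
      rw [← k, hcv, hwv]
      simp only [Matrix.sub_apply, Matrix.smul_apply, Matrix.single_apply, smul_eq_mul]
      by_cases hab : v = a ∧ u = b
      · rw [if_pos hab, ← hab.1, ← hab.2]
        field_simp
        ring
      · rw [if_neg hab, h0 a b]
        · ring
        · intro h
          exact hab ⟨(Prod.mk.inj h).1.symm, (Prod.mk.inj h).2.symm⟩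
        · rw [← k, hcv]
          intro h
          exact hab ⟨(Prod.mk.inj h).1.symm, (Prod.mk.inj h).2.symm⟩
    rw [hX]
    exact L.smul_mem _ hN
  · have hX : XX c w v u = (w u * (N v u)⁻¹) • N := by
      ext a b
      unfold XX
      simp only [Matrix.sub_apply, Matrix.smul_apply, Matrix.single_apply, smul_eq_mul]
      by_cases hab : v = a ∧ u = b
      · have hn : ¬ (c u = a ∧ c v = b) := fun h => k (hab.1.trans h.1.symm)
        rw [if_pos hab, if_neg hn, ← hab.1, ← hab.2]
        field_simp
        ring
      · rw [if_neg hab]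
        by_cases hcd : c u = a ∧ c v = b
        · rw [if_pos hcd, ← hcd.1, ← hcd.2]
          field_simp
          linear_combination -hrel
        · rw [if_neg hcd, h0 a b]
          · ring
          · intro h
            exact hab ⟨(Prod.mk.inj h).1.symm, (Prod.mk.inj h).2.symm⟩
          · intro h
            exact hcd ⟨(Prod.mk.inj h).1.symm, (Prod.mk.inj h).2.symm⟩
    rw [hX]
    exact L.smul_mem _ hN

/-- The matrices all of whose off-diagonal nonzero entries have a root element that kills. -/
private def lieR1 [CharZero F] (n : ℕ) (c : I → I) (hc : ∀ v, c (c v) = v)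
    (w : I → F) (hw : ∀ v, w v ≠ 0) (hwc : ∀ v, w (c v) = - w v)
    (A : Γ →* Matrix I I F) (χ : Γ →* Fˣ) : Subalgebra F (Matrix I I F) where
  carrier := {M | ∀ a b, a ≠ b → M a b ≠ 0 → Kills n A χ (XX c w a b)}
  mul_mem' := by
    intro M M' hM hM' a b hab hne
    rw [Matrix.mul_apply] at hne
    obtain ⟨s, -, hs⟩ := Finset.exists_ne_zero_of_sum_ne_zero hne
    have h1 : M a s ≠ 0 := left_ne_zero_of_mul hs
    have h2 : M' s b ≠ 0 := right_ne_zero_of_mul hs
    by_cases hsa : s = a
    · subst hsa; exact hM' s b hab h2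
    by_cases hsb : s = b
    · subst hsb; exact hM a s hab h1
    have k1 : Kills n A χ (XX c w a s) := hM a s (Ne.symm hsa) h1
    have k2 : Kills n A χ (XX c w s b) := hM' s b hsb h2
    have k3 := kills_comm A χ k1 k2
    rw [XX_comm c hc w hwc b s a (Ne.symm hsb) hsa (Ne.symm hab), smul_smul] at k3
    set r : F := ((if s = c b then 2 else 1) + (if s = c a then 1 else 0) : F) * w s with hr
    have hr0 : r ≠ 0 := by
      refine mul_ne_zero ?_ (hw s)
      split_ifs <;> norm_num
    have k4 := kills_smul A χ r⁻¹ k3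
    rwa [smul_smul, inv_mul_cancel₀ hr0, one_smul] at k4
  add_mem' := by
    intro M M' hM hM' a b hab hne
    by_cases h1 : M a b = 0
    · refine hM' a b hab (fun h2 => hne ?_)
      rw [Matrix.add_apply, h1, h2, add_zero]
    · exact hM a b hab h1
  algebraMap_mem' := by
    intro r a b hab hne
    exact absurd (Matrix.algebraMap_matrix_apply.trans (if_neg hab)) hne

lemma lie_diag_symp (c : I → I) (w t : I → F) (ht : ∀ v, t (c v) = - t v) :
    (Matrix.diagonal t).transpose * Om c w + Om c w * Matrix.diagonal t = 0 := by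
  ext u v
  rw [Matrix.diagonal_transpose, Matrix.add_apply, Matrix.diagonal_mul, Matrix.mul_diagonal,
    Matrix.zero_apply]
  by_cases h : v = c u
  · subst h
    rw [ht u]; ring
  · simp [Om, h]

/-- The matrices in the symplectic Lie algebra that kill all Tate classes. -/
private def lieL (n : ℕ) (c : I → I) (w : I → F) (A : Γ →* Matrix I I F) (χ : Γ →* Fˣ) :
    Submodule F (Matrix I I F) where
  carrier := {M | M.transpose * Om c w + Om c w * M = 0 ∧ Kills n A χ M}
  zero_mem' := by
    refine ⟨by simp, ?_⟩
    intro i x _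
    have : DD n (0 : Matrix I I F) = 0 := by simp [DD]
    rw [this]; rfl
  add_mem' := by
    rintro M M' ⟨h1, h2⟩ ⟨h3, h4⟩
    refine ⟨?_, kills_add A χ h2 h4⟩
    rw [Matrix.transpose_add, add_mul, mul_add]
    calc _ = (M.transpose * Om c w + Om c w * M) + (M'.transpose * Om c w + Om c w * M') := by abel
      _ = 0 := by rw [h1, h3, add_zero]
  smul_mem' := by
    rintro r M ⟨h1, h2⟩
    refine ⟨?_, kills_smul A χ r h2⟩
    rw [Matrix.transpose_smul, Matrix.smul_mul, Matrix.mul_smul, ← smul_add, h1, smul_zero]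

private lemma lie_conj_symp (c : I → I) (w : I → F) {B B' T : Matrix I I F} (hB : B * B' = 1)
    {k : F} (hform : B.transpose * Om c w * B = k • Om c w)
    (hT : T.transpose * Om c w + Om c w * T = 0) :
    (B * T * B').transpose * Om c w + Om c w * (B * T * B') = 0 := by
  have e1 : B.transpose * Om c w = k • (Om c w * B') := by
    have := congrArg (fun M => M * B') hform
    simp only [Matrix.mul_assoc, hB, Matrix.mul_one, Matrix.smul_mul] at this
    exact this
  have hB' : B'.transpose * B.transpose = 1 := by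
    rw [← Matrix.transpose_mul, hB, Matrix.transpose_one]
  have e2 : Om c w * B = k • (B'.transpose * Om c w) := by
    have := congrArg (fun M => B'.transpose * M) hform
    simp only [← Matrix.mul_assoc, hB', Matrix.one_mul, Matrix.mul_smul] at this
    exact this
  have e3 : (B * T * B').transpose * Om c w = k • (B'.transpose * (T.transpose * Om c w) * B') := by
    rw [Matrix.transpose_mul, Matrix.transpose_mul, Matrix.mul_assoc, Matrix.mul_assoc, e1,
      Matrix.mul_smul, Matrix.mul_smul]
    simp only [Matrix.mul_assoc]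
  have e4 : Om c w * (B * T * B') = k • (B'.transpose * (Om c w * T) * B') := by
    rw [← Matrix.mul_assoc, ← Matrix.mul_assoc, e2, Matrix.smul_mul, Matrix.smul_mul]
    simp only [Matrix.mul_assoc]
  rw [e3, e4, ← smul_add, ← Matrix.add_mul, ← Matrix.mul_add, hT]
  simp

/-- Conjugation as an algebra homomorphism. -/
private def lieConj (B B' : Matrix I I F) (h : B * B' = 1) (h' : B' * B = 1) :
    Matrix I I F →ₐ[F] Matrix I I F :=
  AlgHom.ofLinearMap (LinearMap.mulLeft F B ∘ₗ LinearMap.mulRight F B')
    (by simp [h]) (by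
      intro x y
      simp only [LinearMap.comp_apply, LinearMap.mulLeft_apply, LinearMap.mulRight_apply]
      calc B * (x * y * B') = B * x * 1 * (y * B') := by
            simp only [Matrix.mul_assoc, Matrix.mul_one]
        _ = B * (x * B') * (B * (y * B')) := by
            rw [← h']; simp only [Matrix.mul_assoc])

private lemma lieConj_apply (B B' : Matrix I I F) (h : B * B' = 1) (h' : B' * B = 1)
    (M : Matrix I I F) : lieConj B B' h h' M = B * M * B' := by
  simp [lieConj, Matrix.mul_assoc]

private lemma lie_aeval_diagonal (t : I → F) (p : Polynomial F) :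
    Polynomial.aeval (Matrix.diagonal t) p = Matrix.diagonal (fun v => p.eval (t v)) := by
  have h1 : Matrix.diagonal t = Matrix.diagonalAlgHom F t := rfl
  rw [h1, Polynomial.aeval_algHom_apply]
  have h2 : Polynomial.aeval t p = fun v => p.eval (t v) := by
    funext v
    have := Polynomial.aeval_algHom_apply (Pi.evalAlgHom F (fun _ : I => F) v) t p
    simp only [Pi.evalAlgHom_apply] at this
    rw [← this, Polynomial.coe_aeval_eq_eval]
  rw [h2]
  rfl

/-- The root elements attached to the algebra `R0` kill all Tate classes, if a generic diagonal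
matrix does. -/
theorem kills_of_mem_R0 [CharZero F] [IsTopologicalGroup Γ] (c : I → I) (hc : ∀ v, c (c v) = v)
    (w : I → F) (hw : ∀ v, w v ≠ 0) (hwc : ∀ v, w (c v) = - w v)
    (A : Γ →* Matrix I I F) (χ : Γ →* Fˣ)
    (hform : ∀ γ, (A γ).transpose * Om c w * A γ = ((χ γ)⁻¹ : Fˣ).val • Om c w)
    (t : I → F) (ht : ∀ v, t (c v) = - t v) (hinj : Function.Injective t) (hsep : Sep c t)
    (hdiag : Kills n A χ (Matrix.diagonal t))
    (u v : I) (huv : u ≠ v) (h : Matrix.single v u (1 : F) ∈ R0 A) :
    Kills n A χ (XX c w v u) := by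
  classical
  have hAA : ∀ γ, A γ * A γ⁻¹ = 1 := fun γ => by rw [← map_mul, mul_inv_cancel, map_one]
  have hAA' : ∀ γ, A γ⁻¹ * A γ = 1 := fun γ => by rw [← map_mul, inv_mul_cancel, map_one]
  have hodd : ∀ γ : Γ, A γ * Matrix.diagonal t * A γ⁻¹ ∈ lieR1 n c hc w hw hwc A χ := by
    intro γ a b hab hne
    have hmem : A γ * Matrix.diagonal t * A γ⁻¹ ∈ lieL n c w A χ :=
      ⟨lie_conj_symp c w (hAA γ) (hform γ) (lie_diag_symp c w t ht),
        kills_conj A χ hdiag γ⟩
    have := projection c hc w hw hwc t hsep (lieL n c w A χ) (fun M hM => hM.1) (by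
      rintro M ⟨hM1, hM2⟩
      refine ⟨?_, kills_comm A χ hdiag hM2⟩
      have hS := lie_diag_symp c w t ht
      set T := Matrix.diagonal t
      have e1 : T.transpose * Om c w = -(Om c w * T) := eq_neg_of_add_eq_zero_left hS
      have e2 : M.transpose * Om c w = -(Om c w * M) := eq_neg_of_add_eq_zero_left hM1
      rw [Matrix.transpose_sub, Matrix.transpose_mul, Matrix.transpose_mul, Matrix.sub_mul,
        Matrix.mul_assoc, e1, Matrix.mul_assoc, e2, Matrix.mul_neg, Matrix.mul_neg,
        ← Matrix.mul_assoc, e2, ← Matrix.mul_assoc, e1, Matrix.mul_sub, Matrix.neg_mul,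
        Matrix.neg_mul]
      simp only [Matrix.mul_assoc]
      abel) _ hmem b a (Ne.symm hab) hne
    exact this.2
  have hall : ∀ (γ : Γ) (d : I → F),
      A γ * Matrix.diagonal d * A γ⁻¹ ∈ lieR1 n c hc w hw hwc A χ := by
    intro γ d
    set p : Polynomial F := Lagrange.interpolate Finset.univ t d with hp
    have hd : Matrix.diagonal d = Polynomial.aeval (Matrix.diagonal t) p := by
      rw [lie_aeval_diagonal]
      congr 1
      funext v
      exact (Lagrange.eval_interpolate_at_node d (hinj.injOn) (Finset.mem_univ v)).symm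
    have h1 : A γ * Matrix.diagonal d * A γ⁻¹ =
        Polynomial.aeval (A γ * Matrix.diagonal t * A γ⁻¹) p := by
      rw [hd, ← lieConj_apply (A γ) (A γ⁻¹) (hAA γ) (hAA' γ), ← Polynomial.aeval_algHom_apply,
        lieConj_apply]
    rw [h1]
    have h2 : Algebra.adjoin F {A γ * Matrix.diagonal t * A γ⁻¹} ≤
        lieR1 n c hc w hw hwc A χ := by
      apply Algebra.adjoin_le
      rintro _ rfl
      exact hodd γ
    exact h2 (Polynomial.aeval_mem_adjoin_singleton F _)
  have hle : R0 A ≤ lieR1 n c hc w hw hwc A χ := by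
    apply Algebra.adjoin_le
    rintro _ ⟨γ, d, rfl⟩
    exact hall γ d
  exact hle h v u (Ne.symm huv) (by simp)

end Pool.Agent.Lib.MP_640417_ag.Four
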