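import Pool.Agent.Lib.MP_640417_ag.Four.Gen
import Pool.Agent.Lib.MP_640417_ag.Four.Lie

/-!
# A generic cocharacter separates the roots, if there are no four-term relations
-/

namespace Pool.Agent.Lib.MP_640417_ag.Four

open Module Pool.Agent.Lib.MP_640417_ag.Frob

/-- If there are no nontrivial relations between four eigenvalues, the values of a generic cocharacter
are different and their differences coincide only if they have to. -/
theorem sep_of_four {I F : Type} [Field F] [CharZero F] (c : I → I) (hc : ∀ v, c (c v) = v)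
    (hcne : ∀ v, c v ≠ v) (lam : I → F) (q : F) (t : I → F) (ht : ∀ v, t (c v) = - t v)
    (hgen : ∀ a b u v, t a + t b + t u + t v = 0 →
      ∃ N : ℕ, 0 < N ∧ (lam a * lam b * lam u * lam v) ^ N = (q ^ 2) ^ N)
    (h4 : ∀ (a b u v : I) (N : ℕ), 0 < N → (lam a * lam b * lam u * lam v) ^ N = (q ^ 2) ^ N →
      b = c a ∨ u = c a ∨ v = c a) :
    Function.Injective t ∧ Sep c t := by
  have hcinj : ∀ a b, c a = c b → a = b := fun a b h => by rw [← hc a, h, hc]
  have h4' : ∀ a b u v, t a + t b + t u + t v = 0 → b = c a ∨ u = c a ∨ v = c a := by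
    intro a b u v h
    obtain ⟨N, hN, hrel⟩ := hgen a b u v h
    exact h4 a b u v N hN hrel
  have hinj : Function.Injective t := by
    intro x y hxy
    have h1 := h4' x (c y) x (c y) (by rw [ht, hxy]; ring)
    rcases h1 with h | h | h
    · exact (hcinj _ _ h).symm
    · exact absurd h.symm (hcne x)
    · exact (hcinj _ _ h).symm
  refine ⟨hinj, ?_⟩
  intro u v a b huv h
  have h1 := h4' v (c u) b (c a) (by rw [ht, ht]; linear_combination h)
  rcases h1 with h2 | h2 | h2
  · exact absurd (hcinj _ _ h2) huv
  · right
    refine ⟨?_, h2⟩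
    apply hinj
    rw [h2, ht] at h
    rw [ht]
    linear_combination -h
  · left
    have h3 : a = v := hcinj _ _ h2
    refine ⟨h3, ?_⟩
    apply hinj
    rw [h3] at h
    linear_combination h

end Pool.Agent.Lib.MP_640417_ag.Four
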