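import Pool.Agent.Lib.MP_640417_ag.Frob.SemiA
import Pool.Agent.Lib.MP_640417_ag.Frob.OpenA

/-!
# The block relation of a semisimple group is symmetric
-/

namespace Pool.Agent.Lib.MP_640417_ag.Four

open Module Pool.Agent.Lib.MP_640417_ag.Frob

variable {I : Type} [Fintype I] [DecidableEq I] {F : Type} [Field F]
  {Γ : Type} [Group Γ] [TopologicalSpace Γ]

lemma rel_refl (A : Γ →* Matrix I I F) (a : I) : rel A a a := by
  have h1 : Matrix.single a a (1 : F) = Matrix.diagonal (Pi.single a (1 : F)) := by
    rw [Matrix.diagonal_single]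
  unfold rel
  rw [h1]
  exact diagonal_mem_R0 A _

lemma rel_trans (A : Γ →* Matrix I I F) {a b c : I} (h1 : rel A a b) (h2 : rel A b c) :
    rel A a c := by
  unfold rel at *
  have h3 : Matrix.single a c (1 : F) = Matrix.single a b (1 : F) * Matrix.single b c (1 : F) := by
    rw [Matrix.single_mul_single_same, one_mul]
  rw [h3]
  exact mul_mem h1 h2

/-- The minimal elements. -/
def Soc (A : Γ →* Matrix I I F) (a : I) : Prop := ∀ b, rel A b a → rel A a b

lemma soc_closed (A : Γ →* Matrix I I F) {a b : I} (γ : Γ) (ha : Soc A a) (hne : A γ b a ≠ 0) :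
    Soc A b := by
  intro b' hb'
  have h1 := R0_conj A γ⁻¹ _ hb'
  rw [inv_inv] at h1
  have hent : ∀ s, (A γ⁻¹ * Matrix.single b' b (1 : F) * A γ) s a = A γ⁻¹ s b' * A γ b a := by
    intro s
    rw [Matrix.mul_apply, Finset.sum_eq_single b]
    · rw [Matrix.mul_apply, Finset.sum_eq_single b']
      · rw [Matrix.single_apply_same, mul_one]
      · intro k _ hk
        rw [Matrix.single_apply_of_row_ne (Ne.symm hk), mul_zero]
      · intro h; exact absurd (Finset.mem_univ _) h
    · intro k _ hk
      rw [Matrix.mul_apply, Finset.sum_eq_zero, zero_mul]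
      intro j _
      rw [Matrix.single_apply_of_col_ne _ _ (Ne.symm hk), mul_zero]
    · intro h; exact absurd (Finset.mem_univ _) h
  have hcol : ∃ s, A γ⁻¹ s b' ≠ 0 := by
    by_contra hcon
    push Not at hcon
    have h2 := congrFun (congrFun (SemiA_mul_inv A γ) b') b'
    rw [Matrix.mul_apply, Matrix.one_apply_eq, Finset.sum_eq_zero] at h2
    · exact zero_ne_one h2
    · intro s _
      rw [hcon s, mul_zero]
  obtain ⟨s, hs⟩ := hcol
  have h2 : rel A s a := single_mem_R0 A _ h1 s a (by rw [hent]; exact mul_ne_zero hs hne)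
  have h3 : rel A a s := ha s h2
  have h4 := R0_conj A γ _ h3
  apply single_mem_R0 A _ h4 b b'
  have h5 : (A γ * Matrix.single a s (1 : F) * A γ⁻¹) b b' = A γ b a * A γ⁻¹ s b' := by
    rw [Matrix.mul_apply, Finset.sum_eq_single s]
    · rw [Matrix.mul_apply, Finset.sum_eq_single a]
      · rw [Matrix.single_apply_same, mul_one]
      · intro k _ hk
        rw [Matrix.single_apply_of_row_ne (Ne.symm hk), mul_zero]
      · intro h; exact absurd (Finset.mem_univ _) h
    · intro k _ hk
      rw [Matrix.mul_apply, Finset.sum_eq_zero, zero_mul]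
      intro j _
      rw [Matrix.single_apply_of_col_ne _ _ (Ne.symm hk), mul_zero]
    · intro h; exact absurd (Finset.mem_univ _) h
  rw [h5]
  exact mul_ne_zero hne hs

lemma exists_soc (A : Γ →* Matrix I I F) (b : I) : ∃ a, Soc A a ∧ rel A a b := by
  classical
  have key : ∀ (m : ℕ) (b : I), (Finset.univ.filter (fun x => rel A x b)).card ≤ m →
      ∃ a, Soc A a ∧ rel A a b := by
    intro m
    induction m with
    | zero =>
      intro b hb
      exfalso
      have h1 : b ∈ Finset.univ.filter (fun x => rel A x b) :=
        Finset.mem_filter.mpr ⟨Finset.mem_univ _, rel_refl A b⟩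
      have := Finset.card_pos.mpr ⟨b, h1⟩
      omega
    | succ m ih =>
      intro b hb
      by_cases hs : Soc A b
      · exact ⟨b, hs, rel_refl A b⟩
      · unfold Soc at hs
        push Not at hs
        obtain ⟨b', h1, h2⟩ := hs
        have h3 : (Finset.univ.filter (fun x => rel A x b')).card
            < (Finset.univ.filter (fun x => rel A x b)).card := by
          apply Finset.card_lt_card
          refine ⟨?_, ?_⟩
          · intro x hx
            rw [Finset.mem_filter] at hx ⊢
            exact ⟨hx.1, rel_trans A hx.2 h1⟩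
          · intro hsub
            have h4 : b ∈ Finset.univ.filter (fun x => rel A x b) :=
              Finset.mem_filter.mpr ⟨Finset.mem_univ _, rel_refl A b⟩
            exact h2 (Finset.mem_filter.mp (hsub h4)).2
        obtain ⟨a, ha, hab⟩ := ih b' (by omega)
        exact ⟨a, ha, rel_trans A hab h1⟩
  exact key _ b le_rfl

/-- The span of the group is closed under products. -/
lemma span_mul (A : Γ →* Matrix I I F) {M N : Matrix I I F}
    (hM : M ∈ Submodule.span F (Set.range A)) (hN : N ∈ Submodule.span F (Set.range A)) :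
    M * N ∈ Submodule.span F (Set.range A) := by
  have h1 : M * N ∈ Submodule.span F (Set.range A) * Submodule.span F (Set.range A) :=
    Submodule.mul_mem_mul hM hN
  rw [Submodule.span_mul_span] at h1
  refine Submodule.span_mono ?_ h1
  rintro _ ⟨_, ⟨γ, rfl⟩, _, ⟨δ, rfl⟩, rfl⟩
  exact ⟨γ * δ, by rw [map_mul]⟩

/-- The span of the group contains the diagonal matrices. -/
lemma diagonal_mem_span (A : Γ →* Matrix I I F) (φ : Γ) (lam : I → F)
    (hφ : A φ = Matrix.diagonal lam) (hlam : Function.Injective lam) (d : I → F) :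
    Matrix.diagonal d ∈ Submodule.span F (Set.range A) := by
  set p : Polynomial F := Lagrange.interpolate Finset.univ lam d with hp
  have h1 : Matrix.diagonal d = p.sum fun k r => r • A (φ ^ k) := by
    ext a b
    rw [Polynomial.sum_def, Matrix.sum_apply]
    by_cases hab : a = b
    · subst hab
      rw [Matrix.diagonal_apply_eq]
      have h2 : d a = p.eval (lam a) :=
        (Lagrange.eval_interpolate_at_node d (hlam.injOn) (Finset.mem_univ a)).symm
      rw [h2, Polynomial.eval_eq_sum, Polynomial.sum_def]
      refine Finset.sum_congr rfl fun k _ => ?_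
      rw [Matrix.smul_apply, map_pow, hφ, Matrix.diagonal_pow, Matrix.diagonal_apply_eq,
        Pi.pow_apply, smul_eq_mul]
    · rw [Matrix.diagonal_apply_ne _ hab, Finset.sum_eq_zero]
      intro k _
      rw [Matrix.smul_apply, map_pow, hφ, Matrix.diagonal_pow, Matrix.diagonal_apply_ne _ hab,
        smul_zero]
  rw [h1, Polynomial.sum_def]
  exact Submodule.sum_mem _ fun k _ => Submodule.smul_mem _ _ (Submodule.subset_span ⟨_, rfl⟩)

/-- The relation of a group with a nondegenerate trace form is symmetric. -/
theorem rel_symm (A : Γ →* Matrix I I F) (φ : Γ) (lam : I → F)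
    (hφ : A φ = Matrix.diagonal lam) (hlam : Function.Injective lam)
    (htr : ∀ M ∈ Submodule.span F (Set.range A), (∀ γ, (M * A γ).trace = 0) → M = 0)
    (a b : I) (h : rel A a b) : rel A b a := by
  classical
  let π : Matrix I I F := Matrix.diagonal fun u => if Soc A u then 1 else 0
  have h10 : ∀ γ u v, Soc A v → ¬ Soc A u → A γ u v = 0 := by
    intro γ u v hv hu
    by_contra hne
    exact hu (soc_closed A γ hv hne)
  have h01 : ∀ γ u v, Soc A u → ¬ Soc A v → A γ u v = 0 := by
    intro γ u v hu hv
    let M : Matrix I I F := π * A γ * Matrix.diagonal fun u => if Soc A u then 0 else 1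
    have hM : M ∈ Submodule.span F (Set.range A) :=
      span_mul A (span_mul A (diagonal_mem_span A φ lam hφ hlam _) (Submodule.subset_span ⟨γ, rfl⟩))
        (diagonal_mem_span A φ lam hφ hlam _)
    have hent : ∀ x y, M x y = (if Soc A x then 1 else 0) * A γ x y * (if Soc A y then 0 else 1) := by
      intro x y
      simp only [M, π, Matrix.mul_diagonal, Matrix.diagonal_mul]
    have hM0 := htr M hM (by
      intro δ
      rw [Matrix.trace]
      refine Finset.sum_eq_zero fun x _ => ?_
      rw [Matrix.diag_apply, Matrix.mul_apply]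
      refine Finset.sum_eq_zero fun y _ => ?_
      rw [hent]
      by_cases hx : Soc A x
      · by_cases hy : Soc A y
        · rw [if_pos hy]; ring
        · rw [h10 δ y x hx hy]; ring
      · rw [if_neg hx]; ring)
    have h1 := congrFun (congrFun hM0 u) v
    rw [hent, if_pos hu, if_neg hv, one_mul, mul_one] at h1
    exact h1
  have hcomm : ∀ γ, A γ * π = π * A γ := by
    intro γ
    ext u v
    simp only [π, Matrix.mul_diagonal, Matrix.diagonal_mul]
    by_cases hu : Soc A u <;> by_cases hv : Soc A v
    · rw [if_pos hu, if_pos hv]; ring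
    · rw [if_pos hu, if_neg hv, h01 γ u v hu hv]; ring
    · rw [if_neg hu, if_pos hv, h10 γ u v hv hu]; ring
    · rw [if_neg hu, if_neg hv]; ring
  have hle : ∀ M ∈ R0 A, M * π = π * M := by
    intro M hM
    unfold R0 at hM
    induction hM using Algebra.adjoin_induction with
    | mem x hx =>
      obtain ⟨δ, d, rfl⟩ := hx
      have h1 : Matrix.diagonal d * π = π * Matrix.diagonal d := by
        simp only [π]
        rw [Matrix.diagonal_mul_diagonal, Matrix.diagonal_mul_diagonal]
        congr 1
        funext u
        ring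
      calc A δ * Matrix.diagonal d * A δ⁻¹ * π = A δ * (Matrix.diagonal d * (A δ⁻¹ * π)) := by
            simp only [Matrix.mul_assoc]
        _ = A δ * (Matrix.diagonal d * π) * A δ⁻¹ := by rw [hcomm]; simp only [Matrix.mul_assoc]
        _ = (A δ * π) * Matrix.diagonal d * A δ⁻¹ := by rw [h1]; simp only [Matrix.mul_assoc]
        _ = π * (A δ * Matrix.diagonal d * A δ⁻¹) := by rw [hcomm]; simp only [Matrix.mul_assoc]
    | algebraMap r => rw [Algebra.commutes]
    | add x y hx hy ihx ihy => rw [add_mul, mul_add, ihx, ihy]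
    | mul x y hx hy ihx ihy => rw [mul_assoc, ihy, ← mul_assoc, ihx, mul_assoc]
  have hall : ∀ v, Soc A v := by
    intro v
    by_contra hv
    obtain ⟨u, hu, huv⟩ := exists_soc A v
    have h1 := congrFun (congrFun (hle _ huv) u) v
    simp only [π, Matrix.mul_diagonal, Matrix.diagonal_mul] at h1
    rw [if_pos hu, if_neg hv, Matrix.single_apply_same] at h1
    simp at h1
  exact hall b a h

/-- The relation is an equivalence relation. -/
theorem rel_equivalence (A : Γ →* Matrix I I F) (φ : Γ) (lam : I → F)
    (hφ : A φ = Matrix.diagonal lam) (hlam : Function.Injective lam)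
    (htr : ∀ M ∈ Submodule.span F (Set.range A), (∀ γ, (M * A γ).trace = 0) → M = 0) :
    Equivalence (rel A) :=
  ⟨rel_refl A, fun {a b} h => rel_symm A φ lam hφ hlam htr a b h, fun h1 h2 => rel_trans A h1 h2⟩

end Pool.Agent.Lib.MP_640417_ag.Four
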