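import Pool.Agent.Lib.MP_640417_ag.Frob.Coord
import Pool.Agent.Lib.MP_640417_ag.Four.Balanced
import Pool.Agent.Lib.MP_640417_ag.Four.Sep
import Pool.Agent.Lib.MP_640417_ag.Four.Sym

/-!
# The main theorem in coordinates
-/

namespace Pool.Agent.Lib.MP_640417_ag.Four

open Module Pool.Agent.Lib.MP_640417_ag.Frob

variable {I : Type} [Fintype I] [DecidableEq I] {F : Type} [Field F] [CharZero F] {n : ℕ}
  {Γ : Type} [Group Γ] [TopologicalSpace Γ]

/-- The odd function attached to an index. -/
def hh (F : Type) [Field F] (c : I → I) (u : I) : I → F :=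
  fun s => (if s = u then 1 else 0) - (if s = c u then 1 else 0)

omit [CharZero F] in
lemma DD_diag_smul (r : F) (f : I → F) (x : Lam I F n) :
    DD n (Matrix.diagonal (r • f)) x = r • DD n (Matrix.diagonal f) x := by
  have h1 : Matrix.diagonal (r • f) = r • Matrix.diagonal f := by
    rw [Matrix.diagonal_smul]
  rw [h1, DD_smul, LinearMap.smul_apply]

omit [CharZero F] in
lemma DD_diag_add (f g : I → F) (x : Lam I F n) :
    DD n (Matrix.diagonal (f + g)) x = DD n (Matrix.diagonal f) x + DD n (Matrix.diagonal g) x := by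
  have h1 : Matrix.diagonal (f + g) = Matrix.diagonal f + Matrix.diagonal g := by
    rw [Matrix.diagonal_add]
    rfl
  rw [h1, DD_add, LinearMap.add_apply]

omit [CharZero F] in
lemma DD_diag_sum {ι : Type} (s : Finset ι) (f : ι → I → F) (x : Lam I F n) :
    DD n (Matrix.diagonal (∑ j ∈ s, f j)) x = ∑ j ∈ s, DD n (Matrix.diagonal (f j)) x := by
  classical
  induction s using Finset.induction_on with
  | empty =>
    have h1 : Matrix.diagonal (0 : I → F) = 0 := Matrix.diagonal_zero
    rw [Finset.sum_empty, Finset.sum_empty, h1]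
    simp [DD]
  | insert a s ha ih => rw [Finset.sum_insert ha, Finset.sum_insert ha, DD_diag_add, ih]

/-- **The main theorem in coordinates.** -/
theorem main_coord [IsTopologicalGroup Γ] [CompactSpace Γ]
    (c : I → I) (hc : ∀ v, c (c v) = v) (hcne : ∀ v, c v ≠ v)
    (w : I → F) (hw : ∀ v, w v ≠ 0) (hwc : ∀ v, w (c v) = - w v)
    (A : Γ →* Matrix I I F) (χ : Γ →* Fˣ)
    (hclosed : ∀ u v : I, IsClosed {γ : Γ | A γ u v = 0})
    (hform : ∀ γ, (A γ).transpose * Om c w * A γ = ((χ γ)⁻¹ : Fˣ).val • Om c w)
    (φ : Γ) (lam : I → F) (hφ : A φ = Matrix.diagonal lam) (hlam : Function.Injective lam)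
    (hlc : ∀ v, lam (c v) * lam v = ((χ φ)⁻¹ : Fˣ).val)
    (htr : ∀ M ∈ Submodule.span F (Set.range A), (∀ γ, (M * A γ).trace = 0) → M = 0)
    (h4 : ∀ (a b u v : I) (N : ℕ), 0 < N →
      (lam a * lam b * lam u * lam v) ^ N = ((((χ φ)⁻¹ : Fˣ).val) ^ 2) ^ N →
      b = c a ∨ u = c a ∨ v = c a)
    (i : ℕ) (x : Lam I F n) (hx : TateClass (fun γ => Tn n (A γ)) χ i x)
    (hcen : ∀ (U : OpenSubgroup Γ) (S : Matrix I I F), S.transpose * Om c w + Om c w * S = 0 →
      (∀ γ ∈ U, S * A γ = A γ * S) → DD n S x = 0) :
    x ∈ divisorAlg (fun γ => Tn n (A γ)) χ := by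
  classical
  have hlam0 : ∀ v, lam v ≠ 0 := by
    intro v hv
    have h1 : A φ * A φ⁻¹ = 1 := by rw [← map_mul, mul_inv_cancel, map_one]
    have h2 := congrFun (congrFun h1 v) v
    rw [hφ, Matrix.diagonal_mul, hv, zero_mul, Matrix.one_apply_eq] at h2
    exact zero_ne_one h2
  obtain ⟨t, ht, htbal, htgen⟩ := exists_generic lam hlam0 (((χ φ)⁻¹ : Fˣ).val) (Units.ne_zero _)
    c hlc
  obtain ⟨hinj, hsep⟩ := sep_of_four c hc hcne lam _ t ht htgen h4
  have hdiag : Kills n A χ (Matrix.diagonal t) := by
    intro j y hy
    obtain ⟨hy1, U, hU⟩ := hy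
    obtain ⟨N, hN, hmem⟩ := exists_pow_mem U φ
    apply balanced lam (((χ φ)⁻¹ : Fˣ).val) (Units.ne_zero _) N j t
      (fun m hm hrel => htbal m j N hN hm hrel) y hy1
    have h1 := hU _ hmem
    have h2 : (((((χ φ)⁻¹ : Fˣ).val)⁻¹) ^ N) ^ j = ((χ (φ ^ N) : Fˣ) : F) ^ j := by
      rw [map_pow, Units.val_pow_eq_pow_val, Units.val_inv_eq_inv_val, inv_inv]
    have h3 : Matrix.diagonal lam ^ N = A (φ ^ N) := by
      rw [map_pow, hφ]
    rw [h2, h3]
    exact h1
  have hr : Equivalence (rel A) := rel_equivalence A φ lam hφ hlam htr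
  have hrc : ∀ u v, rel A u v → rel A (c u) (c v) := fun u v h =>
    hr.symm (R0_c c hc w hw hwc A χ hform u v h)
  have hX : ∀ u v, u ≠ v → rel A u v → Kills n A χ (XX c w u v) := fun u v huv h =>
    kills_of_mem_R0 c hc w hw hwc A χ hform t ht hinj hsep hdiag v u (Ne.symm huv) h
  obtain ⟨U, hU⟩ := exists_open_block A hclosed (rel A) hr (fun a b h => h)
  -- the diagonal elements
  have hcinj : ∀ a b, c a = c b → a = b := fun a b h => by rw [← hc a, h, hc]
  have hopp : ∀ u v, u ≠ v → rel A u v →
      DD n (Matrix.diagonal (hh F c u)) x = DD n (Matrix.diagonal (hh F c v)) x := by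
    intro u v huv h
    have h1 := kills_comm A χ (hX u v huv h) (hX v u (Ne.symm huv) (hr.symm h)) i x hx
    rw [XX_opp c hc w hwc u v huv] at h1
    set k : F := (if v = c u then 2 else 1) * (w u * w v) with hk
    have hk0 : k ≠ 0 := by
      rw [hk]
      refine mul_ne_zero ?_ (mul_ne_zero (hw u) (hw v))
      split_ifs <;> norm_num
    have h2 : (fun s => k * ((if s = u then 1 else 0) - (if s = c u then 1 else 0) -
        (if s = v then 1 else 0) + (if s = c v then 1 else 0))) =
        k • (hh F c u + (-1 : F) • hh F c v) := by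
      funext s
      simp only [hh, Pi.smul_apply, Pi.add_apply, smul_eq_mul]
      ring
    rw [h2, DD_diag_smul, DD_diag_add, DD_diag_smul, neg_one_smul] at h1
    have h3 := (smul_eq_zero.mp h1).resolve_left hk0
    exact eq_of_sub_eq_zero (by rw [sub_eq_add_neg]; exact h3)
  have hH : ∀ u, DD n (Matrix.diagonal (hh F c u)) x = 0 := by
    intro u
    by_cases hself : rel A u (c u)
    · have h1 := hopp u (c u) (Ne.symm (hcne u)) hself
      have h2 : hh F c (c u) = (-1 : F) • hh F c u := by
        funext s
        simp only [hh, hc, Pi.smul_apply, smul_eq_mul]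
        ring
      rw [h2, DD_diag_smul, neg_one_smul] at h1
      have h3 : (2 : F) • DD n (Matrix.diagonal (hh F c u)) x = 0 := by
        rw [two_smul]
        nth_rewrite 1 [h1]
        exact neg_add_cancel _
      exact (smul_eq_zero.mp h3).resolve_left two_ne_zero
    · set B : Finset I := Finset.univ.filter (fun v => rel A u v) with hB
      have hsum : ∑ v ∈ B, DD n (Matrix.diagonal (hh F c v)) x = 0 := by
        rw [← DD_diag_sum]
        have hval : ∀ s, (∑ v ∈ B, hh F c v) s =
            (if rel A u s then 1 else 0) - (if rel A u (c s) then 1 else 0) := by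
          intro s
          rw [Finset.sum_apply]
          simp only [hh]
          rw [Finset.sum_sub_distrib]
          congr 1
          · rw [Finset.sum_ite_eq]
            simp only [hB, Finset.mem_filter, Finset.mem_univ, true_and]
          · have h1 : ∀ v, (s = c v) = (c s = v) := by
              intro v
              apply propext
              constructor
              · rintro rfl; rw [hc]
              · rintro rfl; rw [hc]
            simp only [h1]
            rw [Finset.sum_ite_eq]
            simp only [hB, Finset.mem_filter, Finset.mem_univ, true_and]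
        apply hcen U
        · apply lie_diag_symp
          intro v
          rw [hval, hval, hc]
          ring
        · intro γ hγ
          ext a b
          rw [Matrix.diagonal_mul, Matrix.mul_diagonal, hval, hval]
          by_cases hab : A γ a b = 0
          · rw [hab]; ring
          · have h1 : rel A a b := by
              by_contra hcon
              exact hab (hU γ hγ a b hcon)
            have h2 : rel A u a ↔ rel A u b :=
              ⟨fun h => hr.trans h h1, fun h => hr.trans h (hr.symm h1)⟩
            have h3 : rel A u (c a) ↔ rel A u (c b) :=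
              ⟨fun h => hr.trans h (hrc _ _ h1), fun h => hr.trans h (hr.symm (hrc _ _ h1))⟩
            simp only [h2, h3]
            ring
      have hall : ∀ v ∈ B, DD n (Matrix.diagonal (hh F c v)) x =
          DD n (Matrix.diagonal (hh F c u)) x := by
        intro v hv
        rw [hB, Finset.mem_filter] at hv
        by_cases huv : u = v
        · rw [huv]
        · exact (hopp u v huv hv.2).symm
      rw [Finset.sum_congr rfl hall, Finset.sum_const] at hsum
      have hBpos : B.card ≠ 0 := by
        apply Finset.card_ne_zero.mpr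
        exact ⟨u, Finset.mem_filter.mpr ⟨Finset.mem_univ _, hr.refl u⟩⟩
      rw [← Nat.cast_smul_eq_nsmul F] at hsum
      exact (smul_eq_zero.mp hsum).resolve_left (Nat.cast_ne_zero.mpr hBpos)
  have hinv : ∀ u v, rel A u v → DD n (XX c w u v) x = 0 := by
    intro u v h
    by_cases huv : u = v
    · subst huv
      have h1 : XX c w u u = Matrix.diagonal (w u • hh F c u) := by
        ext a b
        simp only [XX, hh, Matrix.sub_apply, Matrix.smul_apply, Matrix.single_apply,
          Matrix.diagonal_apply, smul_eq_mul, Pi.smul_apply]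
        by_cases hab : a = b
        · subst hab
          simp only [and_self, if_true, eq_comm]
          ring
        · rw [if_neg hab]
          have e1 : ¬ (u = a ∧ u = b) := by
            rintro ⟨h1, h2⟩; exact hab (h1.symm.trans h2)
          have e2 : ¬ (c u = a ∧ c u = b) := by
            rintro ⟨h1, h2⟩; exact hab (h1.symm.trans h2)
          rw [if_neg e1, if_neg e2]; ring
      rw [h1, DD_diag_smul, hH, smul_zero]
    · exact hX u v huv h i x hx
  have hmem := fft c hc w hw hwc (rel A) hr hrc (2 * i) x hx.1 hinv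
  refine Algebra.adjoin_le ?_ hmem
  rintro y ⟨v, a, b, rfl⟩
  exact Algebra.subset_adjoin
    (zz_tate c hc w hw hwc A χ hform (rel A) hr hrc U hU v a b)

end Pool.Agent.Lib.MP_640417_ag.Four
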