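import Pool.Agent.Lib.MP_640417_ag.Frob.MainB
import Pool.Agent.Lib.MP_640417_ag.Four.Coord
import Pool.Agent.Lib.MP_640417_ag.Four.Transport

/-!
# Representations over an algebraically closed field
-/

namespace Pool.Agent.Lib.MP_640417_ag.Four

open Module Polynomial Pool.Agent.Lib.MP_640417_ag.Frob

variable {Γ : Type} [Group Γ] [TopologicalSpace Γ] {F : Type} [Field F]
  {V : Type} [AddCommGroup V] [Module F V] [FiniteDimensional F V]

/-- If the eigenvalues of one element satisfy no nontrivial four-term relations, a Tate class which is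
killed by the skew endomorphisms commuting with an open subgroup lies in the divisor algebra. -/
theorem middle [CharZero F] [IsAlgClosed F] [IsTopologicalGroup Γ] [CompactSpace Γ]
    (T : Γ →* Module.End F V) (χ : Γ →* Fˣ)
    (hclosed : ∀ (f : Module.Dual F V) (x : V), IsClosed {γ : Γ | f (T γ x) = 0})
    (form : LinearMap.BilinForm F V) (halt : ∀ x, form x x = 0)
    (hnd : ∀ x, (∀ y, form x y = 0) → x = 0)
    (heq : ∀ γ x y, form (T γ x) (T γ y) = ((χ γ)⁻¹ : Fˣ).val * form x y)
    (φ : Γ) (hsep : (T φ).charpoly.Separable)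
    (htr : ∀ S ∈ Submodule.span F (Set.range T), (∀ γ, LinearMap.trace F V (S * T γ) = 0) → S = 0)
    (h4 : ∀ z₁ z₂ z₃ z₄ : F, (T φ).charpoly.IsRoot z₁ → (T φ).charpoly.IsRoot z₂ →
      (T φ).charpoly.IsRoot z₃ → (T φ).charpoly.IsRoot z₄ → ∀ N : ℕ, 0 < N →
      (z₁ * z₂ * z₃ * z₄) ^ N = ((((χ φ)⁻¹ : Fˣ).val) ^ 2) ^ N →
      z₁ * z₂ = ((χ φ)⁻¹ : Fˣ).val ∨ z₁ * z₃ = ((χ φ)⁻¹ : Fˣ).val ∨
        z₁ * z₄ = ((χ φ)⁻¹ : Fˣ).val)
    (n i : ℕ) (x : ExteriorAlgebra F (Fin n → V))
    (hx : TateClass (fun γ => (T γ).compLeft (Fin n)) χ i x)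
    (hcen : ∀ (I : Type) [Fintype I] [DecidableEq I] (e : Basis I F V) (U : OpenSubgroup Γ)
      (S : Module.End F V), (∀ u v, form (S u) v + form u (S v) = 0) →
      (∀ γ ∈ U, S * T γ = T γ * S) →
      DD n (LinearMap.toMatrix e e S) (ExteriorAlgebra.map (co e n) x) = 0) :
    x ∈ divisorAlg (fun γ => (T γ).compLeft (Fin n)) χ := by
  classical
  obtain ⟨I, iF, iD, e, lam, c, w, hlam, heig, hchar, hc, hcne, hlc, hw, hwc, hform⟩ :=
    exists_eigenbasis (T φ) hsep form halt hnd ((χ φ)⁻¹ : Fˣ).val
      (Units.ne_zero _) (heq φ) two_ne_zero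
  let A : Γ →* Matrix I I F :=
    ((LinearMap.toMatrixAlgEquiv e : Module.End F V ≃ₐ[F] Matrix I I F) :
      Module.End F V →* Matrix I I F).comp T
  have hA : ∀ γ, A γ = LinearMap.toMatrix e e (T γ) := fun γ => rfl
  have hAentry : ∀ γ u v, A γ u v = e.repr (T γ (e v)) u := by
    intro γ u v
    rw [hA, LinearMap.toMatrix_apply]
  have hTe : ∀ γ v, T γ (e v) = ∑ u, A γ u v • e u := by
    intro γ v
    rw [← e.sum_repr (T γ (e v))]
    simp only [hAentry]
  apply mem_of_co e T χ A hA n
  have hroot : ∀ v, (T φ).charpoly.IsRoot (lam v) := by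
    intro v
    rw [hchar, IsRoot.def, eval_prod]
    apply Finset.prod_eq_zero (Finset.mem_univ v)
    simp
  have hq0 : ((χ φ)⁻¹ : Fˣ).val ≠ 0 := Units.ne_zero _
  have hlam0 : ∀ v, lam v ≠ 0 := by
    intro v hv
    have := hlc v
    rw [hv, mul_zero] at this
    exact hq0 this.symm
  have hmate : ∀ a b, lam a * lam b = ((χ φ)⁻¹ : Fˣ).val → b = c a := by
    intro a b hab
    apply hlam
    have h1 := hlc a
    rw [mul_comm] at h1
    exact mul_left_cancel₀ (hlam0 a) (hab.trans h1.symm)
  refine main_coord c hc hcne w hw hwc A χ ?_ ?_ φ lam ?_ hlam hlc ?_ ?_ i _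
    (tate_co e T χ A hA n i x hx) ?_
  · intro u v
    have h1 := hclosed (e.coord u) (e v)
    simpa only [hAentry, Basis.coord_apply] using h1
  · intro γ
    ext u v
    have h1 := heq γ (e u) (e v)
    rw [hTe, hTe, hform] at h1
    simp only [map_sum, map_smul, LinearMap.sum_apply, LinearMap.smul_apply, smul_eq_mul,
      hform] at h1
    simp only [Matrix.mul_apply, Matrix.transpose_apply, Om, Matrix.of_apply, Matrix.smul_apply,
      smul_eq_mul]
    rw [← h1]
    simp only [Finset.sum_mul, Finset.mul_sum]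
    apply Finset.sum_congr rfl
    intro s _
    apply Finset.sum_congr rfl
    intro t _
    ring
  · ext u v
    rw [hAentry, heig, map_smul, Finsupp.smul_apply, Basis.repr_self, smul_eq_mul,
      Matrix.diagonal_apply]
    by_cases h : u = v
    · subst h; simp
    · rw [if_neg h, Finsupp.single_eq_of_ne h, mul_zero]
  · intro M hM hMtr
    let L : Matrix I I F →ₗ[F] Module.End F V := (LinearMap.toMatrixAlgEquiv e).symm.toLinearMap
    have hL : ∀ γ, L (A γ) = T γ := fun γ => (LinearMap.toMatrixAlgEquiv e).symm_apply_apply (T γ)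
    have h1 : L M ∈ Submodule.span F (Set.range T) := by
      have h2 : Submodule.map L (Submodule.span F (Set.range A)) ≤
          Submodule.span F (Set.range T) := by
        rw [Submodule.map_span]
        apply Submodule.span_mono
        rintro _ ⟨_, ⟨γ, rfl⟩, rfl⟩
        exact ⟨γ, (hL γ).symm⟩
      exact h2 ⟨M, hM, rfl⟩
    have h3 : L M = 0 := by
      apply htr _ h1
      intro γ
      rw [LinearMap.trace_eq_matrix_trace F e]
      have h4 : LinearMap.toMatrix e e (L M * T γ) = M * A γ := by
        have h5 : LinearMap.toMatrixAlgEquiv e (L M * T γ) = M * A γ := by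
          rw [map_mul]
          congr 1
          exact (LinearMap.toMatrixAlgEquiv e).apply_symm_apply M
        exact h5
      rw [h4]
      exact hMtr γ
    have h6 : (LinearMap.toMatrixAlgEquiv e) (L M) = M :=
      (LinearMap.toMatrixAlgEquiv e).apply_symm_apply M
    rw [← h6, h3, map_zero]
  · intro a b u v N hN hrel
    rcases h4 (lam a) (lam b) (lam u) (lam v) (hroot a) (hroot b) (hroot u) (hroot v) N hN hrel
      with h | h | h
    · exact Or.inl (hmate _ _ h)
    · exact Or.inr (Or.inl (hmate _ _ h))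
    · exact Or.inr (Or.inr (hmate _ _ h))
  · intro U S hS hcomm
    let S' : Module.End F V := (LinearMap.toMatrixAlgEquiv e).symm S
    have hS' : LinearMap.toMatrix e e S' = S := (LinearMap.toMatrixAlgEquiv e).apply_symm_apply S
    have hSe : ∀ v, S' (e v) = ∑ u, S u v • e u := by
      intro v
      rw [← e.sum_repr (S' (e v))]
      refine Finset.sum_congr rfl fun u _ => ?_
      rw [← LinearMap.toMatrix_apply e e S' u v, hS']
    have h1 := hcen I e U S' ?_ ?_
    · rw [hS'] at h1
      exact h1
    · let B : LinearMap.BilinForm F V := form.comp S' LinearMap.id + form.comp LinearMap.id S'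
      have hB : B = 0 := by
        apply LinearMap.BilinForm.ext_basis e
        intro u v
        have h2 := congrFun (congrFun hS u) v
        rw [Matrix.add_apply, Matrix.mul_apply, Matrix.mul_apply, Matrix.zero_apply] at h2
        change form (S' (e u)) (e v) + form (e u) (S' (e v)) = 0
        rw [hSe, hSe]
        simp only [map_sum, map_smul, LinearMap.sum_apply, LinearMap.smul_apply, smul_eq_mul,
          hform]
        refine Eq.trans ?_ h2
        congr 1
        refine Finset.sum_congr rfl fun s _ => ?_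
        simp only [Om, Matrix.of_apply]
        ring
      intro u v
      have := LinearMap.congr_fun (LinearMap.congr_fun hB u) v
      exact this
    · intro γ hγ
      apply (LinearMap.toMatrixAlgEquiv e).injective
      rw [map_mul, map_mul]
      have h2 : (LinearMap.toMatrixAlgEquiv e) S' = S :=
        (LinearMap.toMatrixAlgEquiv e).apply_symm_apply S
      rw [h2]
      exact hcomm γ hγ

end Pool.Agent.Lib.MP_640417_ag.Four
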