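import Pool.Agent.Lib.MP_640417_ag.Frob.Defs
import Pool.Agent.Lib.MP_640417_ag.CMRep

/-!
# Statements of the independent modules
-/

namespace Pool.Agent.Lib.MP_640417_ag.Four

open NumberField Module Pool.Agent.Lib.MP_640417_ag Pool.Agent.Lib.MP_640417_ag.Frob

/-- The trace form on the span of a semisimple group of endomorphisms is nondegenerate. -/
def STrace : Prop :=
  ∀ (Γ : Type) [Group Γ] (F : Type) [Field F] [CharZero F] (V : Type) [AddCommGroup V] [Module F V]
    [FiniteDimensional F V] (T : Γ →* Module.End F V),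
    (∀ W : Submodule F V, (∀ γ, ∀ y ∈ W, T γ y ∈ W) →
      ∃ W' : Submodule F V, (∀ γ, ∀ y ∈ W', T γ y ∈ W') ∧ IsCompl W W') →
    ∀ s ∈ Submodule.span F (Set.range T), (∀ γ, LinearMap.trace F V (s * T γ) = 0) → s = 0

/-- If `1 + r S` and `1 - r S` act in the same way on `x` for infinitely many `r`, then the
derivation of `S` kills `x`. -/
def SExpand : Prop :=
  ∀ (I : Type) [Fintype I] [DecidableEq I] (F : Type) [Field F] [CharZero F] (n : ℕ)
    (S : Matrix I I F) (x : Lam I F n) (R : Set F), R.Infinite →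
    (∀ r ∈ R, ExteriorAlgebra.map (Tn n (1 + r • S)) x =
      ExteriorAlgebra.map (Tn n (1 - r • S)) x) → DD n S x = 0

/-- Only few sign functions on a set with a transitive group action have a nontrivial four-term
relation. -/
def SCount : Prop :=
  ∀ (X : Type) [Fintype X] [DecidableEq X] (G : Type) [Group G] [MulAction G X]
    [MulAction.IsPretransitive G X] (c : X → X), (∀ v, c (c v) = v) → (∀ v, c v ≠ v) →
    (∀ (g : G) (v : X), g • c v = c (g • v)) → ∀ g : ℕ, Fintype.card X = 2 * g →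
    ({e : X → ℤ | (∀ v, e v = 1 ∨ e v = -1) ∧ (∀ v, e (c v) = - e v) ∧
      ∃ v₁ v₂ v₃ v₄ : X, v₂ ≠ c v₁ ∧ v₃ ≠ c v₁ ∧ v₄ ≠ c v₁ ∧
        ∀ γ : G, e (γ • v₁) + e (γ • v₂) + e (γ • v₃) + e (γ • v₄) = 0}.ncard : ℝ)
      ≤ 8 * g ^ 3 * (2 : ℝ) ^ (-(g : ℝ) / 4) * 2 ^ g

end Pool.Agent.Lib.MP_640417_ag.Four
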