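import Pool.Agent.Lib.MP_640417_ag.Frob.BaseRep
import Pool.Agent.Lib.MP_640417_ag.Four.Spec
import Pool.Agent.Lib.MP_640417_ag.Four.Span
import Pool.Agent.Lib.MP_640417_ag.Four.Descent
import Pool.Agent.Lib.MP_640417_ag.Four.Middle

/-!
# The main theorem
-/

namespace Pool.Agent.Lib.MP_640417_ag.Four

open Module Polynomial TensorProduct Pool.Agent.Lib.MP_640417_ag.Frob

/-- Four-term relations can be checked in the complex numbers. -/
lemma four_transfer {K : Type} [Field K] [CharZero K] (P : ℤ[X]) (hP : P.Monic) (p a : ℕ)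
    (h4 : ∀ z₁ z₂ z₃ z₄ : ℂ, aeval z₁ P = 0 → aeval z₂ P = 0 → aeval z₃ P = 0 → aeval z₄ P = 0 →
      ∀ N : ℕ, 0 < N → (z₁ * z₂ * z₃ * z₄) ^ N = (p : ℂ) ^ (2 * a * N) →
      z₁ * z₂ = (p : ℂ) ^ a ∨ z₁ * z₃ = (p : ℂ) ^ a ∨ z₁ * z₄ = (p : ℂ) ^ a)
    (z₁ z₂ z₃ z₄ : K) (h1 : aeval z₁ P = 0) (h2 : aeval z₂ P = 0) (h3 : aeval z₃ P = 0)
    (h4' : aeval z₄ P = 0) (N : ℕ) (hN : 0 < N)
    (hrel : (z₁ * z₂ * z₃ * z₄) ^ N = (p : K) ^ (2 * a * N)) :
    z₁ * z₂ = (p : K) ^ a ∨ z₁ * z₃ = (p : K) ^ a ∨ z₁ * z₄ = (p : K) ^ a := by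
  classical
  let S : Set K := {z₁, z₂, z₃, z₄}
  let L : IntermediateField ℚ K := IntermediateField.adjoin ℚ S
  have hint : ∀ z : K, aeval z P = 0 → IsIntegral ℚ z := by
    intro z hz
    refine ⟨P.map (Int.castRingHom ℚ), hP.map _, ?_⟩
    rw [eval₂_map]
    have h5 : (algebraMap ℚ K).comp (Int.castRingHom ℚ) = algebraMap ℤ K := RingHom.ext_int _ _
    rw [h5]
    exact hz
  have halg : Algebra.IsAlgebraic ℚ L :=
    IntermediateField.isAlgebraic_adjoin (by
      intro x hx
      simp only [S, Set.mem_insert_iff, Set.mem_singleton_iff] at hx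
      rcases hx with rfl | rfl | rfl | rfl
      · exact hint _ h1
      · exact hint _ h2
      · exact hint _ h3
      · exact hint _ h4')
  let σ : L →ₐ[ℚ] ℂ := IsAlgClosed.lift
  have m1 : z₁ ∈ L := IntermediateField.subset_adjoin ℚ _ (by simp [S])
  have m2 : z₂ ∈ L := IntermediateField.subset_adjoin ℚ _ (by simp [S])
  have m3 : z₃ ∈ L := IntermediateField.subset_adjoin ℚ _ (by simp [S])
  have m4 : z₄ ∈ L := IntermediateField.subset_adjoin ℚ _ (by simp [S])
  have hroot : ∀ (z : K) (hz : z ∈ L), aeval z P = 0 → aeval (σ ⟨z, hz⟩) P = 0 := by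
    intro z hz h
    have h5 : aeval (⟨z, hz⟩ : L) P = 0 := by
      apply (algebraMap L K).injective
      rw [map_zero, ← Polynomial.aeval_algebraMap_apply]
      exact h
    have h6 := congrArg (σ : L →+* ℂ) h5
    rw [map_zero] at h6
    rw [← h6, aeval_def, aeval_def, RingHom.coe_coe, ← RingHom.coe_coe σ, Polynomial.hom_eval₂]
    congr 1
    exact RingHom.ext_int _ _
  have hrel' : ((⟨z₁, m1⟩ * ⟨z₂, m2⟩ * ⟨z₃, m3⟩ * ⟨z₄, m4⟩ : L)) ^ N = (p : L) ^ (2 * a * N) := by
    apply Subtype.ext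
    push_cast
    exact hrel
  have hrelC := congrArg σ hrel'
  simp only [map_pow, map_mul, map_natCast] at hrelC
  have hback : ∀ (x y : K) (hx : x ∈ L) (hy : y ∈ L),
      σ ⟨x, hx⟩ * σ ⟨y, hy⟩ = (p : ℂ) ^ a → x * y = (p : K) ^ a := by
    intro x y hx hy h
    have h5 : σ (⟨x, hx⟩ * ⟨y, hy⟩) = σ ((p : L) ^ a) := by
      rw [map_mul, map_pow, map_natCast]
      exact h
    have h6 := (σ : L →+* ℂ).injective h5
    have h7 := congrArg Subtype.val h6
    push_cast at h7
    exact h7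
  rcases h4 _ _ _ _ (hroot _ m1 h1) (hroot _ m2 h2) (hroot _ m3 h3) (hroot _ m4 h4') N hN hrelC
    with h | h | h
  · exact Or.inl (hback _ _ m1 m2 h)
  · exact Or.inr (Or.inl (hback _ _ m1 m3 h))
  · exact Or.inr (Or.inr (hback _ _ m1 m4 h))

variable {Γ : Type} [Group Γ] [TopologicalSpace Γ] {F : Type} [Field F] [TopologicalSpace F]
  {V : Type} [AddCommGroup V] [Module F V] [FiniteDimensional F V]

omit [TopologicalSpace F] in
/-- The set of scalars with an invertible `1 - r s` is infinite. -/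
lemma infinite_units [CharZero F] (s : Module.End F V) :
    {r : F | IsUnit (1 - r • s)}.Infinite := by
  have h1 : {r : F | ¬ IsUnit (1 - r • s)} ⊆ (fun r => r⁻¹) '' (spectrum F s) := by
    intro r hr
    have hr0 : r ≠ 0 := by
      rintro rfl
      apply hr
      rw [zero_smul, sub_zero]
      exact isUnit_one
    refine ⟨r⁻¹, ?_, inv_inv r⟩
    rw [spectrum.mem_iff]
    intro hu
    apply hr
    have h2 : (1 : Module.End F V) - r • s = r • (algebraMap F (Module.End F V) r⁻¹ - s) := by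
      rw [smul_sub, Algebra.algebraMap_eq_smul_one, smul_smul, mul_inv_cancel₀ hr0, one_smul]
    rw [h2]
    exact hu.smul (Units.mk0 r hr0)
  have h2 : {r : F | ¬ IsUnit (1 - r • s)}.Finite :=
    ((Module.End.finite_spectrum s).image _).subset h1
  have h3 : {r : F | IsUnit (1 - r • s)} = {r : F | ¬ IsUnit (1 - r • s)}ᶜ := by
    ext r
    simp
  rw [h3]
  exact h2.infinite_compl


/-- An isometry which commutes with an open subgroup and does not have the eigenvalue `-1`. -/
def CommIsom (ρ : H1Rep Γ F V) (c : Module.End F V) : Prop :=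
  (∃ U : OpenSubgroup Γ, ∀ γ ∈ U, c * ρ.T γ = ρ.T γ * c) ∧
    (∀ u v, ρ.form (c u) (c v) = ρ.form u v) ∧ ∀ u, c u = -u → u = 0

/-- The Cayley transform of a skew endomorphism is an isometry. -/
lemma cayley [CharZero F] (ρ : H1Rep Γ F V) (U : OpenSubgroup Γ) (s : Module.End F V)
    (hs : ∀ γ ∈ U, s * ρ.T γ = ρ.T γ * s)
    (hskew : ∀ u v, ρ.form (s u) v + ρ.form u (s v) = 0) (r : F) (hr : IsUnit (1 - r • s)) :
    ∃ c : Module.End F V, CommIsom ρ c ∧ (1 - r • s) * c = 1 + r • s := by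
  obtain ⟨w, hw⟩ := hr
  have hcomm1 : (1 - r • s) * (1 + r • s) = (1 + r • s) * (1 - r • s) := by
    generalize r • s = a
    noncomm_ring
  have hwcomm : (w⁻¹).val * (1 + r • s) = (1 + r • s) * (w⁻¹).val := by
    calc (w⁻¹).val * (1 + r • s) = (w⁻¹).val * ((1 + r • s) * (w.val * (w⁻¹).val)) := by
          rw [Units.mul_inv, mul_one]
      _ = (w⁻¹).val * ((1 + r • s) * (1 - r • s)) * (w⁻¹).val := by
          rw [hw]; simp only [mul_assoc]
      _ = (w⁻¹).val * (w.val * (1 + r • s)) * (w⁻¹).val := by rw [← hcomm1, hw]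
      _ = (1 + r • s) * (w⁻¹).val := by rw [← mul_assoc (w⁻¹).val, Units.inv_mul, one_mul]
  refine ⟨(1 + r • s) * (w⁻¹).val, ⟨⟨U, fun γ hγ => ?_⟩, ?_, ?_⟩, ?_⟩
  · have h1 : (1 + r • s) * ρ.T γ = ρ.T γ * (1 + r • s) := by
      rw [add_mul, mul_add, one_mul, mul_one, smul_mul_assoc, mul_smul_comm, hs γ hγ]
    have h2 : (1 - r • s) * ρ.T γ = ρ.T γ * (1 - r • s) := by
      rw [sub_mul, mul_sub, one_mul, mul_one, smul_mul_assoc, mul_smul_comm, hs γ hγ]
    have h3 : (w⁻¹).val * ρ.T γ = ρ.T γ * (w⁻¹).val := by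
      calc (w⁻¹).val * ρ.T γ = (w⁻¹).val * (ρ.T γ * (w.val * (w⁻¹).val)) := by
            rw [Units.mul_inv, mul_one]
        _ = (w⁻¹).val * (ρ.T γ * (1 - r • s)) * (w⁻¹).val := by
            rw [hw]; simp only [mul_assoc]
        _ = (w⁻¹).val * (w.val * ρ.T γ) * (w⁻¹).val := by rw [← h2, hw]
        _ = ρ.T γ * (w⁻¹).val := by rw [← mul_assoc (w⁻¹).val, Units.inv_mul, one_mul]
    rw [mul_assoc, h3, ← mul_assoc, h1, mul_assoc]
  · intro u v
    have hu : u = (1 - r • s) ((w⁻¹).val u) := by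
      rw [← hw, ← Module.End.mul_apply, Units.mul_inv]
      rfl
    have hv : v = (1 - r • s) ((w⁻¹).val v) := by
      rw [← hw, ← Module.End.mul_apply, Units.mul_inv]
      rfl
    rw [Module.End.mul_apply, Module.End.mul_apply]
    conv_rhs => rw [hu, hv]
    generalize (w⁻¹).val u = u'
    generalize (w⁻¹).val v = v'
    have h1 := hskew u' v'
    simp only [LinearMap.add_apply, LinearMap.sub_apply, Module.End.one_apply,
      LinearMap.smul_apply, map_add, map_sub, map_smul, smul_eq_mul]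
    linear_combination (2 * r) * h1
  · intro u hu
    have hu1 : u = (1 - r • s) ((w⁻¹).val u) := by
      rw [← hw, ← Module.End.mul_apply, Units.mul_inv]
      rfl
    rw [Module.End.mul_apply] at hu
    have h2 : (1 + r • s) ((w⁻¹).val u) + (1 - r • s) ((w⁻¹).val u) = 0 := by
      rw [hu, ← hu1, neg_add_cancel]
    have h3 : (2 : F) • ((w⁻¹).val u) = 0 := by
      rw [← h2, LinearMap.add_apply, LinearMap.sub_apply, Module.End.one_apply, two_smul]
      abel
    have h4 : (w⁻¹).val u = 0 := (smul_eq_zero.mp h3).resolve_left two_ne_zero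
    rw [hu1, h4, map_zero]
  · rw [← mul_assoc, hcomm1, mul_assoc, ← hw, Units.mul_inv, mul_one]

omit [TopologicalSpace F] in
lemma DD_sum {I : Type} [Fintype I] [DecidableEq I] {n : ℕ} {ι : Type} (τ : Finset ι)
    (M : ι → Matrix I I F) : DD n (∑ t ∈ τ, M t) = ∑ t ∈ τ, DD n (M t) := by
  classical
  induction τ using Finset.induction_on with
  | empty => simp [DD]
  | insert a s ha ih => rw [Finset.sum_insert ha, Finset.sum_insert ha, DD_add, ih]

/-- **Four eigenvalues suffice.** -/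
theorem main [CharZero F] [IsTopologicalRing F] [T1Space F]
    [IsTopologicalGroup Γ] [CompactSpace Γ] (pTrace : STrace) (pExpand : SExpand)
    (ρ : H1Rep Γ F V)
    (hss : ∀ W : Submodule F V, (∀ γ, ∀ y ∈ W, ρ.T γ y ∈ W) →
      ∃ W' : Submodule F V, (∀ γ, ∀ y ∈ W', ρ.T γ y ∈ W') ∧ IsCompl W W')
    (φ : Γ) (p a : ℕ) (P : ℤ[X]) (hφ : IsFrobenius ρ φ p a P)
    (hsep : (P.map (Int.castRingHom ℚ)).Separable)
    (h4 : ∀ z₁ z₂ z₃ z₄ : ℂ, aeval z₁ P = 0 → aeval z₂ P = 0 → aeval z₃ P = 0 → aeval z₄ P = 0 →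
      ∀ N : ℕ, 0 < N → (z₁ * z₂ * z₃ * z₄) ^ N = (p : ℂ) ^ (2 * a * N) →
      z₁ * z₂ = (p : ℂ) ^ a ∨ z₁ * z₃ = (p : ℂ) ^ a ∨ z₁ * z₄ = (p : ℂ) ^ a)
    (n i : ℕ) (x : ExteriorAlgebra F (Fin n → V))
    (hx : TateClass (fun γ => (ρ.T γ).compLeft (Fin n)) ρ.χ i x)
    (hfix : ∀ c : Module.End F V, CommIsom ρ c → ExteriorAlgebra.map (c.compLeft (Fin n)) x = x) :
    x ∈ divisorAlg (fun γ => (ρ.T γ).compLeft (Fin n)) ρ.χ := by
  classical
  have hmon : P.Monic := by
    apply Polynomial.monic_of_injective (RingHom.injective_int (Int.castRingHom F))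
    rw [← hφ.charpoly]
    exact LinearMap.charpoly_monic _
  let K : Type := AlgebraicClosure F
  have hcharK : CharZero K := charZero_of_injective_algebraMap (algebraMap F K).injective
  apply mem_of_be (F' := K) (fun γ => ρ.T γ) ρ.χ n x
  let T' : Γ →* Module.End K (K ⊗[F] V) :=
    ((Module.End.baseChangeHom F K V : Module.End F V →ₐ[F] Module.End K (K ⊗[F] V)) :
      Module.End F V →* Module.End K (K ⊗[F] V)).comp ρ.T
  have hT' : ∀ γ, T' γ = (ρ.T γ).baseChange K := fun γ => rfl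
  let χ' : Γ →* Kˣ := (Units.map (algebraMap F K : F →* K)).comp ρ.χ
  have hχ' : ∀ γ, ((χ' γ)⁻¹ : Kˣ).val = algebraMap F K ((ρ.χ γ)⁻¹ : Fˣ).val := by
    intro γ
    simp only [χ', MonoidHom.comp_apply, ← map_inv, Units.coe_map, MonoidHom.coe_coe]
  have hchar : (T' φ).charpoly = P.map (Int.castRingHom K) := by
    rw [hT', LinearMap.charpoly_baseChange, hφ.charpoly, Polynomial.map_map]
    congr 1
  have hcyc : ((χ' φ)⁻¹ : Kˣ).val = (p : K) ^ a := by
    rw [hχ', hφ.cyclotomic, map_pow, map_natCast]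
  have hanti : ∀ u v, ρ.form u v = - ρ.form v u := by
    intro x y
    have h1 := ρ.form_alt (x + y)
    simp only [map_add, LinearMap.add_apply, ρ.form_alt x, ρ.form_alt y, zero_add, add_zero] at h1
    rw [eq_neg_iff_add_eq_zero, add_comm]
    exact h1
  have halt' := alt_baseChange K ρ.form ρ.form_alt
  have hanti' : ∀ u v, ρ.form.baseChange K u v = - ρ.form.baseChange K v u := by
    intro x y
    have h1 := halt' (x + y)
    simp only [map_add, LinearMap.add_apply, halt' x, halt' y, zero_add, add_zero] at h1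
    rw [eq_neg_iff_add_eq_zero, add_comm]
    exact h1
  refine middle T' χ' ?_ (ρ.form.baseChange K) halt'
    (nondeg_baseChange K ρ.form ρ.form_alt ρ.form_nondeg) ?_ φ ?_ ?_ ?_ n i _
    (tate_be (fun γ => ρ.T γ) ρ.χ n i hx) ?_
  · intro f z
    exact closed_baseChange K (fun γ => ρ.T γ) ρ.continuous_coeff f z
  · intro γ x y
    rw [hχ']
    exact equivariant_baseChange K ρ.form (ρ.T γ) _ (ρ.form_equivariant γ) x y
  · rw [hchar]
    have e1 : P.map (Int.castRingHom K) = (P.map (Int.castRingHom ℚ)).map (algebraMap ℚ K) := by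
      rw [Polynomial.map_map]
      congr 1
      exact RingHom.ext_int _ _
    rw [e1, separable_map]
    exact hsep
  · intro S hS htr
    exact trace_nondeg_baseChange (fun γ => ρ.T γ) (pTrace Γ F V ρ.T hss) S hS htr
  · intro z₁ z₂ z₃ z₄ h1 h2 h3 h4' N hN hrel
    rw [hcyc] at hrel ⊢
    have hr : ∀ z : K, (T' φ).charpoly.IsRoot z → aeval z P = 0 := by
      intro z hz
      rw [hchar, IsRoot.def, eval_map] at hz
      rw [aeval_def]
      exact hz
    refine four_transfer P hmon p a h4 z₁ z₂ z₃ z₄ (hr _ h1) (hr _ h2) (hr _ h3) (hr _ h4') N hN ?_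
    rw [hrel, ← pow_mul, ← pow_mul]
    congr 1
    ring
  · intro I _ _ e U S hskew hcomm
    let b := Module.Free.chooseBasis F K
    obtain ⟨τ, hτ⟩ := sum_cp b S
    rw [hτ, map_sum]
    rw [DD_sum, LinearMap.sum_apply]
    refine Finset.sum_eq_zero fun t _ => ?_
    rw [map_smul, DD_smul, LinearMap.smul_apply]
    set s : Module.End F V := cp (b.coord t) S with hs
    have hs1 : ∀ γ ∈ U, s * ρ.T γ = ρ.T γ * s := by
      intro γ hγ
      rw [hs, ← cp_mul_baseChange, ← cp_baseChange_mul]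
      congr 1
      exact hcomm γ hγ
    have hs2 : ∀ u v, ρ.form (s u) v + ρ.form u (s v) = 0 := by
      intro u v
      rw [hanti u (s v), hs, form_cp, form_cp, ← map_neg, ← hanti', ← map_add, hskew, map_zero]
    rw [pExpand I K n (LinearMap.toMatrix e e (s.baseChange K)) _
      (algebraMap F K '' {r : F | IsUnit (1 - r • s)})
      ((infinite_units s).image (algebraMap F K).injective.injOn), smul_zero]
    rintro _ ⟨r, hr, rfl⟩
    obtain ⟨c, hc, hcs⟩ := cayley ρ U s hs1 hs2 r hr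
    have h1 : ExteriorAlgebra.map ((1 + r • s).compLeft (Fin n)) x =
        ExteriorAlgebra.map ((1 - r • s).compLeft (Fin n)) x := by
      conv_rhs => rw [← hfix c hc]
      rw [← hcs]
      have h2 : ((1 - r • s) * c).compLeft (Fin n) =
          (1 - r • s).compLeft (Fin n) ∘ₗ c.compLeft (Fin n) := rfl
      rw [h2, ← ExteriorAlgebra.map_comp_map]
      rfl
    have h2 : ∀ r' : F, LinearMap.toMatrix e e ((1 + r' • s).baseChange K) =
        1 + algebraMap F K r' • LinearMap.toMatrix e e (s.baseChange K) := by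
      intro r'
      rw [LinearMap.baseChange_add, LinearMap.baseChange_smul, map_add]
      congr 1
      · have h3 : (1 : Module.End F V).baseChange K = 1 := LinearMap.baseChange_id
        rw [h3, LinearMap.toMatrix_one]
      · rw [← algebraMap_smul K r', map_smul]
    have h3 : LinearMap.toMatrix e e ((1 - r • s).baseChange K) =
        1 - algebraMap F K r • LinearMap.toMatrix e e (s.baseChange K) := by
      have h4 := h2 (-r)
      rw [map_neg, neg_smul, neg_smul, ← sub_eq_add_neg, ← sub_eq_add_neg] at h4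
      exact h4
    rw [← h2, ← h3, ← map_co_compLeft, ← map_co_compLeft, ← be_map, ← be_map, h1]

end Pool.Agent.Lib.MP_640417_ag.Four
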