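import Pool.Agent.Lib.MP_640417_ag.Four.Spec2

/-!
# An algebra normalized by a group with nondegenerate trace form is semisimple
-/

namespace Pool.Agent.Lib.MP_640417_ag.Four

open Module

namespace Semi

variable {K V : Type} [Field K] [AddCommGroup V] [Module K V]
  {Γ : Type} [Group Γ] (T : Γ →* Module.End K V) (R : Subalgebra K (Module.End K V))

lemma T_inv_mul (γ : Γ) : T γ⁻¹ * T γ = 1 := by
  rw [← map_mul, inv_mul_cancel, map_one]

lemma T_mul_inv (γ : Γ) : T γ * T γ⁻¹ = 1 := by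
  rw [← map_mul, mul_inv_cancel, map_one]

/-- Conjugation as a ring endomorphism. -/
def sig (hnorm : ∀ γ, ∀ M ∈ R, T γ * M * T γ⁻¹ ∈ R) (γ : Γ) : R →+* R where
  toFun M := ⟨T γ * M.1 * T γ⁻¹, hnorm γ M.1 M.2⟩
  map_one' := by
    apply Subtype.ext
    show T γ * 1 * T γ⁻¹ = 1
    rw [mul_one, T_mul_inv]
  map_mul' M N := by
    apply Subtype.ext
    show T γ * (M.1 * N.1) * T γ⁻¹ = (T γ * M.1 * T γ⁻¹) * (T γ * N.1 * T γ⁻¹)
    calc T γ * (M.1 * N.1) * T γ⁻¹ = T γ * M.1 * 1 * N.1 * T γ⁻¹ := by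
          rw [mul_one, mul_assoc (T γ) M.1 N.1]
      _ = T γ * M.1 * (T γ⁻¹ * T γ) * N.1 * T γ⁻¹ := by rw [T_inv_mul]
      _ = _ := by simp only [mul_assoc]
  map_zero' := by
    apply Subtype.ext
    show T γ * 0 * T γ⁻¹ = 0
    rw [mul_zero, zero_mul]
  map_add' M N := by
    apply Subtype.ext
    show T γ * (M.1 + N.1) * T γ⁻¹ = T γ * M.1 * T γ⁻¹ + T γ * N.1 * T γ⁻¹
    rw [mul_add, add_mul]

lemma sig_surj (hnorm : ∀ γ, ∀ M ∈ R, T γ * M * T γ⁻¹ ∈ R) (γ : Γ) :
    Function.Surjective (sig T R hnorm γ) := by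
  intro M
  refine ⟨sig T R hnorm γ⁻¹ M, ?_⟩
  apply Subtype.ext
  show T γ * (T γ⁻¹ * M.1 * T γ⁻¹⁻¹) * T γ⁻¹ = M.1
  rw [inv_inv]
  calc T γ * (T γ⁻¹ * M.1 * T γ) * T γ⁻¹ = (T γ * T γ⁻¹) * M.1 * (T γ * T γ⁻¹) := by
        simp only [mul_assoc]
    _ = M.1 := by rw [T_mul_inv, one_mul, mul_one]

lemma pow_mem (hnorm : ∀ γ, ∀ M ∈ R, T γ * M * T γ⁻¹ ∈ R) {n : R} (hn : n ∈ Ring.jacobson R)
    (γ : Γ) (k : ℕ) : ∃ P : R, P ∈ Ring.jacobson R ^ k ∧
      ((n : Module.End K V) * T γ) ^ k = P * T γ ^ k := by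
  induction k with
  | zero => exact ⟨1, by rw [Submodule.pow_zero, Ideal.one_eq_top]; trivial, by simp⟩
  | succ k ih =>
    obtain ⟨P, hP, h⟩ := ih
    refine ⟨P * sig T R hnorm (γ ^ k) n, ?_, ?_⟩
    · rw [Submodule.pow_succ]
      apply Ideal.mul_mem_mul hP
      have : RingHomSurjective (sig T R hnorm (γ ^ k)) := ⟨sig_surj T R hnorm _⟩
      exact Ring.le_comap_jacobson (sig T R hnorm (γ ^ k)) hn
    · show _ = (P.1 * (T (γ ^ k) * n.1 * T (γ ^ k)⁻¹)) * T γ ^ (k + 1)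
      rw [pow_succ, h, pow_succ, ← map_pow]
      calc P.1 * T (γ ^ k) * (n.1 * T γ) = P.1 * T (γ ^ k) * n.1 * 1 * T γ := by
            simp only [mul_assoc, mul_one]
        _ = P.1 * T (γ ^ k) * n.1 * (T (γ ^ k)⁻¹ * T (γ ^ k)) * T γ := by rw [T_inv_mul]
        _ = _ := by simp only [mul_assoc]

end Semi

open Semi in
theorem pSemi : SSemi := by
  intro K V _ _ _ _ Γ _ T hT R hR hnorm N hN
  have hart : IsArtinianRing R := IsArtinianRing.of_finite K R
  have hJ : Ring.jacobson R = ⊥ := by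
    rw [eq_bot_iff]
    intro n hn
    obtain ⟨m, hm⟩ := IsSemiprimaryRing.isNilpotent (R := R)
    have h1 : ∀ γ, LinearMap.trace K V ((n : Module.End K V) * T γ) = 0 := by
      intro γ
      obtain ⟨P, hP, h⟩ := pow_mem T R hnorm hn γ m
      rw [hm] at hP
      have hP0 : P = 0 := hP
      have hnil : IsNilpotent ((n : Module.End K V) * T γ) := ⟨m, by rw [h, hP0]; simp⟩
      exact (LinearMap.isNilpotent_trace_of_isNilpotent hnil).eq_zero
    have h2 := hT n.1 (hR n.2) h1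
    exact Subtype.ext h2
  have hss : IsSemisimpleRing R := IsArtinianRing.isSemisimpleRing_iff_jacobson.mpr hJ
  let N1 : Submodule R V :=
    { carrier := N
      add_mem' := fun ha hb => N.add_mem ha hb
      zero_mem' := N.zero_mem
      smul_mem' := fun M y hy => hN M.1 M.2 y hy }
  obtain ⟨N2, hN2⟩ := exists_isCompl N1
  let q : V →ₗ[R] N1 := N1.projectionOnto N2 hN2
  refine ⟨{ toFun := fun v => (q v : V), map_add' := fun a b => by simp,
            map_smul' := ?_ }, ?_, ?_, ?_⟩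
  · intro k v
    have h1 : q ((algebraMap K R k) • v) = (algebraMap K R k) • q v := q.map_smul _ _
    have h2 : (algebraMap K R k) • v = k • v := by
      show ((algebraMap K R k : R) : Module.End K V) v = k • v
      simp
    have h3 : (((algebraMap K R k) • q v : N1) : V) = k • (q v : V) := by
      show ((algebraMap K R k : R) : Module.End K V) (q v : V) = k • (q v : V)
      simp
    simp only [RingHom.id_apply]
    rw [← h3, ← h1, h2]
  · intro y
    exact (q y).2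
  · intro y hy
    show (q y : V) = y
    have := Submodule.projectionOnto_apply_left hN2 (⟨y, hy⟩ : N1)
    exact congrArg Subtype.val this
  · intro M hM
    ext v
    show (q (M v) : V) = M (q v)
    have h1 : q ((⟨M, hM⟩ : R) • v) = (⟨M, hM⟩ : R) • q v := q.map_smul _ _
    exact congrArg Subtype.val h1

end Pool.Agent.Lib.MP_640417_ag.Four
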