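import Pool.Agent.Lib.MP_640417_ag.Four.Spec

/-!
# The trace form of a semisimple group of endomorphisms is nondegenerate
-/

set_option autoImplicit false

namespace Pool.Agent.Lib.MP_640417_ag.Four

open Module Polynomial

/-- In characteristic zero an endomorphism whose positive powers have trace zero is nilpotent. -/
theorem trace_nil {F : Type} [Field F] [CharZero F] {V : Type} [AddCommGroup V] [Module F V]
    [FiniteDimensional F V] (s : Module.End F V)
    (h : ∀ k, 0 < k → LinearMap.trace F V (s ^ k) = 0) : IsNilpotent s := by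
  have hint : IsIntegral F s := Algebra.IsIntegral.isIntegral s
  have hμ0 : minpoly F s ≠ 0 := (minpoly.monic hint).ne_zero
  obtain ⟨q, hq, hqX⟩ := (minpoly F s).exists_eq_pow_rootMultiplicity_mul_and_not_dvd hμ0 0
  rw [C_0, sub_zero] at hq hqX
  set m := (minpoly F s).rootMultiplicity 0 with hm
  have hcop : IsCoprime (X ^ (m + 1)) q :=
    ((Polynomial.irreducible_X (R := F)).coprime_iff_not_dvd.2 hqX).pow_left
  obtain ⟨a, b, hab⟩ := hcop
  have hμ : aeval s (X ^ m * q) = 0 := by
    rw [← hq]
    exact minpoly.aeval F s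
  have hid : IsIdempotentElem (aeval s (a * X ^ (m + 1))) := by
    unfold IsIdempotentElem
    rw [← map_mul]
    have h1 : a * X ^ (m + 1) * (a * X ^ (m + 1)) =
        a * X ^ (m + 1) - (a * X * b) * (X ^ m * q) := by
      have h2 : a * X ^ (m + 1) = 1 - b * q := by rw [← hab]; ring
      calc a * X ^ (m + 1) * (a * X ^ (m + 1)) = a * X ^ (m + 1) * (1 - b * q) := by
            rw [← h2]
        _ = a * X ^ (m + 1) - (a * X * b) * (X ^ m * q) := by ring
    rw [h1, map_sub, map_mul (aeval s) (a * X * b), hμ, mul_zero, sub_zero]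
  have htr : LinearMap.trace F V (aeval s (a * X ^ (m + 1))) = 0 := by
    rw [map_mul, aeval_eq_sum_range, Finset.sum_mul, map_sum]
    refine Finset.sum_eq_zero fun i _ => ?_
    rw [map_pow, aeval_X, smul_mul_assoc, map_smul, ← pow_add, h _ (by omega), smul_zero]
  have h0 : aeval s (a * X ^ (m + 1)) = 0 :=
    LinearMap.IsIdempotentElem.eq_zero_of_trace_eq_zero hid htr
  refine ⟨m, ?_⟩
  have h3 : aeval s (X ^ m * q * b) = s ^ m := by
    have h4 : X ^ m * q * b = X ^ m - X ^ m * (a * X ^ (m + 1)) := by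
      have h5 : b * q = 1 - a * X ^ (m + 1) := by rw [← hab]; ring
      calc X ^ m * q * b = X ^ m * (b * q) := by ring
        _ = X ^ m - X ^ m * (a * X ^ (m + 1)) := by rw [h5]; ring
    rw [h4, map_sub, map_mul (aeval s) (X ^ m) (a * X ^ (m + 1)), h0, mul_zero, sub_zero, map_pow, aeval_X]
  rw [← h3, map_mul (aeval s), hμ, zero_mul]

theorem pTrace : STrace := by
  intro Γ _ F _ _ V _ _ _ T hT s₀ hs₀ htr₀
  have hTR : ∀ γ, T γ ∈ Submodule.span F (Set.range T) := fun γ =>
    Submodule.subset_span ⟨γ, rfl⟩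
  have hmul : ∀ r ∈ Submodule.span F (Set.range T), ∀ r' ∈ Submodule.span F (Set.range T),
      r * r' ∈ Submodule.span F (Set.range T) := by
    intro r hr r' hr'
    induction hr using Submodule.span_induction with
    | mem x hx =>
      obtain ⟨γ, rfl⟩ := hx
      induction hr' using Submodule.span_induction with
      | mem y hy =>
        obtain ⟨γ', rfl⟩ := hy
        rw [← map_mul]
        exact hTR _
      | zero => rw [mul_zero]; exact Submodule.zero_mem _
      | add y z _ _ hy hz => rw [mul_add]; exact Submodule.add_mem _ hy hz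
      | smul c y _ hy => rw [mul_smul_comm]; exact Submodule.smul_mem _ _ hy
    | zero => rw [zero_mul]; exact Submodule.zero_mem _
    | add y z _ _ hy hz => rw [add_mul]; exact Submodule.add_mem _ hy hz
    | smul c y _ hy => rw [smul_mul_assoc]; exact Submodule.smul_mem _ _ hy
  have htr : ∀ s : Module.End F V, (∀ γ, LinearMap.trace F V (s * T γ) = 0) →
      ∀ r ∈ Submodule.span F (Set.range T), LinearMap.trace F V (s * r) = 0 := by
    intro s hs r hr
    induction hr using Submodule.span_induction with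
    | mem x hx =>
      obtain ⟨γ, rfl⟩ := hx
      exact hs γ
    | zero => rw [mul_zero, map_zero]
    | add y z _ _ hy hz => rw [mul_add, map_add, hy, hz, add_zero]
    | smul c y _ hy => rw [mul_smul_comm, map_smul, hy, smul_zero]
  -- the radical
  let N : Set (Module.End F V) := {s | s ∈ Submodule.span F (Set.range T) ∧
    ∀ r ∈ Submodule.span F (Set.range T), LinearMap.trace F V (s * r) = 0}
  have hNl : ∀ s ∈ N, ∀ r ∈ Submodule.span F (Set.range T), r * s ∈ N := by
    rintro s ⟨hs1, hs2⟩ r hr
    refine ⟨hmul r hr s hs1, fun r' hr' => ?_⟩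
    rw [mul_assoc, LinearMap.trace_mul_comm, mul_assoc]
    exact hs2 _ (hmul r' hr' r hr)
  have hNr : ∀ s ∈ N, ∀ r ∈ Submodule.span F (Set.range T), s * r ∈ N := by
    rintro s ⟨hs1, hs2⟩ r hr
    refine ⟨hmul s hs1 r hr, fun r' hr' => ?_⟩
    rw [mul_assoc]
    exact hs2 _ (hmul r hr r' hr')
  have hNnil : ∀ s ∈ N, IsNilpotent s := by
    intro s hs
    apply trace_nil
    intro k hk
    obtain ⟨j, rfl⟩ : ∃ j, k = j + 1 := ⟨k - 1, by omega⟩
    have h1 : ∀ j : ℕ, s ^ j ∈ Submodule.span F (Set.range T) := by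
      intro j
      induction j with
      | zero =>
        rw [pow_zero, ← map_one T]
        exact hTR 1
      | succ j ih =>
        rw [pow_succ]
        exact hmul _ ih _ hs.1
    rw [pow_succ']
    exact hs.2 _ (h1 j)
  -- the common kernel
  let W : Submodule F V :=
    { carrier := {y | ∀ s ∈ N, s y = 0}
      add_mem' := by
        intro y z hy hz s hs
        rw [map_add, hy s hs, hz s hs, add_zero]
      zero_mem' := by
        intro s _
        exact map_zero s
      smul_mem' := by
        intro c y hy s hs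
        rw [map_smul, hy s hs, smul_zero] }
  have hW : ∀ γ, ∀ y ∈ W, T γ y ∈ W := by
    intro γ y hy s hs
    have h1 := hy (s * T γ) (hNr s hs _ (hTR γ))
    exact h1
  obtain ⟨W', hW', hcompl⟩ := hT W hW
  have hstab : ∀ M : Submodule F V, (∀ γ, ∀ y ∈ M, T γ y ∈ M) →
      ∀ r ∈ Submodule.span F (Set.range T), ∀ y ∈ M, r y ∈ M := by
    intro M hM r hr y hy
    induction hr using Submodule.span_induction with
    | mem x hx =>
      obtain ⟨γ, rfl⟩ := hx
      exact hM γ y hy
    | zero => exact Submodule.zero_mem _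
    | add a b _ _ ha hb => exact Submodule.add_mem _ ha hb
    | smul c a _ ha => exact Submodule.smul_mem _ _ ha
  have hW'0 : W' = ⊥ := by
    by_contra hne
    -- a minimal nonzero stable subspace
    obtain ⟨M, ⟨hM0, hMW, hMs⟩, hmin⟩ := WellFounded.has_min
      (wellFounded_lt (α := Submodule F V))
      {M : Submodule F V | M ≠ ⊥ ∧ M ≤ W' ∧ ∀ γ, ∀ y ∈ M, T γ y ∈ M} ⟨W', hne, le_rfl, hW'⟩
    have hkill : ∀ s ∈ N, ∀ y ∈ M, s y = 0 := by
      intro s hs y hy
      by_contra hsy
      let P : Submodule F V :=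
        (Submodule.span F (Set.range T)).map (LinearMap.applyₗ (R := F) (M₂ := V) (s y))
      have hPM : P ≤ M := by
        rintro z ⟨r, hr, rfl⟩
        exact hstab M hMs r hr _ (hstab M hMs s hs.1 y hy)
      have hP1 : s y ∈ P := ⟨T 1, hTR 1, by rw [map_one]; rfl⟩
      have hP0 : P ≠ ⊥ := by
        intro h
        rw [h] at hP1
        exact hsy ((Submodule.mem_bot F).1 hP1)
      have hPs : ∀ γ, ∀ z ∈ P, T γ z ∈ P := by
        rintro γ z ⟨r, hr, rfl⟩
        exact ⟨T γ * r, hmul _ (hTR γ) r hr, rfl⟩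
      have hPM' : ¬ P < M := hmin P ⟨hP0, hPM.trans hMW, hPs⟩
      have hPe : P = M := by
        by_contra hne'
        exact hPM' (lt_of_le_of_ne hPM hne')
      rw [← hPe] at hy
      obtain ⟨r, hr, hry⟩ := hy
      have h1 : (r * s) y = y := hry
      obtain ⟨k, hk⟩ := hNnil (r * s) (hNl s hs r hr)
      have h2 : ∀ j : ℕ, ((r * s) ^ j) y = y := by
        intro j
        induction j with
        | zero => rfl
        | succ j ih => rw [pow_succ, Module.End.mul_apply, h1, ih]
      have h3 := h2 k
      rw [hk] at h3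
      apply hsy
      rw [← h3]
      exact map_zero s
    apply hM0
    rw [eq_bot_iff]
    intro y hy
    have h1 : y ∈ W ⊓ W' := ⟨fun s hs => hkill s hs y hy, hMW hy⟩
    rw [hcompl.inf_eq_bot] at h1
    exact h1
  have hWtop : W = ⊤ := by
    have h1 := hcompl.sup_eq_top
    rw [hW'0, sup_bot_eq] at h1
    exact h1
  have hsN : s₀ ∈ N := ⟨hs₀, htr s₀ htr₀⟩
  ext y
  have hy : y ∈ W := by rw [hWtop]; exact Submodule.mem_top
  exact hy s₀ hsN

end Pool.Agent.Lib.MP_640417_ag.Four
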