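import Pool.Agent.Lib.MP_640417_ag.Frob.Setup

/-!
# Four-term relations between the eigenvalues of one element
-/

namespace Pool.Agent.Lib.MP_640417_ag.Four

open Module Polynomial Pool.Agent.Lib.MP_640417_ag Pool.Agent.Lib.MP_640417_ag.Frob

variable {Γ : Type} [Group Γ] [TopologicalSpace Γ] {F : Type} [Field F] [TopologicalSpace F]
  {V : Type} [AddCommGroup V] [Module F V] [FiniteDimensional F V]

/-- The eigenvalue `z` of `T γ` is simple, and it occurs in no nontrivial relation between four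
eigenvalues: if `z z₂ z₃ z₄` is the square of the multiplier `χ(γ)⁻¹` up to a root of unity, then one
of `z z₂`, `z z₃`, `z z₄` is the multiplier. -/
def IsoRoot (ρ : H1Rep Γ F V) (γ : Γ) (z : AlgebraicClosure F) : Prop :=
  ((ρ.T γ).charpoly.map (algebraMap F (AlgebraicClosure F))).rootMultiplicity z = 1 ∧
    ∀ z₂ z₃ z₄ : AlgebraicClosure F, aeval z₂ (ρ.T γ).charpoly = 0 →
      aeval z₃ (ρ.T γ).charpoly = 0 → aeval z₄ (ρ.T γ).charpoly = 0 → ∀ N : ℕ, 0 < N →
      (z * z₂ * z₃ * z₄) ^ N =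
        (algebraMap F (AlgebraicClosure F) ((ρ.χ γ)⁻¹ : Fˣ).val) ^ (2 * N) →
      z * z₂ = algebraMap F (AlgebraicClosure F) ((ρ.χ γ)⁻¹ : Fˣ).val ∨
        z * z₃ = algebraMap F (AlgebraicClosure F) ((ρ.χ γ)⁻¹ : Fˣ).val ∨
        z * z₄ = algebraMap F (AlgebraicClosure F) ((ρ.χ γ)⁻¹ : Fˣ).val

/-- All eigenvalues of `T γ` are simple, and there are no nontrivial relations between four of them. -/
def GoodElt (ρ : H1Rep Γ F V) (γ : Γ) : Prop :=
  ∀ z : AlgebraicClosure F, aeval z (ρ.T γ).charpoly = 0 → IsoRoot ρ γ z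

/-- Every stable subspace has a stable complement. -/
def Semisimple (ρ : H1Rep Γ F V) : Prop :=
  ∀ W : Submodule F V, (∀ γ, ∀ y ∈ W, ρ.T γ y ∈ W) →
    ∃ W' : Submodule F V, (∀ γ, ∀ y ∈ W', ρ.T γ y ∈ W') ∧ IsCompl W W'

/-- All endomorphisms which commute with an open subgroup are self-adjoint. -/
def SymmetricCommutant (ρ : H1Rep Γ F V) : Prop :=
  ∀ c : Module.End F V, (∃ U : OpenSubgroup Γ, ∀ γ ∈ U, c * ρ.T γ = ρ.T γ * c) →
    ∀ x y, ρ.form (c x) y = ρ.form x (c y)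

/-- No power has an exotic Tate class. -/
def NoExotic (ρ : H1Rep Γ F V) : Prop :=
  ∀ (n i : ℕ) (x : ExteriorAlgebra F (Fin n → V)),
    ¬ ExoticTateClass (fun γ => (ρ.T γ).compLeft (Fin n)) ρ.χ i x

/-- The fourth power has no exotic Tate class of codimension two. -/
def NoExoticFour (ρ : H1Rep Γ F V) : Prop :=
  ∀ x : ExteriorAlgebra F (Fin 4 → V),
    ¬ ExoticTateClass (fun γ => (ρ.T γ).compLeft (Fin 4)) ρ.χ 2 x

end Pool.Agent.Lib.MP_640417_ag.Four
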