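import Mathlib

/-!
# Semisimple endomorphisms are diagonalizable over an algebraic closure
-/

namespace Pool.Agent.Lib.MP_640417_ag.Four

open Module TensorProduct Polynomial

/-- An eigenbasis of a semisimple endomorphism over an algebraically closed field. -/
theorem exists_eigen_of_semisimple {K V : Type} [Field K] [IsAlgClosed K] [AddCommGroup V]
    [Module K V] [FiniteDimensional K V] (g : Module.End K V) (hg : g.IsSemisimple) :
    ∃ (I : Type) (_ : Fintype I) (_ : DecidableEq I) (e : Basis I K V) (lam : I → K),
      ∀ v, g (e v) = lam v • e v := by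
  classical
  have h1 : ⨆ μ, g.eigenspace μ = ⊤ := by
    have h2 := Module.End.iSup_maxGenEigenspace_eq_top g
    have h3 : ∀ μ, g.maxGenEigenspace μ = g.eigenspace μ := fun μ =>
      hg.isFinitelySemisimple.maxGenEigenspace_eq_eigenspace μ
    simpa only [h3] using h2
  have h2 := DirectSum.isInternal_submodule_of_iSupIndep_of_iSup_eq_top
    (g.eigenspaces_iSupIndep) h1
  let b := h2.collectedBasis fun μ => Module.finBasis K (g.eigenspace μ)
  have hfin : Finite (Σ μ : K, Fin (finrank K (g.eigenspace μ))) := Module.Finite.finite_basis b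
  refine ⟨Σ μ : K, Fin (finrank K (g.eigenspace μ)), Fintype.ofFinite _, inferInstance, b,
    fun v => v.1, fun v => ?_⟩
  have h3 := h2.collectedBasis_mem (fun μ => Module.finBasis K (g.eigenspace μ)) v
  exact Module.End.mem_eigenspace_iff.mp h3

/-- Base change of a semisimple endomorphism. -/
theorem isSemisimple_baseChange {F V : Type} [Field F] [CharZero F] [AddCommGroup V] [Module F V]
    [FiniteDimensional F V] (K : Type) [Field K] [Algebra F K] (f : Module.End F V)
    (hf : f.IsSemisimple) :
    Module.End.IsSemisimple (f.baseChange K : Module.End K (K ⊗[F] V)) := by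
  have h1 : (minpoly F f).Separable :=
    PerfectField.separable_iff_squarefree.mpr hf.minpoly_squarefree
  have h2 : ((minpoly F f).map (algebraMap F K)).Separable := h1.map
  apply Module.End.isSemisimple_of_squarefree_aeval_eq_zero h2.squarefree
  rw [aeval_map_algebraMap]
  have h3 : aeval ((Module.End.baseChangeHom F K V) f) (minpoly F f) =
      (Module.End.baseChangeHom F K V) (aeval f (minpoly F f)) :=
    Polynomial.aeval_algHom_apply _ _ _
  have h4 : (Module.End.baseChangeHom F K V) f = (f.baseChange K : Module.End K (K ⊗[F] V)) := rfl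
  rw [h4] at h3
  rw [h3, minpoly.aeval, map_zero]

/-- The characteristic polynomial in an eigenbasis. -/
theorem charpoly_eigenbasis {K V : Type} [Field K] [AddCommGroup V] [Module K V]
    [FiniteDimensional K V] {I : Type} [Fintype I] [DecidableEq I] (e : Basis I K V) (lam : I → K)
    (g : Module.End K V) (h : ∀ v, g (e v) = lam v • e v) :
    g.charpoly = ∏ v, (X - C (lam v)) := by
  rw [← LinearMap.charpoly_toMatrix g e]
  have h1 : LinearMap.toMatrix e e g = Matrix.diagonal lam := by
    ext u v
    rw [LinearMap.toMatrix_apply, h, map_smul, Finsupp.smul_apply, Basis.repr_self, smul_eq_mul,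
      Matrix.diagonal_apply]
    by_cases h : u = v
    · subst h; simp
    · rw [if_neg h, Finsupp.single_eq_of_ne h, mul_zero]
  rw [h1, Matrix.charpoly_diagonal]

/-- Eigenvalues with multiplicity one. -/
theorem eq_of_rootMultiplicity {K V : Type} [Field K] [AddCommGroup V] [Module K V]
    [FiniteDimensional K V] {I : Type} [Fintype I] [DecidableEq I] (e : Basis I K V) (lam : I → K)
    (g : Module.End K V) (h : ∀ v, g (e v) = lam v • e v) (u v : I)
    (hu : g.charpoly.rootMultiplicity (lam u) = 1) (huv : lam v = lam u) : v = u := by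
  by_contra hne
  rw [charpoly_eigenbasis e lam g h] at hu
  have h1 : ((X - C (lam u)) ^ 2 : K[X]) ∣ ∏ v, (X - C (lam v)) := by
    rw [← Finset.mul_prod_erase Finset.univ (fun v => (X - C (lam v) : K[X])) (Finset.mem_univ u),
      ← Finset.mul_prod_erase (Finset.univ.erase u) (fun v => (X - C (lam v) : K[X]))
        (Finset.mem_erase.mpr ⟨hne, Finset.mem_univ v⟩), huv, ← mul_assoc, sq]
    exact dvd_mul_right _ _
  have h2 : ∏ v, (X - C (lam v)) ≠ (0 : K[X]) := by
    rw [Finset.prod_ne_zero_iff]
    exact fun v _ => X_sub_C_ne_zero _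
  have h3 := (le_rootMultiplicity_iff h2).mpr h1
  omega

end Pool.Agent.Lib.MP_640417_ag.Four
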