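import Pool.Agent.Lib.MP_640417_ag.Four.Struct

/-!
# The decomposition into blocks
-/

namespace Pool.Agent.Lib.MP_640417_ag.Four

open Module

variable {K V : Type} [Field K] [CharZero K] [AddCommGroup V] [Module K V] [FiniteDimensional K V]
  {form : LinearMap.BilinForm K V} {L : Submodule K (Module.End K V)}
  {R : Subalgebra K (Module.End K V)} {t : Module.End K V}

omit [CharZero K] [FiniteDimensional K V] in
/-- Stable subspaces for `L` are stable for `R`, and cyclic submodules are minimal. -/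
lemma Rm_le' {e : V} (Y : Submodule K V) (he : e ∈ Y) (hY : ∀ M ∈ R, ∀ y ∈ Y, M y ∈ Y) :
    Rm R e ≤ Y := by
  rintro _ ⟨M, hM, rfl⟩
  exact hY M hM e he

/-- The orthogonal complement. -/
def perp (form : LinearMap.BilinForm K V) (Y : Submodule K V) : Submodule K V where
  carrier := {x | ∀ y ∈ Y, form x y = 0}
  zero_mem' := fun y _ => by simp
  add_mem' := fun {a b} ha hb y hy => by
    rw [map_add, LinearMap.add_apply, ha y hy, hb y hy, add_zero]
  smul_mem' := fun r a ha y hy => by
    rw [map_smul, LinearMap.smul_apply, ha y hy, smul_zero]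

omit [CharZero K] [FiniteDimensional K V] in
lemma mem_perp (Y : Submodule K V) (x : V) : x ∈ perp form Y ↔ ∀ y ∈ Y, form x y = 0 := Iff.rfl

omit [CharZero K] [FiniteDimensional K V] in
lemma perp_stable (h : Ctx form L R t) (Y : Submodule K V)
    (hY : ∀ M ∈ R, ∀ y ∈ Y, M y ∈ Y) : ∀ M ∈ R, ∀ x ∈ perp form Y, M x ∈ perp form Y := by
  apply h.gen
  intro M hM x hx y hy
  have h1 := h.skew M hM x y
  rw [hx (M y) (hY M (h.le M hM) y hy), add_zero] at h1
  exact h1

omit [CharZero K] [FiniteDimensional K V] in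
/-- Distinct blocks. -/
lemma Rm_eq_of_mem (h : Ctx form L R t) {τ : K} {e e' a : V} (he : IsoPair form L t τ e e')
    (ha : a ≠ 0) (hmem : a ∈ Rm R e) : Rm R a = Rm R e :=
  le_antisymm (Rm_le' _ hmem (Rm_stable e)) (Rm_le' _ (mem_symm h he ha hmem) (Rm_stable a))

/-- The pairing of blocks which are not dual to each other vanishes. -/
lemma pairing_zero (h : Ctx form L R t) {τ τ₁ : K} {e e' a a' : V}
    (he : IsoPair form L t τ e e') (ha : IsoPair form L t τ₁ a a')
    (hne : Rm R e' ≠ Rm R a) : ∀ x ∈ Rm R e, ∀ y ∈ Rm R a, form x y = 0 := by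
  have h1 : e' ∉ Rm R a := fun hmem => hne (Rm_eq_of_mem h ha (e_ne h (he.swap h)) hmem)
  have h2 : ∀ w ∈ Rm R a, form e w = 0 :=
    functional h he (Rm R a) (fun w hw => Rm_stable a t (h.le t h.tmem) w hw) h1
  have h3 : Rm R e ≤ perp form (Rm R a) :=
    Rm_le' _ h2 (perp_stable h _ (Rm_stable a))
  exact fun x hx y hy => h3 hx y hy

/-- The data of a complete decomposition into blocks. -/
theorem exists_blocks (pOpen : SOpen) (h : Ctx form L R t)
    {Γ : Type} [Group Γ] [TopologicalSpace Γ] [IsTopologicalGroup Γ] (T : Γ →* Module.End K V)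
    (hclosed : ∀ (f : Module.Dual K V) (x : V), IsClosed {γ : Γ | f (T γ x) = 0})
    (mu : Γ → K)
    (hform : ∀ γ x y, form (T γ x) (T γ y) = mu γ * form x y)
    (hconj : ∀ γ, ∀ M ∈ R, T γ * M * T γ⁻¹ ∈ R)
    (κ : Type) [Fintype κ] (τ : κ → K) (E E' : κ → V) (st : κ → κ)
    (hE : ∀ a, IsoPair form L t (τ a) (E a) (E' a))
    (hst : ∀ a, Rm R (E' a) = Rm R (E (st a))) (hst2 : ∀ a, Rm R (E (st (st a))) = Rm R (E a))
    (hcen : ∀ (U : OpenSubgroup Γ) (c : Module.End K V), (∀ γ ∈ U, c * T γ = T γ * c) →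
      (∀ a, c (E a) = 0) → c = 0) :
    ∃ (B : Type) (_ : Fintype B) (_ : DecidableEq B) (sb : B → B) (p : B → Module.End K V)
      (r : B → κ) (U : OpenSubgroup Γ),
      (∀ b, sb (sb b) = b) ∧ ∑ b, p b = 1 ∧ (∀ b, p b * p b = p b) ∧
      (∀ b b', b ≠ b' → p b * p b' = 0) ∧ (∀ b x y, form (p b x) y = form x (p (sb b) y)) ∧
      (∀ b, ∀ γ ∈ U, p b * T γ = T γ * p b) ∧
      (∀ b y, p b y = y ↔ y ∈ Rm R (E (r b))) ∧
      (∀ b y, p (sb b) y = y ↔ y ∈ Rm R (E' (r b))) := by
  classical
  let Y : κ → Submodule K V := fun a => Rm R (E a)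
  let B : Type := Set.range Y
  have hTT : ∀ γ, T γ * T γ⁻¹ = 1 := fun γ => by rw [← map_mul, mul_inv_cancel, map_one]
  have hTT' : ∀ γ, T γ⁻¹ * T γ = 1 := fun γ => by rw [← map_mul, inv_mul_cancel, map_one]
  -- representatives and projectors
  have hrep : ∀ b : B, ∃ a, Y a = b.1 := fun b => b.2
  choose r hr using hrep
  have hpr : ∀ b : B, ∃ p : Module.End K V, (∀ y, p y ∈ Y (r b)) ∧ (∀ y ∈ Y (r b), p y = y) ∧
      ∀ M ∈ R, p * M = M * p := fun b => h.proj _ (Rm_stable _)
  choose p hp1 hp2 hp3 using hpr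
  let bl : κ → B := fun a => ⟨Y a, a, rfl⟩
  have hbl : ∀ a, Y (r (bl a)) = Y a := fun a => hr (bl a)
  have hEne : ∀ a, E a ≠ 0 := fun a => e_ne h (hE a)
  -- values of the projectors
  have hpne : ∀ (b : B) (a : κ), b ≠ bl a → p b (E a) = 0 := by
    intro b a hne
    obtain ⟨k, hk⟩ := proj_eig h (hE a) (hp3 b)
    by_cases hk0 : k = 0
    · rw [hk, hk0, zero_smul]
    · exfalso
      apply hne
      have h1 := hp1 b (E a)
      rw [hk] at h1
      have h2 := (Y (r b)).smul_mem k⁻¹ h1
      rw [smul_smul, inv_mul_cancel₀ hk0, one_smul] at h2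
      have h3 := Rm_eq_of_mem h (hE (r b)) (hEne a) h2
      apply Subtype.ext
      rw [← hr b]
      exact h3.symm
  have hpeq : ∀ a, p (bl a) (E a) = E a := by
    intro a
    apply hp2
    rw [hbl]
    exact self_mem_Rm (E a)
  have hpzero : ∀ (b : B) (a : κ), b ≠ bl a → ∀ y ∈ Y a, p b y = 0 := by
    rintro b a hne _ ⟨M, hM, rfl⟩
    have h1 := LinearMap.congr_fun (hp3 b M hM) (E a)
    rw [Module.End.mul_apply, Module.End.mul_apply, hpne b a hne, map_zero] at h1
    exact h1
  -- the sum of the blocks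
  let V₀ : Submodule K V := ⨆ a, Y a
  have hV₀R : ∀ M ∈ R, ∀ y ∈ V₀, M y ∈ V₀ := by
    intro M hM y hy
    have h1 : V₀ ≤ V₀.comap M := by
      apply iSup_le
      intro a y hy
      exact (le_iSup Y a) (Rm_stable _ M hM y hy)
    exact h1 hy
  have hE' : ∀ a, E' a ∈ V₀ := by
    intro a
    have h1 : E' a ∈ Rm R (E' a) := self_mem_Rm _
    rw [hst] at h1
    exact (le_iSup Y (st a)) h1
  have hN : ∀ x ∈ V₀, x ∈ perp form V₀ → x = 0 := by
    obtain ⟨q, hq1, hq2, hq3⟩ := h.proj (V₀ ⊓ perp form V₀) (fun M hM y hy =>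
      ⟨hV₀R M hM y hy.1, perp_stable h V₀ hV₀R M hM y hy.2⟩)
    have h1 : ∀ a, q (E a) = 0 := by
      intro a
      obtain ⟨k, hk⟩ := proj_eig h (hE a) hq3
      by_cases hk0 : k = 0
      · rw [hk, hk0, zero_smul]
      · exfalso
        have h2 := (hq1 (E a)).2 (E' a) (hE' a)
        rw [hk, map_smul, LinearMap.smul_apply, (hE a).pair, smul_eq_mul, mul_one] at h2
        exact hk0 h2
    have h2 : V₀ ≤ LinearMap.ker q := by
      apply iSup_le
      rintro a _ ⟨M, hM, rfl⟩
      have h3 := LinearMap.congr_fun (hq3 M hM) (E a)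
      rw [Module.End.mul_apply, Module.End.mul_apply, h1 a, map_zero] at h3
      exact h3
    intro x hx hx'
    rw [← hq2 x ⟨hx, hx'⟩]
    exact h2 hx
  -- the open subgroup
  have hU : ∃ U : OpenSubgroup Γ, ∀ γ ∈ U, ∀ a, ∀ y ∈ Y a, T γ y ∈ Y a := by
    have h1 : ∀ a, ∃ U : OpenSubgroup Γ, ∀ γ ∈ U, ∀ y ∈ Y a, T γ y ∈ Y a := by
      intro a
      obtain ⟨U, hU⟩ := pOpen K V Γ T hclosed R hconj (E a) (hEne a) (fun f hf =>
        proj_eig h (hE a) hf)
      refine ⟨U, fun γ hγ => ?_⟩
      rintro _ ⟨M, hM, rfl⟩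
      have h2 := hU γ hγ (p (bl a)) (hp3 _) 1 (by rw [hpeq, one_smul])
      rw [one_smul] at h2
      have h3 : T γ (E a) ∈ Y a := by
        rw [← h2, ← hbl a]
        exact hp1 _ _
      have h4 : T γ (LinearMap.applyₗ (E a) M) = (T γ * M * T γ⁻¹) (T γ (E a)) := by
        change T γ (M (E a)) = T γ (M (T γ⁻¹ (T γ (E a))))
        rw [← Module.End.mul_apply (T γ⁻¹), hTT', Module.End.one_apply]
      rw [h4]
      exact Rm_stable _ _ (hconj γ M hM) _ h3
    choose U hU using h1
    have h2 : ∀ s : Finset κ, ∃ W : OpenSubgroup Γ, ∀ γ ∈ W, ∀ a ∈ s, ∀ y ∈ Y a, T γ y ∈ Y a := by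
      intro s
      induction s using Finset.induction_on with
      | empty => exact ⟨⊤, fun γ _ a ha => absurd ha (Finset.notMem_empty a)⟩
      | insert a s _ ih =>
        obtain ⟨W, hW⟩ := ih
        refine ⟨U a ⊓ W, fun γ hγ a' ha' => ?_⟩
        rcases Finset.mem_insert.mp ha' with rfl | h3
        · exact hU _ γ hγ.1
        · exact hW γ hγ.2 a' h3
    obtain ⟨W, hW⟩ := h2 Finset.univ
    exact ⟨W, fun γ hγ a => hW γ hγ a (Finset.mem_univ a)⟩
  obtain ⟨U, hU⟩ := hU
  have hUV : ∀ γ ∈ U, ∀ y ∈ V₀, T γ y ∈ V₀ := by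
    intro γ hγ y hy
    have h1 : V₀ ≤ V₀.comap (T γ) := by
      apply iSup_le
      intro a y hy
      exact (le_iSup Y a) (hU γ hγ a y hy)
    exact h1 hy
  have hUP : ∀ γ ∈ U, ∀ y ∈ perp form V₀, T γ y ∈ perp form V₀ := by
    intro γ hγ x hx y hy
    have h1 : y = T γ (T γ⁻¹ y) := by
      rw [← Module.End.mul_apply, hTT, Module.End.one_apply]
    rw [h1, hform, hx _ (hUV γ⁻¹ (U.inv_mem hγ) y hy), mul_zero]
  -- the sum of the blocks is everything
  have hcompl : ∀ v : V, ∃ u ∈ V₀, v - u ∈ perp form V₀ := by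
    let g : V →ₗ[K] Module.Dual K V₀ := (V₀.subtype.dualMap) ∘ₗ form
    have hg : ∀ v y, g v y = form v y := fun v y => rfl
    let g₀ : V₀ →ₗ[K] Module.Dual K V₀ := g ∘ₗ V₀.subtype
    have hinj : Function.Injective g₀ := by
      rw [← LinearMap.ker_eq_bot, LinearMap.ker_eq_bot']
      intro x hx
      apply Subtype.ext
      apply hN x.1 x.2
      intro y hy
      have := LinearMap.congr_fun hx ⟨y, hy⟩
      exact this
    have hsurj : Function.Surjective g₀ :=
      (LinearMap.injective_iff_surjective_of_finrank_eq_finrank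
        (Subspace.dual_finrank_eq (K := K) (V := V₀)).symm).mp hinj
    intro v
    obtain ⟨u, hu⟩ := hsurj (g v)
    refine ⟨u.1, u.2, fun y hy => ?_⟩
    have h1 := LinearMap.congr_fun hu ⟨y, hy⟩
    have h2 : form u.1 y = form v y := h1
    rw [map_sub, LinearMap.sub_apply, h2, sub_self]
  have htop : V₀ = ⊤ := by
    have hc : IsCompl (perp form V₀) V₀ := by
      refine IsCompl.of_eq ?_ ?_
      · rw [Submodule.eq_bot_iff]
        rintro x ⟨hx1, hx2⟩
        exact hN x hx2 hx1
      · rw [Submodule.eq_top_iff']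
        intro v
        obtain ⟨u, hu1, hu2⟩ := hcompl v
        rw [Submodule.mem_sup]
        exact ⟨v - u, hu2, u, hu1, by abel⟩
    let π : Module.End K V := (perp form V₀).subtype ∘ₗ Submodule.projectionOnto _ _ hc
    have hπ1 : ∀ y ∈ V₀, π y = 0 := by
      intro y hy
      change ((Submodule.projectionOnto _ _ hc y : perp form V₀) : V) = 0
      rw [(Submodule.projectionOnto_apply_eq_zero_iff hc).mpr hy]
      rfl
    have hπ2 : ∀ y ∈ perp form V₀, π y = y := by
      intro y hy
      change ((Submodule.projectionOnto _ _ hc y : perp form V₀) : V) = y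
      have := Submodule.projectionOnto_apply_left hc ⟨y, hy⟩
      rw [this]
    have hπ : π = 0 := by
      apply hcen U
      · intro γ hγ
        ext v
        obtain ⟨u, hu1, hu2⟩ := hcompl v
        have h1 : v = u + (v - u) := by abel
        rw [h1, Module.End.mul_apply, Module.End.mul_apply, map_add, map_add, map_add, map_add,
          hπ1 u hu1, hπ1 _ (hUV γ hγ u hu1), hπ2 _ hu2, hπ2 _ (hUP γ hγ _ hu2), map_zero]
      · intro a
        exact hπ1 _ ((le_iSup Y a) (self_mem_Rm (E a)))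
    rw [Submodule.eq_top_iff']
    intro v
    obtain ⟨u, hu1, hu2⟩ := hcompl v
    have h1 := hπ2 _ hu2
    rw [hπ, LinearMap.zero_apply] at h1
    rw [sub_eq_zero.mp h1.symm]
    exact hu1
  -- the duality of the blocks
  have hstwd : ∀ a a', Y a = Y a' → Y (st a) = Y (st a') := by
    intro a a' haa
    by_contra hne
    have h1 : Rm R (E' a') ≠ Rm R (E (st a)) := by
      rw [hst]
      exact fun h2 => hne h2.symm
    have h2 := pairing_zero h (hE a') (hE (st a)) h1 (E a) (by
      change E a ∈ Y a'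
      rw [← haa]
      exact self_mem_Rm _) (E' a) (by
      rw [← hst]
      exact self_mem_Rm _)
    rw [(hE a).pair] at h2
    exact one_ne_zero h2
  let sb : B → B := fun b => bl (st (r b))
  have hsb : ∀ b, Y (r (sb b)) = Y (st (r b)) := fun b => hbl _
  have hfin : Fintype B := Fintype.ofFinite B
  have hsbb : ∀ b, sb (sb b) = b := by
    intro b
    apply Subtype.ext
    change Y (st (r (sb b))) = b.1
    have h1 : Y (st (r (sb b))) = Y (st (st (r b))) := hstwd _ _ (hsb b)
    rw [h1, ← hr b]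
    exact hst2 (r b)
  have hYr : ∀ b : B, ∀ y, p b y = y ↔ y ∈ Y (r b) := by
    intro b y
    constructor
    · intro h1
      rw [← h1]
      exact hp1 b y
    · exact hp2 b y
  have hsum : ∑ b, p b = 1 := by
    have h1 : V₀ ≤ LinearMap.ker (∑ b, p b - 1) := by
      apply iSup_le
      intro a y hy
      rw [LinearMap.mem_ker, LinearMap.sub_apply, LinearMap.sum_apply, Module.End.one_apply,
        Finset.sum_eq_single (bl a)]
      · rw [hp2 _ y (by rw [hbl]; exact hy), sub_self]
      · intro b _ hb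
        exact hpzero b a hb y hy
      · intro hb; exact absurd (Finset.mem_univ _) hb
    ext v
    have h2 : v ∈ LinearMap.ker (∑ b, p b - 1) := h1 (by rw [htop]; trivial)
    rw [LinearMap.mem_ker, LinearMap.sub_apply, sub_eq_zero] at h2
    exact h2
  have horth : ∀ b b', b ≠ b' → p b * p b' = 0 := by
    intro b b' hbb
    ext v
    rw [Module.End.mul_apply, LinearMap.zero_apply]
    apply hpzero b (r b') _ _ (hp1 b' v)
    intro h1
    apply hbb
    rw [h1]
    apply Subtype.ext
    rw [← hr b']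
  have hsum' : ∀ v, v = ∑ b, p b v := by
    intro v
    have := LinearMap.congr_fun hsum v
    rw [LinearMap.sum_apply, Module.End.one_apply] at this
    exact this.symm
  have hpair : ∀ b b' x y, b' ≠ sb b → form (p b x) (p b' y) = 0 := by
    intro b b' x y hne
    apply pairing_zero h (hE (r b)) (hE (r b')) _ _ (hp1 b x) _ (hp1 b' y)
    intro h1
    apply hne
    rw [hst] at h1
    apply Subtype.ext
    rw [← hr b']
    exact h1.symm
  refine ⟨B, hfin, inferInstance, sb, p, r, U, hsbb, hsum, ?_, horth, ?_, ?_, hYr, ?_⟩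
  · intro b
    ext v
    rw [Module.End.mul_apply]
    exact hp2 b _ (hp1 b v)
  · intro b x y
    conv_lhs => rw [hsum' y, map_sum]
    conv_rhs => rw [hsum' x, map_sum, LinearMap.sum_apply]
    rw [Finset.sum_eq_single (sb b), Finset.sum_eq_single b]
    · intro b' _ hb'
      apply hpair
      intro h1
      apply hb'
      rw [← hsbb b', ← h1, hsbb]
    · intro hb; exact absurd (Finset.mem_univ _) hb
    · intro b' _ hb'
      exact hpair b b' x y hb'
    · intro hb; exact absurd (Finset.mem_univ _) hb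
  · intro b γ hγ
    ext v
    rw [hsum' v]
    simp only [map_sum]
    refine Finset.sum_congr rfl fun b' _ => ?_
    rw [Module.End.mul_apply, Module.End.mul_apply]
    have h1 : T γ (p b' v) ∈ Y (r b') := hU γ hγ _ _ (hp1 b' v)
    by_cases hbb : b = b'
    · subst hbb
      rw [hp2 b _ h1, hp2 b _ (hp1 b v)]
    · have h2 : b ≠ bl (r b') := by
        intro h3
        apply hbb
        rw [h3]
        apply Subtype.ext
        rw [← hr b']
      rw [hpzero b (r b') h2 _ h1, hpzero b (r b') h2 _ (hp1 b' v), map_zero]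
  · intro b y
    rw [hYr, hst]
    change y ∈ Y (r (sb b)) ↔ y ∈ Y (st (r b))
    rw [hsb]

end Pool.Agent.Lib.MP_640417_ag.Four
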