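import Pool.Agent.Lib.MP_640417_ag.Four.Iso
import Pool.Agent.Lib.MP_640417_ag.Four.SymBasis
import Pool.Agent.Lib.MP_640417_ag.Four.Blocks

/-!
# The general theorem over an algebraically closed field
-/

namespace Pool.Agent.Lib.MP_640417_ag.Four

open Module Polynomial Pool.Agent.Lib.MP_640417_ag.Frob

variable {K V : Type} [Field K] [CharZero K] [AddCommGroup V] [Module K V] [FiniteDimensional K V]
  {form : LinearMap.BilinForm K V} {Γ : Type} [Group Γ] [TopologicalSpace Γ]

/-- The skew elements of `R` which kill all Tate classes. -/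
noncomputable def lieK (form : LinearMap.BilinForm K V) (T : Γ →* Module.End K V) (χ : Γ →* Kˣ)
    (n : ℕ) (R : Subalgebra K (Module.End K V)) : Submodule K (Module.End K V) where
  carrier := {M | M ∈ R ∧ Skew form M ∧ KillsV n T χ M}
  zero_mem' := ⟨R.zero_mem, fun x y => by simp, KillsV.zero⟩
  add_mem' := by
    rintro M M' ⟨h1, h2, h3⟩ ⟨h4, h5, h6⟩
    refine ⟨R.add_mem h1 h4, fun x y => ?_, h3.add h6⟩
    rw [LinearMap.add_apply, LinearMap.add_apply, map_add, map_add, LinearMap.add_apply]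
    linear_combination h2 x y + h5 x y
  smul_mem' := by
    rintro r M ⟨h1, h2, h3⟩
    refine ⟨R.smul_mem h1 r, fun x y => ?_, h3.smul r⟩
    rw [LinearMap.smul_apply, LinearMap.smul_apply, map_smul, map_smul, LinearMap.smul_apply,
      smul_eq_mul, smul_eq_mul]
    linear_combination r * h2 x y

lemma lieK_bracket (form : LinearMap.BilinForm K V) (T : Γ →* Module.End K V) (χ : Γ →* Kˣ)
    (n : ℕ) (R : Subalgebra K (Module.End K V)) {M M' : Module.End K V}
    (hM : M ∈ lieK form T χ n R) (hM' : M' ∈ lieK form T χ n R) :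
    M * M' - M' * M ∈ lieK form T χ n R := by
  obtain ⟨h1, h2, h3⟩ := hM
  obtain ⟨h4, h5, h6⟩ := hM'
  refine ⟨R.sub_mem (R.mul_mem h1 h4) (R.mul_mem h4 h1), fun x y => ?_, h3.comm h6⟩
  simp only [LinearMap.sub_apply, Module.End.mul_apply, map_sub]
  linear_combination h2 (M' x) y - h5 x (M y) - h5 (M x) y + h2 x (M' y)

/-- **The general theorem over an algebraically closed field.** -/
theorem mainK [IsTopologicalGroup Γ] [CompactSpace Γ] (pRankTwo : SRankTwo) (pSemi : SSemi)
    (pOpen : SOpen) (pDarboux : SDarboux)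
    (T : Γ →* Module.End K V) (χ : Γ →* Kˣ)
    (hclosed : ∀ (f : Module.Dual K V) (x : V), IsClosed {γ : Γ | f (T γ x) = 0})
    (halt : ∀ x, form x x = 0) (hnd : ∀ x, (∀ y, form x y = 0) → x = 0)
    (heq : ∀ γ x y, form (T γ x) (T γ y) = ((χ γ)⁻¹ : Kˣ).val * form x y)
    (htr : ∀ S ∈ Submodule.span K (Set.range T), (∀ γ, LinearMap.trace K V (S * T γ) = 0) → S = 0)
    (φ : Γ) {I : Type} [Fintype I] [DecidableEq I] (e : Basis I K V) (lam : I → K)
    (hφ : ∀ v, T φ (e v) = lam v • e v) (Z : Finset I)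
    (hsimple : ∀ u ∈ Z, ∀ v, lam v = lam u → v = u)
    (hiso : ∀ u ∈ Z, ∀ a b c, ∀ N : ℕ, 0 < N →
      (lam u * lam a * lam b * lam c) ^ N = ((((χ φ)⁻¹ : Kˣ).val) ^ 2) ^ N →
      lam u * lam a = ((χ φ)⁻¹ : Kˣ).val ∨ lam u * lam b = ((χ φ)⁻¹ : Kˣ).val ∨
        lam u * lam c = ((χ φ)⁻¹ : Kˣ).val)
    (hCen : ∀ (U : OpenSubgroup Γ) (c : Module.End K V), (∀ γ ∈ U, c * T γ = T γ * c) →
      (∀ u ∈ Z, c (e u) = 0) → c = 0)
    (n i : ℕ) (x : ExteriorAlgebra K (Fin n → V))
    (hx : TateClass (fun γ => (T γ).compLeft (Fin n)) χ i x)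
    (hcen : ∀ (U : OpenSubgroup Γ) (S : Module.End K V), Skew form S →
      (∀ γ ∈ U, S * T γ = T γ * S) → Dv n S x = 0) :
    x ∈ divisorAlg (fun γ => (T γ).compLeft (Fin n)) χ := by
  classical
  have hTT : ∀ γ, T γ * T γ⁻¹ = 1 := fun γ => by rw [← map_mul, mul_inv_cancel, map_one]
  have hTT' : ∀ γ, T γ⁻¹ * T γ = 1 := fun γ => by rw [← map_mul, inv_mul_cancel, map_one]
  have hq0 : ((χ φ)⁻¹ : Kˣ).val ≠ 0 := Units.ne_zero _
  have hlam0 : ∀ v, lam v ≠ 0 := by
    intro v hv
    have h1 := hφ v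
    rw [hv, zero_smul] at h1
    have h2 := LinearMap.congr_fun (hTT' φ) (e v)
    rw [Module.End.mul_apply, h1, map_zero, Module.End.one_apply] at h2
    exact e.ne_zero v h2.symm
  have hpair : ∀ u v, form (e u) (e v) ≠ 0 → lam u * lam v = ((χ φ)⁻¹ : Kˣ).val := by
    intro u v huv
    have h1 := heq φ (e u) (e v)
    rw [hφ, hφ, map_smul, map_smul, LinearMap.smul_apply, smul_eq_mul, smul_eq_mul,
      ← mul_assoc] at h1
    have h2 := mul_right_cancel₀ huv h1
    rw [← h2, mul_comm]
  obtain ⟨t, ht1, ht2, htbal, ht4⟩ := exists_generic' lam hlam0 _ hq0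
  let tt : Module.End K V := e.constr K (fun v => t v • e v)
  have htt : ∀ v, tt (e v) = t v • e v := fun v => e.constr_basis K _ v
  have hskew : Skew form tt := skew_of_basis e t tt htt fun u v h => ht2 u v (hpair u v h)
  have hkills : KillsV n T χ tt := kills_generic T χ φ e lam t hφ tt htt htbal n
  obtain ⟨P, hP⟩ := exists_aeval e lam t ht1 (T φ) tt hφ htt
  have htspan : tt ∈ Submodule.span K (Set.range T) := by
    rw [hP]
    exact aeval_mem_span T φ P
  -- the algebra
  let R : Subalgebra K (Module.End K V) :=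
    Algebra.adjoin K (Set.range fun γ => T γ * tt * T γ⁻¹)
  have hgenR : ∀ γ, T γ * tt * T γ⁻¹ ∈ R := fun γ => Algebra.subset_adjoin ⟨γ, rfl⟩
  have hspanmul : ∀ M ∈ Submodule.span K (Set.range T), ∀ N ∈ Submodule.span K (Set.range T),
      M * N ∈ Submodule.span K (Set.range T) := by
    intro M hM N hN
    have h1 : M * N ∈ Submodule.span K (Set.range T) * Submodule.span K (Set.range T) :=
      Submodule.mul_mem_mul hM hN
    rw [Submodule.span_mul_span] at h1
    refine Submodule.span_mono ?_ h1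
    rintro _ ⟨_, ⟨γ, rfl⟩, _, ⟨δ, rfl⟩, rfl⟩
    exact ⟨γ * δ, by rw [map_mul]⟩
  have hRspan : Subalgebra.toSubmodule R ≤ Submodule.span K (Set.range T) := by
    intro M hM
    have hM' : M ∈ R := hM
    induction hM' using Algebra.adjoin_induction with
    | mem x hx =>
      obtain ⟨γ, rfl⟩ := hx
      exact hspanmul _ (hspanmul _ (Submodule.subset_span ⟨γ, rfl⟩) _ htspan) _
        (Submodule.subset_span ⟨γ⁻¹, rfl⟩)
    | algebraMap r =>
      rw [Algebra.algebraMap_eq_smul_one]
      exact Submodule.smul_mem _ _ (Submodule.subset_span ⟨1, map_one T⟩)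
    | add x y hx hy ihx ihy => exact Submodule.add_mem _ (ihx hx) (ihy hy)
    | mul x y hx hy ihx ihy => exact hspanmul _ (ihx hx) _ (ihy hy)
  have hRconj : ∀ γ, ∀ M ∈ R, T γ * M * T γ⁻¹ ∈ R := by
    intro γ M hM
    induction hM using Algebra.adjoin_induction with
    | mem x hx =>
      obtain ⟨δ, rfl⟩ := hx
      have h1 : T γ * (T δ * tt * T δ⁻¹) * T γ⁻¹ = T (γ * δ) * tt * T (γ * δ)⁻¹ := by
        rw [map_mul, mul_inv_rev, map_mul]
        simp only [mul_assoc]
      rw [h1]
      exact hgenR _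
    | algebraMap r =>
      rw [Algebra.algebraMap_eq_smul_one, mul_smul_comm, smul_mul_assoc, mul_one, hTT]
      exact R.smul_mem R.one_mem r
    | add x y hx hy ihx ihy =>
      rw [mul_add, add_mul]
      exact R.add_mem ihx ihy
    | mul x y hx hy ihx ihy =>
      have h1 : T γ * (x * y) * T γ⁻¹ = (T γ * x * T γ⁻¹) * (T γ * y * T γ⁻¹) := by
        calc T γ * (x * y) * T γ⁻¹ = T γ * x * (T γ⁻¹ * T γ) * (y * T γ⁻¹) := by
              rw [hTT', mul_one]; simp only [mul_assoc]
          _ = _ := by simp only [mul_assoc]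
      rw [h1]
      exact R.mul_mem ihx ihy
  let L := lieK form T χ n R
  have hL : ∀ M, M ∈ L ↔ M ∈ R ∧ Skew form M ∧ KillsV n T χ M := fun M => Iff.rfl
  have hconjL : ∀ γ, T γ * tt * T γ⁻¹ ∈ L := by
    intro γ
    refine ⟨hgenR γ, fun x y => ?_, hkills.conj γ⟩
    have h1 : x = T γ (T γ⁻¹ x) := by
      rw [← Module.End.mul_apply, hTT, Module.End.one_apply]
    have h2 : y = T γ (T γ⁻¹ y) := by
      rw [← Module.End.mul_apply, hTT, Module.End.one_apply]
    have h3 : form ((T γ * tt * T γ⁻¹) x) y = ((χ γ)⁻¹ : Kˣ).val * form (tt (T γ⁻¹ x)) (T γ⁻¹ y) := by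
      rw [← heq, ← h2]
      rfl
    have h4 : form x ((T γ * tt * T γ⁻¹) y) = ((χ γ)⁻¹ : Kˣ).val * form (T γ⁻¹ x) (tt (T γ⁻¹ y)) := by
      rw [← heq, ← h1]
      rfl
    rw [h3, h4, ← mul_add, hskew, mul_zero]
  have httL : tt ∈ L := by
    have h1 := hconjL 1
    rw [inv_one, map_one, one_mul, mul_one] at h1
    exact h1
  have hctx : Ctx form L R tt := by
    refine ⟨halt, hnd, fun M hM => hM.2.1, fun M hM M' hM' => lieK_bracket form T χ n R hM hM',
      httL, iSup_eigenspace e t tt htt, fun M hM => hM.1, ?_, pSemi K V Γ T htr R hRspan hRconj⟩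
    intro Y hY M hM
    induction hM using Algebra.adjoin_induction with
    | mem x hx =>
      obtain ⟨γ, rfl⟩ := hx
      exact fun y hy => hY _ (hconjL γ) y hy
    | algebraMap r =>
      intro y hy
      exact Y.smul_mem r hy
    | add x y hx hy ihx ihy => exact fun z hz => Y.add_mem (ihx z hz) (ihy z hz)
    | mul x y hx hy ihx ihy => exact fun z hz => ihx _ (ihy z hz)
  -- the isolated pairs
  have hpairs : ∀ u : Z, ∃ e' : V, IsoPair form L tt (t u) (e u) e' := by
    intro u
    obtain ⟨e', h1, h2, h3, h4, h5, h6⟩ := exists_pair halt hnd _ e lam hlam0 hpair t ht2 ht4 tt htt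
      u.1 (hsimple u.1 u.2) (hiso u.1 u.2)
    have h7 : tt (-(e u.1)) = - - t u.1 • (-(e u.1)) := by
      rw [map_neg, htt, neg_neg, smul_neg]
    refine ⟨e', htt _, h1, h2, h3, h4, ?_, ?_⟩
    · exact fun M hM => pRankTwo K V form halt hnd tt hskew hctx.diag (t u.1) (e u.1) e' (htt _) h1
        h2 h3 h4 h5 L hctx.skew (fun M hM => hctx.bracket _ httL _ hM) M hM
    · intro M hM
      obtain ⟨k, w, h8, h9⟩ := pRankTwo K V form halt hnd tt hskew hctx.diag (- t u.1) e' (-(e u.1))
        h1 h7 (by rw [map_neg, ← anti halt, h2]) h4 (by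
          intro y hy
          rw [neg_neg] at hy
          obtain ⟨k, hk⟩ := h3 y hy
          exact ⟨-k, by rw [hk, neg_smul_neg]⟩) h6 L hctx.skew
        (fun M hM => hctx.bracket _ httL _ hM) M hM
      refine ⟨k, -w, ?_, ?_⟩
      · have h10 : M (e u.1) = - (M (-(e u.1))) := by rw [map_neg, neg_neg]
        rw [h10, h8, smul_neg, neg_add, neg_neg]
      · have h10 : -w = (-1 : K) • w := by rw [neg_one_smul]
        rw [h10, ss_smul]
        exact L.smul_mem _ h9
  choose e' he' using hpairs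
  -- the decomposition into blocks
  obtain ⟨B, hB1, hB2, sb, p, r, U, hsb, hsum, hid, horth, hadj, hcomm, hran, hran'⟩ :=
    exists_blocks pOpen hctx T hclosed (fun γ => ((χ γ)⁻¹ : Kˣ).val) heq hRconj
      (Z ⊕ Z) (Sum.elim (fun u => t u) (fun u => - t u)) (Sum.elim (fun u => e u) e')
      (Sum.elim e' (fun u => -(e u))) Sum.swap (by
        rintro (u | u)
        · exact he' u
        · exact (he' u).swap hctx) (by
        rintro (u | u)
        · rfl
        · change Rm R (-(e u.1)) = Rm R (e u.1)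
          apply le_antisymm
          · exact Rm_le' _ ((Rm R (e u.1)).neg_mem (self_mem_Rm _)) (Rm_stable _)
          · refine Rm_le' _ ?_ (Rm_stable _)
            have h1 := (Rm R (-(e u.1))).neg_mem (self_mem_Rm (R := R) (-(e u.1)))
            rwa [neg_neg] at h1) (by
        intro a
        rw [Sum.swap_swap]) (by
        intro U c hc1 hc2
        exact hCen U c hc1 fun u hu => hc2 (Sum.inl ⟨u, hu⟩))
  let E : Z ⊕ Z → V := Sum.elim (fun u => e u) e'
  let E' : Z ⊕ Z → V := Sum.elim e' (fun u => -(e u))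
  have hE : ∀ a, ∃ τ : K, IsoPair form L tt τ (E a) (E' a) := by
    rintro (u | u)
    · exact ⟨_, he' u⟩
    · exact ⟨_, (he' u).swap hctx⟩
  obtain ⟨m, ε, w, blk, hbas⟩ := exists_symBasis pDarboux halt hnd sb p hsb hsum hid horth hadj
  have hEmem : ∀ v, ε v ∈ Rm R (E (r (blk v))) := fun v => (hran _ _).mp (hbas.pe v)
  have hEmem' : ∀ v, ε (Sum.swap v) ∈ Rm R (E' (r (blk v))) := by
    intro v
    have h1 := hbas.pe (Sum.swap v)
    rw [hbas.blkc] at h1
    exact (hran' _ _).mp h1
  apply hbas.mem_divisorAlg horth T χ heq U hcomm n (2 * i) x hx.1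
  intro u v huv
  obtain ⟨τ, hτ⟩ := hE (r (blk u))
  rcases structure_block hctx hτ with ⟨h1, h2⟩ | ⟨-, h2⟩
  · -- type C
    have h3 : Rm R (E' (r (blk u))) = Rm R (E (r (blk u))) :=
      Rm_eq_of_mem hctx hτ (e_ne hctx (hτ.swap hctx)) h2
    have h4 : ss form (ε u) (ε (Sum.swap v)) ∈ L := by
      apply h1 _ (hEmem u)
      rw [← h3, huv]
      exact hEmem' v
    exact h4.2.2 i x hx
  · -- type A
    set b := blk u with hb
    have hkey : Dv n (ss form (E (r b)) (E' (r b))) x = 0 := by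
      have h3 := hcen U (p b - p (sb b)) (by
        intro y z
        simp only [LinearMap.sub_apply, map_sub]
        have h4 := hadj b y z
        have h5 := hadj (sb b) y z
        rw [hsb] at h5
        linear_combination h4 - h5) (by
        intro γ hγ
        rw [sub_mul, mul_sub, hcomm b γ hγ, hcomm (sb b) γ hγ])
      rw [hbas.sum_ss horth hsb b, Dv_sum, LinearMap.sum_apply] at h3
      have h4 : ∀ s ∈ Finset.univ.filter (fun s => blk s = b),
          Dv n ((w s)⁻¹ • ss form (ε s) (ε (Sum.swap s))) x =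
            Dv n (ss form (E (r b)) (E' (r b))) x := by
        intro s hs
        have hs' : blk s = b := (Finset.mem_filter.mp hs).2
        have h5 := h2 (ε s) (by rw [← hs']; exact hEmem s) (ε (Sum.swap s)) (by
          rw [← hs']; exact hEmem' s)
        have h6 := h5.2.2 i x hx
        rw [hbas.form_pair, sub_eq_add_neg, ← neg_smul, Dv_add, Dv_smul, LinearMap.add_apply,
          LinearMap.smul_apply, neg_smul, ← sub_eq_add_neg, sub_eq_zero] at h6
        rw [Dv_smul, LinearMap.smul_apply, h6, smul_smul, inv_mul_cancel₀ (hbas.wne s), one_smul]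
      rw [Finset.sum_congr rfl h4, Finset.sum_const, ← Nat.cast_smul_eq_nsmul K] at h3
      refine (smul_eq_zero.mp h3).resolve_left (Nat.cast_ne_zero.mpr ?_)
      exact Finset.card_ne_zero.mpr ⟨u, Finset.mem_filter.mpr ⟨Finset.mem_univ _, rfl⟩⟩
    have h5 := h2 (ε u) (hEmem u) (ε (Sum.swap v)) (by rw [huv]; exact hEmem' v)
    have h6 := h5.2.2 i x hx
    rw [sub_eq_add_neg, ← neg_smul, Dv_add, Dv_smul, LinearMap.add_apply, LinearMap.smul_apply,
      hkey, smul_zero, add_zero] at h6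
    exact h6

end Pool.Agent.Lib.MP_640417_ag.Four
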