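import Pool.Agent.Lib.MP_640417_ag.Four.Spec2

/-!
# The stabilizer of a character of the commutant is open
-/

namespace Pool.Agent.Lib.MP_640417_ag.Four

open Module

namespace OpenA

variable {K V : Type} [Field K] [AddCommGroup V] [Module K V]

/-- The character by which a subalgebra acts on a common eigenvector. -/
lemma exists_char (C : Subalgebra K (Module.End K V)) {v : V} (hv : v ≠ 0)
    (h : ∀ f ∈ C, ∃ k : K, f v = k • v) :
    ∃ χ : C →ₐ[K] K, ∀ f : C, (f : Module.End K V) v = χ f • v := by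
  choose! c hc using h
  have huniq : ∀ {a b : K}, a • v = b • v → a = b := fun {a b} hab =>
    smul_left_injective K hv hab
  refine ⟨{ toFun := fun f => c f.1, map_one' := ?_, map_mul' := ?_, map_zero' := ?_,
            map_add' := ?_, commutes' := ?_ }, fun f => hc f.1 f.2⟩
  · apply huniq
    rw [← hc _ (1 : C).2]
    simp
  · intro f g
    apply huniq
    rw [← hc _ (f * g).2]
    show f.1 (g.1 v) = _
    rw [hc _ g.2, map_smul, hc _ f.2, smul_smul, mul_comm]
  · apply huniq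
    rw [← hc _ (0 : C).2]
    simp
  · intro f g
    apply huniq
    rw [← hc _ (f + g).2, add_smul, ← hc _ f.2, ← hc _ g.2]
    rfl
  · intro k
    apply huniq
    rw [← hc _ (algebraMap K C k).2]
    simp

end OpenA

open OpenA in
theorem pOpen : SOpen := by
  intro K V _ _ _ _ Γ _ _ _ T hclosed R hnorm e he hchar
  set C : Subalgebra K (Module.End K V) := Subalgebra.centralizer K (R : Set (Module.End K V))
    with hC
  have memC : ∀ f : Module.End K V, f ∈ C ↔ ∀ M ∈ R, f * M = M * f := by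
    intro f
    rw [hC, Subalgebra.mem_centralizer_iff]
    exact ⟨fun h M hM => (h M hM).symm, fun h M hM => (h M hM).symm⟩
  have hinv : ∀ γ, T γ⁻¹ * T γ = 1 := fun γ => by rw [← map_mul, inv_mul_cancel, map_one]
  have hinv' : ∀ γ, T γ * T γ⁻¹ = 1 := fun γ => by rw [← map_mul, mul_inv_cancel, map_one]
  -- the commutant is stable under conjugation
  have hconj : ∀ γ, ∀ f ∈ C, T γ * f * T γ⁻¹ ∈ C := by
    intro γ f hf
    rw [memC] at hf ⊢
    intro M hM
    have h1 := hf _ (hnorm γ⁻¹ M hM)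
    rw [inv_inv] at h1
    calc T γ * f * T γ⁻¹ * M = T γ * f * T γ⁻¹ * M * (T γ * T γ⁻¹) := by rw [hinv', mul_one]
      _ = T γ * (f * (T γ⁻¹ * M * T γ)) * T γ⁻¹ := by simp only [mul_assoc]
      _ = T γ * ((T γ⁻¹ * M * T γ) * f) * T γ⁻¹ := by rw [h1]
      _ = (T γ * T γ⁻¹) * M * (T γ * f * T γ⁻¹) := by simp only [mul_assoc]
      _ = _ := by rw [hinv', one_mul]
  have hne : ∀ γ, T γ e ≠ 0 := by
    intro γ h
    apply he
    have : (T γ⁻¹ * T γ) e = 0 := by
      show T γ⁻¹ (T γ e) = 0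
      rw [h, map_zero]
    rwa [hinv] at this
  -- the characters
  have hev : ∀ γ, ∀ f ∈ C, ∃ k : K, f (T γ e) = k • T γ e := by
    intro γ f hf
    have h1 := hconj γ⁻¹ f hf
    rw [inv_inv] at h1
    obtain ⟨k, hk⟩ := hchar _ ((memC _).1 h1)
    refine ⟨k, ?_⟩
    have h2 : f (T γ e) = T γ ((T γ⁻¹ * f * T γ) e) := by
      have : f * T γ = T γ * (T γ⁻¹ * f * T γ) := by
        rw [← mul_assoc, ← mul_assoc, hinv', one_mul]
      exact congrArg (fun g : Module.End K V => g e) this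
    rw [h2, hk, map_smul]
  choose c hc using fun γ => exists_char C (hne γ) (hev γ)
  have huniq : ∀ (γ : Γ) {a b : K}, a • T γ e = b • T γ e → a = b := fun γ {a b} hab =>
    smul_left_injective K (hne γ) hab
  -- conjugation formula
  have hcc : ∀ (γ δ : Γ) (f : Module.End K V) (hf : f ∈ C),
      c (γ⁻¹ * δ) ⟨f, hf⟩ = c δ ⟨T γ * f * T γ⁻¹, hconj γ f hf⟩ := by
    intro γ δ f hf
    apply huniq (γ⁻¹ * δ)
    rw [← hc]
    have h1 := hc δ ⟨T γ * f * T γ⁻¹, hconj γ f hf⟩
    have h2 : (T γ⁻¹) ((T γ * f * T γ⁻¹) (T δ e)) = f (T (γ⁻¹ * δ) e) := by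
      have : T γ⁻¹ * (T γ * f * T γ⁻¹) * T δ = f * T (γ⁻¹ * δ) := by
        rw [map_mul, ← mul_assoc, ← mul_assoc, ← mul_assoc, hinv, one_mul]
      exact congrArg (fun g : Module.End K V => g e) this
    show f (T (γ⁻¹ * δ) e) = _
    rw [← h2]
    have h3 : (T γ * f * T γ⁻¹) (T δ e) = c δ ⟨T γ * f * T γ⁻¹, hconj γ f hf⟩ • T δ e := h1
    rw [h3, map_smul]
    have h4 : T γ⁻¹ (T δ e) = T (γ⁻¹ * δ) e := by rw [map_mul]; rfl
    rw [h4]
  have hcself : ∀ (γ : Γ) (f : Module.End K V) (hf : f ∈ C),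
      c 1 ⟨f, hf⟩ = c γ ⟨T γ * f * T γ⁻¹, hconj γ f hf⟩ := by
    intro γ f hf
    have := hcc γ γ f hf
    rwa [inv_mul_cancel] at this
  have key : ∀ γ δ, c γ = c δ ↔ c (γ⁻¹ * δ) = c 1 := by
    intro γ δ
    constructor
    · intro h
      ext ⟨f, hf⟩
      rw [hcc γ δ f hf, ← h, ← hcself]
    · intro h
      ext ⟨f, hf⟩
      have h1 := hconj γ⁻¹ f hf
      have h2 := hcc γ δ _ h1
      have h3 := hcself γ _ h1
      rw [h, h3] at h2
      have h4 : T γ * (T γ⁻¹ * f * T γ⁻¹⁻¹) * T γ⁻¹ = f := by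
        rw [inv_inv]
        calc T γ * (T γ⁻¹ * f * T γ) * T γ⁻¹ = (T γ * T γ⁻¹) * f * (T γ * T γ⁻¹) := by
              simp only [mul_assoc]
          _ = f := by rw [hinv', one_mul, mul_one]
      simp only [h4] at h2
      exact h2
  have hinvmem : ∀ a, c a = c 1 → c a⁻¹ = c 1 := by
    intro a ha
    have := (key a 1).1 ha
    rwa [mul_one] at this
  -- the subgroup
  let U0 : Subgroup Γ :=
    { carrier := {γ | c γ = c 1}
      one_mem' := rfl
      mul_mem' := by
        intro a b ha hb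
        show c (a * b) = c 1
        have h1 : c a⁻¹ = c b := (hinvmem a ha).trans hb.symm
        rw [key, inv_inv] at h1
        exact h1
      inv_mem' := fun {a} ha => hinvmem a ha }
  have memU0 : ∀ γ, γ ∈ U0 ↔ c γ = c 1 := fun γ => Iff.rfl
  have hfin : Finite (C →ₐ[K] K) := (linearIndependent_toLinearMap K C K).finite_of_isNoetherian
  have hquot : Finite (Γ ⧸ U0) := by
    let F : Γ ⧸ U0 → (C →ₐ[K] K) := Quotient.lift c fun a b hab => by
      have h1 : a⁻¹ * b ∈ U0 := QuotientGroup.leftRel_apply.1 hab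
      exact (key a b).2 h1
    apply Finite.of_injective F
    rintro ⟨a⟩ ⟨b⟩ hab
    exact Quotient.sound (QuotientGroup.leftRel_apply.2 ((key a b).1 hab))
  have hfi : U0.FiniteIndex := U0.finiteIndex_of_finite_quotient
  have hcl : IsClosed (U0 : Set Γ) := by
    have h1 : (U0 : Set Γ) = ⋂ f : C, ⋂ φ : Module.Dual K V,
        {γ : Γ | (φ.comp ((f : Module.End K V) - c 1 f • (1 : Module.End K V))) (T γ e) = 0} := by
      ext γ
      simp only [SetLike.mem_coe, Set.mem_iInter, Set.mem_ofPred_eq]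
      rw [memU0]
      constructor
      · intro h f φ
        have h2 := hc γ f
        rw [h] at h2
        simp [h2]
      · intro h
        ext f
        apply huniq γ
        rw [← hc γ f]
        have h2 : ((f : Module.End K V) - c 1 f • (1 : Module.End K V)) (T γ e) = 0 := by
          rw [← Module.forall_dual_apply_eq_zero_iff K]
          exact h f
        simpa [sub_eq_zero] using h2
    rw [h1]
    exact isClosed_iInter fun f => isClosed_iInter fun φ => hclosed _ _
  refine ⟨⟨U0, U0.isOpen_of_isClosed_of_finiteIndex hcl⟩, ?_⟩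
  intro γ hγ f hf k hk
  have hγ' : c γ = c 1 := hγ
  have hfC : f ∈ C := (memC f).2 hf
  have h1 := hc γ ⟨f, hfC⟩
  rw [hγ'] at h1
  have h2 := hc 1 ⟨f, hfC⟩
  have h3 : c 1 ⟨f, hfC⟩ = k := by
    apply huniq 1
    rw [← h2]
    show f (T 1 e) = k • T 1 e
    rw [map_one]
    exact hk
  rw [h3] at h1
  exact h1

end Pool.Agent.Lib.MP_640417_ag.Four
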