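import Pool.Agent.Lib.MP_640417_ag.Four.Spec2

/-!
# Rank two elements from an isolated eigenvalue
-/

namespace Pool.Agent.Lib.MP_640417_ag.Four

open Module

namespace RankTwo

variable {K V : Type} [Field K] [AddCommGroup V] [Module K V]

/-- A basis of eigenvectors. -/
lemma exists_eigenbasis {t : Module.End K V} (ht : ⨆ μ, t.eigenspace μ = ⊤) :
    ∃ (ι : Type) (b : Basis ι K V) (μ : ι → K), ∀ i, t (b i) = μ i • b i := by
  let s : Set V := {v | ∃ μ : K, t v = μ • v}
  have hs : ⊤ ≤ Submodule.span K s := by
    rw [← ht]
    refine iSup_le fun μ => ?_
    intro v hv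
    exact Submodule.subset_span ⟨μ, Module.End.mem_eigenspace_iff.1 hv⟩
  have h := Basis.ofSpan_subset hs
  have h2 : ∀ i, ∃ μ : K, t (Basis.ofSpan hs i) = μ • Basis.ofSpan hs i := fun i =>
    h ⟨i, rfl⟩
  choose μ hμ using h2
  exact ⟨_, Basis.ofSpan hs, μ, hμ⟩

/-- The commutator with `t`. -/
noncomputable def comm (t : Module.End K V) : Module.End K (Module.End K V) :=
  LinearMap.mulLeft K t - LinearMap.mulRight K t

lemma comm_apply (t M : Module.End K V) : comm t M = t * M - M * t := rfl

lemma comm_top [FiniteDimensional K V] {t : Module.End K V} (ht : ⨆ μ, t.eigenspace μ = ⊤) :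
    ⨆ a, (comm t).eigenspace a = ⊤ := by
  classical
  obtain ⟨ι, b, μ, hb⟩ := exists_eigenbasis ht
  have : Fintype ι := FiniteDimensional.fintypeBasisIndex b
  rw [eq_top_iff]
  intro M _
  let E : ι → ι → Module.End K V := fun i j => (b.coord j).smulRight (b i)
  have hE : ∀ i j, comm t (E i j) = (μ i - μ j) • E i j := by
    intro i j
    apply b.ext
    intro l
    rw [comm_apply]
    simp only [E, LinearMap.sub_apply, Module.End.mul_apply, LinearMap.smulRight_apply,
      LinearMap.smul_apply, Basis.coord_apply, Basis.repr_self, hb, map_smul,
      Finsupp.single_apply]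
    by_cases h : l = j
    · subst h
      simp [sub_smul]
    · simp [h]
  have hM : M = ∑ j, ∑ i, b.coord i (M (b j)) • E i j := by
    apply b.ext
    intro l
    simp only [E, LinearMap.sum_apply, LinearMap.smul_apply, LinearMap.smulRight_apply,
      Basis.coord_apply, Basis.repr_self, Finsupp.single_apply]
    rw [Finset.sum_eq_single l]
    · simp only [if_true, one_smul]
      exact (b.sum_repr (M (b l))).symm
    · intro j _ hj
      simp [Ne.symm hj]
    · intro h
      exact absurd (Finset.mem_univ _) h
  rw [hM]
  refine Submodule.sum_mem _ fun j _ => Submodule.sum_mem _ fun i _ => Submodule.smul_mem _ _ ?_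
  exact (le_iSup (fun a => (comm t).eigenspace a) (μ i - μ j))
    (Module.End.mem_eigenspace_iff.2 (hE i j))

end RankTwo

open RankTwo in
theorem pRankTwo : SRankTwo := by
  intro K V _ _ _ _ _ form halt hnd t htskew htop τ e e' hte hte' hee' hline hline' hiso L hLskew hLt
  obtain ⟨ι, b, μ, hb⟩ := exists_eigenbasis htop
  have hanti : ∀ x y, form x y = - form y x := by
    intro x y
    have h := halt (x + y)
    simp only [map_add, LinearMap.add_apply, halt, zero_add, add_zero] at h
    exact eq_neg_of_add_eq_zero_right h
  -- orthogonality of the eigenspaces
  have horth : ∀ {β γ : K} {x y : V}, t x = β • x → t y = γ • y → β + γ ≠ 0 → form x y = 0 := by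
    intro β γ x y hx hy hβγ
    have h := htskew x y
    rw [hx, hy, map_smul, LinearMap.smul_apply, map_smul, ← add_smul] at h
    exact (smul_eq_zero.1 h).resolve_left hβγ
  have hss : ∀ a c x, ss form a c x = form x a • c + form x c • a := by
    intro a c x
    simp [ss]
  have hee : form e' e = -1 := by rw [hanti, hee']
  have heig : ∀ {β : K} {x : V}, t x = β • x → x ≠ 0 → t.HasEigenvalue β := fun hx h0 =>
    Module.End.hasEigenvalue_of_hasEigenvector (x := _) ⟨Module.End.mem_eigenspace_iff.2 hx, h0⟩
  -- the conclusion for an eigenvector of the commutator
  have main : ∀ (a : K) (M : Module.End K V), M ∈ L → t * M - M * t = a • M →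
      ∃ (k : K) (w : V), M e' = k • e' + w ∧ ss form e w ∈ L := by
    intro a M hM ha
    have htM : ∀ x, t (M x) = M (t x) + a • M x := by
      intro x
      have h := congrArg (fun f : Module.End K V => f x) ha
      simp only [LinearMap.sub_apply, Module.End.mul_apply, LinearMap.smul_apply] at h
      rw [← h]
      abel
    have hMe : ∀ {β : K} {x : V}, t x = β • x → t (M x) = (β + a) • M x := by
      intro β x hx
      rw [htM, hx, map_smul, add_smul]
    have hw := hMe hte'
    by_cases ha0 : a = 0
    · rw [ha0, add_zero] at hw
      obtain ⟨k, hk⟩ := hline' _ hw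
      refine ⟨k, 0, by rw [hk, add_zero], ?_⟩
      have : ss form e 0 = 0 := by
        ext x
        simp [hss]
      rw [this]
      exact L.zero_mem
    · by_cases hw0 : M e' = 0
      · refine ⟨0, 0, by rw [hw0, zero_smul, add_zero], ?_⟩
        have : ss form e 0 = 0 := by
          ext x
          simp [hss]
        rw [this]
        exact L.zero_mem
      · set w := M e' with hwdef
        set ν := τ - a with hν
        have hντ : ν ≠ τ := fun h => ha0 (by rw [hν] at h; simpa using h)
        have hw' : t w = -ν • w := by rw [hw, hν]; congr 1; ring
        have haν : τ - ν = a := by rw [hν]; ring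
        -- `ν` is an eigenvalue
        have hνeig : t.HasEigenvalue ν := by
          obtain ⟨i, hi⟩ : ∃ i, form w (b i) ≠ 0 := by
            by_contra hcon
            push Not at hcon
            apply hw0
            apply hnd
            have h0 : form w = 0 := b.ext fun i => by rw [hcon i]; rfl
            intro y
            rw [h0]
            rfl
          have h1 : -ν + μ i = 0 := by
            by_contra h
            exact hi (horth hw' (hb i) h)
          have h2 : μ i = ν := by
            have := eq_neg_of_add_eq_zero_right h1
            rw [this, neg_neg]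
          rw [← h2]
          exact heig (hb i) (b.ne_zero i)
        -- the effect of `M` on an eigenvector
        have hzero : ∀ {β : K} {x : V}, t x = β • x → β ≠ ν → β ≠ -τ → M x = 0 := by
          intro β x hx h1 h2
          by_contra hMx
          have hx0 : x ≠ 0 := by
            rintro rfl
            exact hMx (map_zero M)
          have h3 := hiso ν (β + a) β hνeig (heig (hMe hx) hMx) (heig hx hx0) hντ
            (by rw [haν]; ring)
          rcases h3 with h3 | h3
          · exact h1 h3.2
          · exact h2 h3.2
        have hfin : ∃ c : K, ss form e w = c • M := by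
          by_cases hcase : ν = -τ
          · -- `w` is a multiple of `e`
            have hwτ : t w = τ • w := by rw [hw', hcase, neg_neg]
            obtain ⟨k, hk⟩ := hline w hwτ
            refine ⟨-2, b.ext fun i => ?_⟩
            rw [hss, LinearMap.smul_apply]
            by_cases hi : μ i = -τ
            · have h1 := hb i
              rw [hi] at h1
              obtain ⟨k', hk'⟩ := hline' _ h1
              have hM1 : M (b i) = k' • w := by rw [hk', map_smul]
              rw [hM1, hk', hk]
              simp only [map_smul, LinearMap.smul_apply, hee, smul_smul, smul_eq_mul]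
              rw [← add_smul]
              congr 1
              ring
            · have h1 : M (b i) = 0 := hzero (hb i) (by rw [hcase]; exact hi) hi
              have h2 : form (b i) e = 0 := horth (hb i) hte (fun h => hi (eq_neg_of_add_eq_zero_left h))
              have h3 : form (b i) w = 0 := by
                refine horth (hb i) hwτ (fun h => hi (eq_neg_of_add_eq_zero_left h))
              rw [h1, h2, h3]
              simp
          · refine ⟨-1, b.ext fun i => ?_⟩
            rw [hss, LinearMap.smul_apply]
            by_cases hi : μ i = -τ
            · have h1 := hb i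
              rw [hi] at h1
              obtain ⟨k, hk⟩ := hline' _ h1
              have h2 : form e' w = 0 := horth hte' hw' (fun h => hcase (by
                have := eq_neg_of_add_eq_zero_right h
                have h3 : ν = - (-ν) := (neg_neg ν).symm
                rw [h3, this, neg_neg]))
              have hM1 : M (b i) = k • w := by rw [hk, map_smul]
              rw [hM1, hk]
              simp only [map_smul, LinearMap.smul_apply, hee, h2, smul_eq_mul, smul_smul]
              simp
            · by_cases hi2 : μ i = ν
              · have h1 := hb i
                rw [hi2] at h1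
                have h2 := hMe h1
                have h3 : ν + a = τ := by rw [hν]; ring
                rw [h3] at h2
                obtain ⟨c, hc⟩ := hline _ h2
                have h4 : form (b i) e = 0 := horth h1 hte (fun h => hcase
                  (eq_neg_of_add_eq_zero_left h))
                have h5 : form (M (b i)) e' + form (b i) (M e') = 0 := hLskew M hM (b i) e'
                rw [← hwdef, hc, map_smul, LinearMap.smul_apply, hee', smul_eq_mul, mul_one] at h5
                have h6 : form (b i) w = -c := eq_neg_of_add_eq_zero_right h5
                rw [h4, h6, hc]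
                simp
              · have h1 : M (b i) = 0 := hzero (hb i) hi2 hi
                have h2 : form (b i) e = 0 := horth (hb i) hte
                  (fun h => hi (eq_neg_of_add_eq_zero_left h))
                have h3 : form (b i) w = 0 := horth (hb i) hw'
                  (fun h => hi2 (by rw [eq_neg_of_add_eq_zero_left h, neg_neg]))
                rw [h1, h2, h3]
                simp
        obtain ⟨c, hc⟩ := hfin
        exact ⟨0, w, by rw [zero_smul, zero_add], by rw [hc]; exact L.smul_mem c hM⟩
  -- decomposition of `L`
  intro M hM
  have hstable : ∀ x ∈ L, comm t x ∈ L := fun x hx => hLt x hx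
  have htop2 : ⨆ a, (comm t).genEigenspace a 1 = ⊤ := comm_top htop
  have hdec := Submodule.eq_iSup_inf_genEigenspace (p := L) (f := comm t) 1 hstable htop2
  have hM' : M ∈ ⨆ a, L ⊓ (comm t).genEigenspace a 1 := by rw [← hdec]; exact hM
  refine Submodule.iSup_induction _ (motive := fun M => ∃ (k : K) (w : V),
    M e' = k • e' + w ∧ ss form e w ∈ L) hM' ?_ ?_ ?_
  · intro a M hMa
    obtain ⟨h1, h2⟩ := Submodule.mem_inf.1 hMa
    exact main a M h1 (Module.End.mem_eigenspace_iff.1 h2)
  · refine ⟨0, 0, by simp, ?_⟩
    have : ss form e 0 = 0 := by
      ext x
      simp [hss]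
    rw [this]
    exact L.zero_mem
  · rintro M1 M2 ⟨k1, w1, h1, h1'⟩ ⟨k2, w2, h2, h2'⟩
    refine ⟨k1 + k2, w1 + w2, ?_, ?_⟩
    · rw [LinearMap.add_apply, h1, h2, add_smul]
      abel
    · have : ss form e (w1 + w2) = ss form e w1 + ss form e w2 := by
        ext x
        simp only [hss, LinearMap.add_apply, map_add, smul_add, add_smul]
        abel
      rw [this]
      exact L.add_mem h1' h2'

end Pool.Agent.Lib.MP_640417_ag.Four
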