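import Pool.Agent.Lib.MP_640417_ag.Four.Main
import Pool.Agent.Lib.MP_640417_ag.Four.MainK
import Pool.Agent.Lib.MP_640417_ag.Four.Diag
import Pool.Agent.Lib.MP_640417_ag.Four.Defs
import Pool.Agent.Lib.MP_640417_ag.Four.Trace
import Pool.Agent.Lib.MP_640417_ag.Four.Expand
import Pool.Agent.Lib.MP_640417_ag.Four.RankTwo
import Pool.Agent.Lib.MP_640417_ag.Four.Semi
import Pool.Agent.Lib.MP_640417_ag.Four.Open
import Pool.Agent.Lib.MP_640417_ag.Four.Darboux

/-!
# The general theorem: isolated eigenvalues of one element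
-/

namespace Pool.Agent.Lib.MP_640417_ag.Four

open Module Polynomial TensorProduct Pool.Agent.Lib.MP_640417_ag.Frob

variable {Γ : Type} [Group Γ] [TopologicalSpace Γ] {F : Type} [Field F] [TopologicalSpace F]
  {V : Type} [AddCommGroup V] [Module F V] [FiniteDimensional F V]

/-- A class fixed by the isometries which commute with an open subgroup is killed by the skew
endomorphisms which do, over every extension of the coefficients. -/
theorem skew_kills [CharZero F] (K : Type) [Field K] [Algebra F K]
    (ρ : H1Rep Γ F V) (n : ℕ) (x : ExteriorAlgebra F (Fin n → V))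
    (hfix : ∀ c : Module.End F V, CommIsom ρ c → ExteriorAlgebra.map (c.compLeft (Fin n)) x = x)
    (U : OpenSubgroup Γ) (S : Module.End K (K ⊗[F] V)) (hskew : Skew (ρ.form.baseChange K) S)
    (hcomm : ∀ γ ∈ U, S * (ρ.T γ).baseChange K = (ρ.T γ).baseChange K * S) :
    Dv n S (be K n x) = 0 := by
  classical
  have hcharK : CharZero K := charZero_of_injective_algebraMap (algebraMap F K).injective
  have hanti : ∀ u v, ρ.form u v = - ρ.form v u := anti ρ.form_alt
  have halt' := alt_baseChange K ρ.form ρ.form_alt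
  have hanti' : ∀ u v, ρ.form.baseChange K u v = - ρ.form.baseChange K v u := anti halt'
  let e := (Module.finBasis F V).baseChange K
  let b := Module.Free.chooseBasis F K
  obtain ⟨τ, hτ⟩ := sum_cp b S
  rw [hτ, Dv_sum, LinearMap.sum_apply]
  refine Finset.sum_eq_zero fun t _ => ?_
  rw [Dv_smul, LinearMap.smul_apply]
  set s : Module.End F V := cp (b.coord t) S with hs
  have hs1 : ∀ γ ∈ U, s * ρ.T γ = ρ.T γ * s := by
    intro γ hγ
    rw [hs, ← cp_mul_baseChange, ← cp_baseChange_mul]
    congr 1
    exact hcomm γ hγ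
  have hs2 : ∀ u v, ρ.form (s u) v + ρ.form u (s v) = 0 := by
    intro u v
    rw [hanti u (s v), hs, form_cp, form_cp, ← map_neg, ← hanti', ← map_add, hskew, map_zero]
  suffices h : Dv n (s.baseChange K : Module.End K (K ⊗[F] V)) (be K n x) = 0 by
    rw [h, smul_zero]
  rw [Dv_eq_zero_iff e]
  apply pExpand (Fin (finrank F V)) K n (LinearMap.toMatrix e e (s.baseChange K)) _
    (algebraMap F K '' {r : F | IsUnit (1 - r • s)})
    ((infinite_units s).image (algebraMap F K).injective.injOn)
  rintro _ ⟨r, hr, rfl⟩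
  obtain ⟨c, hc, hcs⟩ := cayley ρ U s hs1 hs2 r hr
  have h1 : ExteriorAlgebra.map ((1 + r • s).compLeft (Fin n)) x =
      ExteriorAlgebra.map ((1 - r • s).compLeft (Fin n)) x := by
    conv_rhs => rw [← hfix c hc]
    rw [← hcs]
    have h2 : ((1 - r • s) * c).compLeft (Fin n) =
        (1 - r • s).compLeft (Fin n) ∘ₗ c.compLeft (Fin n) := rfl
    rw [h2, ← ExteriorAlgebra.map_comp_map]
    rfl
  have h2 : ∀ r' : F, LinearMap.toMatrix e e ((1 + r' • s).baseChange K) =
      1 + algebraMap F K r' • LinearMap.toMatrix e e (s.baseChange K) := by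
    intro r'
    rw [LinearMap.baseChange_add, LinearMap.baseChange_smul, map_add]
    congr 1
    · have h3 : (1 : Module.End F V).baseChange K = 1 := LinearMap.baseChange_id
      rw [h3, LinearMap.toMatrix_one]
    · rw [← algebraMap_smul K r', map_smul]
  have h3 : LinearMap.toMatrix e e ((1 - r • s).baseChange K) =
      1 - algebraMap F K r • LinearMap.toMatrix e e (s.baseChange K) := by
    have h4 := h2 (-r)
    rw [map_neg, neg_smul, neg_smul, ← sub_eq_add_neg, ← sub_eq_add_neg] at h4
    exact h4
  rw [← h2, ← h3, ← map_co_compLeft, ← map_co_compLeft, ← be_map, ← be_map, h1]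

/-- **The general theorem.** Let `ρ` be semisimple and `φ` an element with semisimple `T φ`, such that
the roots of `Q` among its eigenvalues are isolated. If every endomorphism which commutes with an open
subgroup and vanishes on the kernel of `Q (T φ)` is zero, all Tate classes fixed by the isometries
which commute with an open subgroup lie in the divisor algebra. -/
theorem general [CharZero F] [IsTopologicalRing F] [T1Space F]
    [IsTopologicalGroup Γ] [CompactSpace Γ] (ρ : H1Rep Γ F V) (hss : Semisimple ρ)
    (φ : Γ) (hφ : Module.End.IsSemisimple (ρ.T φ)) (Q : F[X])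
    (hQ : ∀ z : AlgebraicClosure F, aeval z Q = 0 → aeval z (ρ.T φ).charpoly = 0 → IsoRoot ρ φ z)
    (hCen : ∀ c : Module.End F V, (∃ U : OpenSubgroup Γ, ∀ γ ∈ U, c * ρ.T γ = ρ.T γ * c) →
      (∀ v, aeval (ρ.T φ) Q v = 0 → c v = 0) → c = 0)
    (n i : ℕ) (x : ExteriorAlgebra F (Fin n → V))
    (hx : TateClass (fun γ => (ρ.T γ).compLeft (Fin n)) ρ.χ i x)
    (hfix : ∀ c : Module.End F V, CommIsom ρ c → ExteriorAlgebra.map (c.compLeft (Fin n)) x = x) :
    x ∈ divisorAlg (fun γ => (ρ.T γ).compLeft (Fin n)) ρ.χ := by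
  classical
  let K : Type := AlgebraicClosure F
  have hcharK : CharZero K := charZero_of_injective_algebraMap (algebraMap F K).injective
  apply mem_of_be (F' := K) (fun γ => ρ.T γ) ρ.χ n x
  let T' : Γ →* Module.End K (K ⊗[F] V) :=
    ((Module.End.baseChangeHom F K V : Module.End F V →ₐ[F] Module.End K (K ⊗[F] V)) :
      Module.End F V →* Module.End K (K ⊗[F] V)).comp ρ.T
  have hT' : ∀ γ, T' γ = (ρ.T γ).baseChange K := fun γ => rfl
  let χ' : Γ →* Kˣ := (Units.map (algebraMap F K : F →* K)).comp ρ.χ
  have hχ' : ∀ γ, ((χ' γ)⁻¹ : Kˣ).val = algebraMap F K ((ρ.χ γ)⁻¹ : Fˣ).val := by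
    intro γ
    simp only [χ', MonoidHom.comp_apply, ← map_inv, Units.coe_map, MonoidHom.coe_coe]
  obtain ⟨I, hI1, hI2, e, lam, he⟩ := exists_eigen_of_semisimple (T' φ)
    (by rw [hT']; exact isSemisimple_baseChange K (ρ.T φ) hφ)
  have hchar : (T' φ).charpoly = (ρ.T φ).charpoly.map (algebraMap F K) := by
    rw [hT', LinearMap.charpoly_baseChange]
  have hroot : ∀ v, aeval (lam v) (ρ.T φ).charpoly = 0 := by
    intro v
    have h1 : (T' φ).charpoly.eval (lam v) = 0 := by
      rw [charpoly_eigenbasis e lam _ he, eval_prod]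
      apply Finset.prod_eq_zero (Finset.mem_univ v)
      simp
    rw [hchar, eval_map] at h1
    rw [aeval_def]
    exact h1
  have halt' := alt_baseChange K ρ.form ρ.form_alt
  let Z : Finset I := Finset.univ.filter fun v => aeval (lam v) Q = 0
  have hZ : ∀ v ∈ Z, IsoRoot ρ φ (lam v) := fun v hv =>
    hQ (lam v) (Finset.mem_filter.mp hv).2 (hroot v)
  have hQe : ∀ v, aeval (T' φ) Q (e v) = aeval (lam v) Q • e v := by
    intro v
    have h1 : aeval (T' φ) Q = aeval (T' φ) (Q.map (algebraMap F K)) := by
      rw [aeval_map_algebraMap]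
    rw [h1, Module.End.aeval_apply_of_hasEigenvector (μ := lam v)
      ⟨by rw [Module.End.mem_eigenspace_iff]; exact he v, e.ne_zero v⟩, eval_map, aeval_def]
  refine mainK pRankTwo pSemi pOpen pDarboux (form := ρ.form.baseChange K) T' χ' ?_ halt'
    (nondeg_baseChange K ρ.form ρ.form_alt ρ.form_nondeg) ?_ ?_ φ e lam he Z ?_ ?_ ?_ n i _
    (tate_be (fun γ => ρ.T γ) ρ.χ n i hx) ?_
  · intro f z
    exact closed_baseChange K (fun γ => ρ.T γ) ρ.continuous_coeff f z
  · intro γ x y
    rw [hχ']
    exact equivariant_baseChange K ρ.form (ρ.T γ) _ (ρ.form_equivariant γ) x y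
  · intro S hS htr
    exact trace_nondeg_baseChange (fun γ => ρ.T γ) (pTrace Γ F V ρ.T hss) S hS htr
  · intro u hu v huv
    refine eq_of_rootMultiplicity e lam (T' φ) he u v ?_ huv
    rw [hchar]
    exact (hZ u hu).1
  · intro u hu a b c N hN hrel
    rw [hχ'] at hrel ⊢
    exact (hZ u hu).2 (lam a) (lam b) (lam c) (hroot a) (hroot b) (hroot c) N hN
      (by rw [hrel, ← pow_mul])
  · intro U c hc1 hc2
    let b := Module.Free.chooseBasis F K
    obtain ⟨τ, hτ⟩ := sum_cp b c
    rw [hτ]
    refine Finset.sum_eq_zero fun t _ => ?_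
    have h1 : cp (b.coord t) c = 0 := by
      apply hCen
      · refine ⟨U, fun γ hγ => ?_⟩
        rw [← cp_mul_baseChange, ← cp_baseChange_mul]
        congr 1
        exact hc1 γ hγ
      · intro v hv
        rw [cp_apply]
        have h2 : c ((1 : K) ⊗ₜ[F] v) = 0 := by
          set y : K ⊗[F] V := (1 : K) ⊗ₜ[F] v with hy
          have h3 : aeval (T' φ) Q y = 0 := by
            have h4 : aeval (T' φ) Q = (Module.End.baseChangeHom F K V) (aeval (ρ.T φ) Q) :=
              Polynomial.aeval_algHom_apply (Module.End.baseChangeHom F K V) (ρ.T φ) Q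
            rw [h4]
            change (aeval (ρ.T φ) Q).baseChange K ((1 : K) ⊗ₜ[F] v) = 0
            rw [LinearMap.baseChange_tmul, hv, TensorProduct.tmul_zero]
          have h4 : ∀ s, e.repr y s • c (e s) = 0 := by
            intro s
            by_cases h5 : aeval (lam s) Q = 0
            · rw [hc2 s (Finset.mem_filter.mpr ⟨Finset.mem_univ _, h5⟩), smul_zero]
            · have h6 : e.repr (aeval (T' φ) Q y) s = aeval (lam s) Q * e.repr y s := by
                conv_lhs => rw [← e.sum_repr y]
                rw [map_sum, map_sum, Finsupp.finsetSum_apply, Finset.sum_eq_single s]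
                · rw [map_smul, hQe, map_smul, map_smul, Finsupp.smul_apply, Finsupp.smul_apply,
                    Basis.repr_self, Finsupp.single_eq_same, smul_eq_mul, smul_eq_mul, mul_one,
                    mul_comm]
                · intro u _ hu
                  rw [map_smul, hQe, map_smul, map_smul, Finsupp.smul_apply, Finsupp.smul_apply,
                    Basis.repr_self, Finsupp.single_eq_of_ne (Ne.symm hu), smul_zero, smul_zero]
                · intro h; exact absurd (Finset.mem_univ _) h
              rw [h3, map_zero, Finsupp.zero_apply] at h6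
              rw [(mul_eq_zero.mp h6.symm).resolve_left h5, zero_smul]
          rw [← e.sum_repr y, map_sum]
          refine Finset.sum_eq_zero fun s _ => ?_
          rw [map_smul]
          exact h4 s
        rw [h2, map_zero]
    rw [h1, LinearMap.baseChange_zero, smul_zero]
  · intro U S hskew hcomm
    exact skew_kills K ρ n x hfix U S hskew hcomm

end Pool.Agent.Lib.MP_640417_ag.Four
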