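import Pool.Agent.Lib.MP_640417_ag.Four.Spec
import Pool.Agent.Lib.MP_640417_ag.Translates

/-!
# Few sign functions have four-term relations
-/

namespace Pool.Agent.Lib.MP_640417_ag.Four

open NumberField Module Pool.Agent.Lib.MP_640417_ag Pool.Agent.Lib.MP_640417_ag.Frob

private lemma count_fin (X : Type) [Fintype X] :
    {e : X → ℤ | ∀ v, e v = 1 ∨ e v = -1}.Finite := by
  apply Set.Finite.subset (Set.Finite.pi (fun _ : X => (Set.toFinite ({1, -1} : Set ℤ))))
  intro e he s _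
  rcases he s with h | h <;> simp [h]

private lemma count_one {X : Type} [Fintype X] [DecidableEq X] {G : Type} [Group G]
    [MulAction G X] [MulAction.IsPretransitive G X] (c : X → X) (hc : ∀ v, c (c v) = v)
    (hne : ∀ v, c v ≠ v) (hcomm : ∀ (g : G) (v : X), g • c v = c (g • v)) (g : ℕ)
    (hg : Fintype.card X = 2 * g) (x y z w : X) (hy : y ≠ c x) (hz : z ≠ c x) (hw : w ≠ c x) :
    {e : X → ℤ | (∀ v, e v = 1 ∨ e v = -1) ∧ (∀ v, e (c v) = - e v) ∧
      ∀ γ : G, e (γ • x) + e (γ • y) + e (γ • z) + e (γ • w) = 0}.ncard ≤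
      2 ^ (g - (g + 3) / 4) := by
  classical
  set F : X → ℝ := fun s => ((if s = x then 1 else 0) + (if s = y then 1 else 0) +
    (if s = z then 1 else 0) + (if s = w then 1 else 0)) -
    ((if s = c x then 1 else 0) + (if s = c y then 1 else 0) +
    (if s = c z then 1 else 0) + (if s = c w then 1 else 0)) with hF
  have hcs : ∀ s t : X, (c s = t) = (s = c t) := by
    intro s t
    apply propext
    constructor
    · intro h; rw [← h, hc]
    · intro h; rw [h, hc]
  have hodd : ∀ s, F (c s) = - F s := by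
    intro s
    simp only [hF, hcs, hc]
    ring
  have hFx : F x ≠ 0 := by
    have h1 : F x = 1 + ((if x = y then 1 else 0) + (if x = z then 1 else 0) +
        (if x = w then 1 else 0)) := by
      simp only [hF]
      have e1 : (x = c x) = False := by simpa using (fun h => hne x h.symm)
      have e2 : (x = c y) = False := by
        rw [← hcs]; simpa using (fun h => hy h.symm)
      have e3 : (x = c z) = False := by
        rw [← hcs]; simpa using (fun h => hz h.symm)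
      have e4 : (x = c w) = False := by
        rw [← hcs]; simpa using (fun h => hw h.symm)
      simp only [e1, e2, e3, e4, if_false, if_true]
      ring
    have h2 : ∀ p : Prop, [Decidable p] → (0 : ℝ) ≤ if p then 1 else 0 := by
      intro p _
      split_ifs <;> norm_num
    have h3 := h2 (x = y)
    have h4 := h2 (x = z)
    have h5 := h2 (x = w)
    rw [h1]
    intro h
    linarith
  have hF0 : F ≠ 0 := fun h => hFx (by rw [h]; rfl)
  have hsupp : (Finset.univ.filter (fun s => F s ≠ 0)).card ≤ 4 * 2 := by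
    have hsub : Finset.univ.filter (fun s => F s ≠ 0) ⊆
        ({x, y, z, w, c x, c y, c z, c w} : Finset X) := by
      intro s hs
      rw [Finset.mem_filter] at hs
      by_contra hcon
      simp only [Finset.mem_insert, Finset.mem_singleton, not_or] at hcon
      obtain ⟨a1, a2, a3, a4, a5, a6, a7, a8⟩ := hcon
      apply hs.2
      simp only [hF, a1, a2, a3, a4, a5, a6, a7, a8, if_false]
      ring
    refine (Finset.card_le_card hsub).trans ?_
    exact (Finset.card_insert_le _ _).trans (Nat.succ_le_succ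
      ((Finset.card_insert_le _ _).trans (Nat.succ_le_succ Finset.card_le_six)))
  have key := ncard_orthogonal_le (G := G) c hc hne hcomm F hodd hF0 2 (by norm_num) hsupp g hg
  have hT : {e : X → ℝ | (∀ s, e s = 1 ∨ e s = -1) ∧ (∀ s, e (c s) = - e s) ∧
      ∀ γ : G, ∑ s, F s * e (γ • s) = 0}.Finite := by
    apply Set.Finite.subset (Set.Finite.pi (fun _ : X => (Set.toFinite ({1, -1} : Set ℝ))))
    rintro e ⟨he, _⟩ s _
    rcases he s with h | h <;> simp [h]
  refine le_trans ?_ key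
  refine Set.ncard_le_ncard_of_injOn (fun e s => ((e s : ℤ) : ℝ)) ?_ ?_ hT
  · rintro e ⟨h1, h2, h3⟩
    refine ⟨fun s => ?_, fun s => ?_, fun γ => ?_⟩
    · rcases h1 s with h | h
      · left; simp only [h]; norm_num
      · right; simp only [h]; norm_num
    · simp only [h2 s]
      push_cast
      ring
    · have e1 : ∀ t : X, ∑ s, (if s = t then (1 : ℝ) else 0) * ((e (γ • s) : ℤ) : ℝ) =
          ((e (γ • t) : ℤ) : ℝ) := by
        intro t
        simp [ite_mul]
      have e2 : ∀ t : X, ((e (γ • c t) : ℤ) : ℝ) = - ((e (γ • t) : ℤ) : ℝ) := by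
        intro t
        rw [hcomm, h2]
        push_cast
        ring
      have e3 : ∑ s, F s * ((e (γ • s) : ℤ) : ℝ) =
          2 * (((e (γ • x) : ℤ) : ℝ) + ((e (γ • y) : ℤ) : ℝ) + ((e (γ • z) : ℤ) : ℝ) +
            ((e (γ • w) : ℤ) : ℝ)) := by
        simp only [hF, sub_mul, add_mul, Finset.sum_sub_distrib, Finset.sum_add_distrib, e1, e2]
        ring
      have e4 : (((e (γ • x) : ℤ) : ℝ) + ((e (γ • y) : ℤ) : ℝ) + ((e (γ • z) : ℤ) : ℝ) +
            ((e (γ • w) : ℤ) : ℝ)) = 0 := by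
        exact_mod_cast h3 γ
      show ∑ s, F s * ((e (γ • s) : ℤ) : ℝ) = 0
      rw [e3, e4, mul_zero]
  · intro e _ e' _ h
    funext s
    have h' : ((e s : ℤ) : ℝ) = ((e' s : ℤ) : ℝ) := congrFun h s
    exact_mod_cast h'

theorem pCount : SCount := by
  intro X _ _ G _ _ _ c hc hne hcomm g hg
  classical
  by_cases hX : Nonempty X
  · obtain ⟨x0⟩ := hX
    set B : X × X × X → Set (X → ℤ) := fun t =>
      if t.1 ≠ c x0 ∧ t.2.1 ≠ c x0 ∧ t.2.2 ≠ c x0 then
        {e : X → ℤ | (∀ v, e v = 1 ∨ e v = -1) ∧ (∀ v, e (c v) = - e v) ∧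
          ∀ γ : G, e (γ • x0) + e (γ • t.1) + e (γ • t.2.1) + e (γ • t.2.2) = 0}
      else ∅ with hB
    have hBfin : ∀ t, (B t).Finite := by
      intro t
      simp only [hB]
      split_ifs
      · exact (count_fin X).subset fun e he => he.1
      · exact Set.finite_empty
    have hsub : {e : X → ℤ | (∀ v, e v = 1 ∨ e v = -1) ∧ (∀ v, e (c v) = - e v) ∧
        ∃ v₁ v₂ v₃ v₄ : X, v₂ ≠ c v₁ ∧ v₃ ≠ c v₁ ∧ v₄ ≠ c v₁ ∧
          ∀ γ : G, e (γ • v₁) + e (γ • v₂) + e (γ • v₃) + e (γ • v₄) = 0} ⊆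
        ⋃ t ∈ (Finset.univ : Finset (X × X × X)), B t := by
      rintro e ⟨h1, h2, v₁, v₂, v₃, v₄, n2, n3, n4, h⟩
      obtain ⟨δ, hδ⟩ := MulAction.exists_smul_eq G x0 v₁
      have hcx : ∀ v, v ≠ c v₁ → δ⁻¹ • v ≠ c x0 := by
        intro v hv h'
        apply hv
        rw [← hδ, ← hcomm, ← h', smul_inv_smul]
      rw [Set.mem_iUnion₂]
      refine ⟨(δ⁻¹ • v₂, δ⁻¹ • v₃, δ⁻¹ • v₄), Finset.mem_univ _, ?_⟩
      simp only [hB]
      rw [if_pos ⟨hcx _ n2, hcx _ n3, hcx _ n4⟩]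
      refine ⟨h1, h2, fun γ => ?_⟩
      have h5 := h (γ * δ⁻¹)
      have h6 : (γ * δ⁻¹) • v₁ = γ • x0 := by rw [← hδ, mul_smul, inv_smul_smul]
      rw [h6, mul_smul, mul_smul, mul_smul] at h5
      exact h5
    have hfin : (⋃ t ∈ (Finset.univ : Finset (X × X × X)), B t).Finite :=
      Set.Finite.biUnion (Finset.finite_toSet _) fun t _ => hBfin t
    have hle1 : ∀ t, (B t).ncard ≤ 2 ^ (g - (g + 3) / 4) := by
      intro t
      simp only [hB]
      split_ifs with ht
      · exact count_one c hc hne hcomm g hg x0 t.1 t.2.1 t.2.2 ht.1 ht.2.1 ht.2.2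
      · rw [Set.ncard_empty]; positivity
    have hle2 : (⋃ t ∈ (Finset.univ : Finset (X × X × X)), B t).ncard ≤
        ∑ t : X × X × X, (B t).ncard := by
      exact Finset.set_ncard_biUnion_le _ _
    have hle3 : {e : X → ℤ | (∀ v, e v = 1 ∨ e v = -1) ∧ (∀ v, e (c v) = - e v) ∧
        ∃ v₁ v₂ v₃ v₄ : X, v₂ ≠ c v₁ ∧ v₃ ≠ c v₁ ∧ v₄ ≠ c v₁ ∧
          ∀ γ : G, e (γ • v₁) + e (γ • v₂) + e (γ • v₃) + e (γ • v₄) = 0}.ncard ≤
        8 * g ^ 3 * 2 ^ (g - (g + 3) / 4) := by
      refine (Set.ncard_le_ncard hsub hfin).trans (hle2.trans ?_)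
      refine (Finset.sum_le_sum fun t _ => hle1 t).trans ?_
      rw [Finset.sum_const, Finset.card_univ, Fintype.card_prod, Fintype.card_prod, hg,
        smul_eq_mul]
      apply le_of_eq
      ring
    have hg1 : 1 ≤ g := by
      have : 0 < Fintype.card X := Fintype.card_pos_iff.2 ⟨x0⟩
      omega
    have hle4 : ((2 : ℝ) ^ (g - (g + 3) / 4)) ≤ (2 : ℝ) ^ (-(g : ℝ) / 4) * 2 ^ g := by
      have h1 : (g + 3) / 4 ≤ g := by omega
      have h2 : (g : ℝ) / 4 ≤ (((g + 3) / 4 : ℕ) : ℝ) := by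
        have : g ≤ 4 * ((g + 3) / 4) := by omega
        have h3 : (g : ℝ) ≤ 4 * (((g + 3) / 4 : ℕ) : ℝ) := by exact_mod_cast this
        linarith
      rw [← Real.rpow_natCast 2 g, ← Real.rpow_natCast 2 (g - (g + 3) / 4),
        ← Real.rpow_add (by norm_num)]
      apply Real.rpow_le_rpow_of_exponent_le (by norm_num)
      rw [Nat.cast_sub h1]
      linarith
    calc _ ≤ ((8 * g ^ 3 * 2 ^ (g - (g + 3) / 4) : ℕ) : ℝ) := by exact_mod_cast hle3
      _ = 8 * (g : ℝ) ^ 3 * (2 : ℝ) ^ (g - (g + 3) / 4) := by push_cast; ring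
      _ ≤ 8 * (g : ℝ) ^ 3 * ((2 : ℝ) ^ (-(g : ℝ) / 4) * 2 ^ g) :=
          mul_le_mul_of_nonneg_left hle4 (by positivity)
      _ = _ := by ring
  · have hempty : {e : X → ℤ | (∀ v, e v = 1 ∨ e v = -1) ∧ (∀ v, e (c v) = - e v) ∧
        ∃ v₁ v₂ v₃ v₄ : X, v₂ ≠ c v₁ ∧ v₃ ≠ c v₁ ∧ v₄ ≠ c v₁ ∧
          ∀ γ : G, e (γ • v₁) + e (γ • v₂) + e (γ • v₃) + e (γ • v₄) = 0} = ∅ := by
      rw [Set.eq_empty_iff_forall_notMem]
      rintro e ⟨_, _, v₁, _⟩
      exact hX ⟨v₁⟩
    rw [hempty, Set.ncard_empty]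
    push_cast
    positivity

end Pool.Agent.Lib.MP_640417_ag.Four
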