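import Pool.Agent.Lib.MP_640417_ag.Four.MainK

/-!
# The decomposition attached to the isolated eigenvalues of one element
-/

namespace Pool.Agent.Lib.MP_640417_ag.Four

open Module Polynomial Pool.Agent.Lib.MP_640417_ag.Frob

variable {K V : Type} [Field K] [CharZero K] [AddCommGroup V] [Module K V] [FiniteDimensional K V]
  {form : LinearMap.BilinForm K V} {Γ : Type} [Group Γ] [TopologicalSpace Γ]

/-- The decomposition of `V` given by a generic cocharacter `tt` of the element `φ`. -/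
structure Decomp (form : LinearMap.BilinForm K V) (T : Γ →* Module.End K V) (χ : Γ →* Kˣ) (φ : Γ)
    (n : ℕ) (tt : Module.End K V) (B : Type) [Fintype B] (sb : B → B)
    (p : B → Module.End K V) (U : OpenSubgroup Γ) (E E' : B → V) : Prop where
  alt : ∀ x, form x x = 0
  sbsb : ∀ b, sb (sb b) = b
  sum : ∑ b, p b = 1
  id : ∀ b, p b * p b = p b
  orth : ∀ b b', b ≠ b' → p b * p b' = 0
  adj : ∀ b x y, form (p b x) y = form x (p (sb b) y)
  comm : ∀ b, ∀ γ ∈ U, p b * T γ = T γ * p b
  commφ : ∀ b, p b * T φ = T φ * p b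
  commt : ∀ b, p b * tt = tt * p b
  skewt : Skew form tt
  killst : KillsV n T χ tt
  ne : ∀ b, p b ≠ 0
  main : ∀ b, (sb b = b ∧ ∀ y y', p b y = y → p b y' = y' → KillsV n T χ (ss form y y')) ∨
    (sb b ≠ b ∧ ∀ y y', p b y = y → p (sb b) y' = y' →
      KillsV n T χ (ss form y y' - form y y' • ss form (E b) (E' b)))

/-- Existence of the decomposition. -/
theorem exists_decomp [IsTopologicalGroup Γ] [CompactSpace Γ] (pRankTwo : SRankTwo)
    (pSemi : SSemi) (pOpen : SOpen)
    (T : Γ →* Module.End K V) (χ : Γ →* Kˣ)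
    (hclosed : ∀ (f : Module.Dual K V) (x : V), IsClosed {γ : Γ | f (T γ x) = 0})
    (halt : ∀ x, form x x = 0) (hnd : ∀ x, (∀ y, form x y = 0) → x = 0)
    (heq : ∀ γ x y, form (T γ x) (T γ y) = ((χ γ)⁻¹ : Kˣ).val * form x y)
    (htr : ∀ S ∈ Submodule.span K (Set.range T), (∀ γ, LinearMap.trace K V (S * T γ) = 0) → S = 0)
    (φ : Γ) {I : Type} [Fintype I] [DecidableEq I] (e : Basis I K V) (lam t : I → K)
    (hφ : ∀ v, T φ (e v) = lam v • e v)
    (ht1 : ∀ u v, lam u = lam v → t u = t v)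
    (ht2 : ∀ u v, lam u * lam v = ((χ φ)⁻¹ : Kˣ).val → t u + t v = 0)
    (htbal : ∀ (m : I → ℕ) (i N : ℕ), 0 < N → ∑ v, m v = 2 * i →
      (∏ v, lam v ^ m v) ^ N = ((((χ φ)⁻¹ : Kˣ).val) ^ i) ^ N → ∑ v, (m v : K) * t v = 0)
    (ht4 : ∀ a b u v, t a + t b + t u + t v = 0 →
      ∃ N : ℕ, 0 < N ∧ (lam a * lam b * lam u * lam v) ^ N = ((((χ φ)⁻¹ : Kˣ).val) ^ 2) ^ N)
    (tt : Module.End K V) (htt : ∀ v, tt (e v) = t v • e v)
    (Z : Finset I) (hsimple : ∀ u ∈ Z, ∀ v, lam v = lam u → v = u)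
    (hiso : ∀ u ∈ Z, ∀ a b c, ∀ N : ℕ, 0 < N →
      (lam u * lam a * lam b * lam c) ^ N = ((((χ φ)⁻¹ : Kˣ).val) ^ 2) ^ N →
      lam u * lam a = ((χ φ)⁻¹ : Kˣ).val ∨ lam u * lam b = ((χ φ)⁻¹ : Kˣ).val ∨
        lam u * lam c = ((χ φ)⁻¹ : Kˣ).val)
    (hCen : ∀ (U : OpenSubgroup Γ) (c : Module.End K V), (∀ γ ∈ U, c * T γ = T γ * c) →
      (∀ u ∈ Z, c (e u) = 0) → c = 0)
    (n : ℕ) :
    ∃ (B : Type) (_ : Fintype B) (_ : DecidableEq B) (sb : B → B) (p : B → Module.End K V)
      (U : OpenSubgroup Γ) (E E' : B → V), Decomp form T χ φ n tt B sb p U E E' := by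
  classical
  have hTT : ∀ γ, T γ * T γ⁻¹ = 1 := fun γ => by rw [← map_mul, mul_inv_cancel, map_one]
  have hTT' : ∀ γ, T γ⁻¹ * T γ = 1 := fun γ => by rw [← map_mul, inv_mul_cancel, map_one]
  have hq0 : ((χ φ)⁻¹ : Kˣ).val ≠ 0 := Units.ne_zero _
  have hlam0 : ∀ v, lam v ≠ 0 := by
    intro v hv
    have h1 := hφ v
    rw [hv, zero_smul] at h1
    have h2 := LinearMap.congr_fun (hTT' φ) (e v)
    rw [Module.End.mul_apply, h1, map_zero, Module.End.one_apply] at h2
    exact e.ne_zero v h2.symm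
  have hpair : ∀ u v, form (e u) (e v) ≠ 0 → lam u * lam v = ((χ φ)⁻¹ : Kˣ).val := by
    intro u v huv
    have h1 := heq φ (e u) (e v)
    rw [hφ, hφ, map_smul, map_smul, LinearMap.smul_apply, smul_eq_mul, smul_eq_mul,
      ← mul_assoc] at h1
    have h2 := mul_right_cancel₀ huv h1
    rw [← h2, mul_comm]
  have hskew : Skew form tt := skew_of_basis e t tt htt fun u v h => ht2 u v (hpair u v h)
  have hkills : KillsV n T χ tt := kills_generic T χ φ e lam t hφ tt htt htbal n
  obtain ⟨P, hP⟩ := exists_aeval e lam t ht1 (T φ) tt hφ htt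
  have htspan : tt ∈ Submodule.span K (Set.range T) := by
    rw [hP]
    exact aeval_mem_span T φ P
  have httφ : tt * T φ = T φ * tt := by
    apply e.ext
    intro v
    rw [Module.End.mul_apply, Module.End.mul_apply, hφ, htt, map_smul, map_smul, hφ, htt, smul_smul,
      smul_smul, mul_comm]
  -- the algebra
  let R : Subalgebra K (Module.End K V) :=
    Algebra.adjoin K (Set.range fun γ => T γ * tt * T γ⁻¹)
  have hgenR : ∀ γ, T γ * tt * T γ⁻¹ ∈ R := fun γ => Algebra.subset_adjoin ⟨γ, rfl⟩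
  have hspanmul : ∀ M ∈ Submodule.span K (Set.range T), ∀ N ∈ Submodule.span K (Set.range T),
      M * N ∈ Submodule.span K (Set.range T) := by
    intro M hM N hN
    have h1 : M * N ∈ Submodule.span K (Set.range T) * Submodule.span K (Set.range T) :=
      Submodule.mul_mem_mul hM hN
    rw [Submodule.span_mul_span] at h1
    refine Submodule.span_mono ?_ h1
    rintro _ ⟨_, ⟨γ, rfl⟩, _, ⟨δ, rfl⟩, rfl⟩
    exact ⟨γ * δ, by rw [map_mul]⟩
  have hRspan : Subalgebra.toSubmodule R ≤ Submodule.span K (Set.range T) := by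
    intro M hM
    have hM' : M ∈ R := hM
    induction hM' using Algebra.adjoin_induction with
    | mem x hx =>
      obtain ⟨γ, rfl⟩ := hx
      exact hspanmul _ (hspanmul _ (Submodule.subset_span ⟨γ, rfl⟩) _ htspan) _
        (Submodule.subset_span ⟨γ⁻¹, rfl⟩)
    | algebraMap r =>
      rw [Algebra.algebraMap_eq_smul_one]
      exact Submodule.smul_mem _ _ (Submodule.subset_span ⟨1, map_one T⟩)
    | add x y hx hy ihx ihy => exact Submodule.add_mem _ (ihx hx) (ihy hy)
    | mul x y hx hy ihx ihy => exact hspanmul _ (ihx hx) _ (ihy hy)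
  have hRconj : ∀ γ, ∀ M ∈ R, T γ * M * T γ⁻¹ ∈ R := by
    intro γ M hM
    induction hM using Algebra.adjoin_induction with
    | mem x hx =>
      obtain ⟨δ, rfl⟩ := hx
      have h1 : T γ * (T δ * tt * T δ⁻¹) * T γ⁻¹ = T (γ * δ) * tt * T (γ * δ)⁻¹ := by
        rw [map_mul, mul_inv_rev, map_mul]
        simp only [mul_assoc]
      rw [h1]
      exact hgenR _
    | algebraMap r =>
      rw [Algebra.algebraMap_eq_smul_one, mul_smul_comm, smul_mul_assoc, mul_one, hTT]
      exact R.smul_mem R.one_mem r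
    | add x y hx hy ihx ihy =>
      rw [mul_add, add_mul]
      exact R.add_mem ihx ihy
    | mul x y hx hy ihx ihy =>
      have h1 : T γ * (x * y) * T γ⁻¹ = (T γ * x * T γ⁻¹) * (T γ * y * T γ⁻¹) := by
        calc T γ * (x * y) * T γ⁻¹ = T γ * x * (T γ⁻¹ * T γ) * (y * T γ⁻¹) := by
              rw [hTT', mul_one]; simp only [mul_assoc]
          _ = _ := by simp only [mul_assoc]
      rw [h1]
      exact R.mul_mem ihx ihy
  let L := lieK form T χ n R
  have hL : ∀ M, M ∈ L ↔ M ∈ R ∧ Skew form M ∧ KillsV n T χ M := fun M => Iff.rfl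
  have hconjL : ∀ γ, T γ * tt * T γ⁻¹ ∈ L := by
    intro γ
    refine ⟨hgenR γ, fun x y => ?_, hkills.conj γ⟩
    have h1 : x = T γ (T γ⁻¹ x) := by
      rw [← Module.End.mul_apply, hTT, Module.End.one_apply]
    have h2 : y = T γ (T γ⁻¹ y) := by
      rw [← Module.End.mul_apply, hTT, Module.End.one_apply]
    have h3 : form ((T γ * tt * T γ⁻¹) x) y = ((χ γ)⁻¹ : Kˣ).val * form (tt (T γ⁻¹ x)) (T γ⁻¹ y) := by
      rw [← heq, ← h2]
      rfl
    have h4 : form x ((T γ * tt * T γ⁻¹) y) = ((χ γ)⁻¹ : Kˣ).val * form (T γ⁻¹ x) (tt (T γ⁻¹ y)) := by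
      rw [← heq, ← h1]
      rfl
    rw [h3, h4, ← mul_add, hskew, mul_zero]
  have httL : tt ∈ L := by
    have h1 := hconjL 1
    rw [inv_one, map_one, one_mul, mul_one] at h1
    exact h1
  have hctx : Ctx form L R tt := by
    refine ⟨halt, hnd, fun M hM => hM.2.1, fun M hM M' hM' => lieK_bracket form T χ n R hM hM',
      httL, iSup_eigenspace e t tt htt, fun M hM => hM.1, ?_, pSemi K V Γ T htr R hRspan hRconj⟩
    intro Y hY M hM
    induction hM using Algebra.adjoin_induction with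
    | mem x hx =>
      obtain ⟨γ, rfl⟩ := hx
      exact fun y hy => hY _ (hconjL γ) y hy
    | algebraMap r =>
      intro y hy
      exact Y.smul_mem r hy
    | add x y hx hy ihx ihy => exact fun z hz => Y.add_mem (ihx z hz) (ihy z hz)
    | mul x y hx hy ihx ihy => exact fun z hz => ihx _ (ihy z hz)
  -- the isolated pairs
  have hpairs : ∀ u : Z, ∃ e' : V, IsoPair form L tt (t u) (e u) e' := by
    intro u
    obtain ⟨e', h1, h2, h3, h4, h5, h6⟩ := exists_pair halt hnd _ e lam hlam0 hpair t ht2 ht4 tt htt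
      u.1 (hsimple u.1 u.2) (hiso u.1 u.2)
    have h7 : tt (-(e u.1)) = - - t u.1 • (-(e u.1)) := by
      rw [map_neg, htt, neg_neg, smul_neg]
    refine ⟨e', htt _, h1, h2, h3, h4, ?_, ?_⟩
    · exact fun M hM => pRankTwo K V form halt hnd tt hskew hctx.diag (t u.1) (e u.1) e' (htt _) h1
        h2 h3 h4 h5 L hctx.skew (fun M hM => hctx.bracket _ httL _ hM) M hM
    · intro M hM
      obtain ⟨k, w, h8, h9⟩ := pRankTwo K V form halt hnd tt hskew hctx.diag (- t u.1) e' (-(e u.1))
        h1 h7 (by rw [map_neg, ← anti halt, h2]) h4 (by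
          intro y hy
          rw [neg_neg] at hy
          obtain ⟨k, hk⟩ := h3 y hy
          exact ⟨-k, by rw [hk, neg_smul_neg]⟩) h6 L hctx.skew
        (fun M hM => hctx.bracket _ httL _ hM) M hM
      refine ⟨k, -w, ?_, ?_⟩
      · have h10 : M (e u.1) = - (M (-(e u.1))) := by rw [map_neg, neg_neg]
        rw [h10, h8, smul_neg, neg_add, neg_neg]
      · have h10 : -w = (-1 : K) • w := by rw [neg_one_smul]
        rw [h10, ss_smul]
        exact L.smul_mem _ h9
  choose e' he' using hpairs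
  -- the decomposition into blocks
  obtain ⟨B, hB1, hB2, sb, p, r, U, hsb, hsum, hid, horth, hadj, hcomm, hran, hran'⟩ :=
    exists_blocks pOpen hctx T hclosed (fun γ => ((χ γ)⁻¹ : Kˣ).val) heq hRconj
      (Z ⊕ Z) (Sum.elim (fun u => t u) (fun u => - t u)) (Sum.elim (fun u => e u) e')
      (Sum.elim e' (fun u => -(e u))) Sum.swap (by
        rintro (u | u)
        · exact he' u
        · exact (he' u).swap hctx) (by
        rintro (u | u)
        · rfl
        · change Rm R (-(e u.1)) = Rm R (e u.1)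
          apply le_antisymm
          · exact Rm_le' _ ((Rm R (e u.1)).neg_mem (self_mem_Rm _)) (Rm_stable _)
          · refine Rm_le' _ ?_ (Rm_stable _)
            have h1 := (Rm R (-(e u.1))).neg_mem (self_mem_Rm (R := R) (-(e u.1)))
            rwa [neg_neg] at h1) (by
        intro a
        rw [Sum.swap_swap]) (by
        intro U c hc1 hc2
        exact hCen U c hc1 fun u hu => hc2 (Sum.inl ⟨u, hu⟩))
  let E : Z ⊕ Z → V := Sum.elim (fun u => e u) e'
  let E' : Z ⊕ Z → V := Sum.elim e' (fun u => -(e u))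
  have hE : ∀ a, ∃ τ : K, IsoPair form L tt τ (E a) (E' a) := by
    rintro (u | u)
    · exact ⟨_, he' u⟩
    · exact ⟨_, (he' u).swap hctx⟩
  -- the blocks are stable under `T φ` and `R`
  have hsum' : ∀ y, y = ∑ b, p b y := by
    intro y
    have := LinearMap.congr_fun hsum y
    rw [LinearMap.sum_apply, Module.End.one_apply] at this
    exact this.symm
  have hcommOf : ∀ S : Module.End K V, (∀ b y, p b y = y → p b (S y) = S y) →
      ∀ b, p b * S = S * p b := by
    intro S hS b
    refine LinearMap.ext fun y => ?_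
    rw [Module.End.mul_apply, Module.End.mul_apply]
    conv_lhs => rw [hsum' y, map_sum, map_sum]
    rw [Finset.sum_eq_single b]
    · apply hS
      rw [← Module.End.mul_apply, hid]
    · intro b' _ hb'
      rw [← hS b' (p b' y) (by rw [← Module.End.mul_apply, hid]), ← Module.End.mul_apply,
        horth b b' (Ne.symm hb'), LinearMap.zero_apply]
    · intro h; exact absurd (Finset.mem_univ _) h
  have hEφ : ∀ a, ∃ k : K, T φ (E a) = k • E a := by
    intro a
    obtain ⟨τ, hτ⟩ := hE a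
    apply hτ.line
    rw [← Module.End.mul_apply, httφ, Module.End.mul_apply, hτ.eig, map_smul]
  refine ⟨B, hB1, hB2, sb, p, U, fun b => E (r b), fun b => E' (r b), halt, hsb, hsum, hid, horth,
    hadj, hcomm, ?_, ?_, hskew, hkills, ?_, ?_⟩
  · apply hcommOf
    intro b y hy
    rw [hran] at hy ⊢
    obtain ⟨M, hM, rfl⟩ := hy
    obtain ⟨k, hk⟩ := hEφ (r b)
    refine ⟨k • (T φ * M * T φ⁻¹), R.smul_mem (hRconj φ M hM) k, ?_⟩
    change k • (T φ (M (T φ⁻¹ (E (r b))))) = T φ (M (E (r b)))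
    have h1 : k • T φ⁻¹ (E (r b)) = E (r b) := by
      rw [← map_smul]
      rw [← hk, ← Module.End.mul_apply, hTT', Module.End.one_apply]
    rw [← map_smul, ← map_smul, h1]
  · apply hcommOf
    intro b y hy
    rw [hran] at hy ⊢
    exact Rm_stable _ tt (hctx.le tt httL) y hy
  · intro b h0
    obtain ⟨τ, hτ⟩ := hE (r b)
    have h1 := (hran b (E (r b))).mpr (self_mem_Rm _)
    rw [h0, LinearMap.zero_apply] at h1
    exact e_ne hctx hτ h1.symm
  · intro b
    obtain ⟨τ, hτ⟩ := hE (r b)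
    rcases structure_block hctx hτ with ⟨h1, h2⟩ | ⟨h1, h2⟩
    · left
      have h3 : Rm R (E' (r b)) = Rm R (E (r b)) :=
        Rm_eq_of_mem hctx hτ (e_ne hctx (hτ.swap hctx)) h2
      refine ⟨?_, ?_⟩
      · by_contra hne
        have h4 : p (sb b) (E (r b)) = E (r b) := by
          rw [hran', h3]
          exact self_mem_Rm _
        have h5 : p b (E (r b)) = E (r b) := (hran b _).mpr (self_mem_Rm _)
        have h6 := LinearMap.congr_fun (horth (sb b) b hne) (E (r b))
        rw [Module.End.mul_apply, h5, h4, LinearMap.zero_apply] at h6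
        exact e_ne hctx hτ h6
      · intro y y' hy hy'
        exact (h1 y ((hran b y).mp hy) y' ((hran b y').mp hy')).2.2
    · right
      refine ⟨?_, ?_⟩
      · intro heq'
        have h3 : p b (E' (r b)) = E' (r b) := by
          have h4 := (hran' b (E' (r b))).mpr (self_mem_Rm _)
          rwa [heq'] at h4
        have h4 := h1 (E (r b)) (self_mem_Rm _) (E' (r b)) ((hran b _).mp h3)
        rw [hτ.pair] at h4
        exact one_ne_zero h4
      · intro y y' hy hy'
        exact (h2 y ((hran b y).mp hy) y' ((hran' b y').mp hy')).2.2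

end Pool.Agent.Lib.MP_640417_ag.Four
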