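import Pool.Agent.Lib.MP_640417_ag.Four.General

/-!
# Isolated eigenvectors which detect the commutant
-/

namespace Pool.Agent.Lib.MP_640417_ag.Four

open Module Polynomial TensorProduct Pool.Agent.Lib.MP_640417_ag.Frob

variable {Γ : Type} [Group Γ] [TopologicalSpace Γ] {F : Type} [Field F] [TopologicalSpace F]
  {V : Type} [AddCommGroup V] [Module F V] [FiniteDimensional F V]

/-- The eigenvectors (over the algebraic closure) of `T φ` with isolated eigenvalues detect the
endomorphisms which commute with an open subgroup: such an endomorphism is zero if it vanishes on all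
of them. For `V = H¹(A)` this means, by Faltings, that every isotypic component of `V` under the open
subgroups contains an eigenvector of the Frobenius with an isolated eigenvalue; if all these
endomorphisms are scalars, it means that there is at least one isolated eigenvalue. -/
def Detects (ρ : H1Rep Γ F V) (φ : Γ) : Prop :=
  ∀ c : Module.End F V, (∃ U : OpenSubgroup Γ, ∀ γ ∈ U, c * ρ.T γ = ρ.T γ * c) →
    (∀ z : AlgebraicClosure F, IsoRoot ρ φ z → ∀ y : AlgebraicClosure F ⊗[F] V,
      (ρ.T φ).baseChange (AlgebraicClosure F) y = z • y →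
        c.baseChange (AlgebraicClosure F) y = 0) → c = 0

/-- Conjugates of isolated roots are isolated. -/
lemma isoRoot_conj (ρ : H1Rep Γ F V) (φ : Γ) (σ : AlgebraicClosure F ≃ₐ[F] AlgebraicClosure F)
    (z : AlgebraicClosure F) (hz : IsoRoot ρ φ z) : IsoRoot ρ φ (σ z) := by
  have hroot : ∀ y, aeval y (ρ.T φ).charpoly = 0 → aeval (σ.symm y) (ρ.T φ).charpoly = 0 := by
    intro y hy
    have h1 := Polynomial.aeval_algHom_apply σ.symm.toAlgHom y (ρ.T φ).charpoly
    rw [hy, map_zero] at h1
    exact h1
  have hscal : ∀ r : F, σ.symm (algebraMap F (AlgebraicClosure F) r) =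
      algebraMap F (AlgebraicClosure F) r := fun r => σ.symm.commutes r
  refine ⟨?_, ?_⟩
  · have h1 : ((ρ.T φ).charpoly.map (algebraMap F (AlgebraicClosure F))).map
        (σ : AlgebraicClosure F →+* AlgebraicClosure F) =
        (ρ.T φ).charpoly.map (algebraMap F (AlgebraicClosure F)) := by
      rw [Polynomial.map_map]
      congr 1
      ext r
      exact σ.commutes r
    have h2 := Polynomial.eq_rootMultiplicity_map
      (p := (ρ.T φ).charpoly.map (algebraMap F (AlgebraicClosure F)))
      (f := (σ : AlgebraicClosure F →+* AlgebraicClosure F)) σ.injective z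
    rw [h1] at h2
    rw [← hz.1]
    exact h2.symm
  · intro z₂ z₃ z₄ h2 h3 h4 N hN hrel
    have hback : ∀ y, z * σ.symm y = algebraMap F (AlgebraicClosure F) ((ρ.χ φ)⁻¹ : Fˣ).val →
        σ z * y = algebraMap F (AlgebraicClosure F) ((ρ.χ φ)⁻¹ : Fˣ).val := by
      intro y hy
      have h5 := congrArg σ hy
      rw [map_mul, AlgEquiv.apply_symm_apply, σ.commutes] at h5
      exact h5
    have h5 := congrArg σ.symm hrel
    simp only [map_pow, map_mul, AlgEquiv.symm_apply_apply, hscal] at h5
    rcases hz.2 _ _ _ (hroot _ h2) (hroot _ h3) (hroot _ h4) N hN h5 with h | h | h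
    · exact Or.inl (hback _ h)
    · exact Or.inr (Or.inl (hback _ h))
    · exact Or.inr (Or.inr (hback _ h))

omit [TopologicalSpace F] in
/-- Endomorphisms with a smaller kernel factor. -/
lemma exists_factor (g c : Module.End F V) (h : ∀ v, g v = 0 → c v = 0) :
    ∃ c' : Module.End F V, c = c' * g := by
  obtain ⟨s, hs⟩ := LinearMap.exists_rightInverse_of_surjective g.rangeRestrict
    (LinearMap.range_rangeRestrict g)
  obtain ⟨c', hc'⟩ := LinearMap.exists_extend (c ∘ₗ s)
  refine ⟨c', LinearMap.ext fun v => ?_⟩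
  have h1 : c' (g v) = c (s (g.rangeRestrict v)) := by
    have := LinearMap.congr_fun hc' (g.rangeRestrict v)
    exact this
  rw [Module.End.mul_apply, h1, ← sub_eq_zero, ← map_sub]
  apply h
  have h2 := LinearMap.congr_fun hs (g.rangeRestrict v)
  have h3 : g (s (g.rangeRestrict v)) = g v := congrArg Subtype.val h2
  rw [map_sub, h3, sub_self]

/-- **The general theorem, second form.** -/
theorem detect_main [CharZero F] [IsTopologicalRing F] [T1Space F]
    [IsTopologicalGroup Γ] [CompactSpace Γ] (ρ : H1Rep Γ F V) (hss : Semisimple ρ)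
    (φ : Γ) (hφ : Module.End.IsSemisimple (ρ.T φ)) (hdet : Detects ρ φ)
    (n i : ℕ) (x : ExteriorAlgebra F (Fin n → V))
    (hx : TateClass (fun γ => (ρ.T γ).compLeft (Fin n)) ρ.χ i x)
    (hfix : ∀ c : Module.End F V, CommIsom ρ c → ExteriorAlgebra.map (c.compLeft (Fin n)) x = x) :
    x ∈ divisorAlg (fun γ => (ρ.T γ).compLeft (Fin n)) ρ.χ := by
  classical
  let K : Type := AlgebraicClosure F
  let S : Finset K := ((ρ.T φ).charpoly.map (algebraMap F K)).roots.toFinset.filter
    fun z => IsoRoot ρ φ z
  have hS : ∀ z, z ∈ S ↔ IsoRoot ρ φ z := by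
    intro z
    rw [Finset.mem_filter]
    constructor
    · exact fun h => h.2
    · intro h
      refine ⟨?_, h⟩
      rw [Multiset.mem_toFinset, ← Multiset.one_le_count_iff_mem, count_roots]
      exact le_of_eq h.1.symm
  let Q : F[X] := ∏ z ∈ S, minpoly F z
  have hQ : ∀ z : K, aeval z Q = 0 ↔ IsoRoot ρ φ z := by
    intro z
    rw [map_prod, Finset.prod_eq_zero_iff]
    constructor
    · rintro ⟨z', hz', h1⟩
      have h2 : IsConjRoot F z' z :=
        (isConjRoot_iff_aeval_eq_zero (Algebra.IsIntegral.isIntegral z')).mpr h1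
      obtain ⟨σ, hσ⟩ := (IsConjRoot.symm h2).exists_algEquiv
      rw [← hσ]
      exact isoRoot_conj ρ φ σ z' ((hS z').mp hz')
    · intro h
      exact ⟨z, (hS z).mpr h, minpoly.aeval F z⟩
  refine general ρ hss φ hφ Q (fun z hz _ => (hQ z).mp hz) ?_ n i x hx hfix
  intro c hc hker
  apply hdet c hc
  intro z hz y hy
  obtain ⟨c', rfl⟩ := exists_factor (aeval (ρ.T φ) Q) c hker
  have h1 : (aeval (ρ.T φ) Q).baseChange K y = 0 := by
    by_cases hy0 : y = 0
    · rw [hy0, map_zero]
    have h4 : aeval ((Module.End.baseChangeHom F K V) (ρ.T φ)) Q =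
        (Module.End.baseChangeHom F K V) (aeval (ρ.T φ) Q) :=
      Polynomial.aeval_algHom_apply (Module.End.baseChangeHom F K V) (ρ.T φ) Q
    change (Module.End.baseChangeHom F K V) (aeval (ρ.T φ) Q) y = 0
    have h2 : aeval ((Module.End.baseChangeHom F K V) (ρ.T φ)) Q =
        aeval ((Module.End.baseChangeHom F K V) (ρ.T φ)) (Q.map (algebraMap F K)) := by
      rw [aeval_map_algebraMap]
    rw [← h4, h2, Module.End.aeval_apply_of_hasEigenvector (μ := z)
      ⟨by rw [Module.End.mem_eigenspace_iff]; exact hy, hy0⟩, eval_map, ← aeval_def,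
      (hQ z).mpr hz, zero_smul]
  rw [LinearMap.baseChange_mul, Module.End.mul_apply, h1, map_zero]

omit [FiniteDimensional F V] in
/-- With a symmetric commutant only the identity is a commuting isometry without eigenvalue `-1`. -/
lemma commIsom_eq_one (ρ : H1Rep Γ F V) (hsym : SymmetricCommutant ρ) (c : Module.End F V)
    (hc : CommIsom ρ c) : c = 1 := by
  obtain ⟨h1, h2, h3⟩ := hc
  have h4 : ∀ y, c (c y) = y := by
    intro y
    rw [← sub_eq_zero]
    apply ρ.form_nondeg
    intro x
    have h5 := hsym c h1 (c y) x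
    rw [map_sub, LinearMap.sub_apply, h5, h2, sub_self]
  refine LinearMap.ext fun y => ?_
  have h5 : c y - y = 0 := by
    apply h3
    rw [map_sub, h4, neg_sub]
  rw [Module.End.one_apply]
  exact sub_eq_zero.mp h5

/-- Isolated eigenvectors which detect a symmetric commutant exclude exotic classes. -/
theorem noExotic_of_detects [CharZero F] [IsTopologicalRing F] [T1Space F]
    [IsTopologicalGroup Γ] [CompactSpace Γ] (ρ : H1Rep Γ F V) (hss : Semisimple ρ)
    (hsym : SymmetricCommutant ρ)
    (φ : Γ) (hφ : Module.End.IsSemisimple (ρ.T φ)) (hdet : Detects ρ φ) : NoExotic ρ := by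
  rintro n i x ⟨hx, hnot⟩
  apply hnot
  apply detect_main ρ hss φ hφ hdet n i x hx
  intro c hc
  rw [commIsom_eq_one ρ hsym c hc]
  have h1 : (1 : Module.End F V).compLeft (Fin n) = LinearMap.id := rfl
  rw [h1, ExteriorAlgebra.map_id]
  rfl

omit [TopologicalSpace F] [FiniteDimensional F V] in
/-- The base change is injective on endomorphisms. -/
lemma eq_zero_of_baseChange (K : Type) [Field K] [Algebra F K] (c : Module.End F V)
    (h : c.baseChange K = 0) : c = 0 := by
  obtain ⟨ℓ, hℓ⟩ := LinearMap.exists_leftInverse_of_injective (Algebra.linearMap F K)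
    (LinearMap.ker_eq_bot.2 (algebraMap F K).injective)
  have hℓ1 : ℓ 1 = 1 := by
    have := DFunLike.congr_fun hℓ 1
    simpa using this
  refine LinearMap.ext fun v => ?_
  have h1 := LinearMap.congr_fun h ((1 : K) ⊗ₜ[F] v)
  rw [LinearMap.baseChange_tmul, LinearMap.zero_apply] at h1
  have h2 := congrArg (pr V ℓ) h1
  rw [pr_tmul, hℓ1, one_smul, map_zero] at h2
  exact h2

/-- Good elements act semisimply. -/
lemma GoodElt.isSemisimple [CharZero F] (ρ : H1Rep Γ F V) (φ : Γ) (h : GoodElt ρ φ) :
    Module.End.IsSemisimple (ρ.T φ) := by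
  classical
  have hmon : (ρ.T φ).charpoly.Monic := LinearMap.charpoly_monic _
  have h1 : (ρ.T φ).charpoly.Separable := by
    rw [← nodup_aroots_iff_of_splits (K := AlgebraicClosure F) hmon.ne_zero
      (IsAlgClosed.splits _), Multiset.nodup_iff_count_le_one]
    intro z
    rw [aroots_def, count_roots]
    by_cases hz : aeval z (ρ.T φ).charpoly = 0
    · exact le_of_eq (h z hz).1
    · rw [rootMultiplicity_eq_zero]
      · exact zero_le_one
      · rw [IsRoot.def, eval_map, ← aeval_def]
        exact hz
  exact Module.End.isSemisimple_of_squarefree_aeval_eq_zero h1.squarefree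
    (LinearMap.aeval_self_charpoly _)

/-- Good elements detect everything. -/
lemma GoodElt.detects [CharZero F] (ρ : H1Rep Γ F V) (φ : Γ) (h : GoodElt ρ φ) :
    Detects ρ φ := by
  intro c _ hc
  let K : Type := AlgebraicClosure F
  obtain ⟨I, hI1, hI2, e, lam, he⟩ := exists_eigen_of_semisimple
    ((ρ.T φ).baseChange K : Module.End K (K ⊗[F] V))
    (isSemisimple_baseChange K (ρ.T φ) (h.isSemisimple ρ φ))
  apply eq_zero_of_baseChange K c
  apply e.ext
  intro v
  rw [LinearMap.zero_apply]
  apply hc (lam v) _ (e v) (he v)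
  apply h
  have h1 : (LinearMap.charpoly ((ρ.T φ).baseChange K : Module.End K (K ⊗[F] V))).eval
      (lam v) = 0 := by
    rw [charpoly_eigenbasis e lam _ he, eval_prod]
    apply Finset.prod_eq_zero (Finset.mem_univ v)
    simp
  rw [LinearMap.charpoly_baseChange, eval_map] at h1
  rw [aeval_def]
  exact h1

end Pool.Agent.Lib.MP_640417_ag.Four
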