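import Pool.Agent.Lib.MP_640417_ag.Four.MainG
import Pool.Agent.Lib.MP_640417_ag.Four.Detect

/-!
# The general criterion: isolated eigenvalues and determinants of one element
-/

namespace Pool.Agent.Lib.MP_640417_ag.Four

open Module Polynomial TensorProduct Pool.Agent.Lib.MP_640417_ag.Frob

variable {Γ : Type} [Group Γ] [TopologicalSpace Γ] {F : Type} [Field F] [TopologicalSpace F]
  {V : Type} [AddCommGroup V] [Module F V] [FiniteDimensional F V]

/-- The determinants of `T φ` on the components of `V` satisfy only the trivial relations: for all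
integers `sⱼ` and orthogonal idempotent endomorphisms `pⱼ` of `V` (over the algebraic closure) which
commute with `T φ` and with an open subgroup, such that `∑ sⱼ pⱼ` is skew for the pairing, the number
`∏ⱼ det (T φ | pⱼ V) ^ sⱼ` is a root of unity only if `∑ sⱼ pⱼ = 0`. -/
def DetFree (ρ : H1Rep Γ F V) (φ : Γ) : Prop :=
  ∀ (r : ℕ) (p : Fin r → Module.End (AlgebraicClosure F) (AlgebraicClosure F ⊗[F] V))
    (s : Fin r → ℤ), (∀ j, p j * p j = p j) → (∀ j k, j ≠ k → p j * p k = 0) →
    (∀ j, p j * (ρ.T φ).baseChange (AlgebraicClosure F) =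
      (ρ.T φ).baseChange (AlgebraicClosure F) * p j) →
    (∃ U : OpenSubgroup Γ, ∀ γ ∈ U, ∀ j, p j * (ρ.T γ).baseChange (AlgebraicClosure F) =
      (ρ.T γ).baseChange (AlgebraicClosure F) * p j) →
    (∀ x y, ρ.form.baseChange (AlgebraicClosure F)
        ((∑ j, (s j : AlgebraicClosure F) • p j) x) y +
      ρ.form.baseChange (AlgebraicClosure F) x
        ((∑ j, (s j : AlgebraicClosure F) • p j) y) = 0) → ∀ N : ℕ, 0 < N →
    (∏ j, (LinearMap.det (p j * (ρ.T φ).baseChange (AlgebraicClosure F) + (1 - p j))) ^ s j) ^ N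
      = 1 → ∑ j, (s j : AlgebraicClosure F) • p j = 0

/-- **The general criterion.** -/
theorem noExotic_general [CharZero F] [IsTopologicalRing F] [T1Space F]
    [IsTopologicalGroup Γ] [CompactSpace Γ] (ρ : H1Rep Γ F V) (hss : Semisimple ρ)
    (φ : Γ) (hφ : Module.End.IsSemisimple (ρ.T φ)) (hdet : Detects ρ φ) (hfree : DetFree ρ φ) :
    NoExotic ρ := by
  rintro n i x ⟨hx, hnot⟩
  apply hnot
  clear hnot
  classical
  let K : Type := AlgebraicClosure F
  have hcharK : CharZero K := charZero_of_injective_algebraMap (algebraMap F K).injective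
  -- the polynomial with the isolated roots
  let S : Finset K := ((ρ.T φ).charpoly.map (algebraMap F K)).roots.toFinset.filter
    fun z => IsoRoot ρ φ z
  have hS : ∀ z, z ∈ S ↔ IsoRoot ρ φ z := by
    intro z
    rw [Finset.mem_filter]
    constructor
    · exact fun h => h.2
    · intro h
      refine ⟨?_, h⟩
      rw [Multiset.mem_toFinset, ← Multiset.one_le_count_iff_mem, count_roots]
      exact le_of_eq h.1.symm
  let Q : F[X] := ∏ z ∈ S, minpoly F z
  have hQ : ∀ z : K, aeval z Q = 0 ↔ IsoRoot ρ φ z := by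
    intro z
    rw [map_prod, Finset.prod_eq_zero_iff]
    constructor
    · rintro ⟨z', hz', h1⟩
      have h2 : IsConjRoot F z' z :=
        (isConjRoot_iff_aeval_eq_zero (Algebra.IsIntegral.isIntegral z')).mpr h1
      obtain ⟨σ, hσ⟩ := (IsConjRoot.symm h2).exists_algEquiv
      rw [← hσ]
      exact isoRoot_conj ρ φ σ z' ((hS z').mp hz')
    · intro h
      exact ⟨z, (hS z).mpr h, minpoly.aeval F z⟩
  have hCen : ∀ c : Module.End F V, (∃ U : OpenSubgroup Γ, ∀ γ ∈ U, c * ρ.T γ = ρ.T γ * c) →
      (∀ v, aeval (ρ.T φ) Q v = 0 → c v = 0) → c = 0 := by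
    intro c hc hker
    apply hdet c hc
    intro z hz y hy
    obtain ⟨c', rfl⟩ := exists_factor (aeval (ρ.T φ) Q) c hker
    have h1 : (aeval (ρ.T φ) Q).baseChange K y = 0 := by
      by_cases hy0 : y = 0
      · rw [hy0, map_zero]
      have h4 : aeval ((Module.End.baseChangeHom F K V) (ρ.T φ)) Q =
          (Module.End.baseChangeHom F K V) (aeval (ρ.T φ) Q) :=
        Polynomial.aeval_algHom_apply (Module.End.baseChangeHom F K V) (ρ.T φ) Q
      change (Module.End.baseChangeHom F K V) (aeval (ρ.T φ) Q) y = 0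
      have h2 : aeval ((Module.End.baseChangeHom F K V) (ρ.T φ)) Q =
          aeval ((Module.End.baseChangeHom F K V) (ρ.T φ)) (Q.map (algebraMap F K)) := by
        rw [aeval_map_algebraMap]
      rw [← h4, h2, Module.End.aeval_apply_of_hasEigenvector (μ := z)
        ⟨by rw [Module.End.mem_eigenspace_iff]; exact hy, hy0⟩, eval_map, ← aeval_def,
        (hQ z).mpr hz, zero_smul]
    rw [LinearMap.baseChange_mul, Module.End.mul_apply, h1, map_zero]
  apply mem_of_be (F' := K) (fun γ => ρ.T γ) ρ.χ n x
  let T' : Γ →* Module.End K (K ⊗[F] V) :=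
    ((Module.End.baseChangeHom F K V : Module.End F V →ₐ[F] Module.End K (K ⊗[F] V)) :
      Module.End F V →* Module.End K (K ⊗[F] V)).comp ρ.T
  have hT' : ∀ γ, T' γ = (ρ.T γ).baseChange K := fun γ => rfl
  let χ' : Γ →* Kˣ := (Units.map (algebraMap F K : F →* K)).comp ρ.χ
  have hχ' : ∀ γ, ((χ' γ)⁻¹ : Kˣ).val = algebraMap F K ((ρ.χ γ)⁻¹ : Fˣ).val := by
    intro γ
    simp only [χ', MonoidHom.comp_apply, ← map_inv, Units.coe_map, MonoidHom.coe_coe]
  have hsemi : Module.End.IsSemisimple (T' φ) := by
    rw [hT']; exact isSemisimple_baseChange K (ρ.T φ) hφ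
  obtain ⟨I, hI1, hI2, e, lam, he⟩ := exists_eigen_of_semisimple (T' φ) hsemi
  have hchar : (T' φ).charpoly = (ρ.T φ).charpoly.map (algebraMap F K) := by
    rw [hT', LinearMap.charpoly_baseChange]
  have hroot : ∀ v, aeval (lam v) (ρ.T φ).charpoly = 0 := by
    intro v
    have h1 : (T' φ).charpoly.eval (lam v) = 0 := by
      rw [charpoly_eigenbasis e lam _ he, eval_prod]
      apply Finset.prod_eq_zero (Finset.mem_univ v)
      simp
    rw [hchar, eval_map] at h1
    rw [aeval_def]
    exact h1
  have halt' := alt_baseChange K ρ.form ρ.form_alt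
  let Z : Finset I := Finset.univ.filter fun v => aeval (lam v) Q = 0
  have hZ : ∀ v ∈ Z, IsoRoot ρ φ (lam v) := fun v hv =>
    (hQ (lam v)).mp (Finset.mem_filter.mp hv).2
  have hQe : ∀ v, aeval (T' φ) Q (e v) = aeval (lam v) Q • e v := by
    intro v
    have h1 : aeval (T' φ) Q = aeval (T' φ) (Q.map (algebraMap F K)) := by
      rw [aeval_map_algebraMap]
    rw [h1, Module.End.aeval_apply_of_hasEigenvector (μ := lam v)
      ⟨by rw [Module.End.mem_eigenspace_iff]; exact he v, e.ne_zero v⟩, eval_map, aeval_def]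
  refine mainG pRankTwo pSemi pOpen pDarboux (form := ρ.form.baseChange K) T' χ' ?_ halt'
    (nondeg_baseChange K ρ.form ρ.form_alt ρ.form_nondeg) ?_ ?_ φ hsemi e lam he Z ?_ ?_ ?_ ?_ n i _
    (tate_be (fun γ => ρ.T γ) ρ.χ n i hx)
  · intro f z
    exact closed_baseChange K (fun γ => ρ.T γ) ρ.continuous_coeff f z
  · intro γ x y
    rw [hχ']
    exact equivariant_baseChange K ρ.form (ρ.T γ) _ (ρ.form_equivariant γ) x y
  · intro S hS htr
    exact trace_nondeg_baseChange (fun γ => ρ.T γ) (pTrace Γ F V ρ.T hss) S hS htr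
  · intro u hu v huv
    refine eq_of_rootMultiplicity e lam (T' φ) he u v ?_ huv
    rw [hchar]
    exact (hZ u hu).1
  · intro u hu a b c N hN hrel
    rw [hχ'] at hrel ⊢
    exact (hZ u hu).2 (lam a) (lam b) (lam c) (hroot a) (hroot b) (hroot c) N hN
      (by rw [hrel, ← pow_mul])
  · intro U c hc1 hc2
    let b := Module.Free.chooseBasis F K
    obtain ⟨τ, hτ⟩ := sum_cp b c
    rw [hτ]
    refine Finset.sum_eq_zero fun t _ => ?_
    have h1 : cp (b.coord t) c = 0 := by
      apply hCen
      · refine ⟨U, fun γ hγ => ?_⟩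
        rw [← cp_mul_baseChange, ← cp_baseChange_mul]
        congr 1
        exact hc1 γ hγ
      · intro v hv
        rw [cp_apply]
        have h2 : c ((1 : K) ⊗ₜ[F] v) = 0 := by
          set y : K ⊗[F] V := (1 : K) ⊗ₜ[F] v with hy
          have h3 : aeval (T' φ) Q y = 0 := by
            have h4 : aeval (T' φ) Q = (Module.End.baseChangeHom F K V) (aeval (ρ.T φ) Q) :=
              Polynomial.aeval_algHom_apply (Module.End.baseChangeHom F K V) (ρ.T φ) Q
            rw [h4]
            change (aeval (ρ.T φ) Q).baseChange K ((1 : K) ⊗ₜ[F] v) = 0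
            rw [LinearMap.baseChange_tmul, hv, TensorProduct.tmul_zero]
          have h4 : ∀ s, e.repr y s • c (e s) = 0 := by
            intro s
            by_cases h5 : aeval (lam s) Q = 0
            · rw [hc2 s (Finset.mem_filter.mpr ⟨Finset.mem_univ _, h5⟩), smul_zero]
            · have h6 : e.repr (aeval (T' φ) Q y) s = aeval (lam s) Q * e.repr y s := by
                conv_lhs => rw [← e.sum_repr y]
                rw [map_sum, map_sum, Finsupp.finsetSum_apply, Finset.sum_eq_single s]
                · rw [map_smul, hQe, map_smul, map_smul, Finsupp.smul_apply, Finsupp.smul_apply,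
                    Basis.repr_self, Finsupp.single_eq_same, smul_eq_mul, smul_eq_mul, mul_one,
                    mul_comm]
                · intro u _ hu
                  rw [map_smul, hQe, map_smul, map_smul, Finsupp.smul_apply, Finsupp.smul_apply,
                    Basis.repr_self, Finsupp.single_eq_of_ne (Ne.symm hu), smul_zero, smul_zero]
                · intro h; exact absurd (Finset.mem_univ _) h
              rw [h3, map_zero, Finsupp.zero_apply] at h6
              rw [(mul_eq_zero.mp h6.symm).resolve_left h5, zero_smul]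
          rw [← e.sum_repr y, map_sum]
          refine Finset.sum_eq_zero fun s _ => ?_
          rw [map_smul]
          exact h4 s
        rw [h2, map_zero]
    rw [h1, LinearMap.baseChange_zero, smul_zero]
  · intro r p s h1 h2 h3 h4 h5 N hN h6
    exact hfree r p s h1 h2 h3 h4 h5 N hN h6

/-- A symmetric commutant contains no skew elements, over every extension of the coefficients. -/
lemma skew_eq_zero [CharZero F] (K : Type) [Field K] [Algebra F K] (ρ : H1Rep Γ F V)
    (hsym : SymmetricCommutant ρ) (U : OpenSubgroup Γ) (S : Module.End K (K ⊗[F] V))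
    (hskew : Skew (ρ.form.baseChange K) S)
    (hcomm : ∀ γ ∈ U, S * (ρ.T γ).baseChange K = (ρ.T γ).baseChange K * S) : S = 0 := by
  classical
  have hanti : ∀ u v, ρ.form u v = - ρ.form v u := anti ρ.form_alt
  have halt' := alt_baseChange K ρ.form ρ.form_alt
  have hanti' : ∀ u v, ρ.form.baseChange K u v = - ρ.form.baseChange K v u := anti halt'
  let b := Module.Free.chooseBasis F K
  obtain ⟨τ, hτ⟩ := sum_cp b S
  rw [hτ]
  refine Finset.sum_eq_zero fun t _ => ?_
  set s : Module.End F V := cp (b.coord t) S with hs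
  have hs1 : ∀ γ ∈ U, s * ρ.T γ = ρ.T γ * s := by
    intro γ hγ
    rw [hs, ← cp_mul_baseChange, ← cp_baseChange_mul]
    congr 1
    exact hcomm γ hγ
  have hs2 : ∀ u v, ρ.form (s u) v + ρ.form u (s v) = 0 := by
    intro u v
    rw [hanti u (s v), hs, form_cp, form_cp, ← map_neg, ← hanti', ← map_add, hskew, map_zero]
  have hs0 : s = 0 := by
    refine LinearMap.ext fun u => ?_
    apply ρ.form_nondeg
    intro v
    have h1 := hs2 u v
    rw [← hsym s ⟨U, hs1⟩ u v, ← two_mul] at h1
    exact (mul_eq_zero.mp h1).resolve_left two_ne_zero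
  rw [hs0, LinearMap.baseChange_zero, smul_zero]

/-- With a symmetric commutant the condition on the determinants is empty. -/
lemma detFree_of_symmetric [CharZero F] (ρ : H1Rep Γ F V) (hsym : SymmetricCommutant ρ) (φ : Γ) :
    DetFree ρ φ := by
  intro r p s _ _ _ h4 h5 N _ _
  obtain ⟨U, hU⟩ := h4
  apply skew_eq_zero (AlgebraicClosure F) ρ hsym U _ h5
  intro γ hγ
  rw [Finset.sum_mul, Finset.mul_sum]
  refine Finset.sum_congr rfl fun j _ => ?_
  rw [smul_mul_assoc, mul_smul_comm, hU γ hγ j]

end Pool.Agent.Lib.MP_640417_ag.Four
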