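import Pool.Agent.Lib.MP_640417_ag.Four.Detect

/-!
# Isolated roots of integral polynomials
-/

namespace Pool.Agent.Lib.MP_640417_ag.Four

open Module Polynomial TensorProduct Pool.Agent.Lib.MP_640417_ag.Frob

/-- The root `z` of `P` is simple, and `z z₂ z₃ z₄` is `q ^ 2` up to a root of unity for roots
`z₂`, `z₃`, `z₄` of `P` only if one of `z z₂`, `z z₃`, `z z₄` is `q`. -/
def IsoZ {K : Type} [Field K] (P : ℤ[X]) (q : K) (z : K) : Prop :=
  aeval z P = 0 ∧ (P.map (Int.castRingHom K)).rootMultiplicity z = 1 ∧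
    ∀ z₂ z₃ z₄ : K, aeval z₂ P = 0 → aeval z₃ P = 0 → aeval z₄ P = 0 → ∀ N : ℕ, 0 < N →
      (z * z₂ * z₃ * z₄) ^ N = q ^ (2 * N) → z * z₂ = q ∨ z * z₃ = q ∨ z * z₄ = q

lemma aeval_map_ringHom {K L : Type} [Field K] [Field L] (j : K →+* L) (P : ℤ[X]) (z : K) :
    aeval (j z) P = j (aeval z P) := by
  rw [aeval_def, aeval_def, Polynomial.hom_eval₂]
  congr 1
  exact RingHom.ext_int _ _

/-- If `P` splits in the smaller field, all roots in the larger field come from it. -/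
lemma exists_root_of_splits {K L : Type} [Field K] [Field L] (j : K →+* L) (P : ℤ[X])
    (hP : P.Monic) (hs : (P.map (Int.castRingHom K)).Splits) (z : L) (hz : aeval z P = 0) :
    ∃ y : K, j y = z ∧ aeval y P = 0 := by
  have h1 := hs.eq_prod_roots_of_monic (hP.map _)
  have h2 : (P.map (Int.castRingHom L)).eval z = 0 := by
    rw [eval_map]
    rw [aeval_def] at hz
    exact hz
  have h3 : P.map (Int.castRingHom L) = (P.map (Int.castRingHom K)).map j := by
    rw [Polynomial.map_map]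
    congr 1
    exact RingHom.ext_int _ _
  rw [h3, h1, Polynomial.map_multiset_prod, Multiset.map_map, eval_multiset_prod,
    Multiset.map_map, Multiset.prod_eq_zero_iff, Multiset.mem_map] at h2
  obtain ⟨y, hy, h4⟩ := h2
  simp only [Function.comp_apply, Polynomial.map_sub, Polynomial.map_X, Polynomial.map_C,
    eval_sub, eval_X, eval_C] at h4
  refine ⟨y, (sub_eq_zero.mp h4).symm, ?_⟩
  have h5 := isRoot_of_mem_roots hy
  rw [IsRoot.def, eval_map] at h5
  rw [aeval_def]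
  exact h5

/-- Isolated roots and embeddings. -/
lemma isoZ_map_iff {K L : Type} [Field K] [Field L] (j : K →+* L) (P : ℤ[X])
    (hP : P.Monic) (hs : (P.map (Int.castRingHom K)).Splits) (q z : K) :
    IsoZ P (j q) (j z) ↔ IsoZ P q z := by
  have hroot : ∀ y : K, aeval (j y) P = 0 ↔ aeval y P = 0 := by
    intro y
    rw [aeval_map_ringHom, map_eq_zero]
  have h3 : P.map (Int.castRingHom L) = (P.map (Int.castRingHom K)).map j := by
    rw [Polynomial.map_map]
    congr 1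
    exact RingHom.ext_int _ _
  have hmul : ∀ x y : K, j x * j y = j q ↔ x * y = q := by
    intro x y
    rw [← map_mul]
    exact j.injective.eq_iff
  unfold IsoZ
  rw [hroot, h3, ← Polynomial.eq_rootMultiplicity_map j.injective z]
  refine and_congr_right fun _ => and_congr_right fun _ => ?_
  constructor
  · intro h z₂ z₃ z₄ h2 h3 h4 N hN hrel
    have h5 := h (j z₂) (j z₃) (j z₄) ((hroot _).mpr h2) ((hroot _).mpr h3) ((hroot _).mpr h4) N hN
      (by rw [← map_mul, ← map_mul, ← map_mul, ← map_pow, hrel, map_pow])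
    rwa [hmul, hmul, hmul] at h5
  · intro h z₂ z₃ z₄ h2 h3 h4 N hN hrel
    obtain ⟨y₂, rfl, h2'⟩ := exists_root_of_splits j P hP hs z₂ h2
    obtain ⟨y₃, rfl, h3'⟩ := exists_root_of_splits j P hP hs z₃ h3
    obtain ⟨y₄, rfl, h4'⟩ := exists_root_of_splits j P hP hs z₄ h4
    rw [hmul, hmul, hmul]
    apply h y₂ y₃ y₄ h2' h3' h4' N hN
    apply j.injective
    rw [map_pow, map_mul, map_mul, map_mul, hrel, map_pow]

/-- The existence of isolated roots does not depend on the algebraically closed field. -/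
theorem exists_isoZ_iff {K L : Type} [Field K] [CharZero K] [IsAlgClosed K] [Field L] [CharZero L]
    [IsAlgClosed L] (P : ℤ[X]) (hP : P.Monic) (q : ℕ) (h : ∃ z : K, IsoZ P (q : K) z) :
    ∃ z : L, IsoZ P (q : L) z := by
  obtain ⟨z, hz⟩ := h
  let Ω : Type := (P.map (Int.castRingHom ℚ)).SplittingField
  have hs : (P.map (Int.castRingHom Ω)).Splits := by
    have h1 : P.map (Int.castRingHom Ω) =
        (P.map (Int.castRingHom ℚ)).map (algebraMap ℚ Ω) := by
      rw [Polynomial.map_map]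
      congr 1
    rw [h1]
    exact SplittingField.splits _
  let j : Ω →ₐ[ℚ] K := SplittingField.lift _ (IsAlgClosed.splits _)
  let j' : Ω →ₐ[ℚ] L := SplittingField.lift _ (IsAlgClosed.splits _)
  obtain ⟨y, hy1, hy2⟩ := exists_root_of_splits (j : Ω →+* K) P hP hs z hz.1
  refine ⟨j' y, ?_⟩
  have h1 : IsoZ P ((j : Ω →+* K) (q : Ω)) ((j : Ω →+* K) y) := by
    rw [hy1, map_natCast]
    exact hz
  rw [isoZ_map_iff _ P hP hs] at h1
  rw [← isoZ_map_iff (j' : Ω →+* L) P hP hs, map_natCast] at h1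
  exact h1

variable {Γ : Type} [Group Γ] [TopologicalSpace Γ] {F : Type} [Field F] [TopologicalSpace F]
  {V : Type} [AddCommGroup V] [Module F V] [FiniteDimensional F V]

/-- Isolated roots of the characteristic polynomial of a Frobenius. -/
lemma isoRoot_of_isoZ [CharZero F] (ρ : H1Rep Γ F V) (φ : Γ) (p a : ℕ) (P : ℤ[X])
    (hφ : IsFrobenius ρ φ p a P) (z : AlgebraicClosure F)
    (hz : IsoZ P (((p ^ a : ℕ) : AlgebraicClosure F)) z) : IsoRoot ρ φ z := by
  have h1 : (ρ.T φ).charpoly.map (algebraMap F (AlgebraicClosure F)) =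
      P.map (Int.castRingHom (AlgebraicClosure F)) := by
    rw [hφ.charpoly, Polynomial.map_map]
    congr 1
  have h2 : ∀ y : AlgebraicClosure F, aeval y (ρ.T φ).charpoly = 0 → aeval y P = 0 := by
    intro y hy
    rw [aeval_def, ← eval_map, h1, eval_map] at hy
    rw [aeval_def]
    exact hy
  have h3 : algebraMap F (AlgebraicClosure F) ((ρ.χ φ)⁻¹ : Fˣ).val =
      ((p ^ a : ℕ) : AlgebraicClosure F) := by
    rw [hφ.cyclotomic, map_pow, map_natCast, Nat.cast_pow]
  refine ⟨by rw [h1]; exact hz.2.1, ?_⟩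
  rw [h3]
  intro z₂ z₃ z₄ h4 h5 h6 N hN hrel
  exact hz.2.2 z₂ z₃ z₄ (h2 _ h4) (h2 _ h5) (h2 _ h6) N hN hrel

/-- All endomorphisms which commute with an open subgroup are scalars. -/
def ScalarCommutant (ρ : H1Rep Γ F V) : Prop :=
  ∀ c : Module.End F V, (∃ U : OpenSubgroup Γ, ∀ γ ∈ U, c * ρ.T γ = ρ.T γ * c) →
    ∃ r : F, c = r • (1 : Module.End F V)

omit [FiniteDimensional F V] in
lemma ScalarCommutant.symmetric (ρ : H1Rep Γ F V) (h : ScalarCommutant ρ) :
    SymmetricCommutant ρ := by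
  intro c hc x y
  obtain ⟨r, rfl⟩ := h c hc
  simp

/-- If the commutant consists of scalars, one isolated root detects it. -/
lemma detects_of_scalar (ρ : H1Rep Γ F V) (h : ScalarCommutant ρ) (φ : Γ)
    (z : AlgebraicClosure F) (hz : IsoRoot ρ φ z) : Detects ρ φ := by
  intro c hc hker
  obtain ⟨r, rfl⟩ := h c hc
  have h1 : (LinearMap.charpoly ((ρ.T φ).baseChange (AlgebraicClosure F) :
      Module.End (AlgebraicClosure F) (AlgebraicClosure F ⊗[F] V))).IsRoot z := by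
    rw [LinearMap.charpoly_baseChange, ← rootMultiplicity_pos, hz.1]
    · exact one_pos
    · exact ((LinearMap.charpoly_monic _).map _).ne_zero
  obtain ⟨y, hy1, hy2⟩ :=
    ((Module.End.hasEigenvalue_iff_isRoot_charpoly _ z).2 h1).exists_hasEigenvector
  have h2 := hker z hz y (Module.End.mem_eigenspace_iff.mp hy1)
  rw [LinearMap.baseChange_smul, LinearMap.smul_apply] at h2
  have h3 : (1 : Module.End F V).baseChange (AlgebraicClosure F) y = y := by
    rw [Module.End.one_eq_id, LinearMap.baseChange_id]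
    rfl
  rw [h3] at h2
  rw [← algebraMap_smul (AlgebraicClosure F) r y, smul_eq_zero] at h2
  have h4 := h2.resolve_right hy2
  rw [map_eq_zero] at h4
  rw [h4, zero_smul]

/-- **One isolated eigenvalue suffices, if the commutant consists of scalars.** -/
theorem one_isolated [CharZero F] [IsTopologicalRing F] [T1Space F]
    [IsTopologicalGroup Γ] [CompactSpace Γ] {K : Type} [Field K] [CharZero K] [IsAlgClosed K]
    (ρ : H1Rep Γ F V) (hss : Semisimple ρ) (hsc : ScalarCommutant ρ) (φ : Γ) (p a : ℕ) (P : ℤ[X])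
    (hφ : IsFrobenius ρ φ p a P) (hsemi : Module.End.IsSemisimple (ρ.T φ)) (z : K)
    (hz : IsoZ P (((p ^ a : ℕ) : K)) z) : NoExotic ρ := by
  have hmon : P.Monic := by
    apply Polynomial.monic_of_injective (RingHom.injective_int (Int.castRingHom F))
    rw [← hφ.charpoly]
    exact LinearMap.charpoly_monic _
  have hcharK : CharZero (AlgebraicClosure F) :=
    charZero_of_injective_algebraMap (algebraMap F (AlgebraicClosure F)).injective
  obtain ⟨y, hy⟩ := exists_isoZ_iff (K := K) (L := AlgebraicClosure F) P hmon (p ^ a) ⟨z, hz⟩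
  exact noExotic_of_detects ρ hss (hsc.symmetric ρ) φ hsemi
    (detects_of_scalar ρ hsc φ y (isoRoot_of_isoZ ρ φ p a P hφ y hy))

/-- The Newton polygon criterion for isolated roots. -/
lemma isoZ_of_slopes (p : ℕ) [Fact p.Prime] (a : ℕ) (P : ℤ[X]) (α : PadicAlgCl p)
    (hα : aeval α P = 0) (hmult : (P.map (Int.castRingHom (PadicAlgCl p))).rootMultiplicity α = 1)
    (hslope : ∀ β : PadicAlgCl p, aeval β P = 0 → α * β ≠ (p : PadicAlgCl p) ^ a →
      ‖(p : PadicAlgCl p) ^ a‖ ^ 2 < ‖α‖ * ‖β‖ ^ 3) :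
    IsoZ P (((p ^ a : ℕ) : PadicAlgCl p)) α := by
  refine ⟨hα, hmult, ?_⟩
  rw [Nat.cast_pow]
  intro z₂ z₃ z₄ h2 h3 h4 N hN hrel
  by_contra hcon
  push Not at hcon
  obtain ⟨k2, k3, k4⟩ := hcon
  have e2 := hslope z₂ h2 k2
  have e3 := hslope z₃ h3 k3
  have e4 := hslope z₄ h4 k4
  have h5 : ‖α * z₂ * z₃ * z₄‖ ^ N = (‖(p : PadicAlgCl p) ^ a‖ ^ 2) ^ N := by
    rw [← norm_pow, hrel, norm_pow, ← pow_mul]
  have h6 : ‖α * z₂ * z₃ * z₄‖ = ‖(p : PadicAlgCl p) ^ a‖ ^ 2 :=
    (pow_left_inj₀ (norm_nonneg _) (by positivity) hN.ne').mp h5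
  rw [norm_mul, norm_mul, norm_mul] at h6
  set Q := ‖(p : PadicAlgCl p) ^ a‖ ^ 2 with hQ
  have hQ0 : 0 ≤ Q := by positivity
  have h7 : Q * Q * Q < (‖α‖ * ‖z₂‖ ^ 3) * (‖α‖ * ‖z₃‖ ^ 3) * (‖α‖ * ‖z₄‖ ^ 3) := by
    have h8 : Q * Q < (‖α‖ * ‖z₂‖ ^ 3) * (‖α‖ * ‖z₃‖ ^ 3) := mul_lt_mul'' e2 e3 hQ0 hQ0
    exact mul_lt_mul'' h8 e4 (by positivity) hQ0
  have h9 : (‖α‖ * ‖z₂‖ ^ 3) * (‖α‖ * ‖z₃‖ ^ 3) * (‖α‖ * ‖z₄‖ ^ 3) =
      (‖α‖ * ‖z₂‖ * ‖z₃‖ * ‖z₄‖) ^ 3 := by ring
  rw [h9, h6] at h7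
  exact absurd h7 (by rw [pow_succ, sq]; exact lt_irrefl _)

end Pool.Agent.Lib.MP_640417_ag.Four
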