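import Pool.Agent.Lib.MP_640417_ag.Place.Defs
import Pool.Agent.Lib.MP_640417_ag.ConjGal
import Pool.Agent.Lib.MP_640417_ag.Frob.Slope
import Pool.Agent.Lib.MP_640417_ag.Four.IsoZ
import Pool.Agent.Lib.MP_640417_ag.Four.Count

/-!
# Ordinary places of a type without relations between four embeddings
-/

namespace Pool.Agent.Lib.MP_640417_ag.Four

open Module Polynomial NumberField TensorProduct Pool.Agent.Lib.MP_640417_ag
  Pool.Agent.Lib.MP_640417_ag.Frob Pool.Agent.Lib.MP_640417_ag.Place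

section transfer

/-- If all roots are isolated in one algebraically closed field, they are in every other one. -/
theorem all_isoZ {K L : Type} [Field K] [CharZero K] [IsAlgClosed K] [Field L] [CharZero L]
    [IsAlgClosed L] (P : ℤ[X]) (hP : P.Monic) (q : ℕ)
    (h : ∀ z : K, aeval z P = 0 → IsoZ P (q : K) z) (z : L) (hz : aeval z P = 0) :
    IsoZ P (q : L) z := by
  let Ω : Type := (P.map (Int.castRingHom ℚ)).SplittingField
  have hs : (P.map (Int.castRingHom Ω)).Splits := by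
    have h1 : P.map (Int.castRingHom Ω) =
        (P.map (Int.castRingHom ℚ)).map (algebraMap ℚ Ω) := by
      rw [Polynomial.map_map]
      congr 1
    rw [h1]
    exact SplittingField.splits _
  let j : Ω →ₐ[ℚ] K := SplittingField.lift _ (IsAlgClosed.splits _)
  let j' : Ω →ₐ[ℚ] L := SplittingField.lift _ (IsAlgClosed.splits _)
  obtain ⟨y, rfl, hy2⟩ := exists_root_of_splits (j' : Ω →+* L) P hP hs z hz
  have h1 : IsoZ P ((j : Ω →+* K) (q : Ω)) ((j : Ω →+* K) y) := by
    rw [map_natCast]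
    apply h
    rw [aeval_map_ringHom, hy2, map_zero]
  rw [isoZ_map_iff _ P hP hs] at h1
  rw [← isoZ_map_iff (j' : Ω →+* L) P hP hs, map_natCast] at h1
  exact h1

/-- Roots come in pairs with product `q`, in every algebraically closed field. -/
theorem dual_transfer {K L : Type} [Field K] [CharZero K] [IsAlgClosed K] [Field L] [CharZero L]
    [IsAlgClosed L] (P : ℤ[X]) (hP : P.Monic) (q : ℕ)
    (h : ∀ z : K, aeval z P = 0 → ∃ z' : K, aeval z' P = 0 ∧ z * z' = q) (z : L)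
    (hz : aeval z P = 0) : ∃ z' : L, aeval z' P = 0 ∧ z * z' = q := by
  let Ω : Type := (P.map (Int.castRingHom ℚ)).SplittingField
  have hs : (P.map (Int.castRingHom Ω)).Splits := by
    have h1 : P.map (Int.castRingHom Ω) =
        (P.map (Int.castRingHom ℚ)).map (algebraMap ℚ Ω) := by
      rw [Polynomial.map_map]
      congr 1
    rw [h1]
    exact SplittingField.splits _
  let j : Ω →ₐ[ℚ] K := SplittingField.lift _ (IsAlgClosed.splits _)
  let j' : Ω →ₐ[ℚ] L := SplittingField.lift _ (IsAlgClosed.splits _)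
  obtain ⟨y, rfl, hy2⟩ := exists_root_of_splits (j' : Ω →+* L) P hP hs z hz
  obtain ⟨z', h1, h2⟩ := h ((j : Ω →+* K) y) (by rw [aeval_map_ringHom, hy2, map_zero])
  obtain ⟨y', rfl, hy'2⟩ := exists_root_of_splits (j : Ω →+* K) P hP hs z' h1
  have h3 : y * y' = q := by
    apply (j : Ω →+* K).injective
    rw [map_mul, h2, map_natCast]
  refine ⟨(j' : Ω →+* L) y', by rw [aeval_map_ringHom, hy'2, map_zero], ?_⟩
  rw [← map_mul, h3, map_natCast]

variable {Γ : Type} [Group Γ] [TopologicalSpace Γ] {F : Type} [Field F] [TopologicalSpace F]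
  {V : Type} [AddCommGroup V] [Module F V] [FiniteDimensional F V]

/-- The functional equation of the characteristic polynomial of a Frobenius. -/
theorem dual_root [CharZero F] (ρ : H1Rep Γ F V) (φ : Γ) (p a : ℕ) (P : ℤ[X])
    (hφ : IsFrobenius ρ φ p a P) (z : AlgebraicClosure F) (hz : aeval z P = 0) :
    ∃ z' : AlgebraicClosure F, aeval z' P = 0 ∧ z * z' = ((p ^ a : ℕ) : AlgebraicClosure F) := by
  let K : Type := AlgebraicClosure F
  have hcharK : CharZero K := charZero_of_injective_algebraMap (algebraMap F K).injective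
  have h1 : (ρ.T φ).charpoly.map (algebraMap F K) = P.map (Int.castRingHom K) := by
    rw [hφ.charpoly, Polynomial.map_map]
    congr 1
  have h2 : ∀ y : K, (LinearMap.charpoly ((ρ.T φ).baseChange K :
      Module.End K (K ⊗[F] V))).IsRoot y ↔ aeval y P = 0 := by
    intro y
    rw [LinearMap.charpoly_baseChange, h1, IsRoot.def, eval_map, aeval_def]
    rfl
  have hq : algebraMap F K ((ρ.χ φ)⁻¹ : Fˣ).val = ((p ^ a : ℕ) : K) := by
    rw [hφ.cyclotomic, map_pow, map_natCast, Nat.cast_pow]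
  have hp0 : ((p ^ a : ℕ) : K) ≠ 0 := by
    rw [Nat.cast_ne_zero]
    exact pow_ne_zero _ hφ.prime.ne_zero
  have heq := equivariant_baseChange K ρ.form (ρ.T φ) _ (ρ.form_equivariant φ)
  rw [hq] at heq
  obtain ⟨y, hy1, hy2⟩ :=
    ((Module.End.hasEigenvalue_iff_isRoot_charpoly _ z).2 ((h2 z).mpr hz)).exists_hasEigenvector
  have hy : (ρ.T φ).baseChange K y = z • y := Module.End.mem_eigenspace_iff.mp hy1
  have hpair : ∀ w, z * ρ.form.baseChange K y ((ρ.T φ).baseChange K w) =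
      ((p ^ a : ℕ) : K) * ρ.form.baseChange K y w := by
    intro w
    have h3 := heq y w
    rw [hy, map_smul, LinearMap.smul_apply, smul_eq_mul] at h3
    exact h3
  have hz0 : z ≠ 0 := by
    rintro rfl
    apply hy2
    apply nondeg_baseChange K ρ.form ρ.form_alt ρ.form_nondeg
    intro w
    have h3 := hpair w
    rw [zero_mul] at h3
    exact (mul_eq_zero.mp h3.symm).resolve_left hp0
  refine ⟨((p ^ a : ℕ) : K) / z, ?_, mul_div_cancel₀ _ hz0⟩
  rw [← h2]
  by_contra hcon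
  have h3 : ¬ Module.End.HasEigenvalue ((ρ.T φ).baseChange K : Module.End K (K ⊗[F] V))
      (((p ^ a : ℕ) : K) / z) := fun h => hcon
        ((Module.End.hasEigenvalue_iff_isRoot_charpoly _ _).1 h)
  rw [Module.End.hasEigenvalue_iff, not_not, Module.End.eigenspace_def,
    LinearMap.ker_eq_bot, LinearMap.injective_iff_surjective] at h3
  apply hy2
  apply nondeg_baseChange K ρ.form ρ.form_alt ρ.form_nondeg
  intro w
  obtain ⟨w', rfl⟩ := h3 w
  rw [LinearMap.sub_apply, LinearMap.smul_apply, Module.End.one_apply, map_sub, map_smul,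
    smul_eq_mul]
  rw [div_mul_eq_mul_div, ← hpair w', mul_div_cancel_left₀ _ hz0, sub_self]

end transfer

variable {E : Type} [Field E] [NumberField E] [IsCMField E]

/-- The CM type `Φ` has no nontrivial relations between four embeddings: if every translate of `Φ`
contains exactly two of `ψ₁`, `ψ₂`, `ψ₃`, `ψ₄` (counted with multiplicity), then one of `ψ₂`, `ψ₃`,
`ψ₄` is the complex conjugate of `ψ₁`. -/
def FourFree (Φ : Set (Emb E)) : Prop :=
  ∀ ψ₁ ψ₂ ψ₃ ψ₄ : Emb E, (∀ τ : AbsGal, sgnZ Φ (galEmb τ ψ₁) + sgnZ Φ (galEmb τ ψ₂) +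
    sgnZ Φ (galEmb τ ψ₃) + sgnZ Φ (galEmb τ ψ₄) = 0) →
      ψ₂ = conjEmb ψ₁ ∨ ψ₃ = conjEmb ψ₁ ∨ ψ₄ = conjEmb ψ₁

/-- All eigenvalues of the Frobenius of an ordinary place of a type without relations between four
embeddings are isolated. -/
theorem goodElt_of_place {Φ : Set (Emb E)} (hfree : FourFree Φ)
    {Γ : Type} [Group Γ] [TopologicalSpace Γ] {F : Type} [Field F] [TopologicalSpace F] [CharZero F]
    {V : Type} [AddCommGroup V] [Module F V] [FiniteDimensional F V] (ρ : H1Rep Γ F V)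
    (φ : Γ) (p : ℕ) [Fact p.Prime] (hpl : OrdinaryPlace Φ ρ φ p) : GoodElt ρ φ := by
  classical
  obtain ⟨a, P, π, v, hφ, hP, hdeg, hv⟩ := hpl
  have hp : p.Prime := Fact.out
  have hcharK : CharZero (AlgebraicClosure F) :=
    charZero_of_injective_algebraMap (algebraMap F (AlgebraicClosure F)).injective
  have hmon : P.Monic := by
    apply Polynomial.monic_of_injective (RingHom.injective_int (Int.castRingHom F))
    rw [← hφ.charpoly]
    exact LinearMap.charpoly_monic _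
  -- roots and embeddings
  have hPQ : P.map (Int.castRingHom (AlgebraicClosure ℚ)) =
      (minpoly ℚ π).map (algebraMap ℚ (AlgebraicClosure ℚ)) := by
    rw [← hP, Polynomial.map_map]
    congr 1
  have hrootE : ∀ z : AlgebraicClosure ℚ, aeval z P = 0 → ∃ ψ : Emb E, ψ π = z := by
    intro z hz
    have h1 : aeval z (minpoly ℚ π) = 0 := by
      rw [aeval_def, ← eval_map, ← hPQ, eval_map]
      rw [aeval_def] at hz
      exact hz
    obtain ⟨f, hf⟩ := IntermediateField.exists_algHom_of_splits_of_aeval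
      (fun x : E => ⟨Algebra.IsIntegral.isIntegral x, IsAlgClosed.splits _⟩) h1
    exact ⟨(f : E →+* AlgebraicClosure ℚ), hf⟩
  have hEroot : ∀ ψ : Emb E, aeval (ψ π) P = 0 := by
    intro ψ
    have h1 : aeval (ψ π) (minpoly ℚ π) = 0 := by
      have h2 : (ψ.comp (algebraMap ℚ E)) = algebraMap ℚ (AlgebraicClosure ℚ) :=
        Subsingleton.elim _ _
      rw [aeval_def, ← h2, ← Polynomial.hom_eval₂, ← aeval_def, minpoly.aeval, map_zero]
    rw [aeval_def, ← eval_map, ← hPQ, eval_map] at h1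
    rw [aeval_def]
    exact h1
  -- the norms
  have hp1 : (1 : ℝ) < (p : ℝ) ^ a := one_lt_pow₀ (by exact_mod_cast hp.one_lt) hφ.pos.ne'
  set Q : ℝ := ((p : ℝ) ^ a)⁻¹ with hQ
  have hQ0 : 0 < Q := by positivity
  have hQ1 : Q < 1 := inv_lt_one_of_one_lt₀ hp1
  have hnq : ‖((p ^ a : ℕ) : PadicAlgCl p)‖ = Q := by
    have h6 := norm_q p a
    rw [Nat.cast_pow]
    exact h6
  -- each norm as a power
  have hnorm : ∀ (τ : AbsGal) (ψ : Emb E), ‖v (τ (ψ π))‖ =
      Q ^ (if galEmb τ ψ ∈ Φ then 1 else 0 : ℕ) := by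
    intro τ ψ
    have h1 : v (τ (ψ π)) = v (galEmb τ ψ π) := rfl
    rw [h1, hv]
    by_cases h2 : galEmb τ ψ ∈ Φ
    · rw [if_pos h2, if_pos h2, pow_one]
    · rw [if_neg h2, if_neg h2, pow_zero]
  have hsgn : ∀ (τ : AbsGal) (ψ : Emb E), sgnZ Φ (galEmb τ ψ) =
      2 * ((if galEmb τ ψ ∈ Φ then 1 else 0 : ℕ) : ℤ) - 1 := by
    intro τ ψ
    by_cases h2 : galEmb τ ψ ∈ Φ
    · simp only [sgnZ, h2, if_true]
      norm_num
    · simp only [sgnZ, h2, if_false]
      norm_num
  have hQpow : ∀ m k : ℕ, Q ^ m = Q ^ k → m = k := by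
    intro m k h
    exact pow_right_injective₀ hQ0 hQ1.ne h
  -- dual roots in the algebraic closure of the rationals
  have hdual : ∀ ψ : Emb E, ψ π * conjEmb ψ π = ((p ^ a : ℕ) : AlgebraicClosure ℚ) := by
    intro ψ
    obtain ⟨z', h1, h2⟩ := dual_transfer (K := AlgebraicClosure F) (L := AlgebraicClosure ℚ) P hmon
      (p ^ a) (fun z hz => dual_root ρ φ p a P hφ z hz) (ψ π) (hEroot ψ)
    obtain ⟨ψ', rfl⟩ := hrootE z' h1
    have h3 : ∀ τ : AbsGal, sgnZ Φ (galEmb τ ψ) + sgnZ Φ (galEmb τ ψ') = 0 := by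
      intro τ
      have h4 := congrArg (fun x => ‖v (τ x)‖) h2
      simp only [map_mul, norm_mul, map_natCast] at h4
      rw [hnorm, hnorm, hnq, ← pow_add] at h4
      have h5 := hQpow _ 1 (by rw [h4, pow_one])
      rw [hsgn, hsgn]
      have h6 : ((if galEmb τ ψ ∈ Φ then 1 else 0 : ℕ) : ℤ) +
          ((if galEmb τ ψ' ∈ Φ then 1 else 0 : ℕ) : ℤ) = 1 := by exact_mod_cast h5
      linarith
    rcases hfree ψ ψ' ψ ψ' (fun τ => by linarith [h3 τ]) with h | h | h
    · rw [← h, h2]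
    · exact absurd h.symm (conjEmb_ne ψ)
    · rw [← h, h2]
  intro z hz
  have h1 : (ρ.T φ).charpoly.map (algebraMap F (AlgebraicClosure F)) =
      P.map (Int.castRingHom (AlgebraicClosure F)) := by
    rw [hφ.charpoly, Polynomial.map_map]
    congr 1
  have hz' : aeval z P = 0 := by
    rw [aeval_def, ← eval_map, h1, eval_map] at hz
    rw [aeval_def]
    exact hz
  apply isoRoot_of_isoZ ρ φ p a P hφ z
  apply all_isoZ (K := AlgebraicClosure ℚ) P hmon (p ^ a) _ z hz'
  intro y hy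
  obtain ⟨ψ₁, rfl⟩ := hrootE y hy
  refine ⟨hy, ?_, ?_⟩
  · have h2 : ((minpoly ℚ π).map (algebraMap ℚ (AlgebraicClosure ℚ))).Separable :=
      (minpoly.irreducible (Algebra.IsIntegral.isIntegral π)).separable.map
    rw [hPQ]
    apply le_antisymm
    · exact rootMultiplicity_le_one_of_separable h2 _
    · rw [Nat.succ_le_iff, rootMultiplicity_pos h2.ne_zero, ← hPQ, IsRoot.def, eval_map]
      rw [aeval_def] at hy
      exact hy
  · intro z₂ z₃ z₄ h2 h3 h4 N hN hrel
    obtain ⟨ψ₂, rfl⟩ := hrootE z₂ h2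
    obtain ⟨ψ₃, rfl⟩ := hrootE z₃ h3
    obtain ⟨ψ₄, rfl⟩ := hrootE z₄ h4
    rcases hfree ψ₁ ψ₂ ψ₃ ψ₄ (fun τ => by
      have h5 := congrArg (fun x => ‖v (τ x)‖) hrel
      simp only [map_mul, map_pow, norm_mul, norm_pow, map_natCast] at h5
      rw [hnorm, hnorm, hnorm, hnorm, hnq, ← pow_add, ← pow_add, ← pow_add, ← pow_mul] at h5
      have h6 := hQpow _ _ h5
      have h7 := Nat.eq_of_mul_eq_mul_right hN h6
      rw [hsgn, hsgn, hsgn, hsgn]
      have h8 : ((if galEmb τ ψ₁ ∈ Φ then 1 else 0 : ℕ) : ℤ) +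
          ((if galEmb τ ψ₂ ∈ Φ then 1 else 0 : ℕ) : ℤ) +
          ((if galEmb τ ψ₃ ∈ Φ then 1 else 0 : ℕ) : ℤ) +
          ((if galEmb τ ψ₄ ∈ Φ then 1 else 0 : ℕ) : ℤ) = 2 := by exact_mod_cast h7
      linarith) with h | h | h
    · left; rw [h, hdual]
    · right; left; rw [h, hdual]
    · right; right; rw [h, hdual]

/-- The number of CM types with a nontrivial relation between four embeddings. -/
theorem count_not_fourFree (g : ℕ) (hg : finrank ℚ E = 2 * g) :
    ({Φ : Set (Emb E) | IsCMType Φ ∧ ¬ FourFree Φ}.ncard : ℝ)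
      ≤ 8 * g ^ 3 * (2 : ℝ) ^ (-(g : ℝ) / 4) * 2 ^ g := by
  classical
  have hG : MulAction.IsPretransitive (galGroup E) (Emb E) := isPretransitive_galGroup
  have hcomm : ∀ (γ : galGroup E) (ψ : Emb E), γ • conjEmb ψ = conjEmb (γ • ψ) := by
    intro γ ψ
    obtain ⟨τ, hτ⟩ := exists_of_galGroup γ
    rw [hτ, hτ, galEmb_conjEmb]
  have hcard : Fintype.card (Emb E) = 2 * g := by rw [card_emb, hg]
  have h1 := pCount (Emb E) (galGroup E) conjEmb conjEmb_conjEmb conjEmb_ne hcomm g hcard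
  refine le_trans ?_ h1
  rw [Nat.cast_le]
  have hfin : {e : Emb E → ℤ | (∀ v, e v = 1 ∨ e v = -1) ∧ (∀ v, e (conjEmb v) = - e v) ∧
      ∃ v₁ v₂ v₃ v₄ : Emb E, v₂ ≠ conjEmb v₁ ∧ v₃ ≠ conjEmb v₁ ∧ v₄ ≠ conjEmb v₁ ∧
        ∀ γ : galGroup E, e (γ • v₁) + e (γ • v₂) + e (γ • v₃) + e (γ • v₄) = 0}.Finite := by
    apply Set.Finite.subset (Set.finite_range
      (fun f : Emb E → Bool => fun φ => if f φ then (1 : ℤ) else -1))
    rintro e ⟨he, -⟩
    refine ⟨fun φ => decide (e φ = 1), ?_⟩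
    funext φ
    rcases he φ with h | h <;> simp [h]
  apply Set.ncard_le_ncard_of_injOn (fun Φ => fun φ => sgnZ Φ φ) (ht := hfin)
  · rintro Φ ⟨hΦ, hnot⟩
    unfold FourFree at hnot
    push Not at hnot
    obtain ⟨ψ₁, ψ₂, ψ₃, ψ₄, hrel, h2, h3, h4⟩ := hnot
    refine ⟨sgnZ_eq_one_or Φ, sgnZ_conj hΦ, ψ₁, ψ₂, ψ₃, ψ₄, h2, h3, h4, fun γ => ?_⟩
    obtain ⟨τ, hτ⟩ := exists_of_galGroup γ
    rw [hτ, hτ, hτ, hτ]
    exact hrel τ
  · intro Φ _ Ψ _ h
    ext φ
    have h1 := congrFun h φ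
    simp only [sgnZ] at h1
    by_cases h2 : φ ∈ Φ <;> by_cases h3 : φ ∈ Ψ <;> simp [h2, h3] at h1 ⊢

end Pool.Agent.Lib.MP_640417_ag.Four
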