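import Pool.Agent.Lib.MP_640417_ag.Glob.Main
import Pool.Agent.Lib.MP_640417_ag.Four.Place

/-!
# The local-global principle for exotic Tate classes
-/

namespace Pool.Agent.Lib.MP_640417_ag.Four

open Module Polynomial TensorProduct Pool.Agent.Lib.MP_640417_ag.Frob

/-- **The local-global principle.** -/
theorem local_global (ℓ : ℕ) [Fact ℓ.Prime] {Γ : Type} [Group Γ] [TopologicalSpace Γ]
    [IsTopologicalGroup Γ] [CompactSpace Γ] {V : Type} [AddCommGroup V] [Module ℚ_[ℓ] V]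
    [FiniteDimensional ℚ_[ℓ] V] (ρ : H1Rep Γ ℚ_[ℓ] V) (hss : Semisimple ρ)
    (hsym : SymmetricCommutant ρ) :
    List.TFAE [NoExotic ρ, NoExoticFour ρ,
      ∃ φ, Module.End.IsSemisimple (ρ.T φ) ∧ Detects ρ φ,
      ∃ φ, GoodElt ρ φ,
      ∀ D : Set Γ, Dense D → ∃ φ ∈ D, GoodElt ρ φ] := by
  tfae_have 1 → 2 := fun h x => h 4 2 x
  tfae_have 2 → 5 := fun h D hD => Glob.good_dense ℓ ρ hss hsym h D hD
  tfae_have 5 → 4 := fun h => by
    obtain ⟨φ, -, hφ⟩ := h Set.univ dense_univ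
    exact ⟨φ, hφ⟩
  tfae_have 4 → 3 := fun ⟨φ, hφ⟩ => ⟨φ, hφ.isSemisimple ρ φ, hφ.detects ρ φ⟩
  tfae_have 3 → 1 := fun ⟨φ, h1, h2⟩ => noExotic_of_detects ρ hss hsym φ h1 h2
  tfae_finish

section transfer

variable {Γ : Type} [Group Γ] [TopologicalSpace Γ] {F : Type} [Field F] [TopologicalSpace F]
  {V : Type} [AddCommGroup V] [Module F V] [FiniteDimensional F V]

lemma aeval_charpoly_iff [CharZero F] (ρ : H1Rep Γ F V) (φ : Γ) (p a : ℕ) (P : ℤ[X])
    (hφ : IsFrobenius ρ φ p a P) (z : AlgebraicClosure F) :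
    aeval z (ρ.T φ).charpoly = 0 ↔ aeval z P = 0 := by
  have h1 : (ρ.T φ).charpoly.map (algebraMap F (AlgebraicClosure F)) =
      P.map (Int.castRingHom (AlgebraicClosure F)) := by
    rw [hφ.charpoly, Polynomial.map_map]
    congr 1
  rw [aeval_def, ← eval_map, h1, eval_map, aeval_def]
  rfl

/-- Goodness of a Frobenius element in terms of its characteristic polynomial. -/
lemma goodElt_iff [CharZero F] (ρ : H1Rep Γ F V) (φ : Γ) (p a : ℕ) (P : ℤ[X])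
    (hφ : IsFrobenius ρ φ p a P) :
    GoodElt ρ φ ↔ ∀ z : AlgebraicClosure F, aeval z P = 0 →
      IsoZ P (((p ^ a : ℕ) : AlgebraicClosure F)) z := by
  have h1 : (ρ.T φ).charpoly.map (algebraMap F (AlgebraicClosure F)) =
      P.map (Int.castRingHom (AlgebraicClosure F)) := by
    rw [hφ.charpoly, Polynomial.map_map]
    congr 1
  have h3 : algebraMap F (AlgebraicClosure F) ((ρ.χ φ)⁻¹ : Fˣ).val =
      ((p ^ a : ℕ) : AlgebraicClosure F) := by
    rw [hφ.cyclotomic, map_pow, map_natCast, Nat.cast_pow]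
  constructor
  · intro h z hz
    have h4 := h z ((aeval_charpoly_iff ρ φ p a P hφ z).mpr hz)
    refine ⟨hz, by rw [← h1]; exact h4.1, ?_⟩
    intro z₂ z₃ z₄ h5 h6 h7 N hN hrel
    have h8 := h4.2 z₂ z₃ z₄ ((aeval_charpoly_iff ρ φ p a P hφ _).mpr h5)
      ((aeval_charpoly_iff ρ φ p a P hφ _).mpr h6) ((aeval_charpoly_iff ρ φ p a P hφ _).mpr h7)
      N hN (by rw [h3]; exact hrel)
    rw [h3] at h8
    exact h8
  · intro h z hz
    exact isoRoot_of_isoZ ρ φ p a P hφ z (h z ((aeval_charpoly_iff ρ φ p a P hφ z).mp hz))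

end transfer

/-- **Independence of `ℓ`.** -/
theorem l_independence (ℓ ℓ' : ℕ) [Fact ℓ.Prime] [Fact ℓ'.Prime] {Γ : Type} [Group Γ]
    [TopologicalSpace Γ] [IsTopologicalGroup Γ] [CompactSpace Γ]
    {V : Type} [AddCommGroup V] [Module ℚ_[ℓ] V] [FiniteDimensional ℚ_[ℓ] V]
    {V' : Type} [AddCommGroup V'] [Module ℚ_[ℓ'] V'] [FiniteDimensional ℚ_[ℓ'] V']
    (ρ : H1Rep Γ ℚ_[ℓ] V) (hss : Semisimple ρ) (hsym : SymmetricCommutant ρ)
    (ρ' : H1Rep Γ ℚ_[ℓ'] V') (hss' : Semisimple ρ') (hsym' : SymmetricCommutant ρ')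
    (D : Set Γ) (hD : Dense D)
    (hcomp : ∀ φ ∈ D, ∃ (p a : ℕ) (P : ℤ[X]), IsFrobenius ρ φ p a P ∧ IsFrobenius ρ' φ p a P)
    (h : NoExoticFour ρ) : NoExotic ρ' := by
  obtain ⟨φ, hφD, hφ⟩ := Glob.good_dense ℓ ρ hss hsym h D hD
  obtain ⟨p, a, P, h1, h2⟩ := hcomp φ hφD
  have hmon : P.Monic := by
    apply Polynomial.monic_of_injective (RingHom.injective_int (Int.castRingHom ℚ_[ℓ]))
    rw [← h1.charpoly]
    exact LinearMap.charpoly_monic _
  have hcharK : CharZero (AlgebraicClosure ℚ_[ℓ]) :=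
    charZero_of_injective_algebraMap (algebraMap ℚ_[ℓ] (AlgebraicClosure ℚ_[ℓ])).injective
  have hcharK' : CharZero (AlgebraicClosure ℚ_[ℓ']) :=
    charZero_of_injective_algebraMap (algebraMap ℚ_[ℓ'] (AlgebraicClosure ℚ_[ℓ'])).injective
  have h3 : GoodElt ρ' φ := by
    rw [goodElt_iff ρ' φ p a P h2]
    intro z hz
    exact all_isoZ P hmon (p ^ a) ((goodElt_iff ρ φ p a P h1).mp hφ) z hz
  exact noExotic_of_detects ρ' hss' hsym' φ (h3.isSemisimple ρ' φ) (h3.detects ρ' φ)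

end Pool.Agent.Lib.MP_640417_ag.Four
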