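import Pool.Agent.Lib.MP_640417_ag.Four.Strong
import Pool.Agent.Lib.MP_640417_ag.Four.Joint
import Pool.Agent.Lib.MP_640417_ag.Four.Decomp

/-!
# The general criterion over an algebraically closed field
-/

namespace Pool.Agent.Lib.MP_640417_ag.Four

open Module Polynomial Pool.Agent.Lib.MP_640417_ag.Frob

variable {K V : Type} [Field K] [CharZero K] [AddCommGroup V] [Module K V] [FiniteDimensional K V]
  {form : LinearMap.BilinForm K V} {Γ : Type} [Group Γ] [TopologicalSpace Γ]

/-- The determinants of `T φ` on the blocks of the commutant satisfy no relations: if the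
endomorphism `∑ sⱼ pⱼ`, with integers `sⱼ` and orthogonal idempotents `pⱼ` which commute with `T φ`
and with an open subgroup, is skew, and `∏ⱼ det (T φ | pⱼ V) ^ sⱼ` is a root of unity, then
`∑ sⱼ pⱼ = 0`. -/
def DetFreeK (form : LinearMap.BilinForm K V) (T : Γ →* Module.End K V) (φ : Γ) : Prop :=
  ∀ (r : ℕ) (p : Fin r → Module.End K V) (s : Fin r → ℤ), (∀ j, p j * p j = p j) →
    (∀ j k, j ≠ k → p j * p k = 0) → (∀ j, p j * T φ = T φ * p j) →
    (∃ U : OpenSubgroup Γ, ∀ γ ∈ U, ∀ j, p j * T γ = T γ * p j) →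
    Skew form (∑ j, (s j : K) • p j) → ∀ N : ℕ, 0 < N →
    (∏ j, (LinearMap.det (p j * T φ + (1 - p j))) ^ s j) ^ N = 1 → ∑ j, (s j : K) • p j = 0

omit [CharZero K] [FiniteDimensional K V] in
/-- The same with an arbitrary finite index set. -/
lemma DetFreeK.apply {T : Γ →* Module.End K V} {φ : Γ} (h : DetFreeK form T φ) {B : Type}
    [Fintype B] (p : B → Module.End K V) (s : B → ℤ) (h1 : ∀ j, p j * p j = p j)
    (h2 : ∀ j k, j ≠ k → p j * p k = 0) (h3 : ∀ j, p j * T φ = T φ * p j)
    (h4 : ∃ U : OpenSubgroup Γ, ∀ γ ∈ U, ∀ j, p j * T γ = T γ * p j)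
    (h5 : Skew form (∑ j, (s j : K) • p j)) (N : ℕ) (hN : 0 < N)
    (h6 : (∏ j, (LinearMap.det (p j * T φ + (1 - p j))) ^ s j) ^ N = 1) :
    ∑ j, (s j : K) • p j = 0 := by
  classical
  let σ := (Fintype.equivFin B).symm
  have hs : ∑ j, (s (σ j) : K) • p (σ j) = ∑ j, (s j : K) • p j :=
    Equiv.sum_comp σ (fun j => (s j : K) • p j)
  have hp : ∏ j, (LinearMap.det (p (σ j) * T φ + (1 - p (σ j)))) ^ s (σ j) =
      ∏ j, (LinearMap.det (p j * T φ + (1 - p j))) ^ s j :=
    Equiv.prod_comp σ (fun j => (LinearMap.det (p j * T φ + (1 - p j))) ^ s j)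
  rw [← hs]
  apply h _ (fun j => p (σ j)) (fun j => s (σ j)) (fun j => h1 _)
    (fun j k hjk => h2 _ _ fun hh => hjk (σ.injective hh)) (fun j => h3 _)
    (by obtain ⟨U, hU⟩ := h4; exact ⟨U, fun γ hγ j => hU γ hγ _⟩) (by rw [hs]; exact h5) N hN
  rw [hp]
  exact h6

/-- **The general criterion over an algebraically closed field.** -/
theorem mainG [IsAlgClosed K] [IsTopologicalGroup Γ] [CompactSpace Γ] (pRankTwo : SRankTwo)
    (pSemi : SSemi) (pOpen : SOpen) (pDarboux : SDarboux)
    (T : Γ →* Module.End K V) (χ : Γ →* Kˣ)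
    (hclosed : ∀ (f : Module.Dual K V) (x : V), IsClosed {γ : Γ | f (T γ x) = 0})
    (halt : ∀ x, form x x = 0) (hnd : ∀ x, (∀ y, form x y = 0) → x = 0)
    (heq : ∀ γ x y, form (T γ x) (T γ y) = ((χ γ)⁻¹ : Kˣ).val * form x y)
    (htr : ∀ S ∈ Submodule.span K (Set.range T), (∀ γ, LinearMap.trace K V (S * T γ) = 0) → S = 0)
    (φ : Γ) (hsemi : Module.End.IsSemisimple (T φ))
    {I : Type} [Fintype I] [DecidableEq I] (e : Basis I K V) (lam : I → K)
    (hφ : ∀ v, T φ (e v) = lam v • e v) (Z : Finset I)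
    (hsimple : ∀ u ∈ Z, ∀ v, lam v = lam u → v = u)
    (hiso : ∀ u ∈ Z, ∀ a b c, ∀ N : ℕ, 0 < N →
      (lam u * lam a * lam b * lam c) ^ N = ((((χ φ)⁻¹ : Kˣ).val) ^ 2) ^ N →
      lam u * lam a = ((χ φ)⁻¹ : Kˣ).val ∨ lam u * lam b = ((χ φ)⁻¹ : Kˣ).val ∨
        lam u * lam c = ((χ φ)⁻¹ : Kˣ).val)
    (hCen : ∀ (U : OpenSubgroup Γ) (c : Module.End K V), (∀ γ ∈ U, c * T γ = T γ * c) →
      (∀ u ∈ Z, c (e u) = 0) → c = 0)
    (hdet : DetFreeK form T φ)
    (n i : ℕ) (x : ExteriorAlgebra K (Fin n → V))
    (hx : TateClass (fun γ => (T γ).compLeft (Fin n)) χ i x) :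
    x ∈ divisorAlg (fun γ => (T γ).compLeft (Fin n)) χ := by
  classical
  have hTT' : ∀ γ, T γ⁻¹ * T γ = 1 := fun γ => by rw [← map_mul, inv_mul_cancel, map_one]
  have hq0 : ((χ φ)⁻¹ : Kˣ).val ≠ 0 := Units.ne_zero _
  set q : K := ((χ φ)⁻¹ : Kˣ).val with hq
  have hlam0 : ∀ v, lam v ≠ 0 := by
    intro v hv
    have h1 := hφ v
    rw [hv, zero_smul] at h1
    have h2 := LinearMap.congr_fun (hTT' φ) (e v)
    rw [Module.End.mul_apply, h1, map_zero, Module.End.one_apply] at h2
    exact e.ne_zero v h2.symm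
  -- the strongly generic cocharacter
  have hS : ∀ z ∈ Finset.univ.image lam, z ≠ 0 := by
    intro z hz
    obtain ⟨v, -, rfl⟩ := Finset.mem_image.mp hz
    exact hlam0 v
  have hmemS : ∀ v, lam v ∈ Finset.univ.image lam := fun v =>
    Finset.mem_image_of_mem lam (Finset.mem_univ v)
  obtain ⟨τ, hτ⟩ := exists_strong K (Finset.univ.image lam) hS q hq0
  let t : I → K := fun v => τ (lam v)
  let tt : Module.End K V := e.constr K (fun v => t v • e v)
  have htt : ∀ v, tt (e v) = t v • e v := fun v => e.constr_basis K _ v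
  have ht1 : ∀ u v, lam u = lam v → t u = t v := fun u v h => by simp only [t, h]
  have ht2 : ∀ u v, lam u * lam v = q → t u + t v = 0 := by
    intro u v huv
    have h1 := (hτ (Fin 2) ![lam u, lam v] (by
      intro j
      fin_cases j
      · exact hmemS u
      · exact hmemS v) (fun _ => 1)).mpr ⟨1, one_pos, by
        simp only [Fin.prod_univ_two, Fin.sum_univ_two, zpow_one, pow_one, Matrix.cons_val_zero,
          Matrix.cons_val_one]
        have h2 : (1 + 1 : ℤ) = ((2 : ℕ) : ℤ) := rfl
        rw [huv, h2, zpow_natCast]⟩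
    simpa [Fin.sum_univ_two] using h1
  have htbal : ∀ (m : I → ℕ) (i N : ℕ), 0 < N → ∑ v, m v = 2 * i →
      (∏ v, lam v ^ m v) ^ N = (q ^ i) ^ N → ∑ v, (m v : K) * t v = 0 := by
    intro m i N hN hm hrel
    have h1 := (hτ I lam hmemS (fun v => (m v : ℤ))).mpr ⟨N, hN, by
      simp only [zpow_natCast]
      have h2 : ∑ j, (m j : ℤ) = ((2 * i : ℕ) : ℤ) := by rw [← hm]; push_cast; rfl
      rw [h2, zpow_natCast, ← pow_mul, mul_comm 2 N, pow_mul, hrel, ← pow_mul, ← pow_mul,
        ← pow_mul]
      congr 1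
      ring⟩
    simpa using h1
  have ht4 : ∀ a b u v, t a + t b + t u + t v = 0 →
      ∃ N : ℕ, 0 < N ∧ (lam a * lam b * lam u * lam v) ^ N = (q ^ 2) ^ N := by
    intro a b u v h
    obtain ⟨N, hN, h1⟩ := (hτ (Fin 4) ![lam a, lam b, lam u, lam v] (by
      intro j
      fin_cases j
      · exact hmemS a
      · exact hmemS b
      · exact hmemS u
      · exact hmemS v) (fun _ => 1)).mp (by
        simp only [Fin.sum_univ_four, Int.cast_one, one_mul, Matrix.cons_val]
        exact h)
    refine ⟨2 * N, by omega, ?_⟩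
    simp only [Fin.prod_univ_four, Fin.sum_univ_four, zpow_one, Matrix.cons_val] at h1
    have h2 : (1 + 1 + 1 + 1 : ℤ) = ((4 : ℕ) : ℤ) := rfl
    rw [h2, zpow_natCast] at h1
    rw [pow_mul, h1, ← pow_mul, ← pow_mul]
    congr 1
    ring
  -- the decomposition
  obtain ⟨B, hB1, hB2, sb, p, U, E, E', D⟩ := exists_decomp pRankTwo pSemi pOpen T χ hclosed halt
    hnd heq htr φ e lam t hφ ht1 ht2 htbal ht4 tt htt Z hsimple hiso hCen n
  obtain ⟨m, ε, w, blk, hbas⟩ := exists_symBasis pDarboux halt hnd sb p D.sbsb D.sum D.id D.orth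
    D.adj
  obtain ⟨J, hJ1, hJ2, e', lam', blk', he', hpe'⟩ := exists_joint_basis (T φ) hsemi p D.sum D.id
    D.orth D.commφ
  -- the cocharacter in the adapted eigenbasis
  obtain ⟨P, hP⟩ := exists_poly lam t ht1
  have httP : tt = aeval (T φ) P := by
    apply e.ext
    intro v
    rw [htt, Module.End.aeval_apply_of_hasEigenvector (μ := lam v)
      ⟨by rw [Module.End.mem_eigenspace_iff]; exact hφ v, e.ne_zero v⟩, hP]
  have hlam' : ∀ v, ∃ u, lam u = lam' v := fun v =>
    exists_of_hasEigenvalue e lam (T φ) hφ (lam' v)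
      (Module.End.hasEigenvalue_of_hasEigenvector (x := e' v)
        ⟨by rw [Module.End.mem_eigenspace_iff]; exact he' v, e'.ne_zero v⟩)
  have htt' : ∀ v, tt (e' v) = τ (lam' v) • e' v := by
    intro v
    obtain ⟨u, hu⟩ := hlam' v
    rw [httP, Module.End.aeval_apply_of_hasEigenvector (μ := lam' v)
      ⟨by rw [Module.End.mem_eigenspace_iff]; exact he' v, e'.ne_zero v⟩, ← hu, hP]
  -- dimensions
  let μ : B → ℕ := fun b => (Finset.univ.filter fun v => blk v = b).card
  have hp : ∀ b s, p b (ε s) = if blk s = b then ε s else 0 :=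
    proj_apply_basis ε blk p D.orth hbas.pe
  have htrp : ∀ b, LinearMap.trace K V (p b) = (μ b : K) := by
    intro b
    have h1 := trace_block ε blk p D.orth hbas.pe 1 (fun _ => 1)
      (fun v => by rw [Module.End.one_apply, one_smul]) b
    rw [mul_one] at h1
    rw [h1, Finset.sum_const, nsmul_eq_mul, mul_one]
  have hμ' : ∀ b, (Finset.univ.filter fun v => blk' v = b).card = μ b := by
    intro b
    have h1 := trace_block e' blk' p D.orth hpe' 1 (fun _ => 1)
      (fun v => by rw [Module.End.one_apply, one_smul]) b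
    rw [mul_one, htrp, Finset.sum_const, nsmul_eq_mul, mul_one] at h1
    exact_mod_cast h1.symm
  have hμ0 : ∀ b, μ b ≠ 0 := by
    intro b h0
    apply D.ne b
    apply ε.ext
    intro s
    rw [hp, LinearMap.zero_apply, if_neg]
    intro h1
    have h2 : s ∈ Finset.univ.filter fun v => blk v = b :=
      Finset.mem_filter.mpr ⟨Finset.mem_univ _, h1⟩
    rw [Finset.card_eq_zero.mp h0] at h2
    exact absurd h2 (Finset.notMem_empty s)
  have hμs : ∀ b, μ (sb b) = μ b := by
    intro b
    apply Finset.card_bij (fun v _ => Sum.swap v)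
    · intro v hv
      rw [Finset.mem_filter] at hv ⊢
      refine ⟨Finset.mem_univ _, ?_⟩
      rw [hbas.blkc, hv.2, D.sbsb]
    · intro v _ v' _ h
      rw [← Sum.swap_swap v, h, Sum.swap_swap]
    · intro v hv
      rw [Finset.mem_filter] at hv
      refine ⟨Sum.swap v, ?_, Sum.swap_swap v⟩
      rw [Finset.mem_filter]
      exact ⟨Finset.mem_univ _, by rw [hbas.blkc, hv.2]⟩
  -- the traces of the cocharacter
  let c : B → K := fun b => LinearMap.trace K V (p b * tt)
  have hc1 : ∀ b, c b = ∑ v ∈ Finset.univ.filter (fun v => blk' v = b), τ (lam' v) := fun b =>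
    trace_block e' blk' p D.orth hpe' tt _ htt' b
  have hc2 : ∀ b, c b = ∑ u ∈ Finset.univ.filter (fun u => blk u = b), ε.repr (tt (ε u)) u := by
    intro b
    simp only [c]
    rw [LinearMap.trace_eq_matrix_trace K ε, Matrix.trace, Finset.sum_filter]
    refine Finset.sum_congr rfl fun u _ => ?_
    rw [Matrix.diag_apply, LinearMap.toMatrix_apply, D.commt b, Module.End.mul_apply, hp]
    by_cases h1 : blk u = b
    · rw [if_pos h1, if_pos h1]
    · rw [if_neg h1, if_neg h1, map_zero, map_zero, Finsupp.zero_apply]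
  -- the action on `x`
  let Q : B → ExteriorAlgebra K (Fin n → V) := fun b =>
    if sb b = b then 0 else Dv n (ss form (E b) (E' b)) x
  have hQ : ∀ b y y', p b y = y → p (sb b) y' = y' →
      Dv n (ss form y y') x = form y y' • Q b := by
    intro b y y' hy hy'
    rcases D.main b with ⟨h1, h2⟩ | ⟨h1, h2⟩
    · simp only [Q, if_pos h1, smul_zero]
      rw [h1] at hy'
      exact h2 y y' hy hy' i x hx
    · simp only [Q, if_neg h1]
      have h3 := h2 y y' hy hy' i x hx
      rw [sub_eq_add_neg, ← neg_smul, Dv_add, Dv_smul, LinearMap.add_apply,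
        LinearMap.smul_apply, neg_smul, ← sub_eq_add_neg, sub_eq_zero] at h3
      exact h3
  have hpcu : ∀ u, p (sb (blk u)) (ε (Sum.swap u)) = ε (Sum.swap u) := by
    intro u
    have h1 := hbas.pe (Sum.swap u)
    rwa [hbas.blkc] at h1
  -- the first relation: the cocharacter kills `x`
  have hrel1 : ∑ b, c b • Q b = 0 := by
    have h1 : Dv n ((2 : K) • tt) x = 0 := by
      rw [Dv_smul, LinearMap.smul_apply, D.killst i x hx, smul_zero]
    rw [hbas.skew_sum tt D.skewt, Dv_sum, LinearMap.sum_apply] at h1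
    have h2 : ∀ u, Dv n ((w u)⁻¹ • ss form (tt (ε u)) (ε (Sum.swap u))) x =
        ε.repr (tt (ε u)) u • Q (blk u) := by
      intro u
      have h3 : p (blk u) (tt (ε u)) = tt (ε u) := by
        rw [← Module.End.mul_apply, D.commt, Module.End.mul_apply, hbas.pe]
      rw [Dv_smul, LinearMap.smul_apply, hQ (blk u) _ _ h3 (hpcu u), hbas.form_right, smul_smul,
        mul_comm, mul_assoc, mul_inv_cancel₀ (hbas.wne u), mul_one]
    rw [Finset.sum_congr rfl fun u _ => h2 u] at h1
    rw [← h1, ← Finset.sum_fiberwise_of_maps_to (s := Finset.univ) (t := (Finset.univ : Finset B))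
      (g := blk) (fun _ _ => Finset.mem_univ _)]
    refine Finset.sum_congr rfl fun b _ => ?_
    rw [hc2, Finset.sum_smul]
    refine Finset.sum_congr rfl fun u hu => ?_
    rw [(Finset.mem_filter.mp hu).2]
  -- the differences of projectors
  have hrel2 : ∀ b, Dv n (p b - p (sb b)) x = (μ b : K) • Q b := by
    intro b
    by_cases h1 : sb b = b
    · rw [h1, sub_self, Dv_zero, LinearMap.zero_apply]
      simp only [Q, if_pos h1, smul_zero]
    · rw [hbas.sum_ss D.orth D.sbsb b, Dv_sum, LinearMap.sum_apply]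
      have h2 : ∀ u ∈ Finset.univ.filter (fun u => blk u = b),
          Dv n ((w u)⁻¹ • ss form (ε u) (ε (Sum.swap u))) x = Q b := by
        intro u hu
        have hub : blk u = b := (Finset.mem_filter.mp hu).2
        have h3 := hQ (blk u) (ε u) (ε (Sum.swap u)) (hbas.pe u) (hpcu u)
        rw [Dv_smul, LinearMap.smul_apply, h3, hbas.form_pair, smul_smul,
          inv_mul_cancel₀ (hbas.wne u), one_smul, hub]
      rw [Finset.sum_congr rfl h2, Finset.sum_const, ← Nat.cast_smul_eq_nsmul K]
  have hμK : ∀ b, (μ b : K) ≠ 0 := fun b => Nat.cast_ne_zero.mpr (hμ0 b)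
  -- the combination of the central elements
  let a : B → K := fun b => c b / (μ b : K)
  have hrel3 : Dv n (∑ b, a b • (p b - p (sb b))) x = 0 := by
    rw [Dv_sum, LinearMap.sum_apply, ← hrel1]
    refine Finset.sum_congr rfl fun b _ => ?_
    rw [Dv_smul, LinearMap.smul_apply, hrel2, smul_smul]
    simp only [a]
    rw [div_mul_cancel₀ _ (hμK b)]
  have hsbinj : ∀ b b', sb b = sb b' → b = b' := fun b b' h => by rw [← D.sbsb b, h, D.sbsb]
  have hsbiff : ∀ b b', b = sb b' ↔ sb b = b' := fun b b' =>
    ⟨fun h => by rw [h, D.sbsb], fun h => by rw [← h, D.sbsb]⟩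
  have hdiagf : ∀ v, (∑ b, a b • (p b - p (sb b))) (ε v) =
      (a (blk v) - a (sb (blk v))) • ε v := by
    intro v
    rw [LinearMap.sum_apply]
    have h1 : ∀ b, (a b • (p b - p (sb b))) (ε v) =
        (if blk v = b then a b • ε v else 0) - (if sb (blk v) = b then a b • ε v else 0) := by
      intro b
      rw [LinearMap.smul_apply, LinearMap.sub_apply, hp, hp, smul_sub]
      congr 1
      · split_ifs <;> simp
      · have h2 : (blk v = sb b) ↔ (sb (blk v) = b) := hsbiff _ _
        by_cases h3 : blk v = sb b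
        · rw [if_pos h3, if_pos (h2.mp h3)]
        · rw [if_neg h3, if_neg (fun h4 => h3 (h2.mpr h4)), smul_zero]
    rw [Finset.sum_congr rfl fun b _ => h1 b, Finset.sum_sub_distrib, Finset.sum_ite_eq,
      Finset.sum_ite_eq, if_pos (Finset.mem_univ _), if_pos (Finset.mem_univ _), sub_smul]
  have hdiagg : ∀ b v, (p b - p (sb b)) (ε v) =
      ((if blk v = b then 1 else 0) - (if blk v = sb b then 1 else 0) : K) • ε v := by
    intro b v
    rw [LinearMap.sub_apply, hp, hp, sub_smul]
    congr 1 <;> split_ifs <;> simp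
  -- the weights
  have hcentral : ∀ b, Dv n (p b - p (sb b)) x = 0 := by
    intro b₀
    rw [Dv_eq_zero_iff ε, toMatrix_diag ε _ _ hdiagf] at hrel3
    rw [Dv_eq_zero_iff ε, toMatrix_diag ε _ _ (hdiagg b₀)]
    refine diag_kill _ _ ?_ (2 * i) _ ?_ hrel3
    · intro k hk
      let kk : B → ℤ := fun b => ∑ v ∈ Finset.univ.filter (fun v => blk v = b), (k v : ℤ)
      have hsumk : ∀ h : B → K, ∑ v, (k v : K) * h (blk v) = ∑ b, (kk b : K) * h b := by
        intro h
        rw [← Finset.sum_fiberwise_of_maps_to (s := Finset.univ) (t := (Finset.univ : Finset B))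
          (g := blk) (fun _ _ => Finset.mem_univ _)]
        refine Finset.sum_congr rfl fun b _ => ?_
        simp only [kk]
        push_cast
        rw [Finset.sum_mul]
        refine Finset.sum_congr rfl fun v hv => ?_
        rw [(Finset.mem_filter.mp hv).2]
      let d : B → ℤ := fun b => kk b - kk (sb b)
      have hsb_sum : ∀ h : B → K, ∑ b, h (sb b) = ∑ b, h b := fun h =>
        Fintype.sum_bijective sb (Function.Involutive.bijective D.sbsb) _ _ fun b => rfl
      have hd1 : ∑ b, (d b : K) * a b = 0 := by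
        have h1 : ∑ v, (k v : K) * (a (blk v) - a (sb (blk v))) = 0 := hk
        rw [hsumk (fun b => a b - a (sb b))] at h1
        rw [← h1]
        have h2 := hsb_sum (fun b => (kk (sb b) : K) * a b)
        simp only [D.sbsb] at h2
        simp only [d, Int.cast_sub, sub_mul, mul_sub, Finset.sum_sub_distrib]
        rw [← h2]
      -- the integral weights
      let M : B → ℤ := fun b => ∏ b' ∈ Finset.univ.erase b, (μ b' : ℤ)
      let Mt : ℤ := ∏ b', (μ b' : ℤ)
      have hM : ∀ b, (μ b : ℤ) * M b = Mt := fun b =>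
        Finset.mul_prod_erase Finset.univ (fun b' => (μ b' : ℤ)) (Finset.mem_univ b)
      have hM0 : ∀ b, M b ≠ 0 := by
        intro b
        rw [Finset.prod_ne_zero_iff]
        intro b' _
        exact_mod_cast hμ0 b'
      have hMs : ∀ b, M (sb b) = M b := by
        intro b
        have h1 := hM (sb b)
        rw [hμs, ← hM b] at h1
        exact mul_left_cancel₀ (by exact_mod_cast hμ0 b) h1
      let s : B → ℤ := fun b => d b * M b
      have hsodd : ∀ b, s (sb b) = - s b := by
        intro b
        simp only [s, d, D.sbsb, hMs]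
        ring
      have hs1 : ∑ b, (s b : K) * c b = 0 := by
        have h1 : ∀ b, (s b : K) * c b = (Mt : K) * ((d b : K) * a b) := by
          intro b
          have h2 : (Mt : K) = (μ b : K) * (M b : K) := by rw [← hM b]; push_cast; rfl
          simp only [s, a]
          rw [h2]
          push_cast
          field_simp [hμK b]
        rw [Finset.sum_congr rfl fun b _ => h1 b, ← Finset.mul_sum, hd1, mul_zero]
      have hs2 : ∑ v, (s (blk' v) : K) * τ (lam' v) = 0 := by
        rw [← hs1, ← Finset.sum_fiberwise_of_maps_to (s := Finset.univ)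
          (t := (Finset.univ : Finset B)) (g := blk') (fun _ _ => Finset.mem_univ _)]
        refine Finset.sum_congr rfl fun b _ => ?_
        rw [hc1, Finset.mul_sum]
        refine Finset.sum_congr rfl fun v hv => ?_
        rw [(Finset.mem_filter.mp hv).2]
      have hs3 : ∑ v, s (blk' v) = 0 := by
        have h1 : ∑ v, s (blk' v) = ∑ b, (μ b : ℤ) * s b := by
          rw [← Finset.sum_fiberwise_of_maps_to (s := Finset.univ)
            (t := (Finset.univ : Finset B)) (g := blk') (fun _ _ => Finset.mem_univ _)]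
          refine Finset.sum_congr rfl fun b _ => ?_
          rw [← hμ' b, ← nsmul_eq_mul, ← Finset.sum_const]
          refine Finset.sum_congr rfl fun v hv => ?_
          rw [(Finset.mem_filter.mp hv).2]
        have h2 : ∑ b, (μ b : ℤ) * s b = ∑ b, (μ (sb b) : ℤ) * s (sb b) :=
          (Fintype.sum_bijective sb (Function.Involutive.bijective D.sbsb)
            (fun b => (μ (sb b) : ℤ) * s (sb b)) (fun b => (μ b : ℤ) * s b) fun b => rfl).symm
        have h3 : ∑ b, (μ (sb b) : ℤ) * s (sb b) = - ∑ b, (μ b : ℤ) * s b := by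
          rw [← Finset.sum_neg_distrib]
          refine Finset.sum_congr rfl fun b _ => ?_
          rw [hμs, hsodd]
          ring
        rw [h1]
        linarith
      obtain ⟨N, hN, hrelN⟩ := (hτ J lam' (fun v => by
        obtain ⟨u, hu⟩ := hlam' v
        rw [← hu]
        exact hmemS u) (fun v => s (blk' v))).mp hs2
      rw [hs3, zpow_zero, one_pow, ← pow_mul] at hrelN
      have hprod : ∏ v, lam' v ^ s (blk' v) =
          ∏ b, (LinearMap.det (p b * T φ + (1 - p b))) ^ s b := by
        rw [← Finset.prod_fiberwise_of_maps_to (s := Finset.univ)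
          (t := (Finset.univ : Finset B)) (g := blk') (fun _ _ => Finset.mem_univ _)]
        refine Finset.prod_congr rfl fun b _ => ?_
        rw [det_block e' blk' p D.orth hpe' (T φ) lam' he' b, ← Finset.prod_zpow]
        refine Finset.prod_congr rfl fun v hv => ?_
        rw [(Finset.mem_filter.mp hv).2]
      rw [hprod] at hrelN
      have hskewS : Skew form (∑ b, (s b : K) • p b) := by
        intro y z
        rw [LinearMap.sum_apply, LinearMap.sum_apply, map_sum, map_sum, LinearMap.sum_apply]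
        have h1 : ∑ b, form (((s b : K) • p b) y) z = ∑ b, (s b : K) * form y (p (sb b) z) := by
          refine Finset.sum_congr rfl fun b _ => ?_
          rw [LinearMap.smul_apply, map_smul, LinearMap.smul_apply, smul_eq_mul, D.adj]
        have h2 : ∑ b, form y (((s b : K) • p b) z) = ∑ b, (s (sb b) : K) * form y (p (sb b) z) := by
          rw [hsb_sum (fun b => (s b : K) * form y (p b z))]
          refine Finset.sum_congr rfl fun b _ => ?_
          rw [LinearMap.smul_apply, map_smul, smul_eq_mul]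
        rw [h1, h2, ← Finset.sum_add_distrib]
        refine Finset.sum_eq_zero fun b _ => ?_
        rw [hsodd]
        push_cast
        ring
      have hzero := hdet.apply p s D.id D.orth D.commφ ⟨U, fun γ hγ b => D.comm b γ hγ⟩ hskewS
        (2 * N) (by omega) hrelN
      have hs0 : ∀ b, s b = 0 := by
        intro b
        have h1 : p b * (∑ b', (s b' : K) • p b') = (s b : K) • p b := by
          rw [Finset.mul_sum, Finset.sum_eq_single b]
          · rw [mul_smul_comm, D.id]
          · intro b' _ hb'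
            rw [mul_smul_comm, D.orth b b' (Ne.symm hb'), smul_zero]
          · intro h; exact absurd (Finset.mem_univ _) h
        rw [hzero, mul_zero] at h1
        have h2 := (smul_eq_zero.mp h1.symm).resolve_right (D.ne b)
        exact_mod_cast h2
      have hd0 : ∀ b, d b = 0 := fun b => (mul_eq_zero.mp (hs0 b)).resolve_right (hM0 b)
      have h3 := hsumk (fun b => (if b = b₀ then 1 else 0) - (if b = sb b₀ then 1 else 0))
      rw [h3]
      simp only [mul_sub, Finset.sum_sub_distrib, mul_ite, mul_one, mul_zero, Finset.sum_ite_eq',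
        Finset.mem_univ, if_true]
      have h4 := hd0 b₀
      simp only [d] at h4
      have h5 : (kk b₀ : K) - (kk (sb b₀) : K) = 0 := by exact_mod_cast h4
      exact h5
    · exact (tate_co ε T χ (((LinearMap.toMatrixAlgEquiv ε : Module.End K V ≃ₐ[K] Matrix _ _ K) :
        Module.End K V →* Matrix _ _ K).comp T) (fun γ => rfl) n i x hx).1
  have hQ0 : ∀ b, Q b = 0 := by
    intro b
    have h1 := hrel2 b
    rw [hcentral b] at h1
    exact (smul_eq_zero.mp h1.symm).resolve_left (hμK b)
  apply hbas.mem_divisorAlg D.orth T χ heq U D.comm n (2 * i) x hx.1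
  intro u v huv
  rw [hQ (blk u) (ε u) (ε (Sum.swap v)) (hbas.pe u) (by rw [huv]; exact hpcu v), hQ0, smul_zero]

end Pool.Agent.Lib.MP_640417_ag.Four
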